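import Pool.Agent.Lib.H21V.D0

set_option autoImplicit false

open CategoryTheory IsLocalRing
open Pool.Agent.Lib.Helper92 Pool.Agent.Lib.H44V

namespace Pool.Agent.H21V
universe u

variable {A : Type u} [CommRing A] {I : Ideal A} {n1 n2 n3 : ℕ}

/-- CHUNK A1 (M).  Existence of the products.
Proof.  (1) `m`.  For `i j : Fin n1` let `e_i := Pi.single i 1`, `f_i := F.d1 e_i`.  The vector
`v i j := f_i • e_j - f_j • e_i` has `F.d1 (v i j) = f_i f_j - f_j f_i = 0`; so `F.e1` gives
`μ i j` with `F.d2 (μ i j) = v i j` (`choose`).  Put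
`m a b := ∑ i, ∑ j, if i < j then (a i * b j - a j * b i) • μ i j else 0`
(bilinear: `LinearMap.mk₂ A` with `simp [Finset.sum_add_distrib, ...]`, or a finite sum of
`LinearMap.mk₂`-maps).  `m a a = 0`: every coefficient is `a i * a j - a j * a i = 0`.
`F.d2 (m a b) = ∑_{i<j} (a_i b_j - a_j b_i) • (f_i • e_j - f_j • e_i)`.  The right hand side `R` is
`∑_{i<j} (a_i b_j - a_j b_i) f_i e_j - ∑_{i<j} (a_i b_j - a_j b_i) f_j e_i`; exchange the names `i, j` in
the second sum: `= ∑_{i<j} (..) f_i e_j + ∑_{j<i} (a_i b_j - a_j b_i) f_i e_j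
= ∑_{i,j} (a_i b_j - a_j b_i) f_i e_j` (the diagonal terms are 0) `= F.d1 a • b - F.d1 b • a`, because
`F.d1 a = ∑ a_i f_i` (`LinearMap.pi_apply_eq_sum_univ` or `a = ∑ a_i • e_i`).
EASIER: prove the identity of the two bilinear maps of `(a, b)` on `a = e_p`, `b = e_q`
(`LinearMap.pi_ext'`, `LinearMap.ext_ring`), by the three cases `p < q`, `p = q`, `q < p`.
(2) `p`.  For `i : Fin n1`, `k : Fin n2`, `ε_k := Pi.single k 1`, the vector
`w i k := f_i • ε_k - m e_i (F.d2 ε_k)` satisfies `F.d2 (w i k) = f_i • F.d2 ε_k -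
(F.d1 e_i • F.d2 ε_k - F.d1 (F.d2 ε_k) • e_i) = 0` (by (1) and `F.z1`), so `F.e2` gives `ν i k` with
`F.d3 (ν i k) = w i k`.  `p a c := ∑ i, ∑ k, (a i * c k) • ν i k` (bilinear) and
`F.d3 (p a c) = ∑ a_i c_k • w i k = F.d1 a • c - m a (F.d2 c)` by bilinearity (again compare two
bilinear maps on the basis vectors). -/
theorem exists_prd (F : Res A I n1 n2 n3) : Nonempty (Prd F) := by
  classical
  set bs := Pi.basisFun A (Fin n1) with hbs
  set cs := Pi.basisFun A (Fin n2) with hcs
  have hv : ∀ i j : Fin n1, ∃ b, F.d2 b = F.d1 (bs i) • bs j - F.d1 (bs j) • bs i := by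
    intro i j
    apply F.e1
    rw [map_sub, map_smul, map_smul, smul_eq_mul, smul_eq_mul, mul_comm, sub_self]
  choose μ hμ using hv
  set B : (Fin n1 → A) →ₗ[A] (Fin n1 → A) →ₗ[A] (Fin n2 → A) :=
    bs.constr A (fun i => bs.constr A (fun j => if i < j then μ i j else 0)) with hB
  have hBb : ∀ i j, B (bs i) (bs j) = if i < j then μ i j else 0 := by
    intro i j
    rw [hB, Module.Basis.constr_basis, Module.Basis.constr_basis]
  set R : (Fin n1 → A) →ₗ[A] (Fin n1 → A) →ₗ[A] (Fin n1 → A) :=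
    LinearMap.mk₂ A (fun a b => F.d1 a • b - F.d1 b • a)
      (fun a a' b => by rw [map_add, add_smul, smul_add]; abel)
      (fun c a b => by rw [map_smul, smul_sub, smul_assoc, smul_comm (F.d1 b) c a])
      (fun a b b' => by rw [map_add, add_smul, smul_add]; abel)
      (fun c a b => by rw [map_smul, smul_sub, smul_assoc, smul_comm (F.d1 a) c b]) with hR
  have hRa : ∀ a b, R a b = F.d1 a • b - F.d1 b • a := fun a b => rfl
  have h1 : (B - B.flip).compr₂ F.d2 = R := by
    refine LinearMap.ext_basis bs bs fun i j => ?_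
    rw [LinearMap.compr₂_apply, LinearMap.sub_apply, LinearMap.sub_apply, LinearMap.flip_apply, hBb, hBb, hRa]
    rcases lt_trichotomy i j with h | h | h
    · rw [if_pos h, if_neg h.asymm, sub_zero, hμ]
    · rw [h, sub_self, map_zero, sub_self]
    · rw [if_pos h, if_neg h.asymm, zero_sub, map_neg, hμ, neg_sub]
  have dm : ∀ a b, F.d2 ((B - B.flip) a b) = F.d1 a • b - F.d1 b • a := by
    intro a b
    rw [← hRa, ← h1, LinearMap.compr₂_apply]
  have mm : ∀ a, (B - B.flip) a a = 0 := by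
    intro a
    rw [LinearMap.sub_apply, LinearMap.sub_apply, LinearMap.flip_apply, sub_self]
  generalize B - B.flip = m at dm mm
  have hw : ∀ (i : Fin n1) (k : Fin n2), ∃ c, F.d3 c = F.d1 (bs i) • cs k - m (bs i) (F.d2 (cs k)) := by
    intro i k
    apply F.e2
    rw [map_sub, map_smul, dm, F.z1, zero_smul, sub_zero, sub_self]
  choose ν hν using hw
  set P : (Fin n1 → A) →ₗ[A] (Fin n2 → A) →ₗ[A] (Fin n3 → A) :=
    bs.constr A (fun i => cs.constr A (fun k => ν i k)) with hP
  have hPb : ∀ i k, P (bs i) (cs k) = ν i k := by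
    intro i k
    rw [hP, Module.Basis.constr_basis, Module.Basis.constr_basis]
  set R' : (Fin n1 → A) →ₗ[A] (Fin n2 → A) →ₗ[A] (Fin n2 → A) :=
    LinearMap.mk₂ A (fun a c => F.d1 a • c - m a (F.d2 c))
      (fun a a' b => by rw [map_add, add_smul, map_add, LinearMap.add_apply]; abel)
      (fun c a b => by rw [map_smul, smul_sub, smul_assoc, map_smul, LinearMap.smul_apply])
      (fun a b b' => by rw [map_add, map_add, smul_add]; abel)
      (fun c a b => by rw [map_smul, map_smul, smul_sub, smul_comm (F.d1 a) c b]) with hR'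
  have hRa' : ∀ a c, R' a c = F.d1 a • c - m a (F.d2 c) := fun a b => rfl
  have h2 : P.compr₂ F.d3 = R' := by
    refine LinearMap.ext_basis bs cs fun i k => ?_
    rw [LinearMap.compr₂_apply, hPb, hRa', hν]
  exact ⟨⟨m, P, mm, dm, fun a c => by rw [← hRa', ← h2, LinearMap.compr₂_apply]⟩⟩

end Pool.Agent.H21V
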