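import Pool.Agent.Lib.H21V.D0

set_option autoImplicit false

open CategoryTheory IsLocalRing
open Pool.Agent.Lib.Helper92 Pool.Agent.Lib.H44V

namespace Pool.Agent.H21V
universe u

variable {A : Type u} [CommRing A] {I : Ideal A} {n1 n2 n3 : ℕ} {F : Res A I n1 n2 n3}

/- CHUNK A2 (S/M).  Eight short identities.  `F.d3` is injective: to prove `x = y` in `A^n3` it is
enough to prove `F.d3 x = F.d3 y` (`F.e3 (x - y)`); use `P.dp`, `P.dm`, `P.mm`, `F.z1`, `F.z2`. -/

theorem a2_inj {x y : Fin n3 → A} (h : F.d3 x = F.d3 y) : x = y :=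
  sub_eq_zero.1 (F.e3 _ (by rw [map_sub, h, sub_self]))

/-- `m (a+b) (a+b) = 0`. -/
theorem Prd.m_skew (P : Prd F) (a b : Fin n1 → A) : P.m b a = - P.m a b := by
  have h := P.mm (a + b)
  rw [map_add, map_add, LinearMap.add_apply, LinearMap.add_apply, P.mm, P.mm, zero_add, add_zero] at h
  exact eq_neg_of_add_eq_zero_left h

/-- `d3 (p a (d3 c)) = d1 a • d3 c - m a (d2 (d3 c)) = d3 (d1 a • c)`. -/
theorem Prd.p_d3 (P : Prd F) (a : Fin n1 → A) (c : Fin n3 → A) : P.p a (F.d3 c) = F.d1 a • c := by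
  apply a2_inj (F := F)
  rw [P.dp, F.z2, map_zero, sub_zero, map_smul]

/-- `d3 (T a a c) = d1 a • m a c - m a (d1 a • c - d1 c • a) = d1 c • m a a = 0`. -/
theorem Prd.T12 (P : Prd F) (a c : Fin n1 → A) : P.T a a c = 0 := by
  apply a2_inj (F := F)
  unfold Prd.T
  rw [P.dp, P.dm, map_sub, map_smul, map_smul, P.mm, smul_zero, sub_zero, sub_self, map_zero]

/-- `m b b = 0`. -/
theorem Prd.T23 (P : Prd F) (a b : Fin n1 → A) : P.T a b b = 0 := by
  unfold Prd.T
  rw [P.mm, map_zero]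

/-- `T a b a = p a (m b a) = - p a (m a b) = - T a a b = 0`. -/
theorem Prd.T13 (P : Prd F) (a b : Fin n1 → A) : P.T a b a = 0 := by
  have h := P.T12 a b
  unfold Prd.T at h ⊢
  rw [P.m_skew a b, map_neg, h, neg_zero]

/-- `d3` of the left side: `0 • _ - m (d2 b') (d1 b • c - d1 c • b) =
- d1 b • m (d2 b') c + d1 c • m (d2 b') b`.  `d3 (p c b') = d1 c • b' - m c (d2 b') =
d1 c • b' + m (d2 b') c`, the same for `b`: `d3` of the right side is
`- d1 b • (d1 c • b' + m (d2 b') c) + d1 c • (d1 b • b' + m (d2 b') b)`: equal. -/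
theorem Prd.T_d2 (P : Prd F) (b' : Fin n2 → A) (b c : Fin n1 → A) :
    P.T (F.d2 b') b c = - (F.d1 b • P.p c b') + F.d1 c • P.p b b' := by
  apply a2_inj (F := F)
  unfold Prd.T
  rw [P.dp, P.dm, F.z1, zero_smul, zero_sub, map_sub, map_smul, map_smul, map_add, map_neg, map_smul,
    map_smul, P.dp, P.dp, P.m_skew (F.d2 b') c, P.m_skew (F.d2 b') b]
  module

/-- `d3 (p (d2 c) c') = d1 (d2 c) • c' - m (d2 c) (d2 c') = - m (d2 c) (d2 c')`, which is skew. -/
theorem Prd.p_skew (P : Prd F) (c c' : Fin n2 → A) : P.p (F.d2 c) c' = - P.p (F.d2 c') c := by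
  apply a2_inj (F := F)
  rw [map_neg, P.dp, P.dp, F.z1, F.z1, zero_smul, zero_smul, zero_sub, zero_sub, P.m_skew (F.d2 c) (F.d2 c'), neg_neg]

/-- the same with `m (d2 c) (d2 c) = 0`. -/
theorem Prd.p_alt (P : Prd F) (c : Fin n2 → A) : P.p (F.d2 c) c = 0 := by
  apply a2_inj (F := F)
  rw [P.dp, F.z1, zero_smul, zero_sub, P.mm, neg_zero, map_zero]

end Pool.Agent.H21V
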