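import Pool.Agent.Lib.H21V.A2

set_option autoImplicit false

open CategoryTheory IsLocalRing
open Pool.Agent.Lib.Helper92 Pool.Agent.Lib.H44V

namespace Pool.Agent.H21V
universe u

variable {A : Type u} [CommRing A] {I : Ideal A} {n1 n2 n3 : ℕ} {F : Res A I n1 n2 n3}

/-- CHUNK A3 (M).  The triple product as an alternating map.
Proof.  Define a `MultilinearMap` with `toFun a := P.T (a 0) (a 1) (a 2)`; `map_update_add'` and
`map_update_smul'`: `fin_cases i` and `simp [Function.update, Prd.T]` (`P.p`, `P.m` are linear in
both variables).  `map_eq_zero_of_eq'`: `v i = v j`, `i ≠ j`; the six cases reduce by `T12`, `T23`, `T13`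
(for instance `i = 0, j = 1`: `T (v 0) (v 0) (v 2) = 0`; `i = 0, j = 2`: `T (v 0) (v 1) (v 0) = 0`). -/
theorem Prd.exists_alt (P : Prd F) : ∃ τ : (Fin n1 → A) [⋀^Fin 3]→ₗ[A] (Fin n3 → A),
    ∀ a, τ a = P.T (a 0) (a 1) (a 2) := by
  have hadd : ∀ [inst : DecidableEq (Fin 3)] (v : Fin 3 → (Fin n1 → A)) (i : Fin 3)
      (x y : Fin n1 → A),
      P.T (Function.update v i (x + y) 0) (Function.update v i (x + y) 1)
        (Function.update v i (x + y) 2) =
      P.T (Function.update v i x 0) (Function.update v i x 1) (Function.update v i x 2) +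
      P.T (Function.update v i y 0) (Function.update v i y 1) (Function.update v i y 2) := by
    intro inst v i x y
    obtain rfl : inst = instDecidableEqFin 3 := Subsingleton.elim _ _
    fin_cases i <;> simp [Function.update, Prd.T]
  have hsmul : ∀ [inst : DecidableEq (Fin 3)] (v : Fin 3 → (Fin n1 → A)) (i : Fin 3)
      (c : A) (x : Fin n1 → A),
      P.T (Function.update v i (c • x) 0) (Function.update v i (c • x) 1)
        (Function.update v i (c • x) 2) =
      c • P.T (Function.update v i x 0) (Function.update v i x 1) (Function.update v i x 2) := by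
    intro inst v i c x
    obtain rfl : inst = instDecidableEqFin 3 := Subsingleton.elim _ _
    fin_cases i <;> simp [Function.update, Prd.T]
  have halt : ∀ (v : Fin 3 → (Fin n1 → A)) (i j : Fin 3), v i = v j → i ≠ j →
      P.T (v 0) (v 1) (v 2) = 0 := by
    intro v i j hv hij
    fin_cases i <;> fin_cases j <;> simp at hij hv
    · rw [← hv]; exact P.T12 _ _
    · rw [← hv]; exact P.T13 _ _
    · rw [hv]; exact P.T12 _ _
    · rw [← hv]; exact P.T23 _ _
    · rw [hv]; exact P.T13 _ _
    · rw [hv]; exact P.T23 _ _
  exact ⟨{ toFun := fun a => P.T (a 0) (a 1) (a 2)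
           map_update_add' := hadd
           map_update_smul' := hsmul
           map_eq_zero_of_eq' := halt }, fun a => rfl⟩

end Pool.Agent.H21V
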