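import Pool.Agent.Lib.H21V.D0

set_option autoImplicit false

open CategoryTheory IsLocalRing
open Pool.Agent.Lib.Helper92 Pool.Agent.Lib.H44V

namespace Pool.Agent.H21V
universe u

variable {S : Type u} [CommRing S]

theorem b1_io_smul (P : Ideal S) [P.IsPrime] {n : ℕ} (t : S) (a : Fin n → S) :
    io P (t • a) = algebraMap S (Localization.AtPrime P) t • io P a := by
  funext i
  simp only [io, Pi.smul_apply, smul_eq_mul, map_mul]

theorem b1_unit (P : Ideal S) [P.IsPrime] {s : S} (hs : s ∈ P.primeCompl) :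
    IsUnit (algebraMap S (Localization.AtPrime P) s) :=
  IsLocalization.map_units (Localization.AtPrime P) (⟨s, hs⟩ : P.primeCompl)

theorem b1_den (P : Ideal S) [P.IsPrime] {n : ℕ} (a : Fin n → Localization.AtPrime P) :
    ∃ s ∈ P.primeCompl, ∃ a₀ : Fin n → S, algebraMap S (Localization.AtPrime P) s • a = io P a₀ := by
  obtain ⟨s, hs⟩ := IsLocalization.exist_integer_multiples_of_finite P.primeCompl a
  choose a₀ ha₀ using hs
  refine ⟨s, s.2, a₀, ?_⟩
  funext i
  rw [Pi.smul_apply, smul_eq_mul, io, ha₀ i, Algebra.smul_def]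

theorem b1_van (P : Ideal S) [P.IsPrime] {n : ℕ} (a₀ : Fin n → S) (h : io P a₀ = 0) :
    ∃ t ∈ P.primeCompl, t • a₀ = 0 := by
  have h1 : ∀ i, ∃ m : P.primeCompl, (m : S) * a₀ i = 0 := by
    intro i
    have h2 : algebraMap S (Localization.AtPrime P) (a₀ i) = 0 := congrFun h i
    exact (IsLocalization.map_eq_zero_iff P.primeCompl (Localization.AtPrime P) (a₀ i)).1 h2
  choose m hm using h1
  refine ⟨∏ i, (m i : S), Submonoid.prod_mem _ fun i _ => (m i).2, ?_⟩
  funext i
  rw [Pi.smul_apply, smul_eq_mul, Pi.zero_apply, ← Finset.prod_erase_mul Finset.univ _ (Finset.mem_univ i), mul_assoc, hm i, mul_zero]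

theorem b1_lo (P : Ideal S) [P.IsPrime] {n k : ℕ} (φ : (Fin n → S) →ₗ[S] (Fin k → S)) :
    ∃ φ' : (Fin n → Localization.AtPrime P) →ₗ[Localization.AtPrime P] (Fin k → Localization.AtPrime P),
      ∀ a, φ' (io P a) = io P (φ a) := by
  refine ⟨Matrix.toLin' ((LinearMap.toMatrix' φ).map (algebraMap S (Localization.AtPrime P))), fun a => ?_⟩
  funext i
  have h := RingHom.map_mulVec (algebraMap S (Localization.AtPrime P)) (LinearMap.toMatrix' φ) a i
  rw [LinearMap.toMatrix'_mulVec] at h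
  rw [Matrix.toLin'_apply]
  exact h.symm

theorem b1_lo1 (P : Ideal S) [P.IsPrime] {n : ℕ} (φ : (Fin n → S) →ₗ[S] S) :
    ∃ φ' : (Fin n → Localization.AtPrime P) →ₗ[Localization.AtPrime P] Localization.AtPrime P,
      (∀ a, φ' (io P a) = algebraMap S (Localization.AtPrime P) (φ a)) ∧
      ∀ a, φ' a = ∑ i, a i * algebraMap S (Localization.AtPrime P) (φ (Pi.single i 1)) := by
  refine ⟨Fintype.linearCombination (Localization.AtPrime P) (fun i => algebraMap S (Localization.AtPrime P) (φ (Pi.single i 1))), fun a => ?_,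
    fun a => ?_⟩
  · rw [Fintype.linearCombination_apply]
    have h : φ a = ∑ i, a i * φ (Pi.single i 1) := by
      conv_lhs => rw [← Finset.univ_sum_single a]
      rw [map_sum]
      refine Finset.sum_congr rfl fun i _ => ?_
      have e : (Pi.single i (a i) : Fin n → S) = a i • Pi.single i 1 := by
        rw [← Pi.single_smul, smul_eq_mul, mul_one]
      rw [e, map_smul, smul_eq_mul]
    rw [h, map_sum]
    refine Finset.sum_congr rfl fun i _ => ?_
    rw [map_mul, smul_eq_mul, io]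
  · rw [Fintype.linearCombination_apply]
    rfl

/-- CHUNK B1 (M).  Localization of a resolution at a prime.
Proof.  Let `B := Localization.AtPrime P`, `ι := algebraMap S B`, `io P a = ι ∘ a`.  For a linear map
`φ : (Fin n → S) →ₗ[S] (Fin k → S)` put `φ' := Matrix.toLin' ((LinearMap.toMatrix' φ).map ι)`; then
`φ' (io P a) = io P (φ a)` (`Matrix.toLin'_apply`, `RingHom.map_mulVec`, `LinearMap.toMatrix'_mulVec`).
For `d1 : (Fin n1 → S) →ₗ[S] S` put `d1' a := ∑ i, a i * ι (F.d1 (Pi.single i 1))`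
(`F.d1 a = ∑ a i * F.d1 (Pi.single i 1)`).  Clearing denominators: for every `a : Fin n → B` there are
`s ∉ P` and `a₀ : Fin n → S` with `ι s • a = io P a₀` (`IsLocalization.exist_integer_multiples_of_finite`
with `P.primeCompl`, or a product of the denominators); and `ι x = 0` implies `t * x = 0` for some
`t ∉ P` (`IsLocalization.map_eq_zero_iff`); for a vector take the product of the `t`.
`hr`: `range d1' = I.map ι`: `⊆`: each `ι (F.d1 e_i) ∈ I.map ι`; `⊇`: `I.map ι` is spanned by `ι y`,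
`y = F.d1 a ∈ I`, `ι y = d1' (io P a)`.  `z1, z2`: check on `io P b₀` after multiplication by the unit
`ι s` (or: two linear maps which agree on `Pi.single`).
`e1`: `d1' a = 0`, `ι s • a = io P a₀`: `ι (F.d1 a₀) = d1' (ι s • a) = 0`, so `t * F.d1 a₀ = 0`, `t ∉ P`,
`F.d1 (t • a₀) = 0`, so `t • a₀ = F.d2 b₀`, `io P (F.d2 b₀) = ι t • ι s • a` and `ι t`, `ι s` are units:
`a = d2' ((ι t * ι s)⁻¹ • io P b₀)`.  `e2` the same.  `e3`: `d3' c = 0`, `ι s • c = io P c₀`:
`io P (F.d3 c₀) = 0`, `t • F.d3 c₀ = 0`, `t • c₀ = 0`, so `io P c₀ = 0` (unit `ι t`), `c = 0`. -/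
theorem exists_loc (P : Ideal S) [P.IsPrime] {I : Ideal S} {n1 n2 n3 : ℕ}
    (F : Res S I n1 n2 n3) :
    ∃ F' : Res (Localization.AtPrime P) (I.map (algebraMap S (Localization.AtPrime P))) n1 n2 n3,
      IsLoc P F F' := by
  obtain ⟨d1', h1, h1'⟩ := b1_lo1 P F.d1
  obtain ⟨d2', h2⟩ := b1_lo P F.d2
  obtain ⟨d3', h3⟩ := b1_lo P F.d3
  have hr : LinearMap.range d1' = I.map (algebraMap S (Localization.AtPrime P)) := by
    refine le_antisymm ?_ ?_
    · rintro _ ⟨a, rfl⟩
      rw [h1']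
      exact Ideal.sum_mem _ fun i _ => Ideal.mul_mem_left _ _ (Ideal.mem_map_of_mem _ (F.hr.le ⟨_, rfl⟩))
    · rw [Ideal.map_le_iff_le_comap]
      intro y hy
      rw [← F.hr] at hy
      obtain ⟨a, rfl⟩ := hy
      exact ⟨io P a, h1 a⟩
  have z1 : ∀ b, d1' (d2' b) = 0 := by
    intro b
    obtain ⟨s, hs, b₀, hb⟩ := b1_den P b
    have e : algebraMap S (Localization.AtPrime P) s • d1' (d2' b) = 0 := by
      rw [← map_smul, ← map_smul, hb, h2, h1, F.z1, map_zero]
    rwa [(b1_unit P hs).smul_eq_zero] at e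
  have z2 : ∀ c, d2' (d3' c) = 0 := by
    intro b
    obtain ⟨s, hs, b₀, hb⟩ := b1_den P b
    have e : algebraMap S (Localization.AtPrime P) s • d2' (d3' b) = 0 := by
      rw [← map_smul, ← map_smul, hb, h3, h2, F.z2]
      funext i
      simp [io]
    rwa [(b1_unit P hs).smul_eq_zero] at e
  have hinv : ∀ {n k : ℕ} (φ' : (Fin n → Localization.AtPrime P) →ₗ[Localization.AtPrime P] (Fin k → Localization.AtPrime P))
      (b : Fin n → Localization.AtPrime P) (a : Fin k → Localization.AtPrime P) {u : Localization.AtPrime P},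
      IsUnit u → φ' b = u • a → ∃ b', φ' b' = a := by
    intro n k φ' b a u hu h
    obtain ⟨v, rfl⟩ := hu
    exact ⟨((v⁻¹ : (Localization.AtPrime P)ˣ) : Localization.AtPrime P) • b, by
      rw [map_smul, h, smul_smul, Units.inv_mul, one_smul]⟩
  have e1 : ∀ a, d1' a = 0 → ∃ b, d2' b = a := by
    intro a ha
    obtain ⟨s, hs, a₀, hsa⟩ := b1_den P a
    have e : algebraMap S (Localization.AtPrime P) (F.d1 a₀) = 0 := by
      rw [← h1, ← hsa, map_smul, ha, smul_zero]
    obtain ⟨t, ht⟩ := (IsLocalization.map_eq_zero_iff P.primeCompl (Localization.AtPrime P) (F.d1 a₀)).1 e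
    obtain ⟨b₀, hb₀⟩ := F.e1 ((t : S) • a₀) (by rw [map_smul, smul_eq_mul]; exact ht)
    refine hinv d2' (io P b₀) a ((b1_unit P t.2).mul (b1_unit P hs)) ?_
    rw [h2, hb₀, b1_io_smul, ← hsa, smul_smul]
  have e2 : ∀ b, d2' b = 0 → ∃ c, d3' c = b := by
    intro a ha
    obtain ⟨s, hs, a₀, hsa⟩ := b1_den P a
    have e : io P (F.d2 a₀) = 0 := by
      rw [← h2, ← hsa, map_smul, ha, smul_zero]
    obtain ⟨t, ht, ht0⟩ := b1_van P _ e
    obtain ⟨b₀, hb₀⟩ := F.e2 (t • a₀) (by rw [map_smul]; exact ht0)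
    refine hinv d3' (io P b₀) a ((b1_unit P ht).mul (b1_unit P hs)) ?_
    rw [h3, hb₀, b1_io_smul, ← hsa, smul_smul]
  have e3 : ∀ c, d3' c = 0 → c = 0 := by
    intro a ha
    obtain ⟨s, hs, a₀, hsa⟩ := b1_den P a
    have e : io P (F.d3 a₀) = 0 := by
      rw [← h3, ← hsa, map_smul, ha, smul_zero]
    obtain ⟨t, ht, ht0⟩ := b1_van P _ e
    have e4 : t • a₀ = 0 := F.e3 _ (by rw [map_smul]; exact ht0)
    have e5 : algebraMap S (Localization.AtPrime P) t • io P a₀ = 0 := by
      rw [← b1_io_smul, e4]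
      funext i
      simp [io]
    rw [(b1_unit P ht).smul_eq_zero, ← hsa, (b1_unit P hs).smul_eq_zero] at e5
    exact e5
  exact ⟨⟨d1', d2', d3', hr, z1, z2, e1, e2, e3⟩, ⟨h1, h2, h3⟩⟩

end Pool.Agent.H21V
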