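import Pool.Agent.Lib.H21V.D0

set_option autoImplicit false

open CategoryTheory IsLocalRing
open Pool.Agent.Lib.Helper92 Pool.Agent.Lib.H44V

namespace Pool.Agent.H21V
universe u

variable {S : Type u} [CommRing S]

theorem b2_io_smul (P : Ideal S) [P.IsPrime] {n : ℕ} (t : S) (a : Fin n → S) :
    io P (t • a) = algebraMap S (Localization.AtPrime P) t • io P a := by
  funext i
  simp only [io, Pi.smul_apply, smul_eq_mul, map_mul]

theorem b2_io_zero (P : Ideal S) [P.IsPrime] {n : ℕ} : io P (0 : Fin n → S) = 0 := by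
  funext i
  simp only [io, Pi.zero_apply, map_zero]

theorem b2_io_sub (P : Ideal S) [P.IsPrime] {n : ℕ} (a b : Fin n → S) :
    io P (a - b) = io P a - io P b := by
  funext i
  simp only [io, Pi.sub_apply, map_sub]

theorem b2_io_sum (P : Ideal S) [P.IsPrime] {n : ℕ} {α : Type*} (s : Finset α) (a : α → Fin n → S) :
    io P (∑ j ∈ s, a j) = ∑ j ∈ s, io P (a j) := by
  funext i
  simp only [io, Finset.sum_apply, map_sum]

theorem b2_unit (P : Ideal S) [P.IsPrime] {s : S} (hs : s ∈ P.primeCompl) :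
    IsUnit (algebraMap S (Localization.AtPrime P) s) :=
  IsLocalization.map_units (Localization.AtPrime P) (⟨s, hs⟩ : P.primeCompl)

theorem b2_den (P : Ideal S) [P.IsPrime] {n : ℕ} (a : Fin n → Localization.AtPrime P) :
    ∃ s ∈ P.primeCompl, ∃ a₀ : Fin n → S, algebraMap S (Localization.AtPrime P) s • a = io P a₀ := by
  obtain ⟨s, hs⟩ := IsLocalization.exist_integer_multiples_of_finite P.primeCompl a
  choose a₀ ha₀ using hs
  refine ⟨s, s.2, a₀, ?_⟩
  funext i
  rw [Pi.smul_apply, smul_eq_mul, io, ha₀ i, Algebra.smul_def]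

theorem b2_sum {n k : ℕ} {A : Type*} [CommRing A] {M : Type*} [AddCommGroup M] [Module A M]
    (μ : (Fin n → A) →ₗ[A] (Fin k → A) →ₗ[A] M) (a : Fin n → A) (b : Fin k → A) :
    μ a b = ∑ i, ∑ j, (a i * b j) • μ (Pi.single i 1) (Pi.single j 1) := by
  have h : ∀ {m : ℕ} (v : Fin m → A), v = ∑ i, v i • (Pi.single i 1 : Fin m → A) := by
    intro m v
    conv_lhs => rw [← Finset.univ_sum_single v]
    refine Finset.sum_congr rfl fun i _ => ?_
    rw [← Pi.single_smul, smul_eq_mul, mul_one]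
  have e1 : μ a b = ∑ i, a i • μ (Pi.single i 1) b := by
    conv_lhs => rw [h a]
    rw [map_sum μ, LinearMap.sum_apply]
    refine Finset.sum_congr rfl fun i _ => ?_
    rw [map_smul, LinearMap.smul_apply]
  rw [e1]
  refine Finset.sum_congr rfl fun i _ => ?_
  conv_lhs => rw [h b]
  rw [map_sum, Finset.smul_sum]
  refine Finset.sum_congr rfl fun j _ => ?_
  rw [map_smul, smul_smul]

theorem b2_bil (P : Ideal S) [P.IsPrime] {n k l : ℕ} (μ : (Fin n → S) →ₗ[S] (Fin k → S) →ₗ[S] (Fin l → S)) :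
    ∃ μ' : (Fin n → Localization.AtPrime P) →ₗ[Localization.AtPrime P] (Fin k → Localization.AtPrime P) →ₗ[Localization.AtPrime P]
      (Fin l → Localization.AtPrime P), ∀ a b, μ' (io P a) (io P b) = io P (μ a b) := by
  refine ⟨LinearMap.mk₂ (Localization.AtPrime P)
    (fun a b => ∑ i, ∑ j, (a i * b j) • io P (μ (Pi.single i 1) (Pi.single j 1))) ?_ ?_ ?_ ?_, fun a b => ?_⟩
  · intro a a' b
    simp only [Pi.add_apply, add_mul, add_smul, Finset.sum_add_distrib]
  · intro c a b
    simp only [Pi.smul_apply, smul_eq_mul, Finset.smul_sum, smul_smul, mul_assoc]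
  · intro a b b'
    simp only [Pi.add_apply, mul_add, add_smul, Finset.sum_add_distrib]
  · intro c a b
    simp only [Pi.smul_apply, smul_eq_mul, Finset.smul_sum, smul_smul]
    refine Finset.sum_congr rfl fun i _ => Finset.sum_congr rfl fun j _ => ?_
    congr 1
    ring
  · rw [LinearMap.mk₂_apply, b2_sum μ a b, b2_io_sum]
    refine Finset.sum_congr rfl fun i _ => ?_
    rw [b2_io_sum]
    refine Finset.sum_congr rfl fun j _ => ?_
    rw [b2_io_smul, map_mul]
    rfl

/-- CHUNK B2 (S/M).  Localization of the products.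
Proof.  `B := Localization.AtPrime P`, `ι := algebraMap S B`.  Define
`m' a b := ∑ i, ∑ j, (a i * b j) • io P (Pr.m (Pi.single i 1) (Pi.single j 1))`,
`p' a c := ∑ i, ∑ k, (a i * c k) • io P (Pr.p (Pi.single i 1) (Pi.single k 1))` (bilinear).
`m' (io P a) (io P b) = io P (Pr.m a b)` because `Pr.m a b = ∑ i, ∑ j, (a i * b j) • Pr.m e_i e_j` and
`io P` is additive and `io P (s • v) = ι s • io P v`; the same for `p'`.
The laws `mm`, `dm`, `dp` for general `a, b, c` over `B`: choose `s ∉ P` with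
`ι s • a = io P a₀`, `ι s • b = io P b₀`, `ι s • c = io P c₀` (common denominator,
`IsLocalization.exist_integer_multiples_of_finite`); both sides of `dm`, `dp` are bilinear and of `mm`
quadratic, multiply by the unit `ι s * ι s`: the law for `a₀, b₀, c₀` and `h.h1`, `h.h2`, `h.h3` give it.
(Alternatively: `dm` and `dp` are identities of bilinear maps, check them on the basis vectors
`Pi.single i 1 = io P (Pi.single i 1)`; `mm`: check `m' e_i e_i = 0` and `m' e_i e_j = - m' e_j e_i`.) -/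
theorem exists_prd_loc (P : Ideal S) [P.IsPrime] {I : Ideal S} {n1 n2 n3 : ℕ}
    (F : Res S I n1 n2 n3)
    (F' : Res (Localization.AtPrime P) (I.map (algebraMap S (Localization.AtPrime P))) n1 n2 n3)
    (h : IsLoc P F F') (Pr : Prd F) :
    ∃ Pr' : Prd F', (∀ a b, Pr'.m (io P a) (io P b) = io P (Pr.m a b)) ∧
      (∀ a c, Pr'.p (io P a) (io P c) = io P (Pr.p a c)) ∧
      ∀ a b c, Pr'.T (io P a) (io P b) (io P c) = io P (Pr.T a b c) := by
  obtain ⟨m', hm⟩ := b2_bil P Pr.m
  obtain ⟨p', hp⟩ := b2_bil P Pr.p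
  have mm : ∀ a, m' a a = 0 := by
    intro a
    obtain ⟨s, hs, a₀, ha⟩ := b2_den P a
    have e := hm a₀ a₀
    rw [← ha, Pr.mm, b2_io_zero, map_smul, map_smul, LinearMap.smul_apply, (b2_unit P hs).smul_eq_zero,
      (b2_unit P hs).smul_eq_zero] at e
    exact e
  have dm : ∀ a b, F'.d2 (m' a b) = F'.d1 a • b - F'.d1 b • a := by
    intro a b
    obtain ⟨s, hs, a₀, ha⟩ := b2_den P a
    obtain ⟨t, ht, b₀, hb⟩ := b2_den P b
    have e := congrArg (fun v => F'.d2 v) (hm a₀ b₀)
    have e2 : F'.d2 (m' (io P a₀) (io P b₀)) = F'.d1 (io P a₀) • io P b₀ - F'.d1 (io P b₀) • io P a₀ := by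
      rw [e, h.h2, Pr.dm, b2_io_sub, b2_io_smul, b2_io_smul, h.h1, h.h1]
    rw [← ha, ← hb] at e2
    simp only [map_smul, LinearMap.smul_apply, smul_eq_mul] at e2
    have e3 : (algebraMap S (Localization.AtPrime P) s * algebraMap S (Localization.AtPrime P) t) •
        (F'.d2 (m' a b) - (F'.d1 a • b - F'.d1 b • a)) = 0 := by
      rw [smul_sub, sub_eq_zero, smul_sub, smul_smul, smul_smul]
      rw [smul_smul, smul_smul, smul_smul] at e2
      refine Eq.trans ?_ (e2.trans ?_)
      · rw [mul_comm]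
      · congr 1
        · congr 1; ring
        · congr 1; ring
    rw [((b2_unit P hs).mul (b2_unit P ht)).smul_eq_zero, sub_eq_zero] at e3
    exact e3
  have dp : ∀ a c, F'.d3 (p' a c) = F'.d1 a • c - m' a (F'.d2 c) := by
    intro a b
    obtain ⟨s, hs, a₀, ha⟩ := b2_den P a
    obtain ⟨t, ht, b₀, hb⟩ := b2_den P b
    have e := congrArg (fun v => F'.d3 v) (hp a₀ b₀)
    have e2 : F'.d3 (p' (io P a₀) (io P b₀)) = F'.d1 (io P a₀) • io P b₀ - m' (io P a₀) (F'.d2 (io P b₀)) := by
      rw [e, h.h3, Pr.dp, b2_io_sub, b2_io_smul, h.h1, h.h2, hm]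
    rw [← ha, ← hb] at e2
    simp only [map_smul, LinearMap.smul_apply, smul_eq_mul] at e2
    have e3 : (algebraMap S (Localization.AtPrime P) s * algebraMap S (Localization.AtPrime P) t) •
        (F'.d3 (p' a b) - (F'.d1 a • b - m' a (F'.d2 b))) = 0 := by
      rw [smul_sub, sub_eq_zero, smul_sub, smul_smul]
      rw [smul_smul, smul_smul, smul_smul] at e2
      refine Eq.trans ?_ (e2.trans ?_)
      · rw [mul_comm]
      · congr 1
        · congr 1; ring
        · congr 1; ring
    rw [((b2_unit P hs).mul (b2_unit P ht)).smul_eq_zero, sub_eq_zero] at e3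
    exact e3
  refine ⟨⟨m', p', mm, dm, dp⟩, hm, hp, fun a b c => ?_⟩
  change p' (io P a) (m' (io P b) (io P c)) = io P (Pr.p a (Pr.m b c))
  rw [hm, hp]

end Pool.Agent.H21V
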