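import Pool.Agent.Lib.H21V.D0

set_option autoImplicit false

open CategoryTheory IsLocalRing
open Pool.Agent.Lib.Helper92 Pool.Agent.Lib.H44V

namespace Pool.Agent.H21V
universe u

variable {A : Type u} [CommRing A]

/- CHUNK C1 (S/M, three lemmas).  The Koszul complex of a regular sequence `x 0, x 1, x 2`.
`Jx x 0 = ⊥`, `Jx x (j+1) = Jx x j ⊔ span {x j}` (definition in Helper92/ExtLift), `mem_sup_span`,
`IsSMulRegular (A ⧸ Jx x j) (x j)` means: `x j * a ∈ Jx x j → a ∈ Jx x j` (`Pool.Agent.Lib.H44V.R1_reg_iff`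
in H44V/R1, or unfold). -/

theorem c1_reg {J : Ideal A} {x : A} (h : IsSMulRegular (A ⧸ J) x) {a : A} (ha : x * a ∈ J) : a ∈ J := by
  rw [isSMulRegular_iff_right_eq_zero_of_smul] at h
  have := h (Submodule.Quotient.mk a) (by
    rw [← Submodule.Quotient.mk_smul, Submodule.Quotient.mk_eq_zero]; exact ha)
  rwa [Submodule.Quotient.mk_eq_zero] at this

theorem c1_j1 (x : ℕ → A) {y : A} (h : y ∈ Jx x 1) : ∃ c, y = c * x 0 := by
  obtain ⟨c, hc⟩ := mem_sup_span h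
  refine ⟨c, ?_⟩
  have h0 : y - c * x 0 = 0 := hc
  linear_combination h0

theorem c1_j2 (x : ℕ → A) {y : A} (h : y ∈ Jx x 2) : ∃ c d, y = c * x 0 + d * x 1 := by
  obtain ⟨d, hd⟩ := mem_sup_span h
  obtain ⟨c, hc⟩ := c1_j1 x hd
  exact ⟨c, d, by linear_combination hc⟩

theorem c1_m0 (x : ℕ → A) (c : A) : c * x 0 ∈ Jx x 1 :=
  Ideal.mem_sup_right (Ideal.mul_mem_left _ _ (Ideal.mem_span_singleton_self _))

theorem c1_m1 (x : ℕ → A) (c d : A) : c * x 0 + d * x 1 ∈ Jx x 2 :=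
  Ideal.add_mem _ (Ideal.mem_sup_left (c1_m0 x c)) (Ideal.mem_sup_right (Ideal.mul_mem_left _ _ (Ideal.mem_span_singleton_self _)))

/-- Proof.  `x 2 * a 2 = -(a 0 * x 0 + a 1 * x 1) ∈ Jx x 2`, so `a 2 ∈ Jx x 2`:
`a 2 = x 0 * w 1 - x 1 * w 0`.  Then `x 0 * (a 0 + x 2 * w 1) + x 1 * (a 1 - x 2 * w 0) = 0`, so
`a 1 - x 2 * w 0 ∈ Jx x 1`: `= - x 0 * w 2`, and `x 0 * (a 0 + x 2 * w 1) = x 0 * (x 1 * w 2)`, cancel `x 0`. -/
theorem kos1 (x : ℕ → A) (h : ∀ j < 3, IsSMulRegular (A ⧸ Jx x j) (x j)) (a : Fin 3 → A)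
    (ha : a 0 * x 0 + a 1 * x 1 + a 2 * x 2 = 0) : ∃ w : Fin 3 → A,
      a 0 = x 1 * w 2 - x 2 * w 1 ∧ a 1 = x 2 * w 0 - x 0 * w 2 ∧ a 2 = x 0 * w 1 - x 1 * w 0 := by
  have h2 : a 2 ∈ Jx x 2 := by
    refine c1_reg (h 2 (by norm_num)) ?_
    have e : x 2 * a 2 = (-a 0) * x 0 + (-a 1) * x 1 := by linear_combination ha
    rw [e]
    exact c1_m1 x _ _
  obtain ⟨c, d, hcd⟩ := c1_j2 x h2
  have h1 : a 1 + x 2 * d ∈ Jx x 1 := by
    refine c1_reg (h 1 (by norm_num)) ?_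
    have e : x 1 * (a 1 + x 2 * d) = (-(a 0 + x 2 * c)) * x 0 := by linear_combination ha - x 2 * hcd
    rw [e]
    exact c1_m0 x _
  obtain ⟨e, he⟩ := c1_j1 x h1
  have h0 : a 0 + x 2 * c + x 1 * e ∈ Jx x 0 := by
    refine c1_reg (h 0 (by norm_num)) ?_
    have e' : x 0 * (a 0 + x 2 * c + x 1 * e) = 0 := by linear_combination ha - x 2 * hcd - x 1 * he
    rw [e']
    exact Ideal.zero_mem _
  have h0' : a 0 + x 2 * c + x 1 * e = 0 := h0
  refine ⟨![-d, c, -e], ?_, ?_, ?_⟩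
  · simp only [Matrix.cons_val_zero, Matrix.cons_val_one, Matrix.cons_val]
    linear_combination h0'
  · simp only [Matrix.cons_val_zero, Matrix.cons_val_one, Matrix.cons_val]
    linear_combination he
  · simp only [Matrix.cons_val_zero, Matrix.cons_val_one, Matrix.cons_val]
    linear_combination hcd

/-- Proof.  `x 1 * w 0 = x 0 * w 1` gives `w 0 ∈ (x 0)`: `w 0 = l x 0`; then `x 0 * (w 1 - l x 1) = 0`, so
`w 1 = l x 1`; `x 0 * w 2 = x 2 * w 0 = x 0 * (l x 2)`, so `w 2 = l x 2`. -/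
theorem kos2 (x : ℕ → A) (h : ∀ j < 3, IsSMulRegular (A ⧸ Jx x j) (x j)) (w : Fin 3 → A)
    (h0 : x 1 * w 2 - x 2 * w 1 = 0) (h1 : x 2 * w 0 - x 0 * w 2 = 0)
    (h2 : x 0 * w 1 - x 1 * w 0 = 0) : ∃ l : A, ∀ i : Fin 3, w i = l * x i := by
  have hw0 : w 0 ∈ Jx x 1 := by
    refine c1_reg (h 1 (by norm_num)) ?_
    have e : x 1 * w 0 = w 1 * x 0 := by linear_combination -h2
    rw [e]
    exact c1_m0 x _
  obtain ⟨l, hl⟩ := c1_j1 x hw0
  have hw1 : w 1 - l * x 1 ∈ Jx x 0 := by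
    refine c1_reg (h 0 (by norm_num)) ?_
    have e : x 0 * (w 1 - l * x 1) = 0 := by linear_combination h2 + x 1 * hl
    rw [e]
    exact Ideal.zero_mem _
  have hw1' : w 1 - l * x 1 = 0 := hw1
  have hw2 : w 2 - l * x 2 ∈ Jx x 0 := by
    refine c1_reg (h 0 (by norm_num)) ?_
    have e : x 0 * (w 2 - l * x 2) = 0 := by linear_combination -h1 + x 2 * hl
    rw [e]
    exact Ideal.zero_mem _
  have hw2' : w 2 - l * x 2 = 0 := hw2
  refine ⟨l, fun i => ?_⟩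
  fin_cases i
  · exact hl
  · change w 1 = l * x 1
    linear_combination hw1'
  · change w 2 = l * x 2
    linear_combination hw2'

/-- `x 0` is a non-zero-divisor. -/
theorem kos3 (x : ℕ → A) (h : ∀ j < 3, IsSMulRegular (A ⧸ Jx x j) (x j)) (l : A)
    (hl : l * x 0 = 0) : l = 0 := by
  have h0 : l ∈ Jx x 0 := by
    refine c1_reg (h 0 (by norm_num)) ?_
    rw [mul_comm, hl]
    exact Ideal.zero_mem _
  exact h0

end Pool.Agent.H21V
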