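import Pool.Agent.Lib.H21V.C1

set_option autoImplicit false

open CategoryTheory IsLocalRing
open Pool.Agent.Lib.Helper92 Pool.Agent.Lib.H44V

namespace Pool.Agent.H21V
universe u

variable {A : Type u} [CommRing A] {I : Ideal A} {n1 n2 n3 : ℕ}

/-- Lifts of the identity from a resolution to the Koszul complex of `x 0, x 1, x 2`. -/
structure Lft (F : Res A I n1 n2 n3) (x : ℕ → A) where
  ψ1 : (Fin n1 → A) →ₗ[A] (Fin 3 → A)
  ψ2 : (Fin n2 → A) →ₗ[A] (Fin 3 → A)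
  ψ3 : (Fin n3 → A) →ₗ[A] A
  l1 : ∀ a, F.d1 a = ψ1 a 0 * x 0 + ψ1 a 1 * x 1 + ψ1 a 2 * x 2
  l20 : ∀ b, ψ1 (F.d2 b) 0 = x 1 * ψ2 b 2 - x 2 * ψ2 b 1
  l21 : ∀ b, ψ1 (F.d2 b) 1 = x 2 * ψ2 b 0 - x 0 * ψ2 b 2
  l22 : ∀ b, ψ1 (F.d2 b) 2 = x 0 * ψ2 b 1 - x 1 * ψ2 b 0
  l3 : ∀ c (i : Fin 3), ψ2 (F.d3 c) i = ψ3 c * x i

theorem c2_j2 (x : ℕ → A) {y : A} (h : y ∈ Jx x 2) : ∃ c d, y = c * x 0 + d * x 1 := by
  obtain ⟨d, hd⟩ := mem_sup_span h
  obtain ⟨c, hc⟩ := mem_sup_span hd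
  have h0 : y - d * x 1 - c * x 0 = 0 := hc
  exact ⟨c, d, by linear_combination h0⟩

theorem c2_ext {n : ℕ} (f g : (Fin n → A) →ₗ[A] A) (h : ∀ i, f (Pi.single i 1) = g (Pi.single i 1))
    (a : Fin n → A) : f a = g a := by
  have : f = g := (Pi.basisFun A (Fin n)).ext fun i => by
    rw [Pi.basisFun_apply]; exact h i
  rw [this]

theorem c2_mk {n : ℕ} {M : Type*} [AddCommGroup M] [Module A M] (v : Fin n → M) :
    ∃ f : (Fin n → A) →ₗ[A] M, ∀ i, f (Pi.single i 1) = v i :=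
  ⟨(Pi.basisFun A (Fin n)).constr A v, fun i => by
    rw [← Pi.basisFun_apply A (Fin n) i, Module.Basis.constr_basis]⟩

/-- CHUNK C2 (M).
Proof.  A linear map out of `Fin n → A` is given by arbitrary values on `Pi.single i 1`
(`Fintype.linearCombination` / `(Pi.basisFun A _).constr A`), and an identity of linear maps may be checked
on `Pi.single i 1`.
`ψ1`: `F.d1 (e_i) ∈ I = Jx x 3`, so `F.d1 e_i = a_i0 x 0 + a_i1 x 1 + a_i2 x 2` (`mem_sup_span` three times,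
`Jx x 0 = ⊥`); `ψ1 e_i := a_i`.
`ψ2`: for the basis vector `ε_k` of `A^n2`: `ψ1 (F.d2 ε_k)` satisfies
`ψ1 (..) 0 * x 0 + .. = F.d1 (F.d2 ε_k) = 0`, `kos1` gives `w_k`; `ψ2 ε_k := w_k`.
`ψ3`: for the basis vector `η_l` of `A^n3`: `w := ψ2 (F.d3 η_l)` satisfies the three equations of `kos2`
because they equal `ψ1 (F.d2 (F.d3 η_l)) i = 0` (by l20, l21, l22); `kos2` gives `l`. -/
theorem exists_lft (F : Res A I n1 n2 n3) (x : ℕ → A)
    (h : ∀ j < 3, IsSMulRegular (A ⧸ Jx x j) (x j)) (hx : Jx x 3 = I) : Nonempty (Lft F x) := by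
  have h1 : ∀ i : Fin n1, ∃ v : Fin 3 → A, F.d1 (Pi.single i 1) = v 0 * x 0 + v 1 * x 1 + v 2 * x 2 := by
    intro i
    have e1 : F.d1 (Pi.single i 1) ∈ Jx x 3 := hx.symm.le (F.hr.le ⟨_, rfl⟩)
    obtain ⟨c, hc⟩ := mem_sup_span e1
    obtain ⟨a, b, hab⟩ := c2_j2 x hc
    exact ⟨![a, b, c], by
      simp only [Matrix.cons_val_zero, Matrix.cons_val_one, Matrix.cons_val]
      linear_combination hab⟩
  choose v hv using h1
  obtain ⟨ψ1, hψ1⟩ := c2_mk (A := A) v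
  have l1 : ∀ a, F.d1 a = ψ1 a 0 * x 0 + ψ1 a 1 * x 1 + ψ1 a 2 * x 2 := by
    intro a
    have := c2_ext F.d1 (x 0 • (LinearMap.proj 0 ∘ₗ ψ1) + x 1 • (LinearMap.proj 1 ∘ₗ ψ1) +
      x 2 • (LinearMap.proj 2 ∘ₗ ψ1)) (fun i => by
        rw [hv i]
        simp only [LinearMap.add_apply, LinearMap.smul_apply, LinearMap.comp_apply, LinearMap.proj_apply, hψ1, smul_eq_mul]
        ring) a
    rw [this]
    simp only [LinearMap.add_apply, LinearMap.smul_apply, LinearMap.comp_apply, LinearMap.proj_apply, smul_eq_mul]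
    ring
  have h2 : ∀ k : Fin n2, ∃ w : Fin 3 → A, ψ1 (F.d2 (Pi.single k 1)) 0 = x 1 * w 2 - x 2 * w 1 ∧
      ψ1 (F.d2 (Pi.single k 1)) 1 = x 2 * w 0 - x 0 * w 2 ∧ ψ1 (F.d2 (Pi.single k 1)) 2 = x 0 * w 1 - x 1 * w 0 := by
    intro k
    refine kos1 x h _ ?_
    rw [← l1, F.z1]
  choose w hw0 hw1 hw2 using h2
  obtain ⟨ψ2, hψ2⟩ := c2_mk (A := A) w
  have l20 : ∀ b, ψ1 (F.d2 b) 0 = x 1 * ψ2 b 2 - x 2 * ψ2 b 1 := by
    intro b
    have := c2_ext (LinearMap.proj 0 ∘ₗ ψ1 ∘ₗ F.d2) (x 1 • (LinearMap.proj 2 ∘ₗ ψ2) - x 2 • (LinearMap.proj 1 ∘ₗ ψ2))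
      (fun i => by
        simp only [LinearMap.sub_apply, LinearMap.smul_apply, LinearMap.comp_apply, LinearMap.proj_apply, hψ2, smul_eq_mul]
        exact hw0 i) b
    simpa only [LinearMap.sub_apply, LinearMap.smul_apply, LinearMap.comp_apply, LinearMap.proj_apply, smul_eq_mul] using this
  have l21 : ∀ b, ψ1 (F.d2 b) 1 = x 2 * ψ2 b 0 - x 0 * ψ2 b 2 := by
    intro b
    have := c2_ext (LinearMap.proj 1 ∘ₗ ψ1 ∘ₗ F.d2) (x 2 • (LinearMap.proj 0 ∘ₗ ψ2) - x 0 • (LinearMap.proj 2 ∘ₗ ψ2))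
      (fun i => by
        simp only [LinearMap.sub_apply, LinearMap.smul_apply, LinearMap.comp_apply, LinearMap.proj_apply, hψ2, smul_eq_mul]
        exact hw1 i) b
    simpa only [LinearMap.sub_apply, LinearMap.smul_apply, LinearMap.comp_apply, LinearMap.proj_apply, smul_eq_mul] using this
  have l22 : ∀ b, ψ1 (F.d2 b) 2 = x 0 * ψ2 b 1 - x 1 * ψ2 b 0 := by
    intro b
    have := c2_ext (LinearMap.proj 2 ∘ₗ ψ1 ∘ₗ F.d2) (x 0 • (LinearMap.proj 1 ∘ₗ ψ2) - x 1 • (LinearMap.proj 0 ∘ₗ ψ2))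
      (fun i => by
        simp only [LinearMap.sub_apply, LinearMap.smul_apply, LinearMap.comp_apply, LinearMap.proj_apply, hψ2, smul_eq_mul]
        exact hw2 i) b
    simpa only [LinearMap.sub_apply, LinearMap.smul_apply, LinearMap.comp_apply, LinearMap.proj_apply, smul_eq_mul] using this
  have h3 : ∀ l : Fin n3, ∃ c : A, ∀ i : Fin 3, ψ2 (F.d3 (Pi.single l 1)) i = c * x i := by
    intro l
    refine kos2 x h _ ?_ ?_ ?_
    · rw [← l20, F.z2, map_zero, Pi.zero_apply]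
    · rw [← l21, F.z2, map_zero, Pi.zero_apply]
    · rw [← l22, F.z2, map_zero, Pi.zero_apply]
  choose c hc using h3
  obtain ⟨ψ3, hψ3⟩ := c2_mk (A := A) c
  refine ⟨⟨ψ1, ψ2, ψ3, l1, l20, l21, l22, fun d i => ?_⟩⟩
  have := c2_ext (LinearMap.proj i ∘ₗ ψ2 ∘ₗ F.d3) (x i • ψ3)
    (fun l => by
      simp only [LinearMap.smul_apply, LinearMap.comp_apply, LinearMap.proj_apply, hψ3, smul_eq_mul]
      rw [hc l i, mul_comm]) d
  simp only [LinearMap.smul_apply, LinearMap.comp_apply, LinearMap.proj_apply, smul_eq_mul] at this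
  rw [this, mul_comm]

end Pool.Agent.H21V
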