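import Pool.Agent.Lib.H21V.C2
import Pool.Agent.Lib.H21V.A2

set_option autoImplicit false

open CategoryTheory IsLocalRing
open Pool.Agent.Lib.Helper92 Pool.Agent.Lib.H44V

namespace Pool.Agent.H21V
universe u

variable {A : Type u} [CommRing A] {I : Ideal A} {n1 n2 n3 : ℕ}

theorem c3_lift {n : ℕ} {N M : Type u} [AddCommGroup N] [Module A N] [AddCommGroup M] [Module A M]
    (d : N →ₗ[A] M) (G : (Fin n → A) →ₗ[A] M) (hG : ∀ a, ∃ b, d b = G a) :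
    ∃ h : (Fin n → A) →ₗ[A] N, ∀ a, d (h a) = G a := by
  choose b hb using fun i : Fin n => hG (Pi.single i 1)
  refine ⟨(Pi.basisFun A (Fin n)).constr A b, ?_⟩
  have key : d ∘ₗ ((Pi.basisFun A (Fin n)).constr A b) = G := by
    apply (Pi.basisFun A (Fin n)).ext
    intro i
    rw [LinearMap.comp_apply, Module.Basis.constr_basis, hb, Pi.basisFun_apply]
  intro a
  exact LinearMap.congr_fun key a

/-- CHUNK C3 (M).  The composition resolution → Koszul → resolution is homotopic to the identity.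
Proof.  `h1`: for a basis vector `a = e_i` of `A^n1`:
`v := L.ψ1 a 0 • e 0 + L.ψ1 a 1 • e 1 + L.ψ1 a 2 • e 2 - a` has `F.d1 v = F.d1 a - F.d1 a = 0` (L.l1, he), so
`v = F.d2 b`; this gives a linear map `h1 : A^n1 → A^n2` with
`F.d2 (h1 a) = L.ψ1 a 0 • e 0 + L.ψ1 a 1 • e 1 + L.ψ1 a 2 • e 2 - a` for all `a` (values on basis vectors).
`φ2 w := - (w 0 • P.m (e 1) (e 2) + w 1 • P.m (e 2) (e 0) + w 2 • P.m (e 0) (e 1))`; by `P.dm` and `he`
`F.d2 (φ2 w) = - (w 0 • (x 1 • e 2 - x 2 • e 1) + w 1 • (x 2 • e 0 - x 0 • e 2) + w 2 • (x 0 • e 1 - x 1 • e 0))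
= (x 1 * w 2 - x 2 * w 1) • e 0 + (x 2 * w 0 - x 0 * w 2) • e 1 + (x 0 * w 1 - x 1 * w 0) • e 2`.
`h2`: for a basis vector `b` of `A^n2`: `v := φ2 (L.ψ2 b) - b - h1 (F.d2 b)` has
`F.d2 v = (L.ψ1 (F.d2 b) 0 • e 0 + ..) - F.d2 b - F.d2 (h1 (F.d2 b)) = 0` (L.l20, l21, l22 and the property of
`h1` at `F.d2 b`), so `v = F.d3 (h2 b)`; `h2` linear.
Result: `F.d3` of the difference: `F.d3 (c + h2 (F.d3 c)) = F.d3 c + φ2 (L.ψ2 (F.d3 c)) - F.d3 c -
h1 (F.d2 (F.d3 c)) = φ2 (ψ3 c • x) = - ψ3 c • (x 0 • m (e 1) (e 2) + x 1 • m (e 2) (e 0) + x 2 • m (e 0) (e 1))`,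
and `F.d3 (P.T (e 0) (e 1) (e 2)) = x 0 • m (e 1) (e 2) - m (e 0) (x 1 • e 2 - x 2 • e 1) =
x 0 • m (e 1) (e 2) + x 1 • m (e 2) (e 0) + x 2 • m (e 0) (e 1)` (`Prd.m_skew`).  `F.d3` is injective. -/
theorem hom_F (F : Res A I n1 n2 n3) (P : Prd F) (x : ℕ → A) (L : Lft F x)
    (e : Fin 3 → (Fin n1 → A)) (he : ∀ i, F.d1 (e i) = x i) :
    ∃ h2 : (Fin n2 → A) →ₗ[A] (Fin n3 → A), ∀ c,
      - (L.ψ3 c) • P.T (e 0) (e 1) (e 2) = c + h2 (F.d3 c) := by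
  classical
  -- the map `S w = w 0 • e 0 + w 1 • e 1 + w 2 • e 2`
  let S : (Fin 3 → A) →ₗ[A] (Fin n1 → A) :=
    (LinearMap.proj 0).smulRight (e 0) + (LinearMap.proj 1).smulRight (e 1)
      + (LinearMap.proj 2).smulRight (e 2)
  have hS : ∀ w, S w = w 0 • e 0 + w 1 • e 1 + w 2 • e 2 := fun w => rfl
  let φ2 : (Fin 3 → A) →ₗ[A] (Fin n2 → A) :=
    -((LinearMap.proj 0).smulRight (P.m (e 1) (e 2)) + (LinearMap.proj 1).smulRight (P.m (e 2) (e 0))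
      + (LinearMap.proj 2).smulRight (P.m (e 0) (e 1)))
  have hφ : ∀ w, φ2 w = -(w 0 • P.m (e 1) (e 2) + w 1 • P.m (e 2) (e 0) + w 2 • P.m (e 0) (e 1)) :=
    fun w => rfl
  have he0 := he 0
  have he1 := he 1
  have he2 := he 2
  simp only [Fin.val_zero, Fin.val_one, Fin.val_two] at he0 he1 he2
  obtain ⟨h1, hh1⟩ := c3_lift F.d2 (S ∘ₗ L.ψ1 - LinearMap.id) (by
    intro a
    apply F.e1
    rw [LinearMap.sub_apply, LinearMap.comp_apply, LinearMap.id_apply, hS, map_sub, map_add, map_add,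
      map_smul, map_smul, map_smul, he0, he1, he2, L.l1 a]
    simp only [smul_eq_mul]
    ring)
  have hd2φ : ∀ w, F.d2 (φ2 w) = (x 1 * w 2 - x 2 * w 1) • e 0 + (x 2 * w 0 - x 0 * w 2) • e 1
      + (x 0 * w 1 - x 1 * w 0) • e 2 := by
    intro w
    rw [hφ, map_neg, map_add, map_add, map_smul, map_smul, map_smul, P.dm, P.dm, P.dm, he0, he1, he2]
    module
  obtain ⟨h2, hh2⟩ := c3_lift F.d3 (φ2 ∘ₗ L.ψ2 - LinearMap.id - h1 ∘ₗ F.d2) (by
    intro b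
    apply F.e2
    rw [LinearMap.sub_apply, LinearMap.sub_apply, LinearMap.comp_apply, LinearMap.comp_apply,
      LinearMap.id_apply, map_sub, map_sub, hd2φ, hh1, LinearMap.sub_apply, LinearMap.comp_apply, hS,
      L.l20, L.l21, L.l22, LinearMap.id_apply]
    abel)
  refine ⟨h2, fun c => ?_⟩
  have hT : F.d3 (P.T (e 0) (e 1) (e 2)) = x 0 • P.m (e 1) (e 2) + x 1 • P.m (e 2) (e 0)
      + x 2 • P.m (e 0) (e 1) := by
    unfold Prd.T
    rw [P.dp, P.dm, he0, he1, he2, map_sub, map_smul, map_smul, P.m_skew (e 2) (e 0)]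
    module
  have h0 : F.d3 (- (L.ψ3 c) • P.T (e 0) (e 1) (e 2) - (c + h2 (F.d3 c))) = 0 := by
    rw [map_sub, map_smul, hT, map_add, hh2, LinearMap.sub_apply, LinearMap.sub_apply,
      LinearMap.comp_apply, LinearMap.comp_apply, LinearMap.id_apply, F.z2, map_zero, hφ, L.l3 c 0,
      L.l3 c 1, L.l3 c 2]
    simp only [Fin.val_zero, Fin.val_one, Fin.val_two]
    module
  exact sub_eq_zero.mp (F.e3 _ h0)

end Pool.Agent.H21V
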