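import Pool.Agent.Lib.H21V.C2
import Pool.Agent.Lib.H21V.A2

set_option autoImplicit false

open CategoryTheory IsLocalRing
open Pool.Agent.Lib.Helper92 Pool.Agent.Lib.H44V

namespace Pool.Agent.H21V
universe u

variable {A : Type u} [CommRing A] {I : Ideal A} {n1 n2 n3 : ℕ}

/-- CHUNK C4 (M).  The composition Koszul → resolution → Koszul is homotopic to the identity.
Proof.  Write `e0, e1, e2` for `e 0, e 1, e 2`.
(a) For `i : Fin 3` let `a := L.ψ1 (e i) - Pi.single i 1`.  `a 0 * x 0 + a 1 * x 1 + a 2 * x 2 =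
F.d1 (e i) - x i = 0` (L.l1), so `kos1` gives `u i : Fin 3 → A` with
`L.ψ1 (e i) = Pi.single i 1 + cross x (u i)`, where `cross x w := (x 1 * w 2 - x 2 * w 1,
x 2 * w 0 - x 0 * w 2, x 0 * w 1 - x 1 * w 0)`.
(b) `q 0 := - P.m e1 e2`, `q 1 := - P.m e2 e0`, `q 2 := - P.m e0 e1`.  `F.d2 (q 0) = x 2 • e1 - x 1 • e2` etc.
(P.dm), so `L.ψ1 (F.d2 (q 0)) = x 2 • L.ψ1 e1 - x 1 • L.ψ1 e2 = (x 2 • Pi.single 1 1 - x 1 • Pi.single 2 1) +
cross x (x 2 • u 1 - x 1 • u 2)` and the first bracket is `cross x (Pi.single 0 1)` = (0, x 2, - x 1).  By L.l2*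
it is also `cross x (L.ψ2 (q 0))`.  So `cross x (L.ψ2 (q 0) - Pi.single 0 1 - (x 2 • u 1 - x 1 • u 2)) = 0`, and
`kos2` gives `v 0` with `L.ψ2 (q 0) = Pi.single 0 1 + (x 2 • u 1 - x 1 • u 2) + v 0 • x`.  In the same way
`L.ψ2 (q 1) = Pi.single 1 1 + (x 0 • u 2 - x 2 • u 0) + v 1 • x`,
`L.ψ2 (q 2) = Pi.single 2 1 + (x 1 • u 0 - x 0 • u 1) + v 2 • x`.
(c) `F.d3 (P.T e0 e1 e2) = x 0 • m e1 e2 + x 1 • m e2 e0 + x 2 • m e0 e1 = -(x 0 • q 0 + x 1 • q 1 + x 2 • q 2)`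
(P.dp, P.dm, Prd.m_skew), so `L.ψ2 (F.d3 (T)) = - (x + 0 + (x 0 * v 0 + x 1 * v 1 + x 2 * v 2) • x)`: the `u` terms
cancel: `x 0 (x 2 u 1 - x 1 u 2) + x 1 (x 0 u 2 - x 2 u 0) + x 2 (x 1 u 0 - x 0 u 1) = 0`.  By L.l3 it is
`L.ψ3 T • x`; the coordinate 0 and `kos3` (cancel `x 0`) give
`L.ψ3 T = - (1 + x 0 * v 0 + x 1 * v 1 + x 2 * v 2)`, and `x i = F.d1 (e i) ∈ I`. -/
theorem hom_K (F : Res A I n1 n2 n3) (P : Prd F) (x : ℕ → A)
    (h : ∀ j < 3, IsSMulRegular (A ⧸ Jx x j) (x j)) (L : Lft F x)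
    (e : Fin 3 → (Fin n1 → A)) (he : ∀ i, F.d1 (e i) = x i) :
    L.ψ3 (P.T (e 0) (e 1) (e 2)) + 1 ∈ I := by
  have hu : ∀ i : Fin 3, ∃ w : Fin 3 → A,
      L.ψ1 (e i) 0 - (Pi.single i (1 : A) : Fin 3 → A) 0 = x 1 * w 2 - x 2 * w 1 ∧
      L.ψ1 (e i) 1 - (Pi.single i (1 : A) : Fin 3 → A) 1 = x 2 * w 0 - x 0 * w 2 ∧
      L.ψ1 (e i) 2 - (Pi.single i (1 : A) : Fin 3 → A) 2 = x 0 * w 1 - x 1 * w 0 := by
    intro i
    have h1 := kos1 x h (fun j => L.ψ1 (e i) j - (Pi.single i (1 : A) : Fin 3 → A) j) (by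
      have h2 := L.l1 (e i)
      rw [he i] at h2
      have h3 : x i = (Pi.single i (1 : A) : Fin 3 → A) 0 * x 0 +
          (Pi.single i (1 : A) : Fin 3 → A) 1 * x 1 + (Pi.single i (1 : A) : Fin 3 → A) 2 * x 2 := by
        fin_cases i <;> simp
      beta_reduce
      linear_combination h3 - h2)
    exact h1
  obtain ⟨u0, u00, u01, u02⟩ := hu 0
  obtain ⟨u1, u10, u11, u12⟩ := hu 1
  obtain ⟨u2, u20, u21, u22⟩ := hu 2
  simp only [Pi.single_eq_same, ne_eq, Fin.isValue, one_ne_zero, not_false_eq_true,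
    Pi.single_eq_of_ne, Fin.reduceEq, sub_zero, zero_ne_one, zero_sub] at u00 u01 u02 u10 u11 u12 u20 u21 u22
  have hx0 : F.d1 (e 0) = x 0 := he 0
  have hx1 : F.d1 (e 1) = x 1 := he 1
  have hx2 : F.d1 (e 2) = x 2 := he 2
  have hq : ∀ a b : Fin n1 → A, ∀ i, L.ψ1 (F.d2 (P.m a b)) i = F.d1 a * L.ψ1 b i - F.d1 b * L.ψ1 a i := by
    intro a b i
    rw [P.dm, map_sub, map_smul, map_smul]
    rfl
  have a0 := hq (e 1) (e 2)
  have a1 := hq (e 2) (e 0)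
  have a2 := hq (e 0) (e 1)
  rw [hx1, hx2] at a0
  rw [hx2, hx0] at a1
  rw [hx0, hx1] at a2
  generalize hQ0 : L.ψ2 (P.m (e 1) (e 2)) = Q0 at *
  generalize hQ1 : L.ψ2 (P.m (e 2) (e 0)) = Q1 at *
  generalize hQ2 : L.ψ2 (P.m (e 0) (e 1)) = Q2 at *
  have b00 := L.l20 (P.m (e 1) (e 2))
  have b01 := L.l21 (P.m (e 1) (e 2))
  have b02 := L.l22 (P.m (e 1) (e 2))
  have b10 := L.l20 (P.m (e 2) (e 0))
  have b11 := L.l21 (P.m (e 2) (e 0))
  have b12 := L.l22 (P.m (e 2) (e 0))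
  have b20 := L.l20 (P.m (e 0) (e 1))
  have b21 := L.l21 (P.m (e 0) (e 1))
  have b22 := L.l22 (P.m (e 0) (e 1))
  rw [a0, hQ0] at b00 b01 b02
  rw [a1, hQ1] at b10 b11 b12
  rw [a2, hQ2] at b20 b21 b22
  obtain ⟨v0, k0⟩ := kos2 x h (fun j => - Q0 j - (Pi.single 0 (1 : A) : Fin 3 → A) j - (x 2 * u1 j - x 1 * u2 j))
    (by
      simp only [Pi.single_eq_same, ne_eq, Fin.isValue, one_ne_zero, not_false_eq_true,
        Pi.single_eq_of_ne, Fin.reduceEq, sub_zero, zero_ne_one, zero_sub]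
      linear_combination b00 + x 2 * u10 - x 1 * u20)
    (by
      simp only [Pi.single_eq_same, ne_eq, Fin.isValue, one_ne_zero, not_false_eq_true,
        Pi.single_eq_of_ne, Fin.reduceEq, sub_zero, zero_ne_one, zero_sub]
      linear_combination b01 + x 2 * u11 - x 1 * u21)
    (by
      simp only [Pi.single_eq_same, ne_eq, Fin.isValue, one_ne_zero, not_false_eq_true,
        Pi.single_eq_of_ne, Fin.reduceEq, sub_zero, zero_ne_one, zero_sub]
      linear_combination b02 + x 2 * u12 - x 1 * u22)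
  obtain ⟨v1, k1⟩ := kos2 x h (fun j => - Q1 j - (Pi.single 1 (1 : A) : Fin 3 → A) j - (x 0 * u2 j - x 2 * u0 j))
    (by
      simp only [Pi.single_eq_same, ne_eq, Fin.isValue, one_ne_zero, not_false_eq_true,
        Pi.single_eq_of_ne, Fin.reduceEq, sub_zero, zero_ne_one, zero_sub]
      linear_combination b10 + x 0 * u20 - x 2 * u00)
    (by
      simp only [Pi.single_eq_same, ne_eq, Fin.isValue, one_ne_zero, not_false_eq_true,
        Pi.single_eq_of_ne, Fin.reduceEq, sub_zero, zero_ne_one, zero_sub]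
      linear_combination b11 + x 0 * u21 - x 2 * u01)
    (by
      simp only [Pi.single_eq_same, ne_eq, Fin.isValue, one_ne_zero, not_false_eq_true,
        Pi.single_eq_of_ne, Fin.reduceEq, sub_zero, zero_ne_one, zero_sub]
      linear_combination b12 + x 0 * u22 - x 2 * u02)
  obtain ⟨v2, k2⟩ := kos2 x h (fun j => - Q2 j - (Pi.single 2 (1 : A) : Fin 3 → A) j - (x 1 * u0 j - x 0 * u1 j))
    (by
      simp only [Pi.single_eq_same, ne_eq, Fin.isValue, one_ne_zero, not_false_eq_true,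
        Pi.single_eq_of_ne, Fin.reduceEq, sub_zero, zero_ne_one, zero_sub]
      linear_combination b20 + x 1 * u00 - x 0 * u10)
    (by
      simp only [Pi.single_eq_same, ne_eq, Fin.isValue, one_ne_zero, not_false_eq_true,
        Pi.single_eq_of_ne, Fin.reduceEq, sub_zero, zero_ne_one, zero_sub]
      linear_combination b21 + x 1 * u01 - x 0 * u11)
    (by
      simp only [Pi.single_eq_same, ne_eq, Fin.isValue, one_ne_zero, not_false_eq_true,
        Pi.single_eq_of_ne, Fin.reduceEq, sub_zero, zero_ne_one, zero_sub]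
      linear_combination b22 + x 1 * u02 - x 0 * u12)
  have c0 := k0 0
  have c1 := k1 0
  have c2 := k2 0
  simp only [Pi.single_eq_same, ne_eq, Fin.isValue, one_ne_zero, not_false_eq_true,
    Pi.single_eq_of_ne, Fin.reduceEq, sub_zero, zero_ne_one, zero_sub, Fin.coe_ofNat_eq_mod, Nat.zero_mod] at c0 c1 c2
  have d3T : F.d3 (P.T (e 0) (e 1) (e 2)) =
      x 0 • P.m (e 1) (e 2) + x 1 • P.m (e 2) (e 0) + x 2 • P.m (e 0) (e 1) := by
    unfold Prd.T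
    rw [P.dp, P.dm, hx0, hx1, hx2, map_sub, map_smul, map_smul, Prd.m_skew P (e 2) (e 0)]
    simp only [smul_neg]
    abel
  have t0 := L.l3 (P.T (e 0) (e 1) (e 2)) 0
  rw [d3T, map_add, map_add, map_smul, map_smul, map_smul, hQ0, hQ1, hQ2] at t0
  have t1 : x 0 * Q0 0 + x 1 * Q1 0 + x 2 * Q2 0 = L.ψ3 (P.T (e 0) (e 1) (e 2)) * x 0 := t0
  have t2 : (L.ψ3 (P.T (e 0) (e 1) (e 2)) + 1 + (v0 * x 0 + v1 * x 1 + v2 * x 2)) * x 0 = 0 := by
    linear_combination -t1 - x 0 * c0 - x 1 * c1 - x 2 * c2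
  have t3 := kos3 x h _ t2
  have t4 : L.ψ3 (P.T (e 0) (e 1) (e 2)) + 1 = - (v0 * x 0 + v1 * x 1 + v2 * x 2) := by
    linear_combination t3
  rw [t4]
  have hI : ∀ i, F.d1 (e i) ∈ I := fun i => F.hr.le ⟨e i, rfl⟩
  have i0 := hI 0
  have i1 := hI 1
  have i2 := hI 2
  rw [hx0] at i0
  rw [hx1] at i1
  rw [hx2] at i2
  exact I.neg_mem (I.add_mem (I.add_mem (I.mul_mem_left _ i0) (I.mul_mem_left _ i1)) (I.mul_mem_left _ i2))

end Pool.Agent.H21V
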