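import Pool.Agent.Lib.H21V.C3
import Pool.Agent.Lib.H21V.C4

set_option autoImplicit false

open CategoryTheory IsLocalRing
open Pool.Agent.Lib.Helper92 Pool.Agent.Lib.H44V

namespace Pool.Agent.H21V
universe u

variable {A : Type u} [CommRing A] {I : Ideal A} {n1 n2 n3 : ℕ}

/-- CHUNK C5 (S/M).  Comparison with the Koszul complex.
Proof.  Let `L` be from `exists_lft`, `T := P.T (e 0) (e 1) (e 2)`.
(1) `hom_F` gives `h2` with `- ψ3 c • T = c + h2 (F.d3 c)`; apply `f`: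
`f c = - ψ3 c * f T - f (h2 (F.d3 c))`.  `f T ∈ I = Jx x 3`: `f T = l0 * x 0 + l1 * x 1 + l2 * x 2`
(`mem_sup_span`).  `x i * ψ3 c = ψ3 (x i • c) = ψ3 (P.p (e i) (F.d3 c))` (`Prd.p_d3`, `he`).  So
`f c = g (F.d3 c)` with `g b := - (l0 * ψ3 (P.p (e 0) b) + l1 * ψ3 (P.p (e 1) b) + l2 * ψ3 (P.p (e 2) b)) -
f (h2 b)`.
(2) `f := - L.ψ3`, `hom_K`. -/
theorem compare (F : Res A I n1 n2 n3) (P : Prd F) (x : ℕ → A)
    (h : ∀ j < 3, IsSMulRegular (A ⧸ Jx x j) (x j)) (hx : Jx x 3 = I)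
    (e : Fin 3 → (Fin n1 → A)) (he : ∀ i, F.d1 (e i) = x i) :
    (∀ f : (Fin n3 → A) →ₗ[A] A, f (P.T (e 0) (e 1) (e 2)) ∈ I →
      ∃ g : (Fin n2 → A) →ₗ[A] A, f = g ∘ₗ F.d3) ∧
    ∃ f : (Fin n3 → A) →ₗ[A] A, f (P.T (e 0) (e 1) (e 2)) - 1 ∈ I := by
  obtain ⟨L⟩ := exists_lft F x h hx
  constructor
  · intro f hf
    obtain ⟨h2, hh2⟩ := hom_F F P x L e he
    obtain ⟨l2, hl2⟩ := mem_sup_span (J := Jx x 2) (x := x 2) (hx.ge hf)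
    obtain ⟨l1, hl1⟩ := mem_sup_span (J := Jx x 1) (x := x 1) hl2
    obtain ⟨l0, hl0⟩ := mem_sup_span (J := Jx x 0) (x := x 0) hl1
    have hl : f (P.T (e 0) (e 1) (e 2)) - l2 * x 2 - l1 * x 1 - l0 * x 0 = 0 := hl0
    refine ⟨-(l0 • (L.ψ3 ∘ₗ P.p (e 0)) + l1 • (L.ψ3 ∘ₗ P.p (e 1)) + l2 • (L.ψ3 ∘ₗ P.p (e 2))) - f ∘ₗ h2, ?_⟩
    apply LinearMap.ext
    intro c
    have e1 := congrArg f (hh2 c)
    rw [map_smul, map_add, smul_eq_mul] at e1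
    have e2 : ∀ i : Fin 3, L.ψ3 (P.p (e i) (F.d3 c)) = x i * L.ψ3 c := by
      intro i
      rw [Prd.p_d3, he i, map_smul, smul_eq_mul]
    have q0 := e2 0
    have q1 := e2 1
    have q2 := e2 2
    have e3 : ((-(l0 • (L.ψ3 ∘ₗ P.p (e 0)) + l1 • (L.ψ3 ∘ₗ P.p (e 1)) + l2 • (L.ψ3 ∘ₗ P.p (e 2))) - f ∘ₗ h2) ∘ₗ F.d3) c =
        -(l0 * L.ψ3 (P.p (e 0) (F.d3 c)) + l1 * L.ψ3 (P.p (e 1) (F.d3 c)) + l2 * L.ψ3 (P.p (e 2) (F.d3 c))) -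
          f (h2 (F.d3 c)) := rfl
    rw [e3, q0, q1, q2]
    have x0 : x (0 : Fin 3) = x 0 := rfl
    have x1 : x (1 : Fin 3) = x 1 := rfl
    have x2 : x (2 : Fin 3) = x 2 := rfl
    rw [x0, x1, x2]
    linear_combination (-1 : A) * e1 - L.ψ3 c * hl
  · refine ⟨- L.ψ3, ?_⟩
    have h1 := hom_K F P x h L e he
    have h2 : (- L.ψ3) (P.T (e 0) (e 1) (e 2)) - 1 = - (L.ψ3 (P.T (e 0) (e 1) (e 2)) + 1) := by
      rw [LinearMap.neg_apply]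
      ring
    rw [h2]
    exact I.neg_mem h1

end Pool.Agent.H21V
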