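import Pool.Agent.Lib.H44V.Defs

set_option autoImplicit false

/-!
H21V (MP_fa772a_ag, Vasconcelos' conjecture on the normal module): perfect ideals of grade at most
three.  Definitions.
-/

open CategoryTheory IsLocalRing
open Pool.Agent.Lib.Helper92 Pool.Agent.Lib.H44V

namespace Pool.Agent.H21V
universe u

/-- A free resolution `0 → A^n3 → A^n2 → A^n1 → A → A / I → 0` of length three. -/
structure Res (A : Type u) [CommRing A] (I : Ideal A) (n1 n2 n3 : ℕ) where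
  d1 : (Fin n1 → A) →ₗ[A] A
  d2 : (Fin n2 → A) →ₗ[A] (Fin n1 → A)
  d3 : (Fin n3 → A) →ₗ[A] (Fin n2 → A)
  hr : LinearMap.range d1 = I
  z1 : ∀ b, d1 (d2 b) = 0
  z2 : ∀ c, d2 (d3 c) = 0
  e1 : ∀ a, d1 a = 0 → ∃ b, d2 b = a
  e2 : ∀ b, d2 b = 0 → ∃ c, d3 c = b
  e3 : ∀ c, d3 c = 0 → c = 0

/-- Products on a resolution of length three. -/
structure Prd {A : Type u} [CommRing A] {I : Ideal A} {n1 n2 n3 : ℕ} (F : Res A I n1 n2 n3) where
  m : (Fin n1 → A) →ₗ[A] (Fin n1 → A) →ₗ[A] (Fin n2 → A)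
  p : (Fin n1 → A) →ₗ[A] (Fin n2 → A) →ₗ[A] (Fin n3 → A)
  mm : ∀ a, m a a = 0
  dm : ∀ a b, F.d2 (m a b) = F.d1 a • b - F.d1 b • a
  dp : ∀ a c, F.d3 (p a c) = F.d1 a • c - m a (F.d2 c)

/-- The triple product. -/
def Prd.T {A : Type u} [CommRing A] {I : Ideal A} {n1 n2 n3 : ℕ} {F : Res A I n1 n2 n3}
    (P : Prd F) (a b c : Fin n1 → A) : Fin n3 → A := P.p a (P.m b c)

/-- The map `A^n1 → I / I²`. -/
noncomputable def Res.co {A : Type u} [CommRing A] {I : Ideal A} {n1 n2 n3 : ℕ}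
    (F : Res A I n1 n2 n3) : (Fin n1 → A) →ₗ[A] I.Cotangent :=
  I.toCotangent ∘ₗ F.d1.codRestrict I (fun a => F.hr.le ⟨a, rfl⟩)

/-- The map `S^n → (S_P)^n`. -/
noncomputable def io {S : Type u} [CommRing S] (P : Ideal S) [P.IsPrime] {n : ℕ} (a : Fin n → S) :
    Fin n → Localization.AtPrime P := fun i => algebraMap S (Localization.AtPrime P) (a i)

/-- `F'` is the localization of `F` at `P`. -/
structure IsLoc {S : Type u} [CommRing S] {I : Ideal S} (P : Ideal S) [P.IsPrime] {n1 n2 n3 : ℕ}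
    (F : Res S I n1 n2 n3)
    (F' : Res (Localization.AtPrime P) (I.map (algebraMap S (Localization.AtPrime P))) n1 n2 n3) :
    Prop where
  h1 : ∀ a, F'.d1 (io P a) = algebraMap S (Localization.AtPrime P) (F.d1 a)
  h2 : ∀ b, F'.d2 (io P b) = io P (F.d2 b)
  h3 : ∀ c, F'.d3 (io P c) = io P (F.d3 c)

/-- `k` elements generate `M` at `Q`. -/
def GenAt {R : Type u} [CommRing R] (Q : Ideal R) (M : Type u) [AddCommGroup M] [Module R M]
    (k : ℕ) : Prop :=
  ∃ (ν : Fin k → M) (s : R), s ∉ Q ∧ ∀ x : M, s • x ∈ Submodule.span R (Set.range ν)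

/-- `M` is free of rank `k` at `Q`. -/
def FrAt {R : Type u} [CommRing R] (Q : Ideal R) [Q.IsPrime] (M : Type u) [AddCommGroup M]
    [Module R M] (k : ℕ) : Prop :=
  Module.Free (Localization.AtPrime Q) (LocalizedModule Q.primeCompl M) ∧
    Module.finrank (Localization.AtPrime Q) (LocalizedModule Q.primeCompl M) = k

/-- `y₁, y₂` is a regular pair. -/
def RegPair {R : Type u} [CommRing R] (y₁ y₂ : R) : Prop :=
  (∀ a, y₁ * a = 0 → a = 0) ∧ ∀ a b, y₂ * a = y₁ * b → ∃ c, a = y₁ * c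

/-- The maximal ideal contains a regular pair (depth at least two). -/
def Two (R : Type u) [CommRing R] [IsLocalRing R] : Prop :=
  ∃ y₁ ∈ maximalIdeal R, ∃ y₂ ∈ maximalIdeal R, RegPair y₁ y₂

/-- A Gorenstein resolution in standard coordinates: `0 → S → S^n → S^n → S → S / I → 0` with the
maps `f`, `Φ` (alternating), `f`. -/
structure Gor (S : Type u) [CommRing S] (I : Ideal S) (n : ℕ) where
  f : Fin n → S
  Φ : Matrix (Fin n) (Fin n) S
  hI : Ideal.span (Set.range f) = I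
  alt0 : ∀ i, Φ i i = 0
  alt1 : ∀ i j, Φ i j = - Φ j i
  zz : Φ.mulVec f = 0
  e1 : ∀ a : Fin n → S, f ⬝ᵥ a = 0 → ∃ c, Φ.mulVec c = a
  e2 : ∀ c : Fin n → S, Φ.mulVec c = 0 → ∃ l : S, c = l • f
  e3 : ∀ l : S, l • f = 0 → l = 0

/-- alternating matrices. -/
def Alt {S : Type u} [CommRing S] {n : ℕ} (A : Matrix (Fin n) (Fin n) S) : Prop :=
  (∀ i, A i i = 0) ∧ ∀ i j, A i j = - A j i

end Pool.Agent.H21V
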