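import Pool.Agent.Lib.H21V.D0

set_option autoImplicit false

open CategoryTheory IsLocalRing
open Pool.Agent.Lib.Helper92 Pool.Agent.Lib.H44V

namespace Pool.Agent.H21V
universe u


/-- Dual bases at `Q`. -/
def DualAt {R : Type u} [CommRing R] (Q : Ideal R) (C : Type u) [AddCommGroup C] [Module R C]
    (k : ℕ) : Prop :=
  ∃ (ν : Fin k → (C →ₗ[R] R)) (c : Fin k → C) (s : R), s ∉ Q ∧
    (∀ i j, ν i (c j) = if i = j then s else 0) ∧ ∀ y : C, s • y = ∑ j, ν j y • c j

/-- the normal module. -/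
abbrev NM {S : Type u} [CommRing S] (I : Ideal S) : Type u := I.Cotangent →ₗ[S ⧸ I] (S ⧸ I)

end Pool.Agent.H21V
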