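import Pool.Agent.Lib.H21V.A3
import Pool.Agent.Lib.H21V.DL

set_option autoImplicit false

open CategoryTheory IsLocalRing
open Pool.Agent.Lib.Helper92 Pool.Agent.Lib.H44V

namespace Pool.Agent.H21V
universe u


variable {A : Type u} [CommRing A] {I : Ideal A} {n1 n2 n3 : ℕ} {F : Res A I n1 n2 n3}

/- CHUNK D1 (M).  The forms `β f`. -/

/-- `F.co a = I.toCotangent ⟨F.d1 a, _⟩`; `I.toCotangent` and `F.d1` (onto `I`, `F.hr`) are surjective. -/
theorem Res.co_surj (F : Res A I n1 n2 n3) : Function.Surjective F.co := by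
  intro y
  obtain ⟨x, rfl⟩ := I.toCotangent_surjective y
  have hx : (x : A) ∈ LinearMap.range F.d1 := by
    rw [F.hr]
    exact x.2
  obtain ⟨a, ha⟩ := hx
  refine ⟨a, ?_⟩
  unfold Res.co
  rw [LinearMap.comp_apply]
  exact congrArg _ (Subtype.ext ha)

/-- Proof.  `F.co a = 0` means `F.d1 a ∈ I ^ 2` (`Ideal.toCotangent_eq_zero`), `I ^ 2 = I * I` and `I = range F.d1`, so
`F.d1 a = ∑ l, s l * F.d1 (b l)` with `s l ∈ I` (`Submodule.mul_induction_on` or
`Submodule.smul_induction_on`; better: the set of the `a` in the conclusion, as a submodule; or directly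
induct on membership in `I * I` with the statement `∀ a, F.d1 a = y → ..`, the difference of two preimages
is `F.d2 _` by `F.e1`). -/
theorem Res.co_zero (F : Res A I n1 n2 n3) (a : Fin n1 → A) (h : F.co a = 0) :
    ∃ (l : ℕ) (s : Fin l → A) (b : Fin l → (Fin n1 → A)) (b' : Fin n2 → A), (∀ i, s i ∈ I) ∧
      a = ∑ i, s i • b i + F.d2 b' := by
  have h1 : F.d1 a ∈ I ^ 2 := by
    unfold Res.co at h
    rw [LinearMap.comp_apply, Ideal.toCotangent_eq_zero] at h
    exact h
  rw [sq] at h1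
  have h2 : ∃ (l : ℕ) (s : Fin l → A) (b : Fin l → (Fin n1 → A)), (∀ i, s i ∈ I) ∧
      F.d1 a = ∑ i, s i * F.d1 (b i) := by
    refine Submodule.mul_induction_on (C := fun y => ∃ (l : ℕ) (s : Fin l → A)
      (b : Fin l → (Fin n1 → A)), (∀ i, s i ∈ I) ∧ y = ∑ i, s i * F.d1 (b i)) h1 ?_ ?_
    · intro m hm n hn
      rw [← F.hr] at hn
      obtain ⟨b, rfl⟩ := hn
      exact ⟨1, fun _ => m, fun _ => b, fun _ => hm, by simp⟩
    · rintro x y ⟨l, s, b, hs, rfl⟩ ⟨l', s', b', hs', rfl⟩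
      refine ⟨l + l', Fin.append s s', Fin.append b b', fun i => ?_, ?_⟩
      · refine Fin.addCases (fun i => ?_) (fun i => ?_) i
        · rw [Fin.append_left]; exact hs i
        · rw [Fin.append_right]; exact hs' i
      · rw [Fin.sum_univ_add]
        simp only [Fin.append_left, Fin.append_right]
  obtain ⟨l, s, b, hs, hd⟩ := h2
  have h3 : F.d1 (a - ∑ i, s i • b i) = 0 := by
    rw [map_sub, map_sum, hd]
    simp only [map_smul, smul_eq_mul]
    exact sub_self _
  obtain ⟨b', hb'⟩ := F.e1 _ h3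
  exact ⟨l, s, b, b', hs, by rw [hb']; abel⟩

theorem d1_zero (P : Prd F) (f : (Fin n3 → A) →ₗ[A] A) (a b c : Fin n1 → A) (h : F.co a = 0) :
    f (P.T a b c) ∈ I := by
  obtain ⟨l, s, v, b', hs, rfl⟩ := F.co_zero a h
  have hI : ∀ x, F.d1 x ∈ I := fun x => F.hr.le ⟨x, rfl⟩
  have h1 : P.T (∑ i, s i • v i + F.d2 b') b c = ∑ i, s i • P.T (v i) b c + P.T (F.d2 b') b c := by
    unfold Prd.T
    rw [map_add, LinearMap.add_apply, map_sum, LinearMap.sum_apply]
    simp only [map_smul, LinearMap.smul_apply]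
  rw [h1, P.T_d2, map_add, map_sum, map_add, map_neg, map_smul, map_smul]
  refine I.add_mem (Submodule.sum_mem _ fun i _ => ?_) (I.add_mem (I.neg_mem ?_) ?_)
  · rw [map_smul, smul_eq_mul]
    exact I.mul_mem_right _ (hs i)
  · rw [smul_eq_mul]
    exact I.mul_mem_right _ (hI _)
  · rw [smul_eq_mul]
    exact I.mul_mem_right _ (hI _)

theorem d1_a0 (P : Prd F) (x x' y z : Fin n1 → A) : P.T (x + x') y z = P.T x y z + P.T x' y z := by
  unfold Prd.T
  rw [map_add, LinearMap.add_apply]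

theorem d1_a1 (P : Prd F) (x y y' z : Fin n1 → A) : P.T x (y + y') z = P.T x y z + P.T x y' z := by
  unfold Prd.T
  rw [map_add, LinearMap.add_apply, map_add]

theorem d1_a2 (P : Prd F) (x y z z' : Fin n1 → A) : P.T x y (z + z') = P.T x y z + P.T x y z' := by
  unfold Prd.T
  rw [map_add, map_add]

theorem d1_s0 (P : Prd F) (r : A) (x y z : Fin n1 → A) : P.T (r • x) y z = r • P.T x y z := by
  unfold Prd.T
  rw [map_smul, LinearMap.smul_apply]

theorem d1_s1 (P : Prd F) (r : A) (x y z : Fin n1 → A) : P.T x (r • y) z = r • P.T x y z := by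
  unfold Prd.T
  rw [map_smul, LinearMap.smul_apply, map_smul]

theorem d1_s2 (P : Prd F) (r : A) (x y z : Fin n1 → A) : P.T x y (r • z) = r • P.T x y z := by
  unfold Prd.T
  rw [map_smul, map_smul]

theorem d1_sk01 (P : Prd F) (x y z : Fin n1 → A) : P.T x y z = - P.T y x z := by
  have h := P.T12 (x + y) z
  rw [d1_a0, d1_a1, d1_a1, P.T12, P.T12, zero_add, add_zero] at h
  exact eq_neg_of_add_eq_zero_left h

theorem d1_sk12 (P : Prd F) (x y z : Fin n1 → A) : P.T x y z = - P.T x z y := by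
  have h := P.T23 x (y + z)
  rw [d1_a1, d1_a2, d1_a2, P.T23, P.T23, zero_add, add_zero] at h
  exact eq_neg_of_add_eq_zero_left h

theorem d1_c0 (P : Prd F) (f : (Fin n3 → A) →ₗ[A] A) (x x' y z : Fin n1 → A) (h : F.co x = F.co x') :
    Ideal.Quotient.mk I (f (P.T x y z)) = Ideal.Quotient.mk I (f (P.T x' y z)) := by
  rw [Ideal.Quotient.eq, ← map_sub]
  have h1 : P.T x y z - P.T x' y z = P.T (x - x') y z := by
    have h2 := d1_a0 P (x - x') x' y z
    rw [sub_add_cancel] at h2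
    rw [h2]
    abel
  rw [h1]
  exact d1_zero P f _ _ _ (by rw [map_sub, h, sub_self])

theorem d1_c1 (P : Prd F) (f : (Fin n3 → A) →ₗ[A] A) (x y y' z : Fin n1 → A) (h : F.co y = F.co y') :
    Ideal.Quotient.mk I (f (P.T x y z)) = Ideal.Quotient.mk I (f (P.T x y' z)) := by
  rw [d1_sk01 P x y z, d1_sk01 P x y' z, map_neg, map_neg, map_neg, map_neg, d1_c0 P f y y' x z h]

theorem d1_c2 (P : Prd F) (f : (Fin n3 → A) →ₗ[A] A) (x y z z' : Fin n1 → A) (h : F.co z = F.co z') :
    Ideal.Quotient.mk I (f (P.T x y z)) = Ideal.Quotient.mk I (f (P.T x y z')) := by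
  rw [d1_sk12 P x y z, d1_sk12 P x y z', map_neg, map_neg, map_neg, map_neg, d1_c1 P f x z z' y h]

/-- Proof.  `τ` from `Prd.exists_alt`; `η := (Ideal.Quotient.mk I) ∘ f ∘ τ`, an `A`-multilinear alternating map on
`Fin n1 → A` with values in `A ⧸ I` (`LinearMap.compAlternatingMap` with `Submodule.mkQ I ∘ₗ f`, or
`Algebra.linearMap`).  (1) `η v = 0` if `F.co (v i) = 0` for one `i`: by `AlternatingMap` symmetry one may take
`i = 0` (or treat the three cases; `η v` with the entries 0 and `i` exchanged is `- η v`,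
`AlternatingMap.map_swap`).  `v 0 = ∑ s_l b_l + F.d2 b'`: `T (v 0) b c = ∑ s_l T b_l b c + T (F.d2 b') b c`,
`T (F.d2 b') b c = - (F.d1 b • P.p c b') + F.d1 c • P.p b b'` (`Prd.T_d2`) and `s_l, F.d1 b, F.d1 c ∈ I`.
(2) so `η v = η v'` if `F.co (v i) = F.co (v' i)` for all `i` (change one entry after the other, three steps).
(3) choose a section `σ` of `F.co` (`Res.co_surj`, `Function.surjInv`); `β v := η (fun i => σ (v i))` is multilinear over
`A ⧸ I` (`σ (x + y)` and `σ x + σ y` have the same image; for `r : A ⧸ I` write `r = mk s`, `σ (r • x)` and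
`s • σ x` have the same image because `mk s • x = s • x`), and alternating. -/
theorem exists_beta (P : Prd F) (f : (Fin n3 → A) →ₗ[A] A) :
    ∃ β : I.Cotangent [⋀^Fin 3]→ₗ[A ⧸ I] (A ⧸ I), ∀ a : Fin 3 → (Fin n1 → A),
      β (fun i => F.co (a i)) = Ideal.Quotient.mk I (f (P.T (a 0) (a 1) (a 2))) := by
  obtain ⟨σ, hσ⟩ : ∃ σ : I.Cotangent → (Fin n1 → A), ∀ c, F.co (σ c) = c :=
    ⟨Function.surjInv F.co_surj, Function.surjInv_eq F.co_surj⟩
  obtain ⟨Φ, hΦ⟩ : ∃ Φ : I.Cotangent → I.Cotangent → I.Cotangent → A ⧸ I, ∀ x y z,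
      Φ (F.co x) (F.co y) (F.co z) = Ideal.Quotient.mk I (f (P.T x y z)) := by
    refine ⟨fun c0 c1 c2 => Ideal.Quotient.mk I (f (P.T (σ c0) (σ c1) (σ c2))), fun x y z => ?_⟩
    dsimp only
    rw [d1_c0 P f _ x _ _ (hσ _), d1_c1 P f _ _ y _ (hσ _), d1_c2 P f _ _ _ z (hσ _)]
  have hsm : ∀ (r : A) (x : Fin n1 → A), Ideal.Quotient.mk I r • F.co x = F.co (r • x) := by
    intro r x
    rw [map_smul]
    exact algebraMap_smul (A ⧸ I) r (F.co x)
  have A0 : ∀ c c' y z, Φ (c + c') y z = Φ c y z + Φ c' y z := by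
    intro c c' y z
    obtain ⟨c, rfl⟩ := F.co_surj c
    obtain ⟨c', rfl⟩ := F.co_surj c'
    obtain ⟨y, rfl⟩ := F.co_surj y
    obtain ⟨z, rfl⟩ := F.co_surj z
    rw [← map_add, hΦ, hΦ, hΦ, d1_a0, map_add, map_add]
  have A1 : ∀ x c c' z, Φ x (c + c') z = Φ x c z + Φ x c' z := by
    intro x c c' z
    obtain ⟨c, rfl⟩ := F.co_surj c
    obtain ⟨c', rfl⟩ := F.co_surj c'
    obtain ⟨x, rfl⟩ := F.co_surj x
    obtain ⟨z, rfl⟩ := F.co_surj z
    rw [← map_add, hΦ, hΦ, hΦ, d1_a1, map_add, map_add]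
  have A2 : ∀ x y c c', Φ x y (c + c') = Φ x y c + Φ x y c' := by
    intro x y c c'
    obtain ⟨c, rfl⟩ := F.co_surj c
    obtain ⟨c', rfl⟩ := F.co_surj c'
    obtain ⟨x, rfl⟩ := F.co_surj x
    obtain ⟨y, rfl⟩ := F.co_surj y
    rw [← map_add, hΦ, hΦ, hΦ, d1_a2, map_add, map_add]
  have S0 : ∀ (r : A ⧸ I) x y z, Φ (r • x) y z = r • Φ x y z := by
    intro r x y z
    obtain ⟨r, rfl⟩ := Ideal.Quotient.mk_surjective r
    obtain ⟨x, rfl⟩ := F.co_surj x
    obtain ⟨y, rfl⟩ := F.co_surj y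
    obtain ⟨z, rfl⟩ := F.co_surj z
    rw [hsm, hΦ, hΦ, d1_s0, map_smul, smul_eq_mul, map_mul, smul_eq_mul]
  have S1 : ∀ (r : A ⧸ I) x y z, Φ x (r • y) z = r • Φ x y z := by
    intro r x y z
    obtain ⟨r, rfl⟩ := Ideal.Quotient.mk_surjective r
    obtain ⟨x, rfl⟩ := F.co_surj x
    obtain ⟨y, rfl⟩ := F.co_surj y
    obtain ⟨z, rfl⟩ := F.co_surj z
    rw [hsm, hΦ, hΦ, d1_s1, map_smul, smul_eq_mul, map_mul, smul_eq_mul]
  have S2 : ∀ (r : A ⧸ I) x y z, Φ x y (r • z) = r • Φ x y z := by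
    intro r x y z
    obtain ⟨r, rfl⟩ := Ideal.Quotient.mk_surjective r
    obtain ⟨x, rfl⟩ := F.co_surj x
    obtain ⟨y, rfl⟩ := F.co_surj y
    obtain ⟨z, rfl⟩ := F.co_surj z
    rw [hsm, hΦ, hΦ, d1_s2, map_smul, smul_eq_mul, map_mul, smul_eq_mul]
  have Z01 : ∀ x z, Φ x x z = 0 := by
    intro x z
    obtain ⟨x, rfl⟩ := F.co_surj x
    obtain ⟨z, rfl⟩ := F.co_surj z
    rw [hΦ, P.T12, map_zero, map_zero]
  have Z12 : ∀ x z, Φ x z z = 0 := by
    intro x z
    obtain ⟨x, rfl⟩ := F.co_surj x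
    obtain ⟨z, rfl⟩ := F.co_surj z
    rw [hΦ, P.T23, map_zero, map_zero]
  have Z02 : ∀ x z, Φ x z x = 0 := by
    intro x z
    obtain ⟨x, rfl⟩ := F.co_surj x
    obtain ⟨z, rfl⟩ := F.co_surj z
    rw [hΦ, P.T13, map_zero, map_zero]
  have hadd : ∀ [inst : DecidableEq (Fin 3)] (v : Fin 3 → I.Cotangent) (i : Fin 3) (x y : I.Cotangent),
      Φ (Function.update v i (x + y) 0) (Function.update v i (x + y) 1) (Function.update v i (x + y) 2) =
      Φ (Function.update v i x 0) (Function.update v i x 1) (Function.update v i x 2) +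
      Φ (Function.update v i y 0) (Function.update v i y 1) (Function.update v i y 2) := by
    intro inst v i x y
    obtain rfl : inst = instDecidableEqFin 3 := Subsingleton.elim _ _
    fin_cases i
    · simp [Function.update, A0]
    · simp [Function.update, A1]
    · simp [Function.update, A2]
  have hsmul : ∀ [inst : DecidableEq (Fin 3)] (v : Fin 3 → I.Cotangent) (i : Fin 3) (r : A ⧸ I)
      (x : I.Cotangent),
      Φ (Function.update v i (r • x) 0) (Function.update v i (r • x) 1) (Function.update v i (r • x) 2) =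
      r • Φ (Function.update v i x 0) (Function.update v i x 1) (Function.update v i x 2) := by
    intro inst v i r x
    obtain rfl : inst = instDecidableEqFin 3 := Subsingleton.elim _ _
    fin_cases i
    · simp [Function.update, S0]
    · simp [Function.update, S1]
    · simp [Function.update, S2]
  refine ⟨{ toFun := fun v => Φ (v 0) (v 1) (v 2)
            map_update_add' := fun v i x y => hadd v i x y
            map_update_smul' := fun v i r x => hsmul v i r x
            map_eq_zero_of_eq' := ?_ }, fun a => hΦ _ _ _⟩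
  intro v i j hv hij
  have h01 : v 0 = v 1 → Φ (v 0) (v 1) (v 2) = 0 := fun h => by rw [h]; exact Z01 _ _
  have h12 : v 1 = v 2 → Φ (v 0) (v 1) (v 2) = 0 := fun h => by rw [h]; exact Z12 _ _
  have h02 : v 0 = v 2 → Φ (v 0) (v 1) (v 2) = 0 := fun h => by rw [h]; exact Z02 _ _
  fin_cases i <;> fin_cases j
  · exact absurd rfl hij
  · exact h01 hv
  · exact h02 hv
  · exact h01 hv.symm
  · exact absurd rfl hij
  · exact h12 hv
  · exact h02 hv.symm
  · exact h12 hv.symm
  · exact absurd rfl hij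

end Pool.Agent.H21V
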