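import Pool.Agent.Lib.H21V.A2
import Pool.Agent.Lib.H21V.DL

set_option autoImplicit false

open CategoryTheory IsLocalRing
open Pool.Agent.Lib.Helper92 Pool.Agent.Lib.H44V

namespace Pool.Agent.H21V
universe u


variable {A : Type u} [CommRing A] {I : Ideal A} {n1 n2 n3 : ℕ} {F : Res A I n1 n2 n3}

/-- CHUNK D2 (S).  Proof.  `F.d3 (T a b c) = F.d1 a • m b c - m a (F.d2 (m b c)) =
F.d1 a • m b c - (F.d1 b • m a c - F.d1 c • m a b)` (`P.dp`, `P.dm`), and `F.d1 _ ∈ I` (`F.hr`). -/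
theorem T_d3 (P : Prd F) (g : (Fin n2 → A) →ₗ[A] A) (a b c : Fin n1 → A) :
    g (F.d3 (P.T a b c)) ∈ I := by
  have hI : ∀ x : Fin n1 → A, F.d1 x ∈ I := fun x => F.hr.le ⟨x, rfl⟩
  unfold Prd.T
  rw [P.dp, P.dm, map_sub, map_smul, map_sub, map_smul, map_smul, map_sub, map_smul, map_smul,
    smul_eq_mul, smul_eq_mul, smul_eq_mul]
  exact I.sub_mem (I.mul_mem_right _ (hI _)) (I.sub_mem (I.mul_mem_right _ (hI _))
    (I.mul_mem_right _ (hI _)))

end Pool.Agent.H21V
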