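import Pool.Agent.Lib.H21V.D0

set_option autoImplicit false

open CategoryTheory IsLocalRing
open Pool.Agent.Lib.Helper92 Pool.Agent.Lib.H44V

namespace Pool.Agent.H21V
universe u

variable {A : Type u} [CommRing A]

/-- CHUNK LE (M).  Acyclicity from three homotopies and a regular sequence.
Hypotheses: a complex `G3 → G2 → G1 → G0` (maps `D3, D2, D1`), elements `x1, x2, x3`;
`x1` is injective on `G1`; `x1, x2` is weakly regular on `G2`; `x1, x2, x3` is weakly regular on `G3`; every cycle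
becomes a boundary after multiplication by `x1`, by `x2` and by `x3`.
Proof.
(3) `D3 v = 0`: `x1 • v = 0` (k3), so `v = 0` (r31).
(2) `D2 w = 0`: `x1 • w = D3 v1`, `x2 • w = D3 v2`; `D3 (x2 • v1 - x1 • v2) = 0`, so `x2 • v1 = x1 • v2`, r32 gives
`v1 = x1 • v`; `x1 • (w - D3 v) = 0`, so `w = D3 v` (r21).
(1) `D1 w = 0`: `x1 • w = D2 v1`, `x2 • w = D2 v2`, `x3 • w = D2 v3`.  `D2 (x2 • v1 - x1 • v2) = 0`, so by (2)
`x2 • v1 - x1 • v2 = D3 u12`; the same: `x3 • v1 - x1 • v3 = D3 u13`, `x3 • v2 - x2 • v3 = D3 u23`.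
`x3 • (x2 v1 - x1 v2) - x2 • (x3 v1 - x1 v3) + x1 • (x3 v2 - x2 v3) = 0`, so
`D3 (x3 • u12 - x2 • u13 + x1 • u23) = 0`, so (3) `x3 • u12 = x2 • u13 - x1 • u23`; r33 gives
`u12 = x1 • a + x2 • b`.  Then `x2 • (v1 - D3 b) = x1 • (v2 + D3 a)`; r22 gives `v1 - D3 b = x1 • v`, and
`x1 • w = D2 v1 = D2 (v1 - D3 b) = x1 • D2 v`, so `w = D2 v` (r11). -/
theorem acyclic {G0 G1 G2 G3 : Type*} [AddCommGroup G0] [AddCommGroup G1] [AddCommGroup G2]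
    [AddCommGroup G3] [Module A G0] [Module A G1] [Module A G2] [Module A G3]
    (D1 : G1 →ₗ[A] G0) (D2 : G2 →ₗ[A] G1) (D3 : G3 →ₗ[A] G2)
    (h12 : ∀ g, D1 (D2 g) = 0) (h23 : ∀ g, D2 (D3 g) = 0) (x1 x2 x3 : A)
    (r11 : ∀ g : G1, x1 • g = 0 → g = 0)
    (r21 : ∀ g : G2, x1 • g = 0 → g = 0)
    (r22 : ∀ g g' : G2, x2 • g = x1 • g' → ∃ v, g = x1 • v)
    (r31 : ∀ g : G3, x1 • g = 0 → g = 0)
    (r32 : ∀ g g' : G3, x2 • g = x1 • g' → ∃ v, g = x1 • v)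
    (r33 : ∀ g g' g'' : G3, x3 • g = x2 • g' - x1 • g'' → ∃ a b, g = x1 • a + x2 • b)
    (k1 : ∀ g : G1, D1 g = 0 → (∃ v, x1 • g = D2 v) ∧ (∃ v, x2 • g = D2 v) ∧ ∃ v, x3 • g = D2 v)
    (k2 : ∀ g : G2, D2 g = 0 → (∃ v, x1 • g = D3 v) ∧ ∃ v, x2 • g = D3 v)
    (k3 : ∀ g : G3, D3 g = 0 → x1 • g = 0) :
    (∀ g : G1, D1 g = 0 → ∃ v, g = D2 v) ∧ (∀ g : G2, D2 g = 0 → ∃ v, g = D3 v) ∧
      ∀ g : G3, D3 g = 0 → g = 0 := by
  have a3 : ∀ g : G3, D3 g = 0 → g = 0 := fun g hg => r31 g (k3 g hg)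
  have a2 : ∀ g : G2, D2 g = 0 → ∃ v, g = D3 v := by
    intro w hw
    obtain ⟨⟨v1, h1⟩, ⟨v2, h2⟩⟩ := k2 w hw
    have e1 : x2 • v1 - x1 • v2 = 0 := by
      apply a3
      rw [map_sub, map_smul, map_smul, ← h1, ← h2]
      rw [smul_smul, smul_smul, mul_comm, sub_self]
    obtain ⟨v, hv⟩ := r32 v1 v2 (sub_eq_zero.1 e1)
    refine ⟨v, ?_⟩
    have e2 : x1 • (w - D3 v) = 0 := by
      rw [smul_sub, h1, hv, map_smul, sub_self]
    exact sub_eq_zero.1 (r21 _ e2)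
  refine ⟨?_, a2, a3⟩
  intro w hw
  obtain ⟨⟨v1, h1⟩, ⟨v2, h2⟩, ⟨v3, h3⟩⟩ := k1 w hw
  have c12 : D2 (x2 • v1 - x1 • v2) = 0 := by
    rw [map_sub, map_smul, map_smul, ← h1, ← h2]
    rw [smul_smul, smul_smul, mul_comm, sub_self]
  have c13 : D2 (x3 • v1 - x1 • v3) = 0 := by
    rw [map_sub, map_smul, map_smul, ← h1, ← h3]
    rw [smul_smul, smul_smul, mul_comm, sub_self]
  have c23 : D2 (x3 • v2 - x2 • v3) = 0 := by
    rw [map_sub, map_smul, map_smul, ← h2, ← h3]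
    rw [smul_smul, smul_smul, mul_comm, sub_self]
  obtain ⟨u12, e12⟩ := a2 _ c12
  obtain ⟨u13, e13⟩ := a2 _ c13
  obtain ⟨u23, e23⟩ := a2 _ c23
  have f1 : D3 (x3 • u12 - x2 • u13 + x1 • u23) = 0 := by
    rw [map_add, map_sub, map_smul, map_smul, map_smul, ← e12, ← e13, ← e23]
    module
  have f2 := a3 _ f1
  have f3 : x3 • u12 = x2 • u13 - x1 • u23 := by
    have h : x3 • u12 - (x2 • u13 - x1 • u23) = 0 := by
      rw [← f2]; abel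
    exact sub_eq_zero.1 h
  obtain ⟨a, b, hab⟩ := r33 _ _ _ f3
  have g1 : x2 • (v1 - D3 b) = x1 • (v2 + D3 a) := by
    have h : x2 • v1 - x1 • v2 = x1 • D3 a + x2 • D3 b := by
      rw [e12, hab, map_add, map_smul, map_smul]
    have h' : x2 • v1 = x1 • v2 + (x1 • D3 a + x2 • D3 b) := by
      rw [← h]; abel
    rw [smul_sub, h']
    module
  obtain ⟨v, hv⟩ := r22 _ _ g1
  refine ⟨v, ?_⟩
  have g2 : x1 • (w - D2 v) = 0 := by
    have h : D2 (v1 - D3 b) = x1 • D2 v := by rw [hv, map_smul]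
    rw [map_sub, h23, sub_zero] at h
    rw [smul_sub, h1, h, sub_self]
  exact sub_eq_zero.1 (r11 _ g2)

end Pool.Agent.H21V
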