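import Pool.Agent.Lib.H21V.K4
import Pool.Agent.Lib.H21V.LE
import Pool.Agent.Lib.H21V.A1

set_option autoImplicit false

open CategoryTheory IsLocalRing
open Pool.Agent.Lib.Helper92 Pool.Agent.Lib.H44V

namespace Pool.Agent.H21V
universe u


variable {A : Type u} [CommRing A] {I : Ideal A} {n1 n2 n3 : ℕ}

/-- CHUNK Du (S/M).  The dual complex is exact.
Proof.  `acyclic` (LE) with `G3 := A`, `G2 := (Fin n1 → A) →ₗ[A] A`, `G1 := (Fin n2 → A) →ₗ[A] A`,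
`G0 := (Fin n3 → A) →ₗ[A] A`, `D3 l := l • F.d1`, `D2 φ := φ ∘ₗ F.d2` (`F.d2.dualMap` or `LinearMap.lcomp`),
`D1 ψ := ψ ∘ₗ F.d3`, `x1, x2, x3 := x 0, x 1, x 2`; the hypotheses `r..` from `reg_free` (the duals of `Fin n → A` are
free and finite).  `x j = F.d1 (e j)` (`F.hr`).  Homotopies, for `e` with `F.d1 e = y`:
`ψ ∘ F.d3 = 0`: `y * ψ c = ψ (F.d1 e • c) = ψ (F.d3 (P.p e c) + P.m e (F.d2 c)) = ψ (P.m e (F.d2 c))`, so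
`y • ψ = (ψ ∘ P.m e) ∘ F.d2`.
`φ ∘ F.d2 = 0`: `y * φ b = φ (F.d1 e • b) = φ (F.d2 (P.m e b) + F.d1 b • e) = F.d1 b * φ e`, so `y • φ = φ e • F.d1`.
`l • F.d1 = 0`: `l * y = 0` (evaluate at `e`). -/
theorem dual_exact (F : Res A I n1 n2 n3) (P : Prd F) (x : ℕ → A)
    (h : ∀ j < 3, IsSMulRegular (A ⧸ Jx x j) (x j)) (hx : ∀ j < 3, x j ∈ I) :
    (∀ ψ : (Fin n2 → A) →ₗ[A] A, ψ ∘ₗ F.d3 = 0 →
      ∃ φ : (Fin n1 → A) →ₗ[A] A, ψ = φ ∘ₗ F.d2) ∧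
    (∀ φ : (Fin n1 → A) →ₗ[A] A, φ ∘ₗ F.d2 = 0 → ∃ l : A, φ = l • F.d1) ∧
    ∀ l : A, l • F.d1 = 0 → l = 0 := by
  have hk1 : ∀ y ∈ I, ∀ ψ : (Fin n2 → A) →ₗ[A] A, ψ ∘ₗ F.d3 = 0 →
      ∃ φ : (Fin n1 → A) →ₗ[A] A, y • ψ = φ ∘ₗ F.d2 := by
    intro y hy ψ hψ
    rw [← F.hr] at hy
    obtain ⟨e, rfl⟩ := hy
    refine ⟨ψ ∘ₗ P.m e, LinearMap.ext fun c => ?_⟩
    have h1 := LinearMap.congr_fun hψ (P.p e c)
    rw [LinearMap.comp_apply, P.dp, map_sub, map_smul, LinearMap.zero_apply, sub_eq_zero] at h1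
    rw [LinearMap.smul_apply, h1]
    rfl
  have hk2 : ∀ y ∈ I, ∀ φ : (Fin n1 → A) →ₗ[A] A, φ ∘ₗ F.d2 = 0 →
      ∃ l : A, y • φ = l • F.d1 := by
    intro y hy φ hφ
    rw [← F.hr] at hy
    obtain ⟨e, rfl⟩ := hy
    refine ⟨φ e, LinearMap.ext fun b => ?_⟩
    have h1 := LinearMap.congr_fun hφ (P.m e b)
    rw [LinearMap.comp_apply, P.dm, map_sub, map_smul, map_smul, LinearMap.zero_apply,
      sub_eq_zero] at h1
    rw [LinearMap.smul_apply, LinearMap.smul_apply, h1, smul_eq_mul, smul_eq_mul, mul_comm]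
  have hk3 : ∀ y ∈ I, ∀ l : A, l • F.d1 = 0 → y • l = 0 := by
    intro y hy l hl
    rw [← F.hr] at hy
    obtain ⟨e, rfl⟩ := hy
    have h1 := LinearMap.congr_fun hl e
    rw [LinearMap.smul_apply, LinearMap.zero_apply, smul_eq_mul] at h1
    rw [smul_eq_mul, mul_comm]
    exact h1
  obtain ⟨g1a, -, -⟩ := reg_free x h ((Fin n2 → A) →ₗ[A] A)
  obtain ⟨g2a, g2b, -⟩ := reg_free x h ((Fin n1 → A) →ₗ[A] A)
  obtain ⟨g3a, g3b, g3c⟩ := reg_free x h A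
  have m0 := hx 0 (by norm_num)
  have m1 := hx 1 (by norm_num)
  have m2 := hx 2 (by norm_num)
  exact acyclic (A := A) (G0 := (Fin n3 → A) →ₗ[A] A) (G1 := (Fin n2 → A) →ₗ[A] A)
    (G2 := (Fin n1 → A) →ₗ[A] A) (G3 := A) (LinearMap.lcomp A A F.d3) (LinearMap.lcomp A A F.d2)
    (LinearMap.toSpanSingleton A _ F.d1)
    (fun g => LinearMap.ext fun c => by
      change g (F.d2 (F.d3 c)) = 0
      rw [F.z2, map_zero])
    (fun g => LinearMap.ext fun c => by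
      change g • F.d1 (F.d2 c) = 0
      rw [F.z1, smul_zero])
    (x 0) (x 1) (x 2) g1a g2a g2b g3a g3b g3c
    (fun ψ hψ => ⟨hk1 _ m0 ψ hψ, hk1 _ m1 ψ hψ, hk1 _ m2 ψ hψ⟩)
    (fun φ hφ => ⟨hk2 _ m0 φ hφ, hk2 _ m1 φ hφ⟩) (fun l hl => hk3 _ m0 l hl)

end Pool.Agent.H21V
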