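import Pool.Agent.Lib.H21V.D0

set_option autoImplicit false

open CategoryTheory IsLocalRing
open Pool.Agent.Lib.Helper92 Pool.Agent.Lib.H44V

namespace Pool.Agent.H21V
universe u

variable {R : Type u} [CommRing R]

/-- CHUNK E1 (S/M).  Proportional functions are multiples.
Proof.  Let `K := {y | ∃ ρ, ∀ v, y * δ v = ρ * θ v}`: it is an ideal (add the `ρ`, multiply) and it contains
every `θ w` (take `ρ := δ w`, `hp`), so it contains `Ideal.span (Set.range θ)`; hence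
`y₁ * δ v = ρ₁ * θ v`, `y₂ * δ v = ρ₂ * θ v` for all `v`.
Let `c := y₂ * ρ₁ - y₁ * ρ₂`; `c * θ v = y₂ y₁ δ v - y₁ y₂ δ v = 0` for all `v`, so `c` kills the span, so
`y₁ * c = 0` and `c = 0`.  `hy.2` gives `ρ₁ = y₁ * ρ`; then `y₁ * (δ v - ρ * θ v) = 0`. -/
theorem gen {X : Type*} (θ δ : X → R) (y₁ y₂ : R) (hy : RegPair y₁ y₂)
    (m1 : y₁ ∈ Ideal.span (Set.range θ)) (m2 : y₂ ∈ Ideal.span (Set.range θ))
    (hp : ∀ v w, δ v * θ w = δ w * θ v) : ∃ ρ : R, ∀ v, δ v = ρ * θ v := by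
  have key : ∀ y ∈ Ideal.span (Set.range θ), ∃ ρ, ∀ v, y * δ v = ρ * θ v := by
    intro y hyy
    induction hyy using Submodule.span_induction with
    | mem x hx =>
      obtain ⟨w, rfl⟩ := hx
      exact ⟨δ w, fun v => by rw [mul_comm, hp v w]⟩
    | zero => exact ⟨0, fun v => by simp⟩
    | add x y _ _ hx hy =>
      obtain ⟨a, ha⟩ := hx
      obtain ⟨b, hb⟩ := hy
      exact ⟨a + b, fun v => by rw [add_mul, add_mul, ha, hb]⟩
    | smul c x _ hx =>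
      obtain ⟨a, ha⟩ := hx
      exact ⟨c * a, fun v => by rw [smul_eq_mul, mul_assoc, ha, mul_assoc]⟩
  obtain ⟨ρ₁, h1⟩ := key y₁ m1
  obtain ⟨ρ₂, h2⟩ := key y₂ m2
  have hc : ∀ y ∈ Ideal.span (Set.range θ), (y₂ * ρ₁ - y₁ * ρ₂) * y = 0 := by
    intro y hyy
    induction hyy using Submodule.span_induction with
    | mem x hx =>
      obtain ⟨w, rfl⟩ := hx
      linear_combination (-y₂) * h1 w + y₁ * h2 w
    | zero => simp
    | add x y _ _ hx hy => rw [mul_add, hx, hy, add_zero]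
    | smul c x _ hx => rw [smul_eq_mul, mul_left_comm, hx, mul_zero]
  have h0 : y₂ * ρ₁ - y₁ * ρ₂ = 0 := hy.1 _ (by rw [mul_comm]; exact hc y₁ m1)
  obtain ⟨ρ, hρ⟩ := hy.2 ρ₁ ρ₂ (sub_eq_zero.mp h0)
  refine ⟨ρ, fun v => sub_eq_zero.mp (hy.1 _ ?_)⟩
  rw [mul_sub, h1 v, hρ]; ring

end Pool.Agent.H21V
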