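import Pool.Agent.Lib.H21V.D0

set_option autoImplicit false

open CategoryTheory IsLocalRing
open Pool.Agent.Lib.Helper92 Pool.Agent.Lib.H44V

namespace Pool.Agent.H21V
universe u

variable {R : Type u} [CommRing R]

/-- CHUNK E2a (S/M).  Powers of a regular pair.
Proof.  `RegPair y₁ (y₂ ^ l)`: induction on `l`: `y₂ ^ (l+1) * a = y₁ * b`: `y₂ * (y₂ ^ l * a) = y₁ * b`, so
`y₂ ^ l * a = y₁ * c`, so `a ∈ (y₁)`; `l = 0`: `a = y₁ * b`.  Then, with `z := y₂ ^ l`, `RegPair (y₁ ^ l') z` by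
induction on `l'`: `z * a = y₁ ^ (l'+1) * b = y₁ ^ l' * (y₁ * b)`, so `a = y₁ ^ l' * c`,
`y₁ ^ l' * (z * c - y₁ * b) = 0`, so `z * c = y₁ * b`, `c = y₁ * c'`. -/
theorem RegPair.pow {y₁ y₂ : R} (h : RegPair y₁ y₂) (l : ℕ) : RegPair (y₁ ^ l) (y₂ ^ l) := by
  have h1 : ∀ l : ℕ, RegPair y₁ (y₂ ^ l) := by
    intro l
    induction l with
    | zero => exact ⟨h.1, fun a b hab => ⟨b, by simpa using hab⟩⟩
    | succ l ih =>
      refine ⟨h.1, fun a b hab => ?_⟩
      obtain ⟨c, hc⟩ := h.2 (y₂ ^ l * a) b (by rw [← hab]; ring)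
      exact ih.2 a c hc
  have h2 : ∀ z : R, RegPair y₁ z → ∀ k : ℕ, RegPair (y₁ ^ k) z := by
    intro z hz k
    induction k with
    | zero => exact ⟨fun a ha => by simpa using ha, fun a b _ => ⟨a, by simp⟩⟩
    | succ k ih =>
      refine ⟨fun a ha => ?_, fun a b hab => ?_⟩
      · have h3 : y₁ ^ k * (y₁ * a) = 0 := by rw [← ha]; ring
        exact h.1 a (ih.1 _ h3)
      · obtain ⟨c, hc⟩ := ih.2 a (y₁ * b) (by rw [hab]; ring)
        have h4 : y₁ ^ k * (z * c - y₁ * b) = 0 := by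
          have : z * a = y₁ ^ k * (y₁ * b) := by rw [hab]; ring
          rw [hc] at this
          linear_combination this
        have h5 : z * c = y₁ * b := sub_eq_zero.1 (ih.1 _ h4)
        obtain ⟨c', hc'⟩ := hz.2 c b h5
        exact ⟨c', by rw [hc, hc']; ring⟩
  exact h2 _ (h1 l) l

/-- CHUNK E2b (S/M).  An ideal which is contained in no prime other than the maximal one contains a
regular pair if the maximal ideal does.
Proof.  If a prime `Q` contains `J` then `Q = m`; so `m ≤ J.radical` (`Ideal.radical_eq_sInf`, `le_sInf`), so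
`m ^ l ≤ J` for some `l` (`Ideal.exists_pow_le_of_le_radical_of_fg`, `m` is finitely generated).
`y₁ ^ l, y₂ ^ l ∈ m ^ l ≤ J` and `RegPair.pow`. -/
theorem exists_pair [IsNoetherianRing R] [IsLocalRing R] (h2 : Two R) (J : Ideal R)
    (hJ : ∀ (Q : Ideal R) [Q.IsPrime], Q ≠ maximalIdeal R → ¬ J ≤ Q) :
    ∃ y₁ ∈ J, ∃ y₂ ∈ J, RegPair y₁ y₂ := by
  have hm : maximalIdeal R ≤ J.radical := by
    rw [Ideal.radical_eq_sInf]
    refine le_sInf ?_
    rintro Q ⟨hQ, hQp⟩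
    by_contra hne
    haveI := hQp
    refine hJ Q ?_ hQ
    rintro rfl
    exact hne le_rfl
  obtain ⟨l, hl⟩ := Ideal.exists_pow_le_of_le_radical_of_fg hm (IsNoetherian.noetherian _)
  obtain ⟨y₁, hy₁, y₂, hy₂, hp⟩ := h2
  exact ⟨y₁ ^ l, hl (Ideal.pow_mem_pow hy₁ l), y₂ ^ l, hl (Ideal.pow_mem_pow hy₂ l), hp.pow l⟩

end Pool.Agent.H21V
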