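import Pool.Agent.Lib.H21V.E2

set_option autoImplicit false

open CategoryTheory IsLocalRing
open Pool.Agent.Lib.Helper92 Pool.Agent.Lib.H44V

namespace Pool.Agent.H21V
universe u

variable {R : Type u} [CommRing R]

/-- CHUNK E3 (M).  If `M` is generated by `k` elements off the maximal ideal then two `k`-forms are
proportional.
Proof.  Fix `v, w`, `c := δ v * θ w - δ w * θ v`, `J := {s | s * c = 0}` (for instance
`LinearMap.ker (LinearMap.toSpanSingleton R R c)`).  Claim: `J` is contained in no prime `Q ≠ m`.  By `hM Q` there are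
`ν, s ∉ Q` with `s • x ∈ span (range ν)`: `s • v i = ∑ j, a i j • ν j`, `s • w i = ∑ j, b i j • ν j`
(`Submodule.mem_span_range_iff_exists_fun`).  For a form `η` let `η' := η.compLinearMap (Fintype.linearCombination R ν)`
(the linear map `(Fin k → R) → M`, `a ↦ ∑ a j • ν j`), an alternating map on `Fin k → R`;
`AlternatingMap.eq_smul_basis_det (Pi.basisFun R (Fin k)) η'` gives `η' a = η ν * det a`.  So
`s ^ k * η v = η (fun i => s • v i) = det a * η ν` (`AlternatingMap.map_smul_univ` or
`MultilinearMap.map_smul_univ`, `Finset.prod_const`), and the same with `w, b`.  Hence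
`s ^ k * s ^ k * c = det a * η_δ ν * det b * η_θ ν - det b * .. * det a * .. = 0` and `s ^ k * s ^ k ∉ Q`.
By `exists_pair` there is `y₁ ∈ J` with `RegPair y₁ _`: `y₁ * c = 0`, so `c = 0`. -/
theorem prop_forms [IsNoetherianRing R] [IsLocalRing R] (h2 : Two R) {M : Type u} [AddCommGroup M]
    [Module R M] {k : ℕ}
    (hM : ∀ (Q : Ideal R) [Q.IsPrime], Q ≠ maximalIdeal R → GenAt Q M k)
    (θ δ : M [⋀^Fin k]→ₗ[R] R) (v w : Fin k → M) : δ v * θ w = δ w * θ v := by
  obtain ⟨c, hc⟩ : ∃ c : R, c = δ v * θ w - δ w * θ v := ⟨_, rfl⟩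
  have hform : ∀ (η : M [⋀^Fin k]→ₗ[R] R) (ν : Fin k → M) (s : R) (x : Fin k → M)
      (a : Fin k → Fin k → R), (∀ i, ∑ j, a i j • ν j = s • x i) →
      s ^ k * η x = η ν * (Pi.basisFun R (Fin k)).det a := by
    intro η ν s x a ha
    have h1 : s ^ k * η x = η (fun i => s • x i) := by
      rw [AlternatingMap.map_smul_univ]
      simp
    have h3 : (η.compLinearMap (Fintype.linearCombination R ν)) a =
        η ν * (Pi.basisFun R (Fin k)).det a := by
      rw [AlternatingMap.eq_smul_basis_det (Pi.basisFun R (Fin k))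
        (η.compLinearMap (Fintype.linearCombination R ν))]
      rw [AlternatingMap.smul_apply, smul_eq_mul]
      refine congrArg (fun z => z * _) ?_
      rw [AlternatingMap.compLinearMap_apply]
      refine congrArg η ?_
      funext j
      simp [Fintype.linearCombination_apply]
    rw [h1, ← h3, AlternatingMap.compLinearMap_apply]
    refine congrArg η ?_
    funext i
    rw [← ha i]
    simp [Fintype.linearCombination_apply]
  have hJ : ∀ (Q : Ideal R) [Q.IsPrime], Q ≠ maximalIdeal R →
      ¬ LinearMap.ker (LinearMap.toSpanSingleton R R c) ≤ Q := by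
    intro Q hQ hne hle
    obtain ⟨ν, s, hs, hx⟩ := hM Q hne
    have hv : ∀ i, ∃ a : Fin k → R, ∑ j, a j • ν j = s • v i := fun i =>
      (Submodule.mem_span_range_iff_exists_fun R).1 (hx (v i))
    have hw : ∀ i, ∃ a : Fin k → R, ∑ j, a j • ν j = s • w i := fun i =>
      (Submodule.mem_span_range_iff_exists_fun R).1 (hx (w i))
    choose a ha using hv
    choose b hb using hw
    have e1 := hform δ ν s v a ha
    have e2 := hform θ ν s w b hb
    have e3 := hform δ ν s w b hb
    have e4 := hform θ ν s v a ha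
    have hz : (s ^ k * s ^ k) * c = 0 := by
      rw [hc]
      calc (s ^ k * s ^ k) * (δ v * θ w - δ w * θ v)
          = (s ^ k * δ v) * (s ^ k * θ w) - (s ^ k * δ w) * (s ^ k * θ v) := by ring
        _ = 0 := by rw [e1, e2, e3, e4]; ring
    have hmem : s ^ k * s ^ k ∈ LinearMap.ker (LinearMap.toSpanSingleton R R c) := by
      rw [LinearMap.mem_ker, LinearMap.toSpanSingleton_apply, smul_eq_mul]
      exact hz
    have hin := hle hmem
    rw [← pow_add] at hin
    exact hs (hQ.mem_of_pow_mem _ hin)
  obtain ⟨y₁, hy₁, _, _, hp⟩ := exists_pair h2 _ hJ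
  rw [LinearMap.mem_ker, LinearMap.toSpanSingleton_apply, smul_eq_mul] at hy₁
  have h0 := hp.1 c hy₁
  rw [hc] at h0
  exact sub_eq_zero.1 h0

end Pool.Agent.H21V
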