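import Pool.Agent.Lib.H21V.E1
import Pool.Agent.Lib.H21V.E3

set_option autoImplicit false

open CategoryTheory IsLocalRing
open Pool.Agent.Lib.Helper92 Pool.Agent.Lib.H44V

namespace Pool.Agent.H21V
universe u

variable {R : Type u} [CommRing R]

/-- CHUNK E4a (S).  Proof.  `J := Ideal.span (Set.range θ)` is contained in no prime `Q ≠ m` (`hθ`), so it
contains a regular pair (`exists_pair`); `gen` with `prop_forms`; `AlternatingMap.ext`. -/
theorem form_mul [IsNoetherianRing R] [IsLocalRing R] (h2 : Two R) {M : Type u} [AddCommGroup M]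
    [Module R M] {k : ℕ}
    (hM : ∀ (Q : Ideal R) [Q.IsPrime], Q ≠ maximalIdeal R → GenAt Q M k)
    (θ : M [⋀^Fin k]→ₗ[R] R)
    (hθ : ∀ (Q : Ideal R) [Q.IsPrime], Q ≠ maximalIdeal R → ∃ v, θ v ∉ Q)
    (δ : M [⋀^Fin k]→ₗ[R] R) : ∃ ρ : R, δ = ρ • θ := by
  obtain ⟨y₁, m1, y₂, m2, hy⟩ := exists_pair h2 (Ideal.span (Set.range fun v => θ v)) (by
    intro Q _ hQ hle
    obtain ⟨v, hv⟩ := hθ Q hQ
    exact hv (hle (Ideal.subset_span ⟨v, rfl⟩)))
  obtain ⟨ρ, hρ⟩ := gen (fun v => θ v) (fun v => δ v) y₁ y₂ hy m1 m2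
    (fun v w => prop_forms h2 hM θ δ v w)
  refine ⟨ρ, AlternatingMap.ext fun v => ?_⟩
  rw [AlternatingMap.smul_apply, smul_eq_mul]
  exact hρ v

/-- CHUNK E4b (S).  Proof.  The ideal `span (range θ)` contains `y₁` with `y₁ * a = 0 → a = 0`
(`exists_pair`), and `ρ` kills the span. -/
theorem form_faithful [IsNoetherianRing R] [IsLocalRing R] (h2 : Two R) {M : Type u}
    [AddCommGroup M] [Module R M] {k : ℕ} (θ : M [⋀^Fin k]→ₗ[R] R)
    (hθ : ∀ (Q : Ideal R) [Q.IsPrime], Q ≠ maximalIdeal R → ∃ v, θ v ∉ Q) (ρ : R)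
    (h : ∀ v, ρ * θ v = 0) : ρ = 0 := by
  obtain ⟨y₁, m1, y₂, m2, hy⟩ := exists_pair h2 (Ideal.span (Set.range fun v => θ v)) (by
    intro Q _ hQ hle
    obtain ⟨v, hv⟩ := hθ Q hQ
    exact hv (hle (Ideal.subset_span ⟨v, rfl⟩)))
  have key : ∀ y ∈ Ideal.span (Set.range fun v => θ v), y * ρ = 0 := by
    intro y hy'
    refine Submodule.span_induction (p := fun y _ => y * ρ = 0) ?_ ?_ ?_ ?_ hy'
    · rintro _ ⟨v, rfl⟩
      rw [mul_comm]
      exact h v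
    · exact zero_mul ρ
    · intro x y _ _ hx hy1
      rw [add_mul, hx, hy1, add_zero]
    · intro a x _ hx
      rw [smul_eq_mul, mul_assoc, hx, mul_zero]
  exact hy.1 ρ (key y₁ m1)

end Pool.Agent.H21V
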