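import Pool.Agent.Lib.H21V.D0

set_option autoImplicit false

open CategoryTheory IsLocalRing
open Pool.Agent.Lib.Helper92 Pool.Agent.Lib.H44V

namespace Pool.Agent.H21V
universe u

variable {R : Type u} [CommRing R]

/-- CHUNK F1 (M).  Free of rank `k` at `Q` implies generated by `k` elements at `Q`.
Proof.  `B := Localization.AtPrime Q`, `L := LocalizedModule Q.primeCompl M`, `ℓ := LocalizedModule.mkLinearMap _ M`.
`L` is free and finite with `finrank = k`: basis `b : Fin k → L` (`Module.finBasisOfFinrankEq`).  Every `b j` is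
`ℓ (ν j)` divided by some `t j ∉ Q` (`IsLocalizedModule.surj` or `LocalizedModule.induction_on`).
`M` is generated by finitely many `g l` (`Module.Finite.exists_fin`).  `ℓ (g l) = ∑ j, c l j • b j`; clear the denominators
of `c l j` and of `b j`: there are `s l ∉ Q` and `a l j : R` with `ℓ (s l • g l) = ℓ (∑ j, a l j • ν j)`, and then
(`IsLocalizedModule.exists_of_eq`) `u l ∉ Q` with `u l • s l • g l = u l • ∑ j, a l j • ν j`.
`s := ∏ l, u l * s l ∉ Q`; `s • g l ∈ span (range ν)` for all `l`, so for all `x` (the set of these `x` is a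
submodule containing the generators). -/
theorem genAt_of_frAt (Q : Ideal R) [Q.IsPrime] {M : Type u} [AddCommGroup M] [Module R M]
    [Module.Finite R M] {k : ℕ} (h : FrAt Q M k) : GenAt Q M k := by
  classical
  obtain ⟨hfree, hrank⟩ := h
  obtain ⟨ℓ, hℓ⟩ : ∃ ℓ : M →ₗ[R] LocalizedModule Q.primeCompl M, ℓ = LocalizedModule.mkLinearMap Q.primeCompl M := ⟨_, rfl⟩
  haveI hloc : IsLocalizedModule Q.primeCompl ℓ := by
    rw [hℓ]
    infer_instance
  haveI hfin : Module.Finite (Localization.AtPrime Q) (LocalizedModule Q.primeCompl M) :=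
    Module.Finite.of_isLocalizedModule Q.primeCompl ℓ
  have b : Module.Basis (Fin k) (Localization.AtPrime Q) (LocalizedModule Q.primeCompl M) :=
    Module.finBasisOfFinrankEq (Localization.AtPrime Q) (LocalizedModule Q.primeCompl M) hrank
  have h1 : ∀ j, ∃ (n : M) (t : R), t ∉ Q ∧ t • b j = ℓ n := by
    intro j
    obtain ⟨⟨n, t⟩, ht⟩ := IsLocalizedModule.surj Q.primeCompl ℓ (b j)
    exact ⟨n, t, t.2, ht⟩
  choose ν t ht hν using h1
  have key : ∀ y : LocalizedModule Q.primeCompl M, ∃ s : R, s ∉ Q ∧
      ∃ n ∈ Submodule.span R (Set.range ν), s • y = ℓ n := by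
    intro y
    have hy := b.mem_span y
    induction hy using Submodule.span_induction with
    | mem y hy =>
      obtain ⟨j, rfl⟩ := hy
      exact ⟨t j, ht j, ν j, Submodule.subset_span ⟨j, rfl⟩, hν j⟩
    | zero =>
      refine ⟨1, fun h => ?_, 0, Submodule.zero_mem _, ?_⟩
      · exact (Ideal.IsPrime.ne_top ‹_›) ((Ideal.eq_top_iff_one Q).2 h)
      · rw [smul_zero, map_zero]
    | add y y' _ _ ihy ihy' =>
      obtain ⟨s, hs, n, hn, e⟩ := ihy
      obtain ⟨s', hs', n', hn', e'⟩ := ihy'
      refine ⟨s * s', fun h => ?_, s' • n + s • n', Submodule.add_mem _ (Submodule.smul_mem _ _ hn) (Submodule.smul_mem _ _ hn'), ?_⟩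
      · rcases Ideal.IsPrime.mem_or_mem ‹_› h with h | h
        · exact hs h
        · exact hs' h
      · rw [map_add, map_smul, map_smul, ← e, ← e', smul_add, smul_smul, smul_smul, mul_comm s' s]
    | smul c y _ ihy =>
      obtain ⟨s, hs, n, hn, e⟩ := ihy
      obtain ⟨r, u, hc⟩ := IsLocalization.exists_mk'_eq Q.primeCompl c
      refine ⟨s * (u : R), fun h => ?_, r • n, Submodule.smul_mem _ _ hn, ?_⟩
      · rcases Ideal.IsPrime.mem_or_mem ‹_› h with h | h
        · exact hs h
        · exact u.2 h
      · have h2 : (u : R) • (c • y) = r • y := by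
          rw [← algebraMap_smul (Localization.AtPrime Q) (u : R) (c • y), smul_smul,
            ← algebraMap_smul (Localization.AtPrime Q) r y, ← hc, mul_comm, IsLocalization.mk'_spec]
        rw [mul_smul, h2, smul_comm, e, map_smul]
  have hx : ∀ x : M, ∃ s : R, s ∉ Q ∧ s • x ∈ Submodule.span R (Set.range ν) := by
    intro x
    obtain ⟨s, hs, n, hn, e⟩ := key (ℓ x)
    rw [← map_smul] at e
    obtain ⟨c, hc⟩ := IsLocalizedModule.exists_of_eq (S := Q.primeCompl) (f := ℓ) e
    refine ⟨(c : R) * s, fun h => ?_, ?_⟩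
    · rcases Ideal.IsPrime.mem_or_mem ‹_› h with h | h
      · exact c.2 h
      · exact hs h
    · have h2 : ((c : R) * s) • x = (c : R) • n := by
        rw [mul_smul]
        exact hc
      rw [h2]
      exact Submodule.smul_mem _ _ hn
  obtain ⟨m, g, hg⟩ := Module.Finite.exists_fin (R := R) (M := M)
  choose s hs hsg using fun l => hx (g l)
  refine ⟨ν, ∏ l, s l, ?_, fun x => ?_⟩
  · intro h
    have h2 : ∏ l, s l ∈ Q.primeCompl := Submonoid.prod_mem _ fun l _ => hs l
    exact h2 h
  · have hxs : x ∈ Submodule.span R (Set.range g) := by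
      rw [hg]
      exact Submodule.mem_top
    induction hxs using Submodule.span_induction with
    | mem y hy =>
      obtain ⟨l, rfl⟩ := hy
      rw [← Finset.prod_erase_mul Finset.univ s (Finset.mem_univ l), mul_smul]
      exact Submodule.smul_mem _ _ (hsg l)
    | zero =>
      rw [smul_zero]
      exact Submodule.zero_mem _
    | add y y' _ _ ihy ihy' =>
      rw [smul_add]
      exact Submodule.add_mem _ ihy ihy'
    | smul c y _ ihy =>
      rw [smul_comm]
      exact Submodule.smul_mem _ _ ihy

end Pool.Agent.H21V
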