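import Pool.Agent.Lib.H21V.D0
import Pool.Agent.Lib.H44V.A3

set_option autoImplicit false

open CategoryTheory IsLocalRing
open Pool.Agent.Lib.Helper92 Pool.Agent.Lib.H44V

namespace Pool.Agent.H21V
universe u

variable {R : Type u} [CommRing R]

/-- the kernel of a split surjection is projective -/
theorem f2_split (A : Type u) [CommRing A] {K G Y : Type u} [AddCommGroup K]
    [Module A K] [AddCommGroup G] [Module A G] [AddCommGroup Y] [Module A Y] [Module.Free A G]
    [Module.Free A Y] (f : K →ₗ[A] G) (g : G →ₗ[A] Y)
    (hf : Function.Injective f) (hg : Function.Surjective g) (hfg : Function.Exact f g) :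
    Module.Projective A K := by
  obtain ⟨s, hs⟩ := Module.projective_lifting_property g LinearMap.id hg
  obtain ⟨e, -⟩ := hfg.splitSurjectiveEquiv hf ⟨s, hs⟩
  refine Module.Projective.of_split (e.symm.toLinearMap ∘ₗ LinearMap.inl _ _ _)
    (LinearMap.fst _ _ _ ∘ₗ e.toLinearMap) ?_
  refine LinearMap.ext fun x => ?_
  simp

/-- CHUNK F2 (S/M).  The kernel of a surjection of a free module onto a module which is free at `Q`.
Proof.  Localize at `Q` (`LocalizedModule.map_injective`, `map_surjective`, `map_exact`, as in `H44V.A3_seq`): `N_Q` is free, so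
projective, so the sequence splits (`Module.projective_lifting_property` and
`Function.Exact.splitSurjectiveEquiv`, as in `H44V.A3_split`); `K_Q` is a direct summand of `(R^g)_Q`, which is free
(`Module.Free`, instance for `LocalizedModule`, or through `LocalizedModule` of `Fin g → R` with
`IsLocalizedModule.iso`), so `K_Q` is projective (`Module.Projective.of_split`) and finite (a quotient of
`(R^g)_Q`), so free over the local ring `R_Q` (`Module.free_of_flat_of_isLocalRing`).  `A3_split`:
`finrank (R^g)_Q = finrank K_Q + finrank N_Q`, and `finrank (R^g)_Q = g`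
(`Module.finrank_of_isLocalizedModule_of_free` or
`IsLocalizedModule` + `Module.finrank_baseChange`; look how `A3.lean` does it).  `k := finrank K_Q`. -/
theorem ker_frAt (Q : Ideal R) [Q.IsPrime] {g r : ℕ} {K N : Type u} [AddCommGroup K] [Module R K]
    [AddCommGroup N] [Module R N] [Module.Finite R K] [Module.Finite R N]
    (i : K →ₗ[R] (Fin g → R)) (π : (Fin g → R) →ₗ[R] N) (hi : Function.Injective i)
    (hπ : Function.Surjective π) (hex : Function.Exact i π) (hN : FrAt Q N r) :
    ∃ k, k + r = g ∧ FrAt Q K k := by
  have hfN : Module.Free (Localization.AtPrime Q) (LocalizedModule Q.primeCompl N) := hN.1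
  have e1 := LocalizedModule.map_injective Q.primeCompl i hi
  have e2 := LocalizedModule.map_surjective Q.primeCompl π hπ
  have e3 := LocalizedModule.map_exact Q.primeCompl i π hex
  have hfG : Module.Free (Localization.AtPrime Q) (LocalizedModule Q.primeCompl (Fin g → R)) :=
    Module.free_of_isLocalizedModule Q.primeCompl (LocalizedModule.mkLinearMap Q.primeCompl (Fin g → R))
  have hp : Module.Projective (Localization.AtPrime Q) (LocalizedModule Q.primeCompl K) :=
    f2_split (Localization.AtPrime Q) (LocalizedModule.map Q.primeCompl i)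
      (LocalizedModule.map Q.primeCompl π) e1 e2 e3
  have hfK : Module.Free (Localization.AtPrime Q) (LocalizedModule Q.primeCompl K) :=
    Module.free_of_flat_of_isLocalRing
  have h3 := A3_seq Q i π hi hπ hex
  have hQ : Nontrivial R := by
    refine nontrivial_of_ne (0 : R) 1 fun h => ?_
    apply (inferInstance : Q.IsPrime).ne_top
    rw [Ideal.eq_top_iff_one, ← h]
    exact Q.zero_mem
  have h4 := Module.finrank_of_isLocalizedModule_of_free (Localization.AtPrime Q) Q.primeCompl
    (LocalizedModule.mkLinearMap Q.primeCompl (Fin g → R))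
  rw [Module.finrank_fin_fun] at h4
  rw [h4, hN.2] at h3
  exact ⟨_, h3.symm, hfK, rfl⟩

end Pool.Agent.H21V
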