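import Pool.Agent.Lib.H21V.E4

set_option autoImplicit false

open CategoryTheory IsLocalRing
open Pool.Agent.Lib.Helper92 Pool.Agent.Lib.H44V

namespace Pool.Agent.H21V
universe u

variable {R : Type u} [CommRing R]

theorem f3a_key {k r : ℕ} {K : Type u} [AddCommGroup K] [Module R K] (i : K →ₗ[R] (Fin k ⊕ Fin r → R))
    (κ : Fin k → K) (n : Fin r → (Fin k ⊕ Fin r → R)) (j₀ : Fin r) (κ' : K) (h : n j₀ = i κ')
    (ν : Fin k → K) (s : R) (hs : ∀ x : K, s • x ∈ Submodule.span R (Set.range ν)) :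
    s ^ Fintype.card (Fin k ⊕ Fin r) * Matrix.det (Matrix.of (Sum.elim (fun l => i (κ l)) n)) = 0 := by
  classical
  have h1 : ∀ x : K, ∃ c : Fin k → R, ∑ m, c m • ν m = s • x := fun x =>
    (Submodule.mem_span_range_iff_exists_fun R).1 (hs x)
  choose c hc using h1
  have h2 : ∀ (x : K) (q : Fin k ⊕ Fin r), ∑ m, c x m * i (ν m) q = s * i x q := by
    intro x q
    have e := congrFun (congrArg i (hc x)) q
    rw [map_sum, map_smul, Pi.smul_apply, smul_eq_mul, Finset.sum_apply] at e
    rw [← e]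
    refine Finset.sum_congr rfl fun m _ => ?_
    rw [map_smul, Pi.smul_apply, smul_eq_mul]
  have key : (Matrix.of (Sum.elim (fun l => Sum.elim (c (κ l)) (0 : Fin r → R))
      (fun j => if j = j₀ then Sum.elim (c κ') (0 : Fin r → R) else Sum.elim (0 : Fin k → R) (Pi.single j s)))) *
      (Matrix.of (Sum.elim (fun m => i (ν m)) (fun j => if j = j₀ then 0 else n j))) =
      s • Matrix.of (Sum.elim (fun l => i (κ l)) n) := by
    ext p q
    rw [Matrix.mul_apply, Fintype.sum_sum_type, Matrix.smul_apply, smul_eq_mul]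
    rcases p with l | j
    · simp only [Matrix.of_apply, Sum.elim_inl, Sum.elim_inr, Pi.zero_apply, zero_mul, Finset.sum_const_zero, add_zero]
      exact h2 (κ l) q
    · by_cases hj : j = j₀
      · subst hj
        simp only [Matrix.of_apply, Sum.elim_inl, Sum.elim_inr, if_true, Pi.zero_apply, zero_mul, Finset.sum_const_zero, add_zero, h]
        exact h2 κ' q
      · simp only [Matrix.of_apply, Sum.elim_inl, Sum.elim_inr, if_neg hj, Pi.zero_apply, zero_mul, Finset.sum_const_zero, zero_add]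
        rw [Finset.sum_eq_single j]
        · rw [Pi.single_eq_same, if_neg hj]
        · intro j' _ hne
          rw [Pi.single_eq_of_ne hne, zero_mul]
        · intro hne
          exact absurd (Finset.mem_univ j) hne
  rw [← Matrix.det_smul, ← key, Matrix.det_mul]
  rw [Matrix.det_eq_zero_of_row_eq_zero (A := Matrix.of (Sum.elim (fun m => i (ν m)) (fun j => if j = j₀ then 0 else n j)))
    (Sum.inr j₀) (fun q => by simp [Matrix.of_apply]), mul_zero]

/-- CHUNK F3a (M).  The determinant vanishes if one of the last vectors is in `K` (too many vectors in `K`).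
Proof.  Let `c := det (Sum.elim (i ∘ κ) n)` (rows), `n j₀ = i κ'`.  The ideal `J := {s | s * c = 0}` is contained in no
prime `Q ≠ m`: take `ν, s` from `hK Q`, `s • κ l = ∑ m, a l m • ν m`, `s • κ' = ∑ m, b m • ν m`.  Let `X` be the matrix with rows
`i (ν m)` (index `inl m`), `0` (index `inr j₀`), `n j` (index `inr j`, `j ≠ j₀`), and `C` the matrix with rows: `inl l`: `a l m` at the
column `inl m`, 0 elsewhere; `inr j₀`: `b m` at the column `inl m`, 0 elsewhere; `inr j`, `j ≠ j₀`: `s` at the column `inr j`,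
0 elsewhere.  Then `C * X = s • (matrix of the rows)` (check row by row: `Matrix.mul_apply`,
`Fintype.sum_sum_type`), so `s ^ card * c = det C * det X = 0` because `X` has a zero row
(`Matrix.det_eq_zero_of_row_eq_zero`).  Then `exists_pair` gives a non-zero-divisor in `J`, so `c = 0`. -/
theorem det_vanish [IsNoetherianRing R] [IsLocalRing R] (h2 : Two R) {k r : ℕ} {K : Type u}
    [AddCommGroup K] [Module R K] (i : K →ₗ[R] (Fin k ⊕ Fin r → R))
    (hK : ∀ (Q : Ideal R) [Q.IsPrime], Q ≠ maximalIdeal R → GenAt Q K k)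
    (κ : Fin k → K) (n : Fin r → (Fin k ⊕ Fin r → R)) (j₀ : Fin r) (κ' : K) (h : n j₀ = i κ') :
    Matrix.det (Matrix.of (Sum.elim (fun l => i (κ l)) n)) = 0 := by
  obtain ⟨c, hc⟩ : ∃ c : R, c = Matrix.det (Matrix.of (Sum.elim (fun l => i (κ l)) n)) := ⟨_, rfl⟩
  have hmem : ∀ s : R, s ∈ LinearMap.ker (LinearMap.toSpanSingleton R R c) ↔ s * c = 0 := by
    intro s
    rw [LinearMap.mem_ker, LinearMap.toSpanSingleton_apply, smul_eq_mul]
  obtain ⟨y₁, m1, y₂, m2, hy⟩ := exists_pair h2 (LinearMap.ker (LinearMap.toSpanSingleton R R c)) (by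
    intro Q _ hQ hle
    obtain ⟨ν, s, hs, hs2⟩ := hK Q hQ
    have h3 := f3a_key i κ n j₀ κ' h ν s hs2
    rw [← hc] at h3
    have h4 := hle ((hmem _).2 h3)
    exact hs (Ideal.IsPrime.mem_of_pow_mem inferInstance _ h4))
  rw [← hc]
  exact hy.1 c ((hmem _).1 m1)

end Pool.Agent.H21V
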