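import Pool.Agent.Lib.H21V.F3A

set_option autoImplicit false

open CategoryTheory IsLocalRing
open Pool.Agent.Lib.Helper92 Pool.Agent.Lib.H44V

namespace Pool.Agent.H21V
universe u

variable {R : Type u} [CommRing R]

theorem f3b_upd {k r : ℕ} {K : Type u} {W : Type u} [inst1 : DecidableEq (Fin k)]
    [inst2 : DecidableEq (Fin k ⊕ Fin r)] (i : K → W) (κ : Fin k → K) (n : Fin r → W)
    (l₀ : Fin k) (x : K) :
    (Sum.elim (fun l => i (Function.update κ l₀ x l)) n : Fin k ⊕ Fin r → W) =
      Function.update (Sum.elim (fun l => i (κ l)) n) (Sum.inl l₀) (i x) := by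
  funext j
  rcases j with l | j
  · by_cases h : l = l₀
    · subst h
      simp
    · have h' : (Sum.inl l : Fin k ⊕ Fin r) ≠ Sum.inl l₀ := fun e => h (Sum.inl.inj e)
      rw [Function.update_of_ne h']
      show i (Function.update κ l₀ x l) = i (κ l)
      rw [Function.update_of_ne h]
  · have h' : (Sum.inr j : Fin k ⊕ Fin r) ≠ Sum.inl l₀ := by simp
    rw [Function.update_of_ne h']
    rfl

theorem f3b_upr {k r : ℕ} {W : Type u} [inst1 : DecidableEq (Fin r)]
    [inst2 : DecidableEq (Fin k ⊕ Fin r)] (a : Fin k → W) (n : Fin r → W)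
    (j₀ : Fin r) (x : W) :
    (Sum.elim a (Function.update n j₀ x) : Fin k ⊕ Fin r → W) =
      Function.update (Sum.elim a n) (Sum.inr j₀) x := by
  funext j
  rcases j with l | j
  · have h' : (Sum.inl l : Fin k ⊕ Fin r) ≠ Sum.inr j₀ := by simp
    rw [Function.update_of_ne h']
    rfl
  · by_cases h : j = j₀
    · subst h
      simp
    · have h' : (Sum.inr j : Fin k ⊕ Fin r) ≠ Sum.inr j₀ := fun e => h (Sum.inr.inj e)
      rw [Function.update_of_ne h']
      show Function.update n j₀ x j = n j
      rw [Function.update_of_ne h]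

/-- the form in the first rows -/
noncomputable def f3bD {k r : ℕ} {K : Type u} [AddCommGroup K] [Module R K]
    (i : K →ₗ[R] (Fin k ⊕ Fin r → R)) (n : Fin r → (Fin k ⊕ Fin r → R)) : K [⋀^Fin k]→ₗ[R] R where
  toFun κ := (Matrix.detRowAlternating (n := Fin k ⊕ Fin r) (R := R)) (Sum.elim (fun l => i (κ l)) n)
  map_update_add' := by
    intro _ m l x y
    rw [f3b_upd, f3b_upd, f3b_upd, map_add, AlternatingMap.map_update_add]
  map_update_smul' := by
    intro _ m l c x
    rw [f3b_upd, f3b_upd, map_smul, AlternatingMap.map_update_smul]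
  map_eq_zero_of_eq' := by
    intro v l l' h hne
    exact AlternatingMap.map_eq_zero_of_eq _ _ (i := Sum.inl l) (j := Sum.inl l')
      (by show i (v l) = i (v l'); rw [h]) (fun e => hne (Sum.inl.inj e))

theorem f3bD_apply {k r : ℕ} {K : Type u} [AddCommGroup K] [Module R K]
    (i : K →ₗ[R] (Fin k ⊕ Fin r → R)) (n : Fin r → (Fin k ⊕ Fin r → R)) (κ : Fin k → K) :
    f3bD i n κ = (Matrix.detRowAlternating (n := Fin k ⊕ Fin r) (R := R)) (Sum.elim (fun l => i (κ l)) n) := rfl

theorem f3b_wd {r : ℕ} {V N : Type u} [AddCommGroup V] [Module R V] [AddCommGroup N] [Module R N]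
    (π : V →ₗ[R] N) (P : V [⋀^Fin r]→ₗ[R] R) (hP : ∀ n j, π (n j) = 0 → P n = 0) (n n' : Fin r → V)
    (h : ∀ j, π (n j) = π (n' j)) : P n = P n' := by
  classical
  have h1 : n = (n - n') + n' := by abel
  have h2 : P ((n - n') + n') = ∑ s : Finset (Fin r), P (s.piecewise (n - n') n') :=
    P.toMultilinearMap.map_add_univ (n - n') n'
  rw [h1, h2, Finset.sum_eq_single ∅]
  · rw [Finset.piecewise_empty]
  · intro s _ hs
    obtain ⟨j, hj⟩ := Finset.nonempty_iff_ne_empty.2 hs
    apply hP _ j
    rw [Finset.piecewise_eq_of_mem _ _ _ hj, Pi.sub_apply, map_sub, h j, sub_self]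
  · intro h3
    exact absurd (Finset.mem_univ _) h3

theorem f3b_desc {r : ℕ} {V N : Type u} [AddCommGroup V] [Module R V] [AddCommGroup N] [Module R N]
    (π : V →ₗ[R] N) (hπ : Function.Surjective π) (P : V [⋀^Fin r]→ₗ[R] R)
    (hP : ∀ n j, π (n j) = 0 → P n = 0) :
    ∃ η : N [⋀^Fin r]→ₗ[R] R, ∀ n : Fin r → V, η (fun j => π (n j)) = P n := by
  obtain ⟨σ, hσ⟩ := hπ.hasRightInverse
  refine ⟨{ toFun := fun v => P (fun j => σ (v j)), map_update_add' := ?_, map_update_smul' := ?_,
            map_eq_zero_of_eq' := ?_ }, ?_⟩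
  · intro _ m j x y
    have e : ∀ z, (fun l => σ (Function.update m j z l)) = Function.update (fun l => σ (m l)) j (σ z) := by
      intro z
      funext l
      by_cases h : l = j
      · subst h
        simp
      · rw [Function.update_of_ne h, Function.update_of_ne h]
    rw [e x, e y, ← AlternatingMap.map_update_add]
    apply f3b_wd π P hP
    intro l
    rw [hσ]
    by_cases h : l = j
    · subst h
      rw [Function.update_self, Function.update_self, map_add, hσ, hσ]
    · rw [Function.update_of_ne h, Function.update_of_ne h, hσ]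
  · intro _ m j c x
    have e : ∀ z, (fun l => σ (Function.update m j z l)) = Function.update (fun l => σ (m l)) j (σ z) := by
      intro z
      funext l
      by_cases h : l = j
      · subst h
        simp
      · rw [Function.update_of_ne h, Function.update_of_ne h]
    rw [e x, ← AlternatingMap.map_update_smul]
    apply f3b_wd π P hP
    intro l
    rw [hσ]
    by_cases h : l = j
    · subst h
      rw [Function.update_self, Function.update_self, map_smul, hσ]
    · rw [Function.update_of_ne h, Function.update_of_ne h, hσ]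
  · intro v l l' h hne
    exact AlternatingMap.map_eq_zero_of_eq _ _ (by show σ (v l) = σ (v l'); rw [h]) hne
  · intro n
    exact f3b_wd π P hP _ _ (fun j => hσ _)

/-- CHUNK F3b (M/L).  The form on the quotient.
Proof.  Let `D κ n := det (Sum.elim (i ∘ κ) n)` (`Matrix.detRowAlternating`).  For fixed `n` the map `κ ↦ D κ n` is an
alternating `k`-form on `K` (`MultilinearMap` with `Function.update`: `Sum.elim (i ∘ update κ l x) n =
update (Sum.elim (i ∘ κ) n) (inl l) (i x)`), so `form_mul` gives `ρ n` with `D κ n = ρ n * θ κ`, and `ρ n` is unique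
(`form_faithful`).  Uniqueness and the linearity of `D` in the rows `inr j` give: `ρ (update n j (x + y)) =
ρ (update n j x) + ρ (update n j y)`, `ρ (update n j (c • x)) = c * ρ (update n j x)`, `ρ n = 0` if `n i = n j`, `i ≠ j`.
By `det_vanish` `ρ n = 0` if some `n j ∈ range i = ker π`.  So `ρ n` depends only on `π ∘ n`: if `π (n j) = π (n' j)` for all
`j`, change one coordinate after the other (`Finset.induction` over the set of the changed coordinates, or
over `Fin r`).  Choose a section `σ : N → (Fin k ⊕ Fin r → R)` of `π` (`hπ.hasRightInverse`) and put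
`η v := ρ (σ ∘ v)`; it is multilinear because `σ (x + y)` and `σ x + σ y` have the same image under `π`, alternating
(if `v i = v j` then `σ (v i) = σ (v j)`), and `η (π ∘ n) = ρ (σ ∘ π ∘ n) = ρ n`. -/
theorem exists_form [IsNoetherianRing R] [IsLocalRing R] (h2 : Two R) {k r : ℕ} {K N : Type u}
    [AddCommGroup K] [Module R K] [AddCommGroup N] [Module R N]
    (i : K →ₗ[R] (Fin k ⊕ Fin r → R)) (π : (Fin k ⊕ Fin r → R) →ₗ[R] N)
    (hπ : Function.Surjective π) (hex : Function.Exact i π)
    (hK : ∀ (Q : Ideal R) [Q.IsPrime], Q ≠ maximalIdeal R → GenAt Q K k)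
    (θ : K [⋀^Fin k]→ₗ[R] R)
    (hθ : ∀ (Q : Ideal R) [Q.IsPrime], Q ≠ maximalIdeal R → ∃ v, θ v ∉ Q) :
    ∃ η : N [⋀^Fin r]→ₗ[R] R, ∀ (κ : Fin k → K) (n : Fin r → (Fin k ⊕ Fin r → R)),
      Matrix.det (Matrix.of (Sum.elim (fun l => i (κ l)) n)) = η (fun j => π (n j)) * θ κ := by
  have hD : ∀ (κ : Fin k → K) (n : Fin r → (Fin k ⊕ Fin r → R)),
      Matrix.det (Matrix.of (Sum.elim (fun l => i (κ l)) n)) = f3bD i n κ := fun κ n => rfl
  choose ρ hρ using fun n => form_mul h2 hK θ hθ (f3bD i n)
  have hρ' : ∀ n κ, f3bD i n κ = ρ n * θ κ := by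
    intro n κ
    rw [hρ n]
    rfl
  have uniq : ∀ n a, (∀ κ, f3bD i n κ = a * θ κ) → ρ n = a := by
    intro n a h
    have h1 := form_faithful h2 θ hθ (ρ n - a) (fun v => by
      rw [sub_mul, ← hρ' n v, ← h v, sub_self])
    exact sub_eq_zero.1 h1
  have uadd : ∀ [DecidableEq (Fin r)] (m : Fin r → (Fin k ⊕ Fin r → R)) (j : Fin r) (x y : Fin k ⊕ Fin r → R),
      ρ (Function.update m j (x + y)) = ρ (Function.update m j x) + ρ (Function.update m j y) := by
    intro _ m j x y
    apply uniq
    intro κ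
    rw [add_mul, ← hρ', ← hρ', f3bD_apply, f3bD_apply, f3bD_apply, f3b_upr, f3b_upr, f3b_upr,
      AlternatingMap.map_update_add]
  have usmul : ∀ [DecidableEq (Fin r)] (m : Fin r → (Fin k ⊕ Fin r → R)) (j : Fin r) (c : R) (x : Fin k ⊕ Fin r → R),
      ρ (Function.update m j (c • x)) = c • ρ (Function.update m j x) := by
    intro _ m j c x
    apply uniq
    intro κ
    rw [smul_eq_mul, mul_assoc, ← hρ', f3bD_apply, f3bD_apply, f3b_upr, f3b_upr,
      AlternatingMap.map_update_smul, smul_eq_mul]
  have uzero : ∀ (v : Fin r → (Fin k ⊕ Fin r → R)) (a b : Fin r), v a = v b → a ≠ b → ρ v = 0 := by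
    intro v a b hv hab
    apply uniq
    intro κ
    rw [zero_mul, f3bD_apply]
    exact AlternatingMap.map_eq_zero_of_eq _ _ (i := Sum.inr a) (j := Sum.inr b) hv
      (fun e => hab (Sum.inr.inj e))
  obtain ⟨η, hη⟩ := f3b_desc π hπ
    ({ toFun := ρ, map_update_add' := uadd, map_update_smul' := usmul,
       map_eq_zero_of_eq' := uzero } : (Fin k ⊕ Fin r → R) [⋀^Fin r]→ₗ[R] R)
    (by
      intro n j hn
      obtain ⟨κ', hκ'⟩ := (hex (n j)).1 hn
      show ρ n = 0
      apply uniq
      intro κ
      rw [zero_mul, ← hD]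
      exact det_vanish h2 i hK κ n j κ' hκ'.symm)
  refine ⟨η, fun κ n => ?_⟩
  rw [hD, hρ', hη n]
  rfl

end Pool.Agent.H21V
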