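import Pool.Agent.Lib.H21V.D0

set_option autoImplicit false

open CategoryTheory IsLocalRing
open Pool.Agent.Lib.Helper92 Pool.Agent.Lib.H44V

namespace Pool.Agent.H21V
universe u

variable {R : Type u} [CommRing R]

/-- CHUNK F4 (S/M).  A determinant outside `Q`.
Proof.  `ν, s` from `hK`, `μ, t` from `hN`, `n j` with `π (n j) = μ j`; `κ := ν`.  For a basis vector `e_l := Pi.single l 1`:
`t • π e_l = ∑ j, b l j • μ j`, so `t • e_l - ∑ j, b l j • n j ∈ ker π = range i`, `= i x_l`; `s • x_l = ∑ m, a l m • ν m`.  So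
`(s * t) • e_l = ∑ m, a l m • i (ν m) + ∑ j, (s * b l j) • n j`.  With the matrix `C` (row `l`, columns `inl m`: `a l m`, `inr j`:
`s * b l j`) and `M := of (Sum.elim (i ∘ ν) n)`: `C * M = (s * t) • 1`, so `det C * det M = (s * t) ^ card ∉ Q`. -/
theorem det_notMem (Q : Ideal R) [Q.IsPrime] {k r : ℕ} {K N : Type u} [AddCommGroup K]
    [Module R K] [AddCommGroup N] [Module R N] (i : K →ₗ[R] (Fin k ⊕ Fin r → R))
    (π : (Fin k ⊕ Fin r → R) →ₗ[R] N) (hπ : Function.Surjective π) (hex : Function.Exact i π)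
    (hK : GenAt Q K k) (hN : GenAt Q N r) :
    ∃ (κ : Fin k → K) (n : Fin r → (Fin k ⊕ Fin r → R)),
      Matrix.det (Matrix.of (Sum.elim (fun l => i (κ l)) n)) ∉ Q := by
  classical
  obtain ⟨ν, s, hs, hν⟩ := hK
  obtain ⟨μ, t, ht, hμ⟩ := hN
  choose n hn using fun j => hπ (μ j)
  have h1 : ∀ l : Fin k ⊕ Fin r, ∃ b : Fin r → R, ∑ j, b j • μ j = t • π (Pi.single l 1) :=
    fun l => (Submodule.mem_span_range_iff_exists_fun R).1 (hμ _)
  choose b hb using h1
  have h2 : ∀ l : Fin k ⊕ Fin r, ∃ x, i x = t • (Pi.single l 1 : Fin k ⊕ Fin r → R)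
      - ∑ j, b l j • n j := fun l => by
    refine (hex _).1 ?_
    rw [map_sub, map_smul, map_sum, ← hb]
    simp [hn]
  choose x hx using h2
  have h3 : ∀ l, ∃ a : Fin k → R, ∑ m, a m • ν m = s • x l :=
    fun l => (Submodule.mem_span_range_iff_exists_fun R).1 (hν _)
  choose a ha using h3
  refine ⟨ν, n, ?_⟩
  have hC : (Matrix.of fun l => Sum.elim (a l) (fun j => s * b l j)) *
      (Matrix.of (Sum.elim (fun l => i (ν l)) n)) = (s * t) • (1 : Matrix _ _ R) := by
    ext l c
    have h4 : (∑ m, a l m * i (ν m) c) = s * (t * (Pi.single l 1 : Fin k ⊕ Fin r → R) c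
        - ∑ j, b l j * n j c) := by
      have h5 := congrFun (congrArg i (ha l)) c
      rw [map_smul, hx l, map_sum] at h5
      simpa [Finset.sum_apply] using h5
    rw [Matrix.mul_apply, Fintype.sum_sum_type]
    simp only [Matrix.of_apply, Sum.elim_inl, Sum.elim_inr, Matrix.smul_apply, smul_eq_mul]
    rw [h4, Matrix.one_apply, Pi.single_apply]
    have h6 : ∑ j, s * b l j * n j c = s * ∑ j, b l j * n j c := by
      rw [Finset.mul_sum]
      exact Finset.sum_congr rfl fun j _ => by ring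
    rw [h6]
    by_cases hlc : l = c
    · subst hlc
      simp
      ring
    · rw [if_neg hlc, if_neg (Ne.symm hlc)]
      ring
  have hd := congrArg Matrix.det hC
  rw [Matrix.det_mul, Matrix.det_smul, Matrix.det_one, mul_one] at hd
  intro hQ
  have h7 : (s * t) ^ Fintype.card (Fin k ⊕ Fin r) ∈ Q := by
    rw [← hd]
    exact Q.mul_mem_left _ hQ
  have h8 := Ideal.IsPrime.mem_of_pow_mem inferInstance _ h7
  rcases Ideal.IsPrime.mem_or_mem inferInstance h8 with h9 | h9
  · exact hs h9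
  · exact ht h9

end Pool.Agent.H21V
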