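import Pool.Agent.Lib.H21V.F1
import Pool.Agent.Lib.H21V.F2
import Pool.Agent.Lib.H21V.F3B
import Pool.Agent.Lib.H21V.F4

set_option autoImplicit false

open CategoryTheory IsLocalRing
open Pool.Agent.Lib.Helper92 Pool.Agent.Lib.H44V

namespace Pool.Agent.H21V
universe u

variable {R : Type u} [CommRing R]

theorem f5_base [IsNoetherianRing R] [IsLocalRing R] (r : ℕ) (N : Type u) [AddCommGroup N]
    [Module R N] [Module.Finite R N] [Module.Free R N] (Q₀ : Ideal R) [Q₀.IsPrime]
    (hQ : FrAt Q₀ N r) :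
    ∃ θ : N [⋀^Fin r]→ₗ[R] R,
      ∀ (Q : Ideal R) [Q.IsPrime], Q ≠ maximalIdeal R → ∃ v, θ v ∉ Q := by
  have h4 := Module.finrank_of_isLocalizedModule_of_free (Localization.AtPrime Q₀) Q₀.primeCompl
    (LocalizedModule.mkLinearMap Q₀.primeCompl N)
  have h5 : Module.finrank R N = r := by rw [← h4]; exact hQ.2
  let b : Module.Basis (Fin r) R N := Module.finBasisOfFinrankEq R N h5
  refine ⟨b.det, fun Q hQp _ => ⟨b, ?_⟩⟩
  rw [Module.Basis.det_self]
  intro h1
  exact hQp.ne_top ((Ideal.eq_top_iff_one Q).mpr h1)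

/-- CHUNK F5 (M).  The determinant of a module with a finite free resolution which is free of rank `r` off
the maximal ideal is trivial.
Proof.  Induction on `n` (for all `N, r`).  If there is no prime `Q ≠ m`, take `θ = 0`.  Otherwise fix such a prime `Q₀`.
`n = 0`: `HasProjectiveDimensionLT _ 1` gives `Projective (ModuleCat.of R N)`, so `Module.Projective R N`
(`IsProjective.iff_projective`), so `N` is free (`Module.free_of_flat_of_isLocalRing`) with a basis `b : Fin g → N`
(`Module.finBasis`); the localized basis shows `finrank N_Q₀ = g`, so `g = r` (`hN Q₀`); `θ := b.det`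
(`Basis.det`), `θ b = 1 ∉ Q`.
`n + 1`: `π : (Fin g → R) → N` surjective (`Module.Finite.exists_fin'`), `K := ker π` (finite, `R` Noetherian),
`HasProjectiveDimensionLT (of K) (n + 1)` (`ShortExact.hasProjectiveDimensionLT_X₁`-pattern, see
`Helper92.free_of_pd`, or `hasProjectiveDimensionLT_X₃_iff`).  `ker_frAt Q₀` gives `k + r = g`; for every `Q ≠ m`
`ker_frAt Q` gives `k' + r = g`, so `k' = k` and `FrAt Q K k`.  Reindex `Fin g → R ≃ (Fin k ⊕ Fin r → R)`
(`finSumFinEquiv`, `LinearEquiv.funCongrLeft`).  The induction hypothesis for `K, k` gives `θ`;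
`exists_form` gives `η`; for `Q ≠ m` `det_notMem` gives `κ, n` with `η (π ∘ n) * θ κ ∉ Q`, so `η (π ∘ n) ∉ Q`. -/
theorem det_form [IsNoetherianRing R] [IsLocalRing R] (h2 : Two R) (n : ℕ) :
    ∀ (r : ℕ) (N : Type u) [AddCommGroup N] [Module R N] [Module.Finite R N]
      (_ : HasProjectiveDimensionLT (ModuleCat.of R N) (n + 1))
      (_ : ∀ (Q : Ideal R) [Q.IsPrime], Q ≠ maximalIdeal R → FrAt Q N r),
      ∃ θ : N [⋀^Fin r]→ₗ[R] R,
        ∀ (Q : Ideal R) [Q.IsPrime], Q ≠ maximalIdeal R → ∃ v, θ v ∉ Q := by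
  induction n with
  | zero =>
    intro r N _ _ _ hpd hN
    by_cases hex : ∃ Q₀ : Ideal R, Q₀.IsPrime ∧ Q₀ ≠ maximalIdeal R
    · obtain ⟨Q₀, hp, hne⟩ := hex
      have h1 : Projective (ModuleCat.of R N) := projective_iff_hasProjectiveDimensionLT_one.mpr hpd
      have h3 : Module.Projective R N := (IsProjective.iff_projective (R := R) N).mpr h1
      have h4 : Module.Free R N := Module.free_of_flat_of_isLocalRing
      exact f5_base r N Q₀ (hN Q₀ hne)
    · refine ⟨0, fun Q hQ hne => ?_⟩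
      exact absurd ⟨Q, hQ, hne⟩ hex
  | succ n ih =>
    intro r N _ _ _ hpd hN
    by_cases hex : ∃ Q₀ : Ideal R, Q₀.IsPrime ∧ Q₀ ≠ maximalIdeal R
    · obtain ⟨Q₀, hp, hne⟩ := hex
      obtain ⟨g, π, hπ⟩ := Module.Finite.exists_fin' R N
      have hses := LinearMap.shortExact_shortComplexKer hπ
      have hproj : Projective (ModuleCat.of R (Fin g → R)) := inferInstance
      have hK : HasProjectiveDimensionLT (ModuleCat.of R (LinearMap.ker π)) (n + 1) :=
        (hses.hasProjectiveDimensionLT_X₃_iff n hproj).mp hpd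
      have hinj : Function.Injective (LinearMap.ker π).subtype := Subtype.val_injective
      have hexact : Function.Exact (LinearMap.ker π).subtype π := LinearMap.exact_subtype_ker_map π
      obtain ⟨k, hk, -⟩ := ker_frAt Q₀ (LinearMap.ker π).subtype π hinj hπ hexact (hN Q₀ hne)
      have hfr : ∀ (Q : Ideal R) [Q.IsPrime], Q ≠ maximalIdeal R → FrAt Q (LinearMap.ker π) k := by
        intro Q _ hQ
        obtain ⟨k', hk', hF⟩ := ker_frAt Q (LinearMap.ker π).subtype π hinj hπ hexact (hN Q hQ)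
        have h5 : k' = k := by omega
        rw [← h5]
        exact hF
      obtain ⟨θ, hθ⟩ := ih k (LinearMap.ker π) hK hfr
      subst hk
      let E : (Fin (k + r) → R) ≃ₗ[R] (Fin k ⊕ Fin r → R) :=
        LinearEquiv.funCongrLeft R R finSumFinEquiv
      let i' : LinearMap.ker π →ₗ[R] (Fin k ⊕ Fin r → R) := E.toLinearMap ∘ₗ (LinearMap.ker π).subtype
      let π' : (Fin k ⊕ Fin r → R) →ₗ[R] N := π ∘ₗ E.symm.toLinearMap
      have hπ' : Function.Surjective π' := by
        intro y
        obtain ⟨x, hx⟩ := hπ y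
        exact ⟨E x, by simp [π', hx]⟩
      have hex' : Function.Exact i' π' := by
        intro y
        constructor
        · intro h
          have h6 : E.symm y ∈ LinearMap.ker π := h
          exact ⟨⟨E.symm y, h6⟩, by simp [i']⟩
        · rintro ⟨x, rfl⟩
          simp [i', π']
      have hgen : ∀ (Q : Ideal R) [Q.IsPrime], Q ≠ maximalIdeal R → GenAt Q (LinearMap.ker π) k :=
        fun Q _ hQ => genAt_of_frAt Q (hfr Q hQ)
      obtain ⟨η, hη⟩ := exists_form h2 i' π' hπ' hex' hgen θ hθ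
      refine ⟨η, fun Q hQp hQ => ?_⟩
      obtain ⟨κ, m, hm⟩ := det_notMem Q i' π' hπ' hex' (hgen Q hQ) (genAt_of_frAt Q (hN Q hQ))
      refine ⟨fun j => π' (m j), fun h7 => hm ?_⟩
      have h8 := hη κ m
      change Matrix.det (Matrix.of (Sum.elim (fun l => i' (κ l)) m)) ∈ Q
      rw [h8]
      exact Ideal.mul_mem_right _ _ h7
    · refine ⟨0, fun Q hQ hne => ?_⟩
      exact absurd ⟨Q, hQ, hne⟩ hex

end Pool.Agent.H21V
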