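import Pool.Agent.Lib.H21V.G2
import Pool.Agent.Lib.H21V.F5

set_option autoImplicit false

open CategoryTheory IsLocalRing
open Pool.Agent.Lib.Helper92 Pool.Agent.Lib.H44V

namespace Pool.Agent.H21V
universe u


variable {R : Type u} [CommRing R]

/-- The matrix of values. -/
def g3_mat {C : Type u} [AddCommGroup C] [Module R C] {k : ℕ} (c : Fin k → C)
    (v : Fin k → (C →ₗ[R] R)) : Matrix (Fin k) (Fin k) R := Matrix.of fun i j => v i (c j)

/-- The determinant of the values as an alternating form in the linear forms. -/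
noncomputable def g3_del {C : Type u} [AddCommGroup C] [Module R C] {k : ℕ} (c : Fin k → C) :
    (C →ₗ[R] R) [⋀^Fin k]→ₗ[R] R :=
  (Matrix.detRowAlternating (n := Fin k) (R := R)).compLinearMap
    (LinearMap.pi fun j => LinearMap.applyₗ (c j))

theorem g3_del_apply {C : Type u} [AddCommGroup C] [Module R C] {k : ℕ} (c : Fin k → C)
    (v : Fin k → (C →ₗ[R] R)) : g3_del c v = (g3_mat c v).det := rfl

theorem g3_update {C : Type u} [AddCommGroup C] [Module R C] {k : ℕ} (c : Fin k → C)
    (v : Fin k → (C →ₗ[R] R)) (j : Fin k) (x : C) :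
    g3_mat (Function.update c j x) v = (g3_mat c v).updateCol j (fun i => v i x) := by
  ext i l
  by_cases h : l = j
  · subst h
    simp [g3_mat]
  · simp [g3_mat, h]

theorem g3_add {C : Type u} [AddCommGroup C] [Module R C] {k : ℕ} (c : Fin k → C)
    (v : Fin k → (C →ₗ[R] R)) (j : Fin k) (x y : C) :
    (g3_mat (Function.update c j (x + y)) v).det =
      (g3_mat (Function.update c j x) v).det + (g3_mat (Function.update c j y) v).det := by
  rw [g3_update, g3_update, g3_update]
  have h : (fun i => v i (x + y)) = (fun i => v i x) + fun i => v i y := by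
    funext i
    simp
  rw [h, Matrix.det_updateCol_add]

theorem g3_smul {C : Type u} [AddCommGroup C] [Module R C] {k : ℕ} (c : Fin k → C)
    (v : Fin k → (C →ₗ[R] R)) (j : Fin k) (a : R) (x : C) :
    (g3_mat (Function.update c j (a • x)) v).det =
      a * (g3_mat (Function.update c j x) v).det := by
  rw [g3_update, g3_update]
  have h : (fun i => v i (a • x)) = a • fun i => v i x := by
    funext i
    simp
  rw [h, Matrix.det_updateCol_smul]

theorem g3_alt {C : Type u} [AddCommGroup C] [Module R C] {k : ℕ} (c : Fin k → C)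
    (v : Fin k → (C →ₗ[R] R)) (i j : Fin k) (hc : c i = c j) (hij : i ≠ j) :
    (g3_mat c v).det = 0 := by
  refine Matrix.det_zero_of_column_eq hij fun l => ?_
  simp [g3_mat, hc]

/-- CHUNK G3 (M).  The canonical form on a module whose dual has a finite free resolution.
Proof.  `N := C →ₗ[R] R` is finite (`Module.Finite` instance, `R` Noetherian; look at `dual_free` in
Helper92/DepthTwo if the instance is not found).  `det_form h2 n k N hpd (fun Q _ hQ => (hC Q hQ).frAt)` gives
`θ : N [⋀^Fin k]→ₗ[R] R`.  For `c : Fin k → C` let `δ c : N [⋀^Fin k]→ₗ[R] R`, `δ c n := det (fun i j => n i (c j))`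
(`Matrix.detRowAlternating.compLinearMap` with the linear map `N → (Fin k → R)`, `n ↦ fun j => n (c j)`).
`form_mul h2 (M := N) (fun Q _ hQ => genAt_of_frAt Q ..) θ hθ (δ c)` gives `ρ c` with `δ c = ρ c • θ`, and it is unique
(`form_faithful`).  `c ↦ δ c n` is multilinear and alternating in `c` (`Matrix.det_transpose`, the columns), so by
uniqueness `ρ` is multilinear and alternating: `α c := ρ c`.
Values: for `Q ≠ m` take `ν, c, s` from `hC Q`: `ρ c * θ ν = det (fun i j => if i = j then s else 0) = s ^ k ∉ Q`, so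
`ρ c ∉ Q`.  The last claim is `form_mul h2 (M := C)` with `DualAt.genAt`. -/
theorem exists_alpha [IsNoetherianRing R] [IsLocalRing R] (h2 : Two R) (C : Type u)
    [AddCommGroup C] [Module R C] [Module.Finite R C] (n : ℕ)
    (hpd : HasProjectiveDimensionLT (ModuleCat.of R (C →ₗ[R] R)) (n + 1)) {k : ℕ}
    (hC : ∀ (Q : Ideal R) [Q.IsPrime], Q ≠ maximalIdeal R → DualAt Q C k) :
    ∃ α : C [⋀^Fin k]→ₗ[R] R,
      (∀ (Q : Ideal R) [Q.IsPrime], Q ≠ maximalIdeal R → ∃ v, α v ∉ Q) ∧
      ∀ δ : C [⋀^Fin k]→ₗ[R] R, ∃ ρ : R, δ = ρ • α := by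
  have hfin : Module.Finite R (C →ₗ[R] R) := by
    have : IsNoetherian R (C →ₗ[R] R) := isNoetherian_linearMap _ _ _
    infer_instance
  obtain ⟨θ, hθ⟩ := det_form h2 n k (C →ₗ[R] R) hpd (fun Q _ hQ => (hC Q hQ).frAt)
  have hgen : ∀ (Q : Ideal R) [Q.IsPrime], Q ≠ maximalIdeal R → GenAt Q (C →ₗ[R] R) k :=
    fun Q _ hQ => genAt_of_frAt Q (hC Q hQ).frAt
  have hex : ∀ c : Fin k → C, ∃ ρ : R, ∀ v, (g3_mat c v).det = ρ * θ v := by
    intro c
    obtain ⟨ρ, hρ⟩ := form_mul h2 hgen θ hθ (g3_del c)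
    refine ⟨ρ, fun v => ?_⟩
    rw [← g3_del_apply, hρ]
    rfl
  choose ρ hρ using hex
  have huniq : ∀ a b : R, (∀ v, a * θ v = b * θ v) → a = b := by
    intro a b hab
    have h1 := form_faithful h2 θ hθ (a - b) (fun v => by rw [sub_mul, hab v, sub_self])
    exact sub_eq_zero.mp h1
  let α : C [⋀^Fin k]→ₗ[R] R :=
    { MultilinearMap.mk' ρ
        (fun c j x y => huniq _ _ fun v => by
          rw [← hρ, g3_add, hρ, hρ, add_mul])
        (fun c j a x => huniq _ _ fun v => by
          rw [← hρ, g3_smul, hρ, smul_eq_mul, mul_assoc]) with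
      map_eq_zero_of_eq' := fun c i j hc hij => huniq _ _ fun v => by
        rw [zero_mul]
        exact (hρ c v).symm.trans (g3_alt c v i j hc hij) }
  have hα : ∀ c v, (g3_mat c v).det = α c * θ v := hρ
  have hnot : ∀ (Q : Ideal R) [Q.IsPrime], Q ≠ maximalIdeal R → ∃ v, α v ∉ Q := by
    intro Q _ hQ
    obtain ⟨ν, c, s, hs, h1, -⟩ := hC Q hQ
    refine ⟨c, fun hmem => ?_⟩
    have h3 : g3_mat c ν = Matrix.diagonal fun _ => s := by
      ext i j
      rw [Matrix.diagonal_apply]
      exact h1 i j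
    have h4 : (g3_mat c ν).det = s ^ k := by
      rw [h3, Matrix.det_diagonal]
      simp
    have h5 : s ^ k ∈ Q := by
      rw [← h4, hα]
      exact Ideal.mul_mem_right _ _ hmem
    exact hs (Ideal.IsPrime.mem_of_pow_mem ‹_› k h5)
  refine ⟨α, hnot, fun δ => ?_⟩
  exact form_mul h2 (M := C) (fun Q _ hQ => (hC Q hQ).genAt) α hnot δ

end Pool.Agent.H21V
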