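import Pool.Agent.Lib.H21V.D1
import Pool.Agent.Lib.H21V.D2

set_option autoImplicit false

open CategoryTheory IsLocalRing
open Pool.Agent.Lib.Helper92 Pool.Agent.Lib.H44V

namespace Pool.Agent.H21V
universe u


variable {S : Type u} [CommRing S] {I : Ideal S} {n1 n2 n3 : ℕ} {F : Res S I n1 n2 n3}

/-- CHUNK G4 (S/M).  The map `B`.
Proof.  For `f` let `β f` be from `exists_beta`, `β f = B f • α` (`hα`).  `B f` is unique: two values differ by a `ρ` with
`ρ * α v = 0` for all `v` (`hf`).  `B` is additive and `S`-linear: `(B (f + g) - B f - B g) * α (F.co ∘ a) = 0` for all `a`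
(by the formula, `mk` is additive), and every `v` is `fun i => F.co (a i)` (`Res.co_surj`); the same for `s • f`
(`s • x = mk s * x` in `S ⧸ I`).  `B (g ∘ F.d3) * α (..) = mk (g (F.d3 (T ..))) = 0` by `T_d3`. -/
theorem exists_B (P : Prd F) (α : I.Cotangent [⋀^Fin 3]→ₗ[S ⧸ I] (S ⧸ I))
    (hα : ∀ δ : I.Cotangent [⋀^Fin 3]→ₗ[S ⧸ I] (S ⧸ I), ∃ ρ : S ⧸ I, δ = ρ • α)
    (hf : ∀ ρ : S ⧸ I, (∀ v, ρ * α v = 0) → ρ = 0) :
    ∃ B : ((Fin n3 → S) →ₗ[S] S) →ₗ[S] (S ⧸ I),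
      (∀ (f : (Fin n3 → S) →ₗ[S] S) (a : Fin 3 → (Fin n1 → S)),
        Ideal.Quotient.mk I (f (P.T (a 0) (a 1) (a 2))) = B f * α (fun i => F.co (a i))) ∧
      ∀ g : (Fin n2 → S) →ₗ[S] S, B (g ∘ₗ F.d3) = 0 := by
  have h1 : ∀ f : (Fin n3 → S) →ₗ[S] S, ∃ b : S ⧸ I, ∀ a : Fin 3 → (Fin n1 → S),
      Ideal.Quotient.mk I (f (P.T (a 0) (a 1) (a 2))) = b * α (fun i => F.co (a i)) := by
    intro f
    obtain ⟨β, hβ⟩ := exists_beta P f
    obtain ⟨ρ, hρ⟩ := hα β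
    refine ⟨ρ, fun a => ?_⟩
    rw [← hβ a, hρ]
    rfl
  choose b hb using h1
  have h2 : ∀ ρ : S ⧸ I, (∀ a : Fin 3 → (Fin n1 → S), ρ * α (fun i => F.co (a i)) = 0) → ρ = 0 := by
    intro ρ h
    refine hf ρ (fun v => ?_)
    have h3 : ∀ i, ∃ a, F.co a = v i := fun i => F.co_surj (v i)
    choose a ha using h3
    have h4 := h a
    have h5 : (fun i => F.co (a i)) = v := funext ha
    rwa [h5] at h4
  have hadd : ∀ f g, b (f + g) = b f + b g := by
    intro f g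
    have h3 := h2 (b (f + g) - (b f + b g)) (fun a => by
      rw [sub_mul, add_mul, ← hb, ← hb, ← hb, LinearMap.add_apply, map_add, sub_self])
    exact sub_eq_zero.mp h3
  have hsm : ∀ (s : S) f, b (s • f) = s • b f := by
    intro s f
    have h3 := h2 (b (s • f) - s • b f) (fun a => by
      rw [sub_mul, smul_mul_assoc, ← hb, ← hb, LinearMap.smul_apply, smul_eq_mul, map_mul,
        Algebra.smul_def, Ideal.Quotient.algebraMap_eq, sub_self])
    exact sub_eq_zero.mp h3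
  refine ⟨{ toFun := b, map_add' := hadd, map_smul' := hsm }, fun f a => hb f a, fun g => ?_⟩
  refine h2 _ (fun a => ?_)
  change b (g ∘ₗ F.d3) * _ = 0
  rw [← hb, LinearMap.comp_apply]
  exact Ideal.Quotient.eq_zero_iff_mem.mpr (T_d3 P g _ _ _)

end Pool.Agent.H21V
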