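import Pool.Agent.Lib.H21V.G1A
import Pool.Agent.Lib.H21V.B1
import Pool.Agent.Lib.H21V.B2
import Pool.Agent.Lib.H21V.C5

set_option autoImplicit false

open CategoryTheory IsLocalRing
open Pool.Agent.Lib.Helper92 Pool.Agent.Lib.H44V

namespace Pool.Agent.H21V
universe u


variable {S : Type u} [CommRing S] {I : Ideal S} {n1 n2 n3 : ℕ}

/-- CHUNK G5A (M).  Local injectivity.
Proof.  Case `¬ I ≤ P`: there is `y ∈ I`, `y ∉ P`, `y = F.d1 e` (`F.hr`); `s := y`, `g := f ∘ₗ Pr.p e`:
`f (Pr.p e (F.d3 c)) = f (F.d1 e • c)` (`Prd.p_d3`).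
Case `I ≤ P`: `B := Localization.AtPrime P`, `ι := algebraMap S B`, `X` from `ci_gens`, `e j` with `F.d1 (e j) = X j`
(`j : Fin 3`), `F', hF'` from `exists_loc`, `Pr'` from `exists_prd_loc`.  Let
`f' c := ∑ l, c l * ι (f (Pi.single l 1))` (linear over `B`), so `f' (io P c) = ι (f c)`.
`F'.d1 (io P (e j)) = ι (X j)`.  `f' (Pr'.T (io P (e 0)) (io P (e 1)) (io P (e 2))) = ι (f (Pr.T (e 0) (e 1) (e 2)))
∈ I.map ι`, so `(compare F' Pr' (fun i => ι (X i)) ..).1 f'` gives `g'` with `f' = g' ∘ F'.d3`.  Common denominator of the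
`g' (Pi.single k 1)`: `s ∉ P`, `g₀ : (Fin n2 → S) →ₗ[S] S` with `ι s * g' (io P b) = ι (g₀ b)` for all `b`.  For every basis
vector `c = Pi.single l 1`: `ι (s * f c) = ι s * g' (F'.d3 (io P c)) = ι s * g' (io P (F.d3 c)) = ι (g₀ (F.d3 c))`, so
there is `t l ∉ P` with `t l * (s * f c) = t l * g₀ (F.d3 c)`; with `t := ∏ t l`: `(t * s) • f = (t • g₀) ∘ F.d3`
(`LinearMap.pi_ext'`). -/
theorem inj_loc (F : Res S I n1 n2 n3) (Pr : Prd F) (P : Ideal S) [P.IsPrime]
    (hci : I ≤ P → CI (I.map (algebraMap S (Localization.AtPrime P))) 3)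
    (f : (Fin n3 → S) →ₗ[S] S) (hf : ∀ a b c, f (Pr.T a b c) ∈ I) :
    ∃ s, s ∉ P ∧ ∃ g : (Fin n2 → S) →ₗ[S] S, s • f = g ∘ₗ F.d3 := by
  classical
  by_cases hIP : I ≤ P
  · obtain ⟨X, hXI, hreg, hJ⟩ := ci_gens P (hci hIP)
    have he : ∀ j : Fin 3, ∃ e, F.d1 e = X j := by
      intro j
      have h1 := hXI j j.2
      rw [← F.hr] at h1
      exact h1
    choose e he using he
    obtain ⟨F', hF'⟩ := exists_loc P F
    obtain ⟨Pr', -, -, hT⟩ := exists_prd_loc P F F' hF' Pr
    obtain ⟨f', hf', -⟩ := b1_lo1 P f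
    obtain ⟨g', hg'⟩ := (compare F' Pr' (fun i => algebraMap S (Localization.AtPrime P) (X i)) hreg hJ
      (fun j => io P (e j)) (fun j => by rw [hF'.h1, he])).1 f' (by
        rw [hT, hf']
        exact Ideal.mem_map_of_mem _ (hf _ _ _))
    obtain ⟨s, hs, g0, hg0⟩ := b1_den P (fun k => g' (Pi.single k 1))
    have hg0' : ∀ k, algebraMap S (Localization.AtPrime P) s * g' (Pi.single k 1) =
        algebraMap S (Localization.AtPrime P) (g0 k) := fun k => congrFun hg0 k
    have hG : ∀ b, algebraMap S (Localization.AtPrime P) s * g' (io P b) =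
        algebraMap S (Localization.AtPrime P) (Fintype.linearCombination S g0 b) := by
      intro b
      have h1 : io P b = ∑ k, algebraMap S (Localization.AtPrime P) (b k) •
          (Pi.single k 1 : Fin n2 → Localization.AtPrime P) := by
        conv_lhs => rw [← Finset.univ_sum_single (io P b)]
        refine Finset.sum_congr rfl fun k _ => ?_
        rw [← Pi.single_smul, smul_eq_mul, mul_one]
        rfl
      rw [h1, map_sum, Finset.mul_sum, Fintype.linearCombination_apply, map_sum]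
      refine Finset.sum_congr rfl fun k _ => ?_
      rw [map_smul, smul_eq_mul, mul_left_comm, hg0', smul_eq_mul, map_mul]
    have hv : io P (fun l => s * f (Pi.single l 1) -
        Fintype.linearCombination S g0 (F.d3 (Pi.single l 1))) = 0 := by
      funext l
      change algebraMap S (Localization.AtPrime P) (s * f (Pi.single l 1) -
        Fintype.linearCombination S g0 (F.d3 (Pi.single l 1))) = 0
      rw [map_sub, map_mul, ← hf', hg', LinearMap.comp_apply, hF'.h3, hG, sub_self]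
    obtain ⟨t, ht, htv⟩ := b1_van P _ hv
    refine ⟨t * s, ?_, t • Fintype.linearCombination S g0, ?_⟩
    · intro h1
      rcases (inferInstance : P.IsPrime).mem_or_mem h1 with h2 | h2
      · exact ht h2
      · exact hs h2
    · refine LinearMap.pi_ext' fun l => LinearMap.ext_ring ?_
      have h1 := congrFun htv l
      rw [Pi.smul_apply, smul_eq_mul, Pi.zero_apply, mul_sub] at h1
      simp only [LinearMap.comp_apply, LinearMap.smul_apply, LinearMap.coe_single, smul_eq_mul]
      rw [mul_assoc]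
      exact sub_eq_zero.1 h1
  · obtain ⟨y, hy, hyP⟩ := SetLike.not_le_iff_exists.1 hIP
    rw [← F.hr] at hy
    obtain ⟨e, he⟩ := hy
    refine ⟨y, hyP, f ∘ₗ Pr.p e, ?_⟩
    refine LinearMap.ext fun c => ?_
    rw [LinearMap.smul_apply, LinearMap.comp_apply, LinearMap.comp_apply, Pr.p_d3, map_smul, he]

end Pool.Agent.H21V
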