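import Pool.Agent.Lib.H21V.G1A
import Pool.Agent.Lib.H21V.B1
import Pool.Agent.Lib.H21V.B2
import Pool.Agent.Lib.H21V.C5

set_option autoImplicit false

open CategoryTheory IsLocalRing
open Pool.Agent.Lib.Helper92 Pool.Agent.Lib.H44V

namespace Pool.Agent.H21V
universe u


variable {S : Type u} [CommRing S] {I : Ideal S} {n1 n2 n3 : ℕ}

theorem g5b_lin {A : Type u} [CommRing A] {n : ℕ} (f : (Fin n → A) →ₗ[A] A) (c : Fin n → A) :
    f c = ∑ i, c i * f (Pi.single i 1) := by
  conv_lhs => rw [← Finset.univ_sum_single c]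
  rw [map_sum]
  refine Finset.sum_congr rfl fun i _ => ?_
  have e : (Pi.single i (c i) : Fin n → A) = c i • Pi.single i 1 := by
    rw [← Pi.single_smul, smul_eq_mul, mul_one]
  rw [e, map_smul, smul_eq_mul]

theorem g5b_den (P : Ideal S) [P.IsPrime] {n : ℕ}
    (f' : (Fin n → Localization.AtPrime P) →ₗ[Localization.AtPrime P] Localization.AtPrime P) :
    ∃ s ∈ P.primeCompl, ∃ f₀ : (Fin n → S) →ₗ[S] S, ∀ c,
      algebraMap S (Localization.AtPrime P) (f₀ c) = algebraMap S (Localization.AtPrime P) s * f' (io P c) := by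
  obtain ⟨s, hs, a₀, ha⟩ := b2_den P (fun l => f' (Pi.single l 1))
  refine ⟨s, hs, Fintype.linearCombination S a₀, fun c => ?_⟩
  rw [Fintype.linearCombination_apply, g5b_lin f' (io P c), map_sum, Finset.mul_sum]
  refine Finset.sum_congr rfl fun i _ => ?_
  have h1 : algebraMap S (Localization.AtPrime P) s * f' (Pi.single i 1) =
      algebraMap S (Localization.AtPrime P) (a₀ i) := congrFun ha i
  rw [smul_eq_mul, map_mul, ← h1]
  change _ = _ * (algebraMap S (Localization.AtPrime P) (c i) * _)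
  ring

/-- CHUNK G5B (M).  Local surjectivity.
Proof.  As in `G5A`, second case: `X`, `e j`, `F'`, `Pr'`; `(compare F' Pr' ..).2` gives `f' : (Fin n3 → B) →ₗ[B] B` with
`f' (T') - 1 ∈ I.map ι`, `T' = io P (Pr.T (e 0) (e 1) (e 2))`.  `I.map ι ≤ maximalIdeal B` (`I ≤ P`), so `f' T'` is a
unit.  Common denominator of the `f' (Pi.single l 1)`: `s ∉ P`, `f₀ : (Fin n3 → S) →ₗ[S] S` with
`ι s * f' (io P c) = ι (f₀ c)`.  `ι (f₀ (Pr.T ..)) = ι s * f' T'` is a unit, so `f₀ (Pr.T ..) ∉ P`. -/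
theorem surj_loc (F : Res S I n1 n2 n3) (Pr : Prd F) (P : Ideal S) [P.IsPrime] (hP : I ≤ P)
    (hci : CI (I.map (algebraMap S (Localization.AtPrime P))) 3) :
    ∃ (f : (Fin n3 → S) →ₗ[S] S) (a : Fin 3 → (Fin n1 → S)),
      f (Pr.T (a 0) (a 1) (a 2)) ∉ P := by
  obtain ⟨X, hX, hreg, hJ⟩ := ci_gens P hci
  have he : ∀ j : Fin 3, ∃ e : Fin n1 → S, F.d1 e = X j := by
    intro j
    have h1 := hX j j.2
    rw [← F.hr] at h1
    exact h1
  choose e he using he
  obtain ⟨F', hF'⟩ := exists_loc P F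
  obtain ⟨Pr', -, -, hT⟩ := exists_prd_loc P F F' hF' Pr
  obtain ⟨f', hf'⟩ := (compare F' Pr' (fun i => algebraMap S (Localization.AtPrime P) (X i)) hreg hJ
    (fun j => io P (e j)) (fun j => by rw [hF'.h1, he])).2
  rw [hT] at hf'
  obtain ⟨s, hs, f₀, hf₀⟩ := g5b_den P f'
  refine ⟨f₀, e, fun hmem => ?_⟩
  have hmax : I.map (algebraMap S (Localization.AtPrime P)) ≤ maximalIdeal (Localization.AtPrime P) :=
    (Ideal.map_mono hP).trans (Localization.AtPrime.map_eq_maximalIdeal).le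
  have h1 : algebraMap S (Localization.AtPrime P) (f₀ (Pr.T (e 0) (e 1) (e 2))) ∈
      maximalIdeal (Localization.AtPrime P) := by
    rw [← Localization.AtPrime.map_eq_maximalIdeal]
    exact Ideal.mem_map_of_mem _ hmem
  rw [hf₀] at h1
  have h2 : f' (io P (Pr.T (e 0) (e 1) (e 2))) ∈ maximalIdeal (Localization.AtPrime P) := by
    rcases (Ideal.IsPrime.mem_or_mem inferInstance h1) with h3 | h3
    · exact absurd (b2_unit P hs) ((IsLocalRing.mem_maximalIdeal _).1 h3)
    · exact h3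
  have h3 : (1 : Localization.AtPrime P) ∈ maximalIdeal (Localization.AtPrime P) := by
    have h4 := Ideal.sub_mem _ h2 (hmax hf')
    rwa [sub_sub_cancel] at h4
  exact (IsLocalRing.mem_maximalIdeal _).1 h3 isUnit_one

end Pool.Agent.H21V
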