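import Pool.Agent.Lib.H21V.K7A
import Pool.Agent.Lib.H21V.Du

set_option autoImplicit false

open CategoryTheory IsLocalRing
open Pool.Agent.Lib.Helper92 Pool.Agent.Lib.H44V

namespace Pool.Agent.H21V
universe u


variable {S : Type u} [CommRing S] {I : Ideal S} {n1 n2 n3 : ℕ}

/-- CHUNK G6 (S/M).  Depth of `ω = F3* / F2*`.
Proof.  `dp_of_res` with `G3 := S`, `G2 := Module.Dual S (Fin n1 → S)`, `G1 := Module.Dual S (Fin n2 → S)`,
`G0 := Module.Dual S (Fin n3 → S)`, `D3 := LinearMap.toSpanSingleton S _ F.d1`, `D2 := F.d2.dualMap`,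
`D1 := F.d3.dualMap`, `D0 := mkQ`; exactness by `dual_exact` and `F.z1, F.z2` (`φ ∘ d2 ∘ d3 = 0`).  `Dp` of the free modules by
`F4_pi` (dual modules of `Fin n → S` are free and finite) and `dp_mono`. -/
theorem dp_omega [IsLocalRing S] (F : Res S I n1 n2 n3) (P : Prd F) (x : ℕ → S)
    (h : ∀ j < 3, IsSMulRegular (S ⧸ Jx x j) (x j)) (hx : ∀ j < 3, x j ∈ I) (a : ℕ)
    (hS : Dp (ModuleCat.of S S) (a + 3)) :
    Dp (ModuleCat.of S (((Fin n3 → S) →ₗ[S] S) ⧸ LinearMap.range F.d3.dualMap)) a := by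
  obtain ⟨e1, e2, e3⟩ := dual_exact F P x h hx
  refine dp_of_res (G0 := (Fin n3 → S) →ₗ[S] S) (G1 := (Fin n2 → S) →ₗ[S] S)
    (G2 := (Fin n1 → S) →ₗ[S] S) (G3 := S) (LinearMap.range F.d3.dualMap).mkQ F.d3.dualMap
    F.d2.dualMap (LinearMap.toSpanSingleton S _ F.d1) (Submodule.mkQ_surjective _) ?_ ?_ ?_ ?_ a
    hS (F4_pi S _ (dp_mono (by omega) hS) _) (F4_pi S _ (dp_mono (by omega) hS) _)
    (F4_pi S _ (dp_mono (by omega) hS) _)
  · intro y
    rw [Submodule.mkQ_apply, Submodule.Quotient.mk_eq_zero]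
    rfl
  · intro ψ
    constructor
    · intro hψ
      obtain ⟨φ, hφ⟩ := e1 ψ hψ
      exact ⟨φ, hφ.symm⟩
    · rintro ⟨φ, rfl⟩
      refine LinearMap.ext fun c => ?_
      change φ (F.d2 (F.d3 c)) = 0
      rw [F.z2, map_zero]
  · intro φ
    constructor
    · intro hφ
      obtain ⟨l, hl⟩ := e2 φ hφ
      exact ⟨l, hl.symm⟩
    · rintro ⟨l, rfl⟩
      refine LinearMap.ext fun c => ?_
      change l • F.d1 (F.d2 c) = 0
      rw [F.z1, smul_zero]
  · rw [injective_iff_map_eq_zero]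
    intro l hl
    exact e3 l hl

end Pool.Agent.H21V
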