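import Pool.Agent.Lib.H21V.DL
import Pool.Agent.Lib.H44V.F4
import Pool.Agent.Lib.H44V.D1
import Pool.Agent.Lib.H44V.D4
import Pool.Agent.Lib.H44V.F1

set_option autoImplicit false

open CategoryTheory IsLocalRing
open Pool.Agent.Lib.Helper92 Pool.Agent.Lib.H44V

namespace Pool.Agent.H21V
universe u


variable {S : Type u} [CommRing S] {I : Ideal S} {n1 n2 n3 : ℕ}

/-- CHUNK G7 (M).  `B` is surjective and its kernel is the range of `d3*`.
Proof.  `ω := F3* ⧸ range F.d3.dualMap`; `B` induces `b : ω →ₗ[S] S ⧸ I` (`Submodule.liftQ`, `hB`).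
`F4_inj S b (dp 1) ..`: `b` is injective (`z = mk f`, `b z = B f = 0`, `hinj`: `s • f = g ∘ d3`, so `s • z = 0`), hence the first
claim.  `Z := (S ⧸ I) ⧸ LinearMap.range b` is finite, and for `P ≠ m`: `s • mk 1 = B f ∈ range b` (`hsurj`), so
`s • z = 0` for all `z : Z` (`z` is the class of `a • mk 1`); `D4_fl` : `IsFiniteLength S Z`; `D1_ext` with `hω`, `j = 1`:
`Subsingleton (Ext (of Z) (of ω) 1)`.  `F1_extend` with `K := ω`, `G := S ⧸ I`, `Y := Z`, `E := ω`, `φ := id`: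
`ψ : S ⧸ I →ₗ ω` with `ψ ∘ b = id`.  `ψ` is injective by `F4_inj S ψ hR`: if `ψ z = 0`, take `s ∉ Q` with `s • z = b w`
(`z` is a multiple of `mk 1`); `w = ψ (b w) = s • ψ z = 0`, so `s • z = 0`.  Then `b (ψ 1) = 1` because
`ψ (b (ψ 1)) = ψ 1`; `ψ 1 = mk f`. -/
theorem B_bij [IsNoetherianRing S] [IsLocalRing S] (F : Res S I n1 n2 n3)
    (B : ((Fin n3 → S) →ₗ[S] S) →ₗ[S] (S ⧸ I))
    (hB : ∀ g : (Fin n2 → S) →ₗ[S] S, B (g ∘ₗ F.d3) = 0)
    (hω : Dp (ModuleCat.of S (((Fin n3 → S) →ₗ[S] S) ⧸ LinearMap.range F.d3.dualMap)) 2)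
    (hR : Dp (Qt I) 1)
    (hinj : ∀ (P : Ideal S) [P.IsPrime], P ≠ maximalIdeal S → ∀ f, B f = 0 →
      ∃ s, s ∉ P ∧ ∃ g : (Fin n2 → S) →ₗ[S] S, s • f = g ∘ₗ F.d3)
    (hsurj : ∀ (P : Ideal S) [P.IsPrime], P ≠ maximalIdeal S →
      ∃ (f : (Fin n3 → S) →ₗ[S] S) (s : S), s ∉ P ∧ B f = Ideal.Quotient.mk I s) :
    (∀ f, B f = 0 → ∃ g : (Fin n2 → S) →ₗ[S] S, f = g ∘ₗ F.d3) ∧ ∃ f, B f = 1 := by
  classical
  have hker : LinearMap.range F.d3.dualMap ≤ LinearMap.ker B := by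
    rintro _ ⟨g, rfl⟩
    exact hB g
  let b : (((Fin n3 → S) →ₗ[S] S) ⧸ LinearMap.range F.d3.dualMap) →ₗ[S] (S ⧸ I) :=
    Submodule.liftQ _ B hker
  have hbmk : ∀ f, b (Submodule.Quotient.mk f) = B f := fun f => rfl
  have hbinj : Function.Injective b := by
    refine F4_inj S b (fun j hj => hω j (by omega)) ?_
    intro Q _ hQ z hz
    obtain ⟨f, rfl⟩ := Submodule.Quotient.mk_surjective _ z
    obtain ⟨s, hs, g, hg⟩ := hinj Q hQ f hz
    refine ⟨s, hs, ?_⟩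
    rw [← Submodule.Quotient.mk_smul, hg, Submodule.Quotient.mk_eq_zero]
    exact ⟨g, rfl⟩
  -- multiples of elements of `S ⧸ I` are in the range of `b`
  have hmul : ∀ (P : Ideal S) [P.IsPrime], P ≠ maximalIdeal S →
      ∃ s, s ∉ P ∧ ∀ z : S ⧸ I, ∃ w, b w = s • z := by
    intro P _ hP
    obtain ⟨f, s, hs, hf⟩ := hsurj P hP
    refine ⟨s, hs, fun z => ?_⟩
    obtain ⟨a, rfl⟩ := Ideal.Quotient.mk_surjective z
    refine ⟨a • Submodule.Quotient.mk f, ?_⟩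
    rw [map_smul, hbmk, hf, Algebra.smul_def, Algebra.smul_def, Ideal.Quotient.algebraMap_eq,
      mul_comm]
  have hfl : IsFiniteLength S ((S ⧸ I) ⧸ LinearMap.range b) := by
    refine D4_fl _ ?_
    intro P _ hP z
    obtain ⟨s, hs, h⟩ := hmul P hP
    refine ⟨s, hs, ?_⟩
    obtain ⟨x, rfl⟩ := Submodule.Quotient.mk_surjective _ z
    obtain ⟨w, hw⟩ := h x
    rw [← Submodule.Quotient.mk_smul, ← hw, Submodule.Quotient.mk_eq_zero]
    exact ⟨w, rfl⟩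
  have hE := D1_ext _ 2 hω _ hfl 1 (by omega)
  obtain ⟨ψ, hψ⟩ := F1_extend b (LinearMap.range b).mkQ hbinj (Submodule.mkQ_surjective _)
    (LinearMap.exact_map_mkQ_range b) hE LinearMap.id
  have hψb : ∀ w, ψ (b w) = w := fun w => LinearMap.congr_fun hψ w
  have hψinj : Function.Injective ψ := by
    refine F4_inj S ψ hR ?_
    intro Q _ hQ z hz
    obtain ⟨s, hs, h⟩ := hmul Q hQ
    refine ⟨s, hs, ?_⟩
    obtain ⟨w, hw⟩ := h z
    have h1 : w = 0 := by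
      rw [← hψb w, hw, map_smul, hz, smul_zero]
    rw [← hw, h1, map_zero]
  constructor
  · intro f hf
    have h1 : (Submodule.Quotient.mk f : ((Fin n3 → S) →ₗ[S] S) ⧸ LinearMap.range F.d3.dualMap) = 0 := by
      apply hbinj
      rw [hbmk, hf, map_zero]
    rw [Submodule.Quotient.mk_eq_zero] at h1
    obtain ⟨g, hg⟩ := h1
    exact ⟨g, hg.symm⟩
  · obtain ⟨f, hf⟩ := Submodule.Quotient.mk_surjective _ (ψ 1)
    refine ⟨f, ?_⟩
    rw [← hbmk, hf]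
    exact hψinj (hψb _)

end Pool.Agent.H21V
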