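import Pool.Agent.Lib.H21V.DL
import Pool.Agent.Lib.Helper92.FiniteToFree

set_option autoImplicit false

open CategoryTheory IsLocalRing
open Pool.Agent.Lib.Helper92 Pool.Agent.Lib.H44V

namespace Pool.Agent.H21V
universe u


variable {S : Type u} [CommRing S]

/-- CHUNK H0 (M).  Minimal resolutions of length three.
Proof.  `exists_minimal_presentation S I`: `f1 : (Fin n1 → S) → I` surjective with kernel `K1` in the maximal ideal;
`exists_minimal_presentation` for `K1`: `f2 : (Fin n2 → S) → K1` with kernel `K2` in the maximal ideal.  The sequences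
`0 → I → S → S ⧸ I → 0` (`sesI_exact`), `0 → K1 → S^n1 → I → 0`, `0 → K2 → S^n2 → K1 → 0`
(`LinearMap.shortExact_shortComplexKer`) and `hasProjectiveDimensionLT_X₃_iff` give projective dimension `< 3`, `< 2`, `< 1`
of `I`, `K1`, `K2`, so `K2` is projective (`projective_iff_hasProjectiveDimensionLT_one`,
`IsProjective.iff_projective`), finite, so free (`Module.free_of_flat_of_isLocalRing`):
`b : Basis (Fin n3) S K2`.  `d1 := I.subtype ∘ f1`, `d2 := K1.subtype ∘ f2`,
`d3 := K2.subtype ∘ b.equivFun.symm`.  `range d1 = I`; the other fields are immediate.  `F.d2 b ∈ K1` has its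
coordinates in the maximal ideal, and `F.d3 c ∈ K2` too. -/
theorem exists_min_res [IsNoetherianRing S] [IsLocalRing S] {I : Ideal S}
    (hpd : HasProjectiveDimensionLT (Qt I) 4) :
    ∃ (n1 n2 n3 : ℕ) (F : Res S I n1 n2 n3), (∀ b i, F.d2 b i ∈ maximalIdeal S) ∧
      ∀ c i, F.d3 c i ∈ maximalIdeal S := by
  have hS : Projective (ModuleCat.of S S) := (IsProjective.iff_projective (R := S) S).mp inferInstance
  have hI : HasProjectiveDimensionLT (ModuleCat.of S I) 3 :=
    ((sesI_exact I).hasProjectiveDimensionLT_X₃_iff 2 hS).mp hpd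
  obtain ⟨n1, f1, hf1, hm1⟩ := exists_minimal_presentation (R := S) I
  have hK1 : HasProjectiveDimensionLT (ModuleCat.of S (LinearMap.ker f1)) 2 :=
    ((LinearMap.shortExact_shortComplexKer hf1).hasProjectiveDimensionLT_X₃_iff 1 inferInstance).mp hI
  obtain ⟨n2, f2, hf2, hm2⟩ := exists_minimal_presentation (R := S) (LinearMap.ker f1)
  have hK2 : HasProjectiveDimensionLT (ModuleCat.of S (LinearMap.ker f2)) 1 :=
    ((LinearMap.shortExact_shortComplexKer hf2).hasProjectiveDimensionLT_X₃_iff 0 inferInstance).mp hK1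
  have h1 : Projective (ModuleCat.of S (LinearMap.ker f2)) :=
    projective_iff_hasProjectiveDimensionLT_one.mpr hK2
  have h2 : Module.Projective S (LinearMap.ker f2) := (IsProjective.iff_projective (R := S) _).mpr h1
  have h3 : Module.Free S (LinearMap.ker f2) := Module.free_of_flat_of_isLocalRing
  let b := Module.finBasis S (LinearMap.ker f2)
  refine ⟨n1, n2, Module.finrank S (LinearMap.ker f2),
    ⟨I.subtype ∘ₗ f1, (LinearMap.ker f1).subtype ∘ₗ f2,
      (LinearMap.ker f2).subtype ∘ₗ b.equivFun.symm.toLinearMap, ?_, ?_, ?_, ?_, ?_, ?_⟩, ?_, ?_⟩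
  · rw [LinearMap.range_comp, LinearMap.range_eq_top.2 hf1, Submodule.map_top, Submodule.range_subtype]
  · intro v
    change ((f1 (f2 v).1 : I) : S) = 0
    rw [(f2 v).2]
    rfl
  · intro v
    change ((f2 (b.equivFun.symm v).1 : LinearMap.ker f1) : Fin n1 → S) = 0
    rw [(b.equivFun.symm v).2]
    rfl
  · intro a ha
    have ha' : f1 a = 0 := Subtype.ext ha
    obtain ⟨w, hw⟩ := hf2 ⟨a, ha'⟩
    exact ⟨w, congrArg Subtype.val hw⟩
  · intro a ha
    have ha' : f2 a = 0 := Subtype.ext ha
    refine ⟨b.equivFun ⟨a, ha'⟩, ?_⟩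
    change ((b.equivFun.symm (b.equivFun ⟨a, ha'⟩)) : Fin n2 → S) = a
    rw [LinearEquiv.symm_apply_apply]
  · intro c hc
    have hc' : b.equivFun.symm c = 0 := Subtype.ext hc
    exact (LinearEquiv.map_eq_zero_iff _).1 hc'
  · intro v i
    exact hm1 _ (f2 v).2 i
  · intro c i
    exact hm2 _ (b.equivFun.symm c).2 i

end Pool.Agent.H21V
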