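import Pool.Agent.Lib.H21V.DL

set_option autoImplicit false

open CategoryTheory IsLocalRing
open Pool.Agent.Lib.Helper92 Pool.Agent.Lib.H44V

namespace Pool.Agent.H21V
universe u


variable {S : Type u} [CommRing S] {I : Ideal S} {n1 n2 : ℕ}

theorem h1_sum {n : ℕ} (g : (Fin n → S) →ₗ[S] S) (w : Fin n → S) :
    g w = ∑ k, w k * g (Pi.single k 1) := by
  conv_lhs => rw [← (Pi.basisFun S (Fin n)).sum_repr w]
  rw [map_sum]
  refine Finset.sum_congr rfl fun k _ => ?_
  rw [map_smul, Pi.basisFun_repr, Pi.basisFun_apply, smul_eq_mul]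

/-- CHUNK H1 (S/M).  The type is one.
Proof.  `B f₀ = 1`.  `n3 = 0`: all functionals on `Fin 0 → S` are 0, so `1 = B f₀ = 0` in `S ⧸ I`, contradiction to `hI`.
For `i : Fin n3` let `ε i := LinearMap.proj i`, `B (ε i) = mk (s i) = B (s i • f₀)`; so `ε i - s i • f₀ = g ∘ d3` (`h1`), whose
values lie in the maximal ideal (`hm`: `g (F.d3 c) = ∑ k, F.d3 c k * g (Pi.single k 1)`).  With `u j := f₀ (Pi.single j 1)`:
`δ i j - s i * u j ∈ m`.  If `n3 ≥ 2` take `i = j = 0` and `i = j = 1`: `s 0 * u 0`, `s 1 * u 1` are units, so `s 0`, `u 1` are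
units, but `s 0 * u 1 ∈ m`: contradiction. -/
theorem type_one [IsLocalRing S] (hI : I ≠ ⊤) {n3 : ℕ} (F : Res S I n1 n2 n3)
    (hm : ∀ c i, F.d3 c i ∈ maximalIdeal S) (B : ((Fin n3 → S) →ₗ[S] S) →ₗ[S] (S ⧸ I))
    (h1 : ∀ f, B f = 0 → ∃ g : (Fin n2 → S) →ₗ[S] S, f = g ∘ₗ F.d3) (h2 : ∃ f, B f = 1) :
    n3 = 1 := by
  obtain ⟨f0, hf0⟩ := h2
  have hs : ∀ i : Fin n3, ∃ s : S, Ideal.Quotient.mk I s = B (LinearMap.proj i) :=
    fun i => Ideal.Quotient.mk_surjective _
  choose s hs using hs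
  have key : ∀ i j : Fin n3, (if i = j then (1 : S) else 0) - s i * f0 (Pi.single j 1) ∈
      maximalIdeal S := by
    intro i j
    have e : B (LinearMap.proj i - s i • f0) = 0 := by
      rw [map_sub, map_smul, hf0, ← hs, Algebra.smul_def, mul_one]
      exact sub_self _
    obtain ⟨g, hg⟩ := h1 _ e
    have e2 := LinearMap.congr_fun hg (Pi.single j 1)
    rw [LinearMap.sub_apply, LinearMap.smul_apply, LinearMap.proj_apply, LinearMap.comp_apply,
      smul_eq_mul, Pi.single_apply, h1_sum g] at e2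
    rw [e2]
    exact Ideal.sum_mem _ fun k _ => Ideal.mul_mem_right _ _ (hm _ _)
  have hu : ∀ i : Fin n3, IsUnit (s i * f0 (Pi.single i 1)) := by
    intro i
    by_contra hn
    have h3 := key i i
    rw [if_pos rfl] at h3
    have h4 : (1 : S) ∈ maximalIdeal S := by
      have h5 := Ideal.add_mem _ h3 ((mem_maximalIdeal _).2 hn)
      rwa [sub_add_cancel] at h5
    exact (Ideal.ne_top_iff_one _).1 (maximalIdeal.isMaximal S).ne_top h4
  rcases Nat.lt_or_ge n3 1 with h | h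
  · exfalso
    have h0 : n3 = 0 := by omega
    subst h0
    have h3 : f0 = 0 := LinearMap.ext fun c => by
      rw [Subsingleton.elim c 0, map_zero, map_zero]
    rw [h3, map_zero] at hf0
    have := Ideal.Quotient.nontrivial_iff.2 hI
    exact zero_ne_one hf0
  rcases Nat.lt_or_ge n3 2 with h' | h'
  · omega
  exfalso
  have a1 := hu ⟨0, by omega⟩
  have a2 := hu ⟨1, by omega⟩
  have a3 := key ⟨0, by omega⟩ ⟨1, by omega⟩
  rw [if_neg (by simp), zero_sub, neg_mem_iff] at a3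
  exact (mem_maximalIdeal _).1 a3
    ((isUnit_of_mul_isUnit_left a1).mul (isUnit_of_mul_isUnit_right a2))

end Pool.Agent.H21V
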