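import Pool.Agent.Lib.H21V.DL

set_option autoImplicit false

open CategoryTheory IsLocalRing
open Pool.Agent.Lib.Helper92 Pool.Agent.Lib.H44V

namespace Pool.Agent.H21V
universe u


variable {S : Type u} [CommRing S] {I : Ideal S} {n1 n2 : ℕ}

theorem h2_sum {n : ℕ} (g : (Fin n → S) →ₗ[S] S) (w : Fin n → S) :
    g w = ∑ k, w k * g (Pi.single k 1) := by
  conv_lhs => rw [← (Pi.basisFun S (Fin n)).sum_repr w]
  rw [map_sum]
  refine Finset.sum_congr rfl fun k _ => ?_
  rw [map_smul, Pi.basisFun_repr, Pi.basisFun_apply, smul_eq_mul]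

/-- CHUNK H2 (S/M).  The entries of `d3 1` generate `I`.
Proof.  `ε := LinearMap.proj 0 : (Fin 1 → S) →ₗ[S] S`; every functional is `f = f 1 • ε` (`1 := fun _ => 1`).  `B f₀ = 1`,
`f₀ = u • ε`, `B ε = mk v`, so `mk (u * v) = 1`.  For `s : S`: `s ∈ I ↔ B (s • ε) = 0` (`B (s • ε) = mk (s * v)` and `mk v` is
a unit with inverse `mk u`) `↔ ∃ g, s • ε = g ∘ d3` (`hB`, `h1`) `↔ ∃ g, s = g (F.d3 1)` (a functional on `Fin 1 → S` is
determined by its value at `1`) `↔ s ∈ Ideal.span (Set.range (F.d3 1))` (`g w = ∑ k, w k * g (Pi.single k 1)`;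
`Ideal.mem_span_range_iff_exists_fun`). -/
theorem span_w (F : Res S I n1 n2 1) (B : ((Fin 1 → S) →ₗ[S] S) →ₗ[S] (S ⧸ I))
    (hB : ∀ g : (Fin n2 → S) →ₗ[S] S, B (g ∘ₗ F.d3) = 0)
    (h1 : ∀ f, B f = 0 → ∃ g : (Fin n2 → S) →ₗ[S] S, f = g ∘ₗ F.d3) (h2 : ∃ f, B f = 1) :
    Ideal.span (Set.range (F.d3 (fun _ => 1))) = I := by
  obtain ⟨f0, hf0⟩ := h2
  obtain ⟨v, hv⟩ : ∃ v : S, Ideal.Quotient.mk I v = B (LinearMap.proj 0) :=
    Ideal.Quotient.mk_surjective _
  have hf : ∀ f : (Fin 1 → S) →ₗ[S] S, B f = Ideal.Quotient.mk I (f (fun _ => 1) * v) := by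
    intro f
    have e : f = f (fun _ => 1) • LinearMap.proj 0 := by
      refine LinearMap.ext fun c => ?_
      have e1 : c = c 0 • (fun _ => (1 : S)) := by
        funext i
        rw [Pi.smul_apply, smul_eq_mul, mul_one, Subsingleton.elim i 0]
      rw [LinearMap.smul_apply, LinearMap.proj_apply]
      conv_lhs => rw [e1, map_smul]
      rw [smul_eq_mul, smul_eq_mul, mul_comm]
    rw [map_mul, hv]
    conv_lhs => rw [e, map_smul]
    rw [Algebra.smul_def]
    rfl
  rw [hf] at hf0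
  apply le_antisymm
  · rw [Ideal.span_le]
    rintro _ ⟨k, rfl⟩
    have e := hB (LinearMap.proj k)
    rw [hf, LinearMap.comp_apply, LinearMap.proj_apply] at e
    have e2 : Ideal.Quotient.mk I (F.d3 (fun _ => 1) k) = 0 := by
      calc Ideal.Quotient.mk I (F.d3 (fun _ => 1) k)
          = Ideal.Quotient.mk I (F.d3 (fun _ => 1) k) * Ideal.Quotient.mk I (f0 (fun _ => 1) * v) := by
            rw [hf0, mul_one]
        _ = Ideal.Quotient.mk I (F.d3 (fun _ => 1) k * v) * Ideal.Quotient.mk I (f0 (fun _ => 1)) := by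
            rw [← map_mul, ← map_mul]
            congr 1
            ring
        _ = 0 := by rw [e, zero_mul]
    exact Ideal.Quotient.eq_zero_iff_mem.1 e2
  · intro s hs
    obtain ⟨g, hg⟩ := h1 (s • LinearMap.proj 0) (by
      rw [hf, Ideal.Quotient.eq_zero_iff_mem, LinearMap.smul_apply, smul_eq_mul]
      exact Ideal.mul_mem_right _ _ (Ideal.mul_mem_right _ _ hs))
    have e := LinearMap.congr_fun hg (fun _ => 1)
    rw [LinearMap.smul_apply, LinearMap.proj_apply, LinearMap.comp_apply, smul_eq_mul, mul_one,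
      h2_sum g] at e
    rw [e]
    exact Ideal.sum_mem _ fun k _ => Ideal.mul_mem_right _ _ (Ideal.subset_span ⟨k, rfl⟩)

end Pool.Agent.H21V
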