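import Pool.Agent.Lib.H21V.A2

set_option autoImplicit false

open CategoryTheory IsLocalRing
open Pool.Agent.Lib.Helper92 Pool.Agent.Lib.H44V

namespace Pool.Agent.H21V
universe u


variable {S : Type u} [CommRing S] {I : Ideal S} {n1 n2 : ℕ}

theorem h3_sum {n : ℕ} (g : (Fin n → S) →ₗ[S] S) (w : Fin n → S) :
    g w = ∑ k, w k * g (Pi.single k 1) := by
  conv_lhs => rw [← (Pi.basisFun S (Fin n)).sum_repr w]
  rw [map_sum]
  refine Finset.sum_congr rfl fun k _ => ?_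
  rw [map_smul, Pi.basisFun_repr, Pi.basisFun_apply, smul_eq_mul]

/-- CHUNK H3 (S/M).  `s1 : F1 → F2*` is surjective.
Proof.  `s1 a := (LinearMap.proj 0) ∘ₗ P.p a`, a linear map of `a` into `M := (Fin n2 → S) →ₗ[S] S`.  `w := F.d3 (fun _ => 1)`.
Claim: `⊤ ≤ range s1 ⊔ m • ⊤` in `M`.  For `ψ`: `ψ w ∈ I`, because `ψ w = ∑ w k * ψ (e_k)` and `w k ∈ I` (`hw`), so
`ψ w = F.d1 a` (`F.hr`).  `P.p a w = P.p a (F.d3 1) = F.d1 a • 1` (`Prd.p_d3`), so `(ψ - s1 a) (F.d3 c) = 0` for all `c`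
(`c = c 0 • 1`); `hdu` gives `φ` with `ψ - s1 a = φ ∘ d2`, and `φ ∘ d2 = ∑ k, φ (e_k) • (proj k ∘ d2)`, where
`proj k ∘ d2` has all its values in `m` (`hm2`), so it is in `m • ⊤` (`proj k ∘ d2 = ∑ l, (F.d2 e_l) k • proj l`).
Nakayama: `Submodule.le_of_le_smul_of_le_jacobson_bot` (`M` is finite, `m ≤ jacobson ⊥`:
`IsLocalRing.maximalIdeal_le_jacobson`), so `range s1 = ⊤`. -/
theorem s1_surj [IsLocalRing S] (F : Res S I n1 n2 1) (P : Prd F)
    (hm2 : ∀ b i, F.d2 b i ∈ maximalIdeal S)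
    (hw : Ideal.span (Set.range (F.d3 (fun _ => 1))) = I)
    (hdu : ∀ ψ : (Fin n2 → S) →ₗ[S] S, ψ ∘ₗ F.d3 = 0 →
      ∃ φ : (Fin n1 → S) →ₗ[S] S, ψ = φ ∘ₗ F.d2) (ψ : (Fin n2 → S) →ₗ[S] S) :
    ∃ a : Fin n1 → S, ∀ c, P.p a c 0 = ψ c := by
  obtain ⟨s1, hs1⟩ : ∃ s1 : (Fin n1 → S) →ₗ[S] (Fin n2 → S) →ₗ[S] S,
      s1 = P.p.compr₂ (LinearMap.proj 0) := ⟨_, rfl⟩
  have hs : ∀ a c, s1 a c = P.p a c 0 := by
    intro a c
    rw [hs1]
    rfl
  have claim : (⊤ : Submodule S ((Fin n2 → S) →ₗ[S] S)) ≤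
      LinearMap.range s1 ⊔ maximalIdeal S • ⊤ := by
    intro ψ _
    have h1 : ψ (F.d3 (fun _ => 1)) ∈ I := by
      rw [h3_sum ψ]
      refine Ideal.sum_mem _ fun k _ => Ideal.mul_mem_right _ _ ?_
      exact hw.le (Ideal.subset_span ⟨k, rfl⟩)
    obtain ⟨a, ha⟩ := F.hr.ge h1
    have h2 : (ψ - s1 a) ∘ₗ F.d3 = 0 := by
      refine LinearMap.ext fun c => ?_
      have e1 : c = c 0 • (fun _ => (1 : S)) := by
        funext i
        rw [Pi.smul_apply, smul_eq_mul, mul_one, Subsingleton.elim i 0]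
      have e2 : F.d3 c = c 0 • F.d3 (fun _ => 1) := by
        conv_lhs => rw [e1, map_smul]
      rw [LinearMap.comp_apply, LinearMap.sub_apply, hs, P.p_d3, e2, map_smul, ← ha,
        Pi.smul_apply, smul_eq_mul, smul_eq_mul, mul_comm, sub_self, LinearMap.zero_apply]
    obtain ⟨φ, hφ⟩ := hdu _ h2
    have h3 : φ ∘ₗ F.d2 ∈ maximalIdeal S • (⊤ : Submodule S ((Fin n2 → S) →ₗ[S] S)) := by
      have e : φ ∘ₗ F.d2 = ∑ l, (φ (F.d2 (Pi.single l 1))) • (LinearMap.proj l : (Fin n2 → S) →ₗ[S] S) := by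
        refine LinearMap.ext fun c => ?_
        rw [h3_sum (φ ∘ₗ F.d2) c, LinearMap.sum_apply]
        refine Finset.sum_congr rfl fun l _ => ?_
        rw [LinearMap.smul_apply, LinearMap.proj_apply, smul_eq_mul, mul_comm]
        rfl
      rw [e]
      refine Submodule.sum_mem _ fun l _ => Submodule.smul_mem_smul ?_ Submodule.mem_top
      rw [h3_sum φ]
      exact Ideal.sum_mem _ fun k _ => Ideal.mul_mem_right _ _ (hm2 _ _)
    have h4 : ψ = s1 a + φ ∘ₗ F.d2 := by rw [← hφ]; abel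
    rw [h4]
    exact Submodule.add_mem_sup ⟨a, rfl⟩ h3
  have h5 := Submodule.le_of_le_smul_of_le_jacobson_bot (Module.Finite.fg_top)
    (IsLocalRing.maximalIdeal_le_jacobson _) claim
  obtain ⟨a, ha⟩ := h5 (Submodule.mem_top (x := ψ))
  refine ⟨a, fun c => ?_⟩
  rw [← hs, ha]

end Pool.Agent.H21V
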