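import Pool.Agent.Lib.H21V.A2

set_option autoImplicit false

open CategoryTheory IsLocalRing
open Pool.Agent.Lib.Helper92 Pool.Agent.Lib.H44V

namespace Pool.Agent.H21V
universe u


variable {S : Type u} [CommRing S] {I : Ideal S} {n1 n2 : ℕ}

/-- CHUNK H4 (S/M).  `s2 : F2 → F1*` is surjective.
Proof.  `h1` for `φ ∘ d2` gives `a` with `P.p a c 0 = φ (F.d2 c)` for all `c`.  `c := F.d3 1` (`1 := fun _ => 1`):
`F.d1 a = P.p a (F.d3 1) 0 = φ 0 = 0` (`Prd.p_d3`, `F.z2`), so `a = F.d2 b` (`F.e1`).  `P.p (F.d2 b) c = - P.p (F.d2 c) b`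
(`Prd.p_skew`), so `(φ + s2 b) (F.d2 c) = 0` where `s2 b := (fun a => P.p a b 0)`; `hdu2` gives `φ + s2 b = l • F.d1`.
`P.p a (l • F.d3 1) 0 = l * F.d1 a` (`Prd.p_d3`).  So `φ = s2 (l • F.d3 1 - b)`. -/
theorem s2_surj (F : Res S I n1 n2 1) (P : Prd F)
    (h1 : ∀ ψ : (Fin n2 → S) →ₗ[S] S, ∃ a : Fin n1 → S, ∀ c, P.p a c 0 = ψ c)
    (hdu2 : ∀ φ : (Fin n1 → S) →ₗ[S] S, φ ∘ₗ F.d2 = 0 → ∃ l : S, φ = l • F.d1)
    (φ : (Fin n1 → S) →ₗ[S] S) : ∃ c : Fin n2 → S, ∀ a, P.p a c 0 = φ a := by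
  obtain ⟨a, ha⟩ := h1 (φ ∘ₗ F.d2)
  have h2 : F.d1 a = 0 := by
    have h3 := ha (F.d3 (fun _ => 1))
    rw [P.p_d3, LinearMap.comp_apply, F.z2, map_zero, Pi.smul_apply, smul_eq_mul, mul_one] at h3
    exact h3
  obtain ⟨b, hb⟩ := F.e1 a h2
  obtain ⟨l, hl⟩ := hdu2 (φ + LinearMap.proj 0 ∘ₗ P.p.flip b) (LinearMap.ext fun c => by
    have h3 := ha c
    rw [← hb, P.p_skew, Pi.neg_apply, LinearMap.comp_apply] at h3
    rw [LinearMap.comp_apply, LinearMap.add_apply, LinearMap.comp_apply, LinearMap.flip_apply,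
      LinearMap.proj_apply, ← h3, LinearMap.zero_apply, neg_add_cancel])
  refine ⟨l • F.d3 (fun _ => 1) - b, fun a' => ?_⟩
  have h4 := LinearMap.congr_fun hl a'
  rw [LinearMap.add_apply, LinearMap.comp_apply, LinearMap.flip_apply, LinearMap.proj_apply,
    LinearMap.smul_apply, smul_eq_mul] at h4
  rw [map_sub, map_smul, P.p_d3, Pi.sub_apply, Pi.smul_apply, Pi.smul_apply, smul_eq_mul,
    smul_eq_mul, mul_one, ← h4, add_sub_cancel_right]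

end Pool.Agent.H21V
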