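import Pool.Agent.Lib.H21V.A2

set_option autoImplicit false

open CategoryTheory IsLocalRing
open Pool.Agent.Lib.Helper92 Pool.Agent.Lib.H44V

namespace Pool.Agent.H21V
universe u


variable {S : Type u} [CommRing S] {I : Ideal S} {n1 n2 : ℕ}

/-- values of a functional -/
theorem h5_lin {n : ℕ} {M : Type u} [AddCommGroup M] [Module S M] (g : (Fin n → S) →ₗ[S] M) (a : Fin n → S) :
    g a = ∑ j, a j • g (Pi.single j 1) := by
  have h : a = ∑ j, a j • (Pi.single j 1 : Fin n → S) := by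
    funext k
    rw [Finset.sum_apply, Finset.sum_eq_single k]
    · rw [Pi.smul_apply, Pi.single_eq_same, smul_eq_mul, mul_one]
    · intro j _ hj
      rw [Pi.smul_apply, Pi.single_eq_of_ne (Ne.symm hj), smul_zero]
    · intro h
      exact absurd (Finset.mem_univ k) h
  conv_lhs => rw [h, map_sum]
  exact Finset.sum_congr rfl fun j _ => map_smul _ _ _

/-- dot product as a functional -/
def h5_dot {n : ℕ} (v : Fin n → S) : (Fin n → S) →ₗ[S] S where
  toFun a := v ⬝ᵥ a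
  map_add' a b := dotProduct_add _ _ _
  map_smul' c a := by
    rw [dotProduct_smul]
    rfl

/-- CHUNK H5 (M).  Standard coordinates.
Proof.  `h1`, `h2` say that `s1 : S^n1 → Dual (S^n2)` and `s2 : S^n2 → Dual (S^n1)` are surjective, so `n2 ≤ n1` and `n1 ≤ n2`
(surjective linear maps between free modules over a nontrivial commutative ring; `Module.finrank`,
`LinearMap.finrank_le_finrank_of_surjective`-type lemma or `card_le_of_surjective`; the dual of `Fin n → S` is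
`≃ₗ Fin n → S`), `subst`; `n := n1 = n2`.  `s2` is a surjective endomorphism up to this identification, so it is
injective (`OrzechProperty` / `LinearMap.injective_of_surjective` for Noetherian modules).
Choose (`h2`) `c j : Fin n → S` with `P.p a (c j) 0 = a j` for all `a`; `Θ v := ∑ j, v j • c j`, so
`P.p a (Θ v) 0 = a ⬝ᵥ v` (★).  `Θ` is bijective: injective by (★); surjective: for `b` put `v j := P.p (Pi.single j 1) b 0`, then
`Θ v` and `b` have the same image under `s2`.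
`f i := F.d1 (Pi.single i 1)`, `Φ i j := F.d2 (c j) i`; `F.d1 a = f ⬝ᵥ a`, `Φ.mulVec v = F.d2 (Θ v)`.
`Θ f = F.d3 1`: `P.p a (F.d3 1) 0 = F.d1 a = a ⬝ᵥ f` (`Prd.p_d3`), `s2` injective.
`hI`: `F.hr`.  `alt0`: `Φ i i = (F.d2 (c i)) i = P.p (F.d2 (c i)) (c i) 0 = 0` (`Prd.p_alt`).  `alt1`:
`Φ i j = P.p (F.d2 (c j)) (c i) 0 = - P.p (F.d2 (c i)) (c j) 0 = - Φ j i` (`Prd.p_skew`).
`zz`: `Φ.mulVec f = F.d2 (F.d3 1) = 0`.  `e1`: `F.e1` and `b = Θ v`.  `e2`: `F.d2 (Θ c) = 0`, so `Θ c = F.d3 l = l 0 • F.d3 1 =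
Θ (l 0 • f)`.  `e3`: `l • f = 0`, `F.d3 (l • 1) = l • Θ f = Θ (l • f) = 0`, so `l = 0` (`F.e3`). -/
theorem exists_gor [IsNoetherianRing S] [Nontrivial S] (F : Res S I n1 n2 1) (P : Prd F)
    (h1 : ∀ ψ : (Fin n2 → S) →ₗ[S] S, ∃ a : Fin n1 → S, ∀ c, P.p a c 0 = ψ c)
    (h2 : ∀ φ : (Fin n1 → S) →ₗ[S] S, ∃ c : Fin n2 → S, ∀ a, P.p a c 0 = φ a) :
    Nonempty (Gor S I n1) := by
  obtain ⟨s1, hs1⟩ : ∃ s1 : (Fin n1 → S) →ₗ[S] (Fin n2 → S), ∀ a k, s1 a k = P.p a (Pi.single k 1) 0 :=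
    ⟨LinearMap.pi fun k => (LinearMap.proj 0) ∘ₗ (P.p.flip (Pi.single k 1)), fun a k => rfl⟩
  obtain ⟨s2, hs2⟩ : ∃ s2 : (Fin n2 → S) →ₗ[S] (Fin n1 → S), ∀ c j, s2 c j = P.p (Pi.single j 1) c 0 :=
    ⟨LinearMap.pi fun j => (LinearMap.proj 0) ∘ₗ (P.p (Pi.single j 1)), fun a k => rfl⟩
  have hs1s : Function.Surjective s1 := by
    intro v
    obtain ⟨a, ha⟩ := h1 (h5_dot v)
    refine ⟨a, funext fun k => ?_⟩
    rw [hs1, ha]
    show v ⬝ᵥ Pi.single k 1 = v k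
    rw [dotProduct_single_one]
  have hs2s : Function.Surjective s2 := by
    intro v
    obtain ⟨a, ha⟩ := h2 (h5_dot v)
    refine ⟨a, funext fun k => ?_⟩
    rw [hs2, ha]
    show v ⬝ᵥ Pi.single k 1 = v k
    rw [dotProduct_single_one]
  have hn : n2 = n1 := by
    have a1 := card_le_of_surjective S s1 hs1s
    have a2 := card_le_of_surjective S s2 hs2s
    rw [Fintype.card_fin, Fintype.card_fin] at a1 a2
    omega
  subst hn
  have hs2i : Function.Injective s2 := OrzechProperty.injective_of_surjective_endomorphism s2 hs2s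
  obtain ⟨E, hE⟩ : ∃ E : (Fin n2 → S) ≃ₗ[S] (Fin n2 → S), ∀ c, E c = s2 c :=
    ⟨LinearEquiv.ofBijective s2 ⟨hs2i, hs2s⟩, fun c => rfl⟩
  have hp : ∀ a c, P.p a c 0 = a ⬝ᵥ E c := by
    intro a c
    have a1 := h5_lin ((LinearMap.proj (R := S) (φ := fun _ : Fin 1 => S) 0) ∘ₗ (P.p.flip c)) a
    have a2 : ((LinearMap.proj (R := S) (φ := fun _ : Fin 1 => S) 0) ∘ₗ (P.p.flip c)) a = P.p a c 0 := rfl
    rw [← a2, a1]
    refine Finset.sum_congr rfl fun j _ => ?_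
    rw [hE, hs2]
    rfl
  have hpT : ∀ a v, P.p a (E.symm v) 0 = a ⬝ᵥ v := by
    intro a v
    rw [hp, LinearEquiv.apply_symm_apply]
  obtain ⟨f, hf⟩ : ∃ f : Fin n2 → S, f = fun i => F.d1 (Pi.single i 1) := ⟨_, rfl⟩
  obtain ⟨Φ, hΦ⟩ : ∃ Φ : Matrix (Fin n2) (Fin n2) S, ∀ i j, Φ i j = F.d2 (E.symm (Pi.single j 1)) i :=
    ⟨fun i j => F.d2 (E.symm (Pi.single j 1)) i, fun _ _ => rfl⟩
  have hd1 : ∀ a, F.d1 a = f ⬝ᵥ a := by
    intro a
    rw [h5_lin F.d1 a, dotProduct_comm, hf]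
    rfl
  have hΦv : ∀ v, Φ.mulVec v = F.d2 (E.symm v) := by
    intro v
    have a1 := h5_lin (F.d2 ∘ₗ E.symm.toLinearMap) v
    have a2 : (F.d2 ∘ₗ E.symm.toLinearMap) v = F.d2 (E.symm v) := rfl
    rw [← a2, a1]
    funext i
    rw [Finset.sum_apply]
    show ∑ j, Φ i j * v j = _
    refine Finset.sum_congr rfl fun j _ => ?_
    rw [hΦ, Pi.smul_apply, smul_eq_mul, mul_comm]
    rfl
  have hf3 : F.d3 1 = E.symm f := by
    apply E.injective
    rw [LinearEquiv.apply_symm_apply]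
    funext j
    rw [hE, hs2, P.p_d3, hf]
    simp
  have hone : ∀ l : Fin 1 → S, l = l 0 • (1 : Fin 1 → S) := by
    intro l
    funext i
    rw [Subsingleton.elim i 0]
    simp
  refine ⟨⟨f, Φ, ?_, ?_, ?_, ?_, ?_, ?_, ?_⟩⟩
  · apply le_antisymm
    · rw [Ideal.span_le]
      rintro _ ⟨i, rfl⟩
      rw [← F.hr, hf]
      exact ⟨_, rfl⟩
    · intro x hx
      rw [← F.hr] at hx
      obtain ⟨a, rfl⟩ := hx
      rw [hd1]
      exact Ideal.sum_mem _ fun j _ => Ideal.mul_mem_right _ _ (Ideal.subset_span ⟨j, rfl⟩)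
  · intro i
    have a1 := hpT (F.d2 (E.symm (Pi.single i 1))) (Pi.single i 1)
    rw [dotProduct_single_one, P.p_alt] at a1
    rw [hΦ, ← a1]
    rfl
  · intro i j
    have a1 := hpT (F.d2 (E.symm (Pi.single j 1))) (Pi.single i 1)
    have a2 := hpT (F.d2 (E.symm (Pi.single i 1))) (Pi.single j 1)
    rw [dotProduct_single_one] at a1 a2
    rw [hΦ, hΦ, ← a1, ← a2, P.p_skew]
    rfl
  · rw [hΦv, ← hf3, F.z2]
  · intro a ha
    rw [← hd1] at ha
    obtain ⟨b, rfl⟩ := F.e1 a ha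
    refine ⟨E b, ?_⟩
    rw [hΦv, LinearEquiv.symm_apply_apply]
  · intro c hc
    rw [hΦv] at hc
    obtain ⟨l, hl⟩ := F.e2 _ hc
    refine ⟨l 0, ?_⟩
    rw [hone l, map_smul, hf3, ← map_smul] at hl
    exact (E.symm.injective hl).symm
  · intro l hl
    have a1 : F.d3 (l • (1 : Fin 1 → S)) = 0 := by
      rw [map_smul, hf3, ← map_smul, hl, map_zero]
    have a2 := congrFun (F.e3 _ a1) 0
    simpa using a2

end Pool.Agent.H21V
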