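import Pool.Agent.Lib.H21V.DL
import Pool.Agent.Lib.H44V.K1

set_option autoImplicit false

open CategoryTheory IsLocalRing
open Pool.Agent.Lib.Helper92 Pool.Agent.Lib.H44V

namespace Pool.Agent.H21V
universe u


variable {S : Type u} [CommRing S] {I : Ideal S} {n : ℕ}

lemma j1_f_mem (G : Gor S I n) (j : Fin n) : G.f j ∈ I := by
  have h := Ideal.subset_span (α := S) (Set.mem_range_self (f := G.f) j)
  rw [G.hI] at h
  exact h

/-- the generators of the cotangent module. -/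
noncomputable def j1_c (G : Gor S I n) (j : Fin n) : I.Cotangent :=
  I.toCotangent ⟨G.f j, j1_f_mem G j⟩

/-- the map onto the cotangent module. -/
noncomputable def j1_q (G : Gor S I n) : (Fin n → S ⧸ I) →ₗ[S ⧸ I] I.Cotangent :=
  Fintype.linearCombination (S ⧸ I) (j1_c G)

lemma j1_q_apply (G : Gor S I n) (v : Fin n → S ⧸ I) : j1_q G v = ∑ j, v j • j1_c G j := rfl

lemma j1_dot_mem (G : Gor S I n) (a : Fin n → S) : G.f ⬝ᵥ a ∈ I :=
  Ideal.sum_mem _ fun j _ => Ideal.mul_mem_right _ _ (j1_f_mem G j)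

lemma j1_q_mk (G : Gor S I n) (a : Fin n → S) :
    j1_q G (fun j => Ideal.Quotient.mk I (a j)) = I.toCotangent ⟨G.f ⬝ᵥ a, j1_dot_mem G a⟩ := by
  rw [j1_q_apply]
  have h1 : ∀ j, (Ideal.Quotient.mk I (a j)) • j1_c G j =
      I.toCotangent (a j • (⟨G.f j, j1_f_mem G j⟩ : I)) := by
    intro j
    rw [map_smul]
    rfl
  rw [Finset.sum_congr rfl fun j _ => h1 j, ← map_sum]
  congr 1
  apply Subtype.ext
  rw [AddSubmonoidClass.coe_finsetSum]
  change ∑ j, a j * G.f j = ∑ j, G.f j * a j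
  exact Finset.sum_congr rfl fun j _ => mul_comm _ _

lemma j1_q_surj (G : Gor S I n) : Function.Surjective (j1_q G) := by
  intro x
  obtain ⟨⟨y, hy⟩, rfl⟩ := I.toCotangent_surjective x
  have hy' : y ∈ Ideal.span (Set.range G.f) := by rw [G.hI]; exact hy
  obtain ⟨a, ha⟩ := (Ideal.mem_span_range_iff_exists_fun).mp hy'
  refine ⟨fun j => Ideal.Quotient.mk I (a j), ?_⟩
  rw [j1_q_mk]
  congr 1
  apply Subtype.ext
  refine Eq.trans ?_ ha
  change ∑ j, G.f j * a j = ∑ j, a j * G.f j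
  exact Finset.sum_congr rfl fun j _ => mul_comm _ _

/-- the middle map. -/
noncomputable def j1_φ (G : Gor S I n) : (Fin n → S ⧸ I) →ₗ[S ⧸ I] (Fin n → S ⧸ I) :=
  (G.Φ.map (Ideal.Quotient.mk I)).mulVecLin

lemma j1_φ_mk (G : Gor S I n) (a : Fin n → S) :
    j1_φ G (fun j => Ideal.Quotient.mk I (a j)) =
      fun j => Ideal.Quotient.mk I (G.Φ.mulVec a j) := by
  funext j
  exact (RingHom.map_mulVec (Ideal.Quotient.mk I) G.Φ a j).symm

lemma j1_mk (v : Fin n → S ⧸ I) : ∃ a : Fin n → S, v = fun j => Ideal.Quotient.mk I (a j) := by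
  choose a ha using fun j => Ideal.Quotient.mk_surjective (v j)
  exact ⟨a, funext fun j => (ha j).symm⟩

lemma j1_vecMul (G : Gor S I n) : Matrix.vecMul G.f G.Φ = 0 := by
  have h1 : G.Φ.transpose = - G.Φ := by
    ext i j
    rw [Matrix.transpose_apply, Matrix.neg_apply]
    exact G.alt1 j i
  rw [← Matrix.mulVec_transpose, h1, Matrix.neg_mulVec, G.zz, neg_zero]

lemma j1_vecMul' (G : Gor S I n) (v : Fin n → S ⧸ I) :
    Matrix.vecMul v (G.Φ.map (Ideal.Quotient.mk I)) = - j1_φ G v := by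
  have h1 : (G.Φ.map (Ideal.Quotient.mk I)).transpose = - (G.Φ.map (Ideal.Quotient.mk I)) := by
    ext i j
    rw [Matrix.transpose_apply, Matrix.neg_apply, Matrix.map_apply, Matrix.map_apply,
      G.alt1 j i, map_neg]
  rw [← Matrix.mulVec_transpose, h1, Matrix.neg_mulVec]
  rfl

lemma j1_ex2 (G : Gor S I n) : Function.Exact (j1_φ G) (j1_q G) := by
  intro v
  constructor
  · intro hv
    obtain ⟨a, rfl⟩ := j1_mk v
    rw [j1_q_mk, Ideal.toCotangent_eq_zero] at hv
    change G.f ⬝ᵥ a ∈ I ^ 2 at hv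
    have h2 : G.f ⬝ᵥ a ∈ I • Submodule.span S (Set.range G.f) := by
      have h3 : Submodule.span S (Set.range G.f) = I := G.hI
      rw [h3, smul_eq_mul, ← sq]
      exact hv
    rw [Submodule.mem_ideal_smul_span_iff_exists_sum] at h2
    obtain ⟨b, hb, hsum⟩ := h2
    rw [Finsupp.sum_fintype b (fun i c => c • G.f i) (fun i => zero_smul _ _)] at hsum
    have h4 : G.f ⬝ᵥ (fun j => a j - b j) = 0 := by
      have h5 : G.f ⬝ᵥ (fun j => a j - b j) = G.f ⬝ᵥ a - ∑ j, b j • G.f j := by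
        change ∑ j, G.f j * (a j - b j) = ∑ j, G.f j * a j - ∑ j, b j • G.f j
        rw [← Finset.sum_sub_distrib]
        refine Finset.sum_congr rfl fun j _ => ?_
        rw [smul_eq_mul]
        ring
      rw [h5, hsum, sub_self]
    obtain ⟨w, hw⟩ := G.e1 _ h4
    refine ⟨fun j => Ideal.Quotient.mk I (w j), ?_⟩
    rw [j1_φ_mk, hw]
    funext j
    rw [map_sub, (Ideal.Quotient.eq_zero_iff_mem).mpr (hb j), sub_zero]
  · rintro ⟨w, rfl⟩
    obtain ⟨b, rfl⟩ := j1_mk w
    rw [j1_φ_mk]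
    have h := j1_q_mk G (G.Φ.mulVec b)
    rw [h]
    have h6 : G.f ⬝ᵥ G.Φ.mulVec b = 0 := by
      rw [Matrix.dotProduct_mulVec, j1_vecMul, zero_dotProduct]
    have h7 : (⟨G.f ⬝ᵥ G.Φ.mulVec b, j1_dot_mem G _⟩ : I) = 0 := Subtype.ext h6
    rw [h7, map_zero]

/-- the left map. -/
noncomputable def j1_i (G : Gor S I n) : NM I →ₗ[S ⧸ I] (Fin n → S ⧸ I) where
  toFun ν := fun j => ν (j1_c G j)
  map_add' _ _ := rfl
  map_smul' _ _ := rfl

lemma j1_eval (G : Gor S I n) (ν : NM I) (v : Fin n → S ⧸ I) :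
    ν (j1_q G v) = j1_i G ν ⬝ᵥ v := by
  rw [j1_q_apply, map_sum]
  refine Finset.sum_congr rfl fun j _ => ?_
  rw [map_smul, smul_eq_mul, mul_comm]
  rfl

lemma j1_inj (G : Gor S I n) : Function.Injective (j1_i G) := by
  intro ν ν' h
  refine LinearMap.ext fun x => ?_
  obtain ⟨v, rfl⟩ := j1_q_surj G x
  rw [j1_eval, j1_eval, h]

lemma j1_ex1 (G : Gor S I n) : Function.Exact (j1_i G) (j1_φ G) := by
  intro v
  constructor
  · intro hv
    let L : (Fin n → S ⧸ I) →ₗ[S ⧸ I] (S ⧸ I) := 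
      { toFun := fun w => v ⬝ᵥ w
        map_add' := fun a b => dotProduct_add _ _ _
        map_smul' := fun a b => dotProduct_smul _ _ _ }
    have hL : ∀ w, L w = v ⬝ᵥ w := fun w => rfl
    have hker : LinearMap.ker (j1_q G) ≤ LinearMap.ker L := by
      intro w hw
      obtain ⟨u, rfl⟩ := (j1_ex2 G w).mp hw
      rw [LinearMap.mem_ker, hL]
      change v ⬝ᵥ (G.Φ.map (Ideal.Quotient.mk I)).mulVec u = 0
      rw [Matrix.dotProduct_mulVec, j1_vecMul', hv, neg_zero, zero_dotProduct]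
    let e := (j1_q G).quotKerEquivOfSurjective (j1_q_surj G)
    let ν : NM I := (LinearMap.ker (j1_q G)).liftQ L hker ∘ₗ e.symm.toLinearMap
    have hν : ∀ w, ν (j1_q G w) = v ⬝ᵥ w := by
      intro w
      change (LinearMap.ker (j1_q G)).liftQ L hker (e.symm (j1_q G w)) = _
      have h1 : e.symm (j1_q G w) = Submodule.Quotient.mk w := by
        rw [LinearEquiv.symm_apply_eq]
        rfl
      rw [h1]
      rfl
    refine ⟨ν, ?_⟩
    have h2 : ∀ w, j1_i G ν ⬝ᵥ w = v ⬝ᵥ w := fun w => by rw [← j1_eval, hν]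
    exact dotProduct_eq _ _ h2
  · rintro ⟨ν, rfl⟩
    have h1 : ∀ w, (Matrix.vecMul (j1_i G ν) (G.Φ.map (Ideal.Quotient.mk I))) ⬝ᵥ w = 0 := by
      intro w
      rw [← Matrix.dotProduct_mulVec]
      have h2 := j1_eval G ν (j1_φ G w)
      rw [(j1_ex2 G _).mpr ⟨w, rfl⟩, map_zero] at h2
      exact h2.symm
    have h3 := dotProduct_eq_zero _ h1
    rw [j1_vecMul', neg_eq_zero] at h3
    exact h3

/-- CHUNK J1a (M).  The four term sequence.
Proof.  `R := S ⧸ I`, `c j := I.toCotangent ⟨G.f j, _⟩`.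
`q v := ∑ j, v j • c j` (`Fintype.linearCombination R c`); surjective because the `G.f j` generate `I` (`G.hI`; a general element
of `I` is `∑ a j * G.f j`, `Ideal.mem_span_range_iff_exists_fun`, and `mk a • x = a • x`).
`φ v i := ∑ j, mk (G.Φ i j) * v j` (`Matrix.mulVecLin (G.Φ.map mk)`).
`i n := fun j => n (c j)`.
`i` injective: a functional which kills all `c j` is 0 (`q` surjective).
Exact at the left: `v ∈ range i` iff `∑ j, v j * r j = 0` for every `r` with `q r = 0` (a functional on `R^n` which kills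
`ker q` factors through `q`).  By the next step `ker q = range φ`, so iff `∑ i j, v i * mk (Φ i j) * w j = 0` for all `w`, iff
`∑ i, v i * mk (Φ i j) = 0` for all `j`, iff (`alt1`) `∑ i, mk (Φ j i) * v i = 0`, iff `φ v = 0`.
Exact at the middle: `q (φ v) = 0`: `v = mk ∘ a`; `∑ i, (Φ a)_i • c i` is the class of `f ⬝ᵥ Φ.mulVec a = - (Φ.mulVec f) ⬝ᵥ a = 0`.
Conversely `q v = 0`, `v = mk ∘ a`: `f ⬝ᵥ a ∈ I ^ 2` (`Ideal.toCotangent_eq_zero`), `I ^ 2 = I * span (range f)`, so
`f ⬝ᵥ a = ∑ b j * f j` with `b j ∈ I` (`Submodule.mem_ideal_smul_span_iff_exists_sum` or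
`Ideal.mem_span_range..`), `f ⬝ᵥ (a - b) = 0`, `G.e1`: `a - b = Φ.mulVec w`, so `v = mk ∘ (a - b) = φ (mk ∘ w)`. -/
theorem four_term (G : Gor S I n) :
    ∃ (i : NM I →ₗ[S ⧸ I] (Fin n → S ⧸ I)) (φ : (Fin n → S ⧸ I) →ₗ[S ⧸ I] (Fin n → S ⧸ I))
      (q : (Fin n → S ⧸ I) →ₗ[S ⧸ I] I.Cotangent),
      Function.Injective i ∧ Function.Exact i φ ∧ Function.Exact φ q ∧
        Function.Surjective q :=
  ⟨j1_i G, j1_φ G, j1_q G, j1_inj G, j1_ex1 G, j1_ex2 G, j1_q_surj G⟩

/-- CHUNK J1b (S).  Proof.  `W := LinearMap.range φ`.  `0 → N → F1 → W → 0` (maps `i`, `φ.rangeRestrict`) and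
`ShortComplex.ShortExact.hasProjectiveDimensionLT_X₃` (`F1` projective: `HasProjectiveDimensionLT _ 1`, then
`hasProjectiveDimensionLT_of_ge`) give `HasProjectiveDimensionLT W (k + 1)`; `0 → W → F2 → C → 0` gives the claim.  Short exact
complexes as in `Pool.Agent.Lib.H44V.K1_sc`, `K1_sc_exact` (H44V/K1). -/
theorem pd_four {R : Type u} [CommRing R] {N F1 F2 C : Type u} [AddCommGroup N] [AddCommGroup F1]
    [AddCommGroup F2] [AddCommGroup C] [Module R N] [Module R F1] [Module R F2] [Module R C]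
    [Module.Projective R F1] [Module.Projective R F2] (i : N →ₗ[R] F1) (φ : F1 →ₗ[R] F2)
    (q : F2 →ₗ[R] C) (hi : Function.Injective i) (hφ : Function.Exact i φ)
    (hq : Function.Exact φ q) (hs : Function.Surjective q) (k : ℕ)
    (h : HasProjectiveDimensionLT (ModuleCat.of R N) k) :
    HasProjectiveDimensionLT (ModuleCat.of R C) (k + 2) := by
  have p1 : Projective (ModuleCat.of R F1) := by
    rw [← IsProjective.iff_projective]; infer_instance
  have p2 : Projective (ModuleCat.of R F2) := by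
    rw [← IsProjective.iff_projective]; infer_instance
  have d1 : HasProjectiveDimensionLT (ModuleCat.of R F1) (k + 1) :=
    hasProjectiveDimensionLT_of_ge _ 1 (k + 1) (by omega)
  have d2 : HasProjectiveDimensionLT (ModuleCat.of R F2) (k + 1 + 1) :=
    hasProjectiveDimensionLT_of_ge _ 1 (k + 1 + 1) (by omega)
  have e1 : Function.Exact i φ.rangeRestrict := by
    intro y
    constructor
    · intro hy
      exact (hφ y).mp (congrArg Subtype.val hy)
    · intro hy
      exact Subtype.ext ((hφ y).mpr hy)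
  have e2 : Function.Exact (LinearMap.range φ).subtype q := by
    intro y
    constructor
    · intro hy
      exact ⟨⟨y, (hq y).mp hy⟩, rfl⟩
    · rintro ⟨⟨z, hz⟩, rfl⟩
      exact (hq z).mpr hz
  have w1 : HasProjectiveDimensionLT (ModuleCat.of R (LinearMap.range φ)) (k + 1) :=
    (K1_sc_exact i φ.rangeRestrict hi φ.surjective_rangeRestrict e1).hasProjectiveDimensionLT_X₃
      k h d1
  exact (K1_sc_exact (LinearMap.range φ).subtype q (Submodule.subtype_injective _) hs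
    e2).hasProjectiveDimensionLT_X₃ (k + 1) w1 d2

end Pool.Agent.H21V
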