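import Pool.Agent.Lib.H21V.DL
import Pool.Agent.Lib.H44V.F4

set_option autoImplicit false

open CategoryTheory IsLocalRing
open Pool.Agent.Lib.Helper92 Pool.Agent.Lib.H44V

namespace Pool.Agent.H21V
universe u


variable {S : Type u} [CommRing S]

/-- `Dp` is monotone. -/
theorem dp_mono [IsLocalRing S] {Y : ModuleCat.{u} S} {a b : ℕ} (hab : a ≤ b) (h : Dp Y b) :
    Dp Y a := fun j hj => h j (lt_of_lt_of_le hj hab)

/-- CHUNK K7A (S/M).  Depth along a resolution.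
Proof.  `F4_coker` three times: `K2 := LinearMap.range D2`: `0 → G3 → G2 → K2 → 0` (maps `D3`, `D2.rangeRestrict`) gives
`Dp K2 (a + 2)`; `K1 := LinearMap.range D1`: `0 → K2 → G1 → K1 → 0` (maps `K2.subtype`, `D1.rangeRestrict`) gives
`Dp K1 (a + 1)`; `0 → K1 → G0 → Q → 0` gives `Dp Q a`.  (`F4_coker` needs `Dp G d` and `Dp K (d + 1)`; use `dp_mono`
where necessary.) -/
theorem dp_of_res [IsLocalRing S] {G0 G1 G2 G3 Q : Type u} [AddCommGroup G0] [AddCommGroup G1]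
    [AddCommGroup G2] [AddCommGroup G3] [AddCommGroup Q] [Module S G0] [Module S G1]
    [Module S G2] [Module S G3] [Module S Q] (D0 : G0 →ₗ[S] Q) (D1 : G1 →ₗ[S] G0)
    (D2 : G2 →ₗ[S] G1) (D3 : G3 →ₗ[S] G2) (h0 : Function.Surjective D0)
    (x0 : Function.Exact D1 D0) (x1 : Function.Exact D2 D1) (x2 : Function.Exact D3 D2)
    (h3 : Function.Injective D3) (a : ℕ) (p3 : Dp (ModuleCat.of S G3) (a + 3))
    (p2 : Dp (ModuleCat.of S G2) (a + 2)) (p1 : Dp (ModuleCat.of S G1) (a + 1))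
    (p0 : Dp (ModuleCat.of S G0) a) : Dp (ModuleCat.of S Q) a := by
  have k2 : Dp (ModuleCat.of S (LinearMap.range D2)) (a + 2) := by
    refine F4_coker S D3 D2.rangeRestrict h3 D2.surjective_rangeRestrict ?_ (a + 2) p2 p3
    intro y
    rw [← x2 y]
    exact Subtype.ext_iff
  have k1 : Dp (ModuleCat.of S (LinearMap.range D1)) (a + 1) := by
    refine F4_coker S (LinearMap.range D2).subtype D1.rangeRestrict Subtype.val_injective
      D1.surjective_rangeRestrict ?_ (a + 1) p1 k2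
    intro y
    refine Iff.trans Subtype.ext_iff (Iff.trans (x1 y) ?_)
    constructor
    · rintro ⟨z, hz⟩
      exact ⟨⟨y, ⟨z, hz⟩⟩, rfl⟩
    · rintro ⟨⟨w, ⟨z, hz⟩⟩, hw⟩
      exact ⟨z, hz.trans hw⟩
  refine F4_coker S (LinearMap.range D1).subtype D0 Subtype.val_injective h0 ?_ a p0 k1
  intro y
  refine Iff.trans (x0 y) ?_
  constructor
  · rintro ⟨z, hz⟩
    exact ⟨⟨y, ⟨z, hz⟩⟩, rfl⟩
  · rintro ⟨⟨w, ⟨z, hz⟩⟩, hw⟩
    exact ⟨z, hz.trans hw⟩

end Pool.Agent.H21V
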