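import Pool.Agent.Lib.H21V.K6
import Pool.Agent.Lib.H21V.K7A

set_option autoImplicit false

open CategoryTheory IsLocalRing
open Pool.Agent.Lib.Helper92 Pool.Agent.Lib.H44V

namespace Pool.Agent.H21V
universe u


variable {S : Type u} [CommRing S] {I : Ideal S} {n : ℕ}

/-- the quadratic form. -/
def k7q (f : Fin n → S) : Matrix (Fin n) (Fin n) S →ₗ[S] S where
  toFun M := f ⬝ᵥ M.mulVec f
  map_add' M N := by rw [Matrix.add_mulVec, dotProduct_add]
  map_smul' c M := by rw [Matrix.smul_mulVec, dotProduct_smul]; rfl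

/-- the map `D3`. -/
def k7c (Φ : Matrix (Fin n) (Fin n) S) : (altSub S n × S) →ₗ[S] Matrix (Fin n) (Fin n) S where
  toFun p := p.2 • (1 : Matrix (Fin n) (Fin n) S) + Φ * p.1.1
  map_add' p q := by
    change (p.2 + q.2) • (1 : Matrix (Fin n) (Fin n) S) + Φ * (p.1.1 + q.1.1) = _
    rw [add_smul, Matrix.mul_add]
    abel
  map_smul' c p := by
    change (c * p.2) • (1 : Matrix (Fin n) (Fin n) S) + Φ * (c • p.1.1) = c • (p.2 • (1 : Matrix (Fin n) (Fin n) S) + Φ * p.1.1)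
    rw [mul_smul, Matrix.mul_smul, smul_add]

/-- multiplication by `Φ`. -/
def k7b (Φ : Matrix (Fin n) (Fin n) S) : Matrix (Fin n) (Fin n) S →ₗ[S] (Matrix (Fin n) (Fin n) S ⧸ altSub S n) :=
  (altSub S n).mkQ ∘ₗ
    { toFun := fun X => X * Φ
      map_add' := fun X Y => Matrix.add_mul X Y Φ
      map_smul' := fun c X => Matrix.smul_mul c X Φ }

theorem k7_bz (Φ X : Matrix (Fin n) (Fin n) S) : k7b Φ X = 0 ↔ Alt (X * Φ) :=
  Submodule.Quotient.mk_eq_zero (altSub S n)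

theorem k7_vec (f a b : Fin n → S) : f ⬝ᵥ (Matrix.vecMulVec a b).mulVec f = (a ⬝ᵥ f) * (b ⬝ᵥ f) := by
  rw [Matrix.vecMulVec_mulVec, dotProduct_smul, op_smul_eq_mul, dotProduct_comm f a]

/-- CHUNK K7 (S/M).  Depth of `S ⧸ I²`.
Proof.  `dp_of_res` with `Q := S ⧸ I ^ 2`, `G0 := S`, `G1 := Matrix ⧸ altSub S n`, `G2 := Matrix (Fin n) (Fin n) S`,
`G3 := altSub S n × S` and the maps of `K6` (`D0 := mkQ`, `D1 (mk M) := G.f ⬝ᵥ M.mulVec G.f`, `D2 X := mk (X * G.Φ)`,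
`D3 (A, l) := l • 1 + G.Φ * A`).  Exactness at `G0`: `range D1 = I ^ 2`: `⊆`: `f ⬝ M f = ∑ f i * M i j * f j`; `⊇`: `I ^ 2` is
spanned by the `f i * f j` (`Ideal.span_mul_span`, `G.hI`), `= D1 (mk (Matrix.single i j 1))`.  At `G1`, `G2`, injectivity:
`sq_acyclic` and `k3b`, `k3c`.  `Dp` of the free modules: `F4_pi` with `dp_mono` (`alt_free`, `quot_free`; the product
`altSub S n × S` is free and finite). -/
theorem dp_sq [IsNoetherianRing S] [IsLocalRing S] (G : Gor S I n) (x : ℕ → S)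
    (hm : ∀ j < 3, x j ∈ maximalIdeal S) (h : ∀ j < 3, IsSMulRegular (S ⧸ Jx x j) (x j))
    (hx : ∀ j < 3, x j ∈ I) (a : ℕ) (hS : Dp (ModuleCat.of S S) (a + 3)) :
    Dp (Qt (I ^ 2)) a := by
  obtain ⟨a1, a2, a3⟩ := sq_acyclic G x hm h hx
  haveI := (alt_free S n).1
  haveI := (alt_free S n).2
  haveI := (quot_free S n).1
  haveI := (quot_free S n).2
  have hfI : ∀ i, G.f i ∈ I := by
    intro i
    exact G.hI.le (Ideal.subset_span ⟨i, rfl⟩)
  refine dp_of_res (Q := S ⧸ I ^ 2) (Submodule.mkQ (I ^ 2))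
    ((altSub S n).liftQ (k7q G.f) (fun A hA => (k3c G 0 A hA).2)) (k7b G.Φ) (k7c G.Φ)
    (Submodule.mkQ_surjective _) ?_ ?_ ?_ ?_ a (F4_pi S _ hS _)
    (F4_pi S _ (dp_mono (by omega) hS) _) (F4_pi S _ (dp_mono (by omega) hS) _)
    (dp_mono (by omega) hS)
  · intro y
    refine (Submodule.Quotient.mk_eq_zero (I ^ 2)).trans ?_
    constructor
    · intro hy
      rw [pow_two] at hy
      refine Submodule.mul_induction_on hy (fun m hm n hn => ?_) (fun u v hu hv => ?_)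
      · obtain ⟨c, rfl⟩ := Ideal.mem_span_range_iff_exists_fun.1 (G.hI.ge hm)
        obtain ⟨d, rfl⟩ := Ideal.mem_span_range_iff_exists_fun.1 (G.hI.ge hn)
        exact ⟨(altSub S _).mkQ (Matrix.vecMulVec c d), k7_vec G.f c d⟩
      · obtain ⟨g, hg⟩ := hu
        obtain ⟨g', hg'⟩ := hv
        exact ⟨g + g', by rw [map_add, hg, hg']⟩
    · rintro ⟨g, rfl⟩
      obtain ⟨M, rfl⟩ := Submodule.mkQ_surjective _ g
      change G.f ⬝ᵥ M.mulVec G.f ∈ I ^ 2
      rw [pow_two]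
      refine Ideal.sum_mem _ fun i _ => Ideal.mul_mem_mul (hfI i) ?_
      change ∑ j, M i j * G.f j ∈ I
      exact Ideal.sum_mem _ fun j _ => Ideal.mul_mem_left _ _ (hfI j)
  · intro g
    obtain ⟨M, rfl⟩ := Submodule.mkQ_surjective _ g
    constructor
    · intro hM
      obtain ⟨X, hX⟩ := a1 M hM
      refine ⟨X, ?_⟩
      refine (Submodule.Quotient.eq (altSub S n)).2 ?_
      have h1 := (altSub S n).neg_mem (show M - X * G.Φ ∈ altSub S n from hX)
      rwa [neg_sub] at h1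
    · rintro ⟨X, hX⟩
      rw [← hX]
      exact (k3c G X 0 (altSub S n).zero_mem).1
  · intro X
    refine (k7_bz _ _).trans ⟨fun hX => ?_, ?_⟩
    · obtain ⟨l, A, hA, e⟩ := a2 X hX
      exact ⟨(⟨A, hA⟩, l), e.symm⟩
    · rintro ⟨⟨A, l⟩, rfl⟩
      exact k3b G l A.1 A.2
  · rw [injective_iff_map_eq_zero]
    rintro ⟨A, l⟩ hp
    obtain ⟨h1, h2⟩ := a3 l A.1 A.2 hp
    exact Prod.ext (Subtype.ext h2) h1

end Pool.Agent.H21V
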