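import Pool.Agent.Lib.H21V.Z3
import Pool.Agent.Lib.H44V.D5

set_option autoImplicit false

open CategoryTheory IsLocalRing
open Pool.Agent.Lib.Helper92 Pool.Agent.Lib.H44V

namespace Pool.Agent.H21V
universe u


variable {S : Type u} [CommRing S]

theorem z4_prod [IsLocalRing S] (A B : Type u) [AddCommGroup A] [Module S A] [AddCommGroup B] [Module S B] (t : ℕ)
    (hA : Dp (ModuleCat.of S A) t) (hB : Dp (ModuleCat.of S B) t) : Dp (ModuleCat.of S (A × B)) t := by
  intro j hj
  refine ⟨fun a b => ?_⟩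
  rw [← sub_eq_zero]
  generalize a - b = v
  have hid : (𝟙 (ModuleCat.of S (A × B))) =
      ModuleCat.ofHom (LinearMap.fst S A B) ≫ ModuleCat.ofHom (LinearMap.inl S A B) +
      ModuleCat.ofHom (LinearMap.snd S A B) ≫ ModuleCat.ofHom (LinearMap.inr S A B) := by
    ext1
    rw [ModuleCat.hom_add]
    refine LinearMap.ext fun x => ?_
    change x = (x.1, 0) + (0, x.2)
    rw [Prod.mk_add_mk, add_zero, zero_add]
  rw [← Abelian.Ext.comp_mk₀_id v, hid, Abelian.Ext.mk₀_add, Abelian.Ext.comp_add, ← Abelian.Ext.mk₀_comp_mk₀,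
    ← Abelian.Ext.mk₀_comp_mk₀, ← Abelian.Ext.comp_assoc_of_third_deg_zero, ← Abelian.Ext.comp_assoc_of_third_deg_zero]
  rw [@Subsingleton.elim _ (hA j hj) (v.comp (Abelian.Ext.mk₀ (ModuleCat.ofHom (LinearMap.fst S A B))) (add_zero j)) 0,
    @Subsingleton.elim _ (hB j hj) (v.comp (Abelian.Ext.mk₀ (ModuleCat.ofHom (LinearMap.snd S A B))) (add_zero j)) 0,
    Abelian.Ext.zero_comp, Abelian.Ext.zero_comp, add_zero]

theorem z4_mem [IsLocalRing S] {I : Ideal S} (hI : I ≠ ⊤) [IsLocalRing (S ⧸ I)] {x : S} (hx : x ∈ maximalIdeal S) :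
    Ideal.Quotient.mk I x ∈ maximalIdeal (S ⧸ I) := by
  rw [IsLocalRing.mem_maximalIdeal, mem_nonunits_iff]
  intro hu
  obtain ⟨b, hb⟩ := hu.exists_right_inv
  obtain ⟨b, rfl⟩ := Ideal.Quotient.mk_surjective b
  rw [← map_mul, ← map_one (Ideal.Quotient.mk I), Ideal.Quotient.eq] at hb
  have h1 : x * b - 1 ∈ maximalIdeal S := IsLocalRing.le_maximalIdeal hI hb
  have h2 : (1 : S) ∈ maximalIdeal S := by
    have h3 : (1 : S) = x * b - (x * b - 1) := by ring
    rw [h3]
    exact Ideal.sub_mem _ (Ideal.mul_mem_right b _ hx) h1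
  exact (Ideal.ne_top_iff_one _).1 (IsLocalRing.maximalIdeal.isMaximal S).ne_top h2

/-- CHUNK Z4 (M).  Modules of maximal depth and finite projective dimension are free.
Proof.  `R := S ⧸ I`, a Noetherian local ring.  `Dp` of `M := (S ⧸ I) × C` is at least `t` (`H44V.D2_retract`-like, or `dp_ker`-like:
`Ext` into a product is a product; simplest: `F4`-style long exact sequence for `0 → C → M → S ⧸ I → 0`,
`Ext.covariant_sequence_exact₂`: a class which vanishes in `Ext (Qt m) (S ⧸ I) j = 0` comes from `Ext (Qt m) C j = 0`).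
`exists_wreg t M` gives `x`, `wreg_prod` and `wreg_quot` give `WReg R (mk ∘ x) t` and `WReg C (mk ∘ x) t` over `R`.
`y := mk ∘ x`.  `regular_or_socle (Jx y t)` in `R`: if there is `z` in the maximal ideal of `R`, regular on `R ⧸ Jx y t`, then
`y 0, …, y (t-1), z` is a regular sequence of length `t + 1` (`wreg_ring`, `isRegular_list` with `y' j := if j = t then z else y j`, it
lies in the maximal ideal), and `D5_depth` gives `Dp (Qt I) (t + 1)`, contradiction to `hR'`.  So there is a socle element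
`c`, and `Helper92.free_of_pd (R := R) y t` gives the claim. -/
theorem free_of_dp [IsNoetherianRing S] [IsLocalRing S] {I : Ideal S} (hI : I ≠ ⊤) (C : Type u)
    [AddCommGroup C] [Module S C] [Module (S ⧸ I) C] [IsScalarTower S (S ⧸ I) C]
    [Module.Finite (S ⧸ I) C] (t : ℕ) (hC : Dp (ModuleCat.of S C) t) (hR : Dp (Qt I) t)
    (hR' : ¬ Dp (Qt I) (t + 1)) (n : ℕ)
    (hpd : HasProjectiveDimensionLT (ModuleCat.of (S ⧸ I) C) n) : Module.Free (S ⧸ I) C := by
  have hnt : Nontrivial (S ⧸ I) := Ideal.Quotient.nontrivial_iff.mpr hI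
  have hloc : IsLocalRing (S ⧸ I) := IsLocalRing.of_surjective' (Ideal.Quotient.mk I) Ideal.Quotient.mk_surjective
  have hfin : Module.Finite S C := Module.Finite.trans (S ⧸ I) C
  have hM : Dp (ModuleCat.of S ((S ⧸ I) × C)) t := z4_prod (S ⧸ I) C t hR hC
  obtain ⟨x, hxm, hx⟩ := exists_wreg t ((S ⧸ I) × C) hM
  obtain ⟨h1, h2⟩ := wreg_prod (S ⧸ I) C x t hx
  have h3 := wreg_quot (I := I) (S ⧸ I) x t h1
  have h4 := wreg_quot (I := I) C x t h2
  have h5 := wreg_ring _ t h3
  obtain ⟨y, hy⟩ : ∃ y : ℕ → S ⧸ I, y = fun i => Ideal.Quotient.mk I (x i) := ⟨_, rfl⟩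
  rw [← hy] at h3 h4 h5
  have hym : ∀ j, y j ∈ maximalIdeal (S ⧸ I) := by
    rw [hy]
    exact fun j => z4_mem hI (hxm j)
  rcases regular_or_socle (Jx y t) with ⟨z, hz, hzreg⟩ | ⟨c, hc, hcm⟩
  · exfalso
    apply hR'
    have e1 : (Function.update y t z) t = z := Function.update_self _ _ _
    have e2 : ∀ j < t, (Function.update y t z) j = y j := fun j hj => Function.update_of_ne (by omega) _ _
    have e3 : ∀ j ≤ t, Jx (Function.update y t z) j = Jx y j := fun j hj => Jx_congr _ _ _ fun i hi => e2 i (by omega)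
    have e4 : ∀ j < t + 1, IsSMulRegular ((S ⧸ I) ⧸ Jx (Function.update y t z) j) ((Function.update y t z) j) := by
      intro j hj
      rcases Nat.lt_succ_iff_lt_or_eq.mp hj with h6 | h6
      · rw [e2 j h6, e3 j (by omega)]
        have h6' := h5 j h6
        have h7' : y j = Ideal.Quotient.mk I (x j) := congrFun hy j
        rw [h7']
        exact h6'
      · rw [h6, e1, e3 t le_rfl]
        exact hzreg
    have e5 : Jx (Function.update y t z) (t + 1) ≠ ⊤ := by
      intro h6
      have h7 : Jx (Function.update y t z) (t + 1) ≤ maximalIdeal (S ⧸ I) := by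
        refine Jx_le fun j hj => ?_
        rcases Nat.lt_succ_iff_lt_or_eq.mp hj with h8 | h8
        · rw [e2 j h8]
          exact hym j
        · rw [h8, e1]
          exact hz
      rw [h6] at h7
      exact (IsLocalRing.maximalIdeal.isMaximal (S ⧸ I)).ne_top (top_le_iff.1 h7)
    exact D5_depth _ (isRegular_list (Function.update y t z) (t + 1) e4 e5) (t + 1) (by simp)
  · exact free_of_pd (R := S ⧸ I) y t h3 c hc hcm n C h4 hpd

end Pool.Agent.H21V
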