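import Pool.Agent.Lib.H21V.DL
import Pool.Agent.Lib.Helper92.PerfectFree

set_option autoImplicit false

open CategoryTheory IsLocalRing
open Pool.Agent.Lib.Helper92 Pool.Agent.Lib.H44V

namespace Pool.Agent.H21V
universe u


variable {S : Type u} [CommRing S]

open CategoryTheory.Abelian in
/-- CHUNK Z5 (S).  Free normal module, perfect ideal.
Proof.  The proof of `Helper92.perfect_free` (Helper92/PerfectFree), second case, with
`xs := (List.range (n + 1)).map x` (`isRegular_list`, `ofList_range_map`; `Jx x (n + 1) ≤ I`, so `≠ ⊤`), and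
`NBasis.exists_regular` gives `CI I (n + 1)` directly. -/
theorem ci_of_free [IsNoetherianRing S] [IsLocalRing S] {I : Ideal S} (hI : I ≠ ⊤) (x : ℕ → S)
    (n : ℕ) (h : ∀ j < n + 1, IsSMulRegular (S ⧸ Jx x j) (x j)) (hx : ∀ j < n + 1, x j ∈ I)
    (hpd : HasProjectiveDimensionLT (Qt I) (n + 2)) (hfree : Module.Free (S ⧸ I) (NM I)) :
    CI I (n + 1) := by
  have hJI : Jx x (n + 1) ≤ I := Jx_le hx
  have hJ : Jx x (n + 1) ≠ ⊤ := fun h1 => hI (top_le_iff.1 (h1 ▸ hJI))
  have hxs : RingTheory.Sequence.IsRegular S ((List.range (n + 1)).map x) := isRegular_list x (n + 1) h hJ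
  have hxsI : ∀ y ∈ (List.range (n + 1)).map x, y ∈ I := by
    intro y hy
    rw [List.mem_map] at hy
    obtain ⟨j, hj, rfl⟩ := hy
    exact hx j (List.mem_range.1 hj)
  have hn : ((List.range (n + 1)).map x).length = n + 1 := by simp
  have hfree' : Module.Free (S ⧸ I) (I.Cotangent →ₗ[S ⧸ I] (S ⧸ I)) := hfree
  obtain ⟨r, hh, hb⟩ := exists_nbasis hI
  have hgr : ∀ i < n + 1, Subsingleton (Ext (Qt I) (ModuleCat.of S S) i) := by
    rw [← hn]
    have hlt : I • (⊤ : Submodule S (ModuleCat.of S S)) < ⊤ := by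
      have h1 : I • (⊤ : Submodule S S) = I := by
        rw [smul_eq_mul]; exact Ideal.mul_top I
      have h2 : I • (⊤ : Submodule S S) < ⊤ := by
        rw [h1]; exact lt_top_iff_ne_top.mpr hI
      exact h2
    refine ModuleCat.subsingleton_ext_of_exists_isRegular I (Qt I) ?_ (ModuleCat.of S S) hlt _
      hxsI hxs
    rw [Module.support_eq_zeroLocus]
    change PrimeSpectrum.zeroLocus (Module.annihilator S (S ⧸ I) : Set S) ⊆ _
    rw [Ideal.annihilator_quotient]
  have hvan : ∀ Y : ModuleCat.{u} S, Subsingleton (Ext (Qt I) Y (n + 2)) := by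
    intro Y
    exact HasProjectiveDimensionLT.subsingleton (Qt I) (n + 2) (n + 2) le_rfl Y
  obtain ⟨y, hy, hreg, hyJ⟩ := hb.exists_regular hI hgr hvan
  exact ⟨y, hreg, hyJ⟩

end Pool.Agent.H21V
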