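import Pool.Agent.Lib.H21V.DL
import Pool.Agent.Lib.H44V.L2

set_option autoImplicit false

open CategoryTheory IsLocalRing
open Pool.Agent.Lib.Helper92 Pool.Agent.Lib.H44V

namespace Pool.Agent.H21V
universe u


variable {S : Type u} [CommRing S]

theorem z6b_add {R : Type u} [CommRing R] {I : Ideal R} (m n : NM I) : toHom (m + n) = toHom m + toHom n :=
  LinearMap.ext fun _ => rfl

theorem z6b_smul {R : Type u} [CommRing R] {I : Ideal R} (r : R) (n : NM I) :
    toHom (Ideal.Quotient.mk I r • n) = r • toHom n :=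
  LinearMap.ext fun _ => rfl

theorem z6b_zero {R : Type u} [CommRing R] {I : Ideal R} : toHom (0 : NM I) = 0 :=
  LinearMap.ext fun _ => rfl

theorem z6b_inj {R : Type u} [CommRing R] {I : Ideal R} {m n : NM I} (h : toHom m = toHom n) : m = n := by
  refine LinearMap.ext fun y => ?_
  obtain ⟨y, rfl⟩ := I.toCotangent_surjective y
  exact LinearMap.congr_fun h y

theorem z6b_gen [IsNoetherianRing S] (P : Ideal S) [P.IsPrime] (I : Ideal S)
    (J : Ideal (Localization.AtPrime P))
    (hJ : Submodule.localized' (Localization.AtPrime P) P.primeCompl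
      (Algebra.linearMap S (Localization.AtPrime P)) I = J) :
    ∃ θ : NM I →+ NM J,
      (∀ (r : S) (n : NM I), θ (Ideal.Quotient.mk I r • n) =
        Ideal.Quotient.mk J (algebraMap S (Localization.AtPrime P) r) • θ n) ∧
      (∀ n', ∃ t, t ∉ P ∧ ∃ n, Ideal.Quotient.mk J
          (algebraMap S (Localization.AtPrime P) t) • n' = θ n) ∧
      ∀ n, θ n = 0 → ∃ t, t ∉ P ∧ Ideal.Quotient.mk I t • n = 0 := by
  subst hJ
  let A := Localization.AtPrime P
  let T := P.primeCompl
  let J := Submodule.localized' A T (Algebra.linearMap S A) I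
  let f : I →ₗ[S] J := Submodule.toLocalized' A T (Algebra.linearMap S A) I
  let g : (S ⧸ I) →ₗ[S] (A ⧸ J) := Submodule.toLocalizedQuotient' A T (Algebra.linearMap S A) I
  have hfp : Module.FinitePresentation S I := Module.finitePresentation_of_finite S I
  let Φ : (I →ₗ[S] (S ⧸ I)) →ₗ[S] (J →ₗ[A] (A ⧸ J)) := IsLocalizedModule.mapExtendScalars T f g A
  have hΦ : IsLocalizedModule T Φ :=
    Module.FinitePresentation.isLocalizedModule_mapExtendScalars T f g A
  choose s hs using fun k : J →ₗ[A] (A ⧸ J) => toHom_surj (S := A) (I := J) k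
  refine ⟨{ toFun := fun n => s (Φ (toHom n)), map_zero' := ?_, map_add' := ?_ }, ?_, ?_, ?_⟩
  · refine z6b_inj ?_
    rw [hs, z6b_zero, z6b_zero, map_zero]
  · intro m n
    refine z6b_inj ?_
    rw [hs, z6b_add, z6b_add, map_add, hs, hs]
  · intro r n
    refine z6b_inj ?_
    change toHom (s (Φ (toHom (Ideal.Quotient.mk I r • n)))) =
      toHom (Ideal.Quotient.mk J (algebraMap S A r) • s (Φ (toHom n)))
    rw [hs, z6b_smul, z6b_smul, map_smul, hs, algebraMap_smul]
  · intro n'
    obtain ⟨⟨x, t⟩, hx⟩ := IsLocalizedModule.surj T Φ (toHom n')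
    obtain ⟨n, hn⟩ := toHom_surj x
    refine ⟨t, t.2, n, z6b_inj ?_⟩
    change toHom (Ideal.Quotient.mk J (algebraMap S A (t : S)) • n') = toHom (s (Φ (toHom n)))
    rw [hs, hn, z6b_smul, algebraMap_smul]
    exact hx
  · intro n hn
    have h1 : Φ (toHom n) = 0 := by
      rw [← hs (Φ (toHom n))]
      change toHom (s (Φ (toHom n))) = 0
      change s (Φ (toHom n)) = 0 at hn
      rw [hn, z6b_zero]
    obtain ⟨t, ht⟩ := (IsLocalizedModule.eq_zero_iff T Φ).1 h1
    refine ⟨t, t.2, z6b_inj ?_⟩
    rw [z6b_smul, z6b_zero]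
    exact ht

/-- CHUNK Z6B (M/L).  Localization of the normal module.
Proof.  `A := Localization.AtPrime P`, `ι := algebraMap S A`, `J := I.map ι`.  (Look at the proof of `H44V.L2_gen`, which
localizes functionals.)  `N(I) ≃ (I →ₗ[S] S ⧸ I)` by `toHom` (`toHom_apply`, `toHom_surj`; injective since `I.toCotangent` is
surjective), the same for `J`.  For `g : I →ₗ[S] S ⧸ I` there is exactly one `g' : J →ₗ[A] A ⧸ J` with
`g' (ι y) = mk (ι a)` whenever `g y = mk a`, `y ∈ I`: elements of `J` are `ι y / ι s` (`IsLocalization.mem_map_algebraMap_iff`), put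
`g' (ι y / ι s) := mk (ι a / ι s)`; well defined: `ι y / ι s = ι y' / ι s'` gives `u * s' * y = u * s * y'`, `u ∉ P`, so
`g (u s' y) = g (u s y')`, `u s' a - u s a' ∈ I`.  (Or use `IsLocalizedModule.map P.primeCompl (I → J) (S ⧸ I → A ⧸ J)`:
`I → J` is a localization by `Submodule.toLocalized'` / `Submodule.isLocalizedModule`-instances as in `L2_gen`,
`LinearMap.extendScalarsOfIsLocalization`.)
Additivity and the first property by uniqueness.  Surjectivity up to `t`: `I` is finitely generated by `y_1, …, y_m`;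
given `g'`, `g' (ι y_l) = mk (ι a_l / ι s)` with a common `s`; the relations among the `y_l` (a finitely generated module,
`S` Noetherian: `LinearMap.ker` of `(Fin m → S) → I`) are respected by the `a_l` up to a `u ∉ P`: for a relation `r`,
`∑ r_l * mk (ι a_l) = ι s • g' (∑ ι r_l y_l) = 0`, so `u * ∑ r_l a_l ∈ I` (`H44V.R1_mem`), one `u` for finitely many
relations.  So `g y_l := mk (u * a_l)` defines `g : I →ₗ S ⧸ I` and `ι (u * s) • g' = θ g`.  Injectivity up to `t`:
`θ g = 0`: `g y_l = mk a_l`, `ι a_l ∈ J`, so `t * a_l ∈ I` for one `t ∉ P`, `t • g = 0`.  (Alternatively: the instance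
`IsLocalizedModule S (IsLocalizedModule.map S f g)` for a finitely presented source, Mathlib
Algebra/Module/FinitePresentation, gives both.) -/
theorem normal_loc [IsNoetherianRing S] (P : Ideal S) [P.IsPrime] (I : Ideal S) :
    ∃ θ : NM I →+ NM (I.map (algebraMap S (Localization.AtPrime P))),
      (∀ (r : S) (n : NM I), θ (Ideal.Quotient.mk I r • n) =
        Ideal.Quotient.mk (I.map (algebraMap S (Localization.AtPrime P)))
          (algebraMap S (Localization.AtPrime P) r) • θ n) ∧
      (∀ n', ∃ t, t ∉ P ∧ ∃ n, Ideal.Quotient.mk (I.map (algebraMap S (Localization.AtPrime P)))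
          (algebraMap S (Localization.AtPrime P) t) • n' = θ n) ∧
      ∀ n, θ n = 0 → ∃ t, t ∉ P ∧ Ideal.Quotient.mk I t • n = 0 :=
  z6b_gen P I _ (Ideal.localized'_eq_map _ _ _)

end Pool.Agent.H21V
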