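import Pool.Agent.Lib.H21V.Z6A
import Pool.Agent.Lib.H21V.Z6B

set_option autoImplicit false

open CategoryTheory IsLocalRing
open Pool.Agent.Lib.Helper92 Pool.Agent.Lib.H44V

namespace Pool.Agent.H21V
universe u


variable {S : Type u} [CommRing S]

/-- CHUNK Z6C (S/M).  Proof.  `R := S ⧸ I`, `R' := A ⧸ J` (`A := Localization.AtPrime P`, `J := I.map (algebraMap S A)`) with the
instance `Ideal.Quotient.algebraQuotientMapQuotient`; `algebraMap R R' (mk s) = mk (algebraMap S A s)`
(`Ideal.Quotient.algebraMap_quotient_map_quotient` or `rfl`).  `T := P.primeCompl.map (Ideal.Quotient.mk I)`;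
`IsLocalization T R'` by `IsLocalization.of_surjective P.primeCompl A (Ideal.Quotient.mk I) Ideal.Quotient.mk_surjective
(Ideal.Quotient.mk J) Ideal.Quotient.mk_surjective rfl (by rw [Ideal.mk_ker, Ideal.mk_ker])`.  `pd_base` with the
map `θ` from `normal_loc`. -/
theorem pd_normal_loc [IsNoetherianRing S] (P : Ideal S) [P.IsPrime] (I : Ideal S) (n : ℕ)
    (h : HasProjectiveDimensionLT (ModuleCat.of (S ⧸ I) (NM I)) n) :
    HasProjectiveDimensionLT
      (ModuleCat.of (Localization.AtPrime P ⧸ I.map (algebraMap S (Localization.AtPrime P)))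
        (NM (I.map (algebraMap S (Localization.AtPrime P))))) n := by
  obtain ⟨θ, h1, h2, h3⟩ := normal_loc P I
  have hloc : IsLocalization (P.primeCompl.map (Ideal.Quotient.mk I))
      (Localization.AtPrime P ⧸ I.map (algebraMap S (Localization.AtPrime P))) :=
    IsLocalization.of_surjective P.primeCompl (Localization.AtPrime P) (Ideal.Quotient.mk I)
      Ideal.Quotient.mk_surjective (Ideal.Quotient.mk (I.map (algebraMap S (Localization.AtPrime P))))
      Ideal.Quotient.mk_surjective rfl (by rw [Ideal.mk_ker, Ideal.mk_ker])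
  refine pd_base (P.primeCompl.map (Ideal.Quotient.mk I)) n (NM I) h _ θ ?_ ?_ ?_
  · intro r y
    obtain ⟨s, rfl⟩ := Ideal.Quotient.mk_surjective r
    exact h1 s y
  · intro z
    obtain ⟨t, ht, y, hy⟩ := h2 z
    exact ⟨Ideal.Quotient.mk I t, ⟨t, ht, rfl⟩, y, hy⟩
  · intro y hy
    obtain ⟨t, ht, hty⟩ := h3 y hy
    exact ⟨Ideal.Quotient.mk I t, ⟨t, ht, rfl⟩, hty⟩

end Pool.Agent.H21V
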