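import Pool.Agent.Lib.H21V.G1C
import Pool.Agent.Lib.H21V.G3
import Pool.Agent.Lib.H21V.G4
import Pool.Agent.Lib.H21V.G5A
import Pool.Agent.Lib.H21V.G5B
import Pool.Agent.Lib.H21V.G6
import Pool.Agent.Lib.H21V.G7
import Pool.Agent.Lib.H21V.H0
import Pool.Agent.Lib.H21V.H1
import Pool.Agent.Lib.H21V.H2
import Pool.Agent.Lib.H21V.H3
import Pool.Agent.Lib.H21V.H4
import Pool.Agent.Lib.H21V.H5
import Pool.Agent.Lib.H21V.K7
import Pool.Agent.Lib.H21V.J1
import Pool.Agent.Lib.H21V.Z2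
import Pool.Agent.Lib.H21V.Z4
import Pool.Agent.Lib.H21V.Z5
import Pool.Agent.Lib.H21V.Z6C
import Pool.Agent.Lib.H44V.M1

set_option autoImplicit false

/-!
H21V: assembly of the case of grade three.
-/

open CategoryTheory IsLocalRing
open Pool.Agent.Lib.Helper92 Pool.Agent.Lib.H44V

namespace Pool.Agent.H21V
universe u

variable {S : Type u} [CommRing S]

theorem m3_map_ne_top (P : Ideal S) [P.IsPrime] {I : Ideal S} (hIP : I ≤ P) :
    I.map (algebraMap S (Localization.AtPrime P)) ≠ ⊤ := by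
  intro htop
  have hle : I.map (algebraMap S (Localization.AtPrime P)) ≤
      maximalIdeal (Localization.AtPrime P) := by
    rw [← Localization.AtPrime.map_eq_maximalIdeal]
    exact Ideal.map_mono hIP
  rw [htop] at hle
  exact (maximalIdeal.isMaximal _).ne_top (top_le_iff.mp hle)

theorem m3_comap_ne [IsLocalRing S] {I : Ideal S} [IsLocalRing (S ⧸ I)] (Q : Ideal (S ⧸ I))
    [Q.IsPrime] (hQ : Q ≠ maximalIdeal (S ⧸ I)) :
    Q.comap (Ideal.Quotient.mk I) ≠ maximalIdeal S := by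
  intro hc
  apply hQ
  refine le_antisymm (IsLocalRing.le_maximalIdeal (Ideal.IsPrime.ne_top inferInstance)) ?_
  intro r hr
  obtain ⟨s, rfl⟩ := Ideal.Quotient.mk_surjective r
  have hs : s ∈ maximalIdeal S := by
    rw [mem_maximalIdeal, mem_nonunits_iff]
    intro hu
    exact (mem_nonunits_iff.mp ((mem_maximalIdeal _).mp hr)) (hu.map (Ideal.Quotient.mk I))
  rw [← hc] at hs
  exact hs

/-- depth at least three: the normal module is free. -/
theorem main_step [IsNoetherianRing S] [IsLocalRing S] {I : Ideal S} (hI : I ≠ ⊤) (x : ℕ → S)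
    (hx : ∀ j < 3, x j ∈ I) (h : ∀ j < 3, IsSMulRegular (S ⧸ Jx x j) (x j))
    (hpd : HasProjectiveDimensionLT (Qt I) 4) (k : ℕ)
    (hN : HasProjectiveDimensionLT (ModuleCat.of (S ⧸ I) (NM I)) (k + 1))
    (hd : Dp (Qt I) 3)
    (hloc : ∀ (P : Ideal S) [P.IsPrime], I ≤ P → P ≠ maximalIdeal S →
      CI (I.map (algebraMap S (Localization.AtPrime P))) 3) :
    Module.Free (S ⧸ I) (NM I) := by
  have hIm : I ≤ maximalIdeal S := IsLocalRing.le_maximalIdeal hI
  have hnt : Nontrivial (S ⧸ I) := Ideal.Quotient.nontrivial_iff.mpr hI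
  have hlr : IsLocalRing (S ⧸ I) := IsLocalRing.of_surjective' _ Ideal.Quotient.mk_surjective
  have hm : ∀ j < 3, x j ∈ maximalIdeal S := fun j hj => hIm (hx j hj)
  have hfinS : Module.Finite S I.Cotangent :=
    Module.Finite.of_surjective _ I.toCotangent_surjective
  have hfin : Module.Finite (S ⧸ I) I.Cotangent :=
    Module.Finite.of_restrictScalars_finite S _ _
  -- depth
  obtain ⟨t, ht, ht'⟩ := exists_depth hI
  have ht3 : 3 ≤ t := by
    by_contra hc
    exact ht' (dp_mono (by omega) hd)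
  have hpd3 : ¬ HasProjectiveDimensionLT (Qt I) 3 := by
    intro hc
    obtain ⟨P, hP, hIP, hPm⟩ := M1_prime hI (dp_mono (by norm_num) hd)
    have h1 : 3 ≤ 2 := E2_le (m3_map_ne_top P hIP) (hloc P hIP hPm) (L1_qt P 3 I hc)
    omega
  have hS : Dp (ModuleCat.of S S) (3 + t) := D2_ab 3 (S ⧸ I) hpd hpd3 t ht
  -- the conormal module off the maximal ideal
  have hC : ∀ (Q : Ideal (S ⧸ I)) [Q.IsPrime], Q ≠ maximalIdeal (S ⧸ I) →
      DualAt Q I.Cotangent 3 := by
    intro Q _ hQ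
    refine dualAt_of_ci Q (hloc (Q.comap (Ideal.Quotient.mk I)) ?_ (m3_comap_ne Q hQ))
    intro y hy
    rw [Ideal.mem_comap, Ideal.Quotient.eq_zero_iff_mem.mpr hy]
    exact Q.zero_mem
  have h2 : Two (S ⧸ I) := two_of_dp hI (dp_mono (by norm_num) hd)
  obtain ⟨α, hα1, hα2⟩ := exists_alpha h2 I.Cotangent k hN hC
  -- the resolution
  obtain ⟨n1, n2, n3, F, hF2, hF3⟩ := exists_min_res hpd
  obtain ⟨Pr⟩ := exists_prd F
  obtain ⟨B, hB1, hB2⟩ := exists_B Pr α hα2 (form_faithful h2 α hα1)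
  have hω : Dp (ModuleCat.of S (((Fin n3 → S) →ₗ[S] S) ⧸ LinearMap.range F.d3.dualMap)) 2 :=
    dp_omega F Pr x h hx 2 (dp_mono (by omega) hS)
  have hinj : ∀ (P : Ideal S) [P.IsPrime], P ≠ maximalIdeal S → ∀ f, B f = 0 →
      ∃ s, s ∉ P ∧ ∃ g : (Fin n2 → S) →ₗ[S] S, s • f = g ∘ₗ F.d3 := by
    intro P _ hP f hf
    refine inj_loc F Pr P (fun hIP => hloc P hIP hP) f ?_
    intro a b c
    have h5 := hB1 f ![a, b, c]
    rw [hf, zero_mul] at h5
    exact Ideal.Quotient.eq_zero_iff_mem.mp h5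
  have hsurj : ∀ (P : Ideal S) [P.IsPrime], P ≠ maximalIdeal S →
      ∃ (f : (Fin n3 → S) →ₗ[S] S) (s : S), s ∉ P ∧ B f = Ideal.Quotient.mk I s := by
    intro P _ hP
    by_cases hIP : I ≤ P
    · obtain ⟨f, a, hfa⟩ := surj_loc F Pr P hIP (hloc P hIP hP)
      obtain ⟨s, hs⟩ := Ideal.Quotient.mk_surjective (B f)
      refine ⟨f, s, ?_, hs.symm⟩
      intro hsP
      apply hfa
      have h5 := hB1 f a
      obtain ⟨v, hv⟩ := Ideal.Quotient.mk_surjective (α (fun i => F.co (a i)))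
      rw [← hs, ← hv, ← map_mul, Ideal.Quotient.mk_eq_mk_iff_sub_mem] at h5
      have h6 : f (Pr.T (a 0) (a 1) (a 2)) =
          (f (Pr.T (a 0) (a 1) (a 2)) - s * v) + s * v := by ring
      rw [h6]
      exact P.add_mem (hIP h5) (P.mul_mem_right _ hsP)
    · obtain ⟨s, hs, hsP⟩ := Set.not_subset.mp hIP
      refine ⟨0, s, hsP, ?_⟩
      rw [map_zero, Ideal.Quotient.eq_zero_iff_mem.mpr hs]
  obtain ⟨hBi, hBs⟩ := B_bij F B hB2 hω (dp_mono (by norm_num) hd) hinj hsurj
  have h3 : n3 = 1 := type_one hI F hF3 B hBi hBs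
  subst h3
  have hw := span_w F B hB2 hBi hBs
  obtain ⟨hdu1, hdu2, -⟩ := dual_exact F Pr x h hx
  have hs1 := s1_surj F Pr hF2 hw hdu1
  have hs2 := s2_surj F Pr hs1 hdu2
  obtain ⟨G⟩ := exists_gor F Pr hs1 hs2
  -- the conormal module is free
  have hC1 : Dp (ModuleCat.of S I.Cotangent) t :=
    dp_cot t (dp_sq G x hm h hx t (by rw [add_comm]; exact hS)) ht
  obtain ⟨i, φ, q, hi, hφ, hq, hsq⟩ := four_term G
  have hC2 := pd_four i φ q hi hφ hq hsq (k + 1) hN
  have hfree : Module.Free (S ⧸ I) I.Cotangent := free_of_dp hI I.Cotangent t hC1 ht ht' _ hC2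
  infer_instance

/-- Perfect ideals of grade three. -/
theorem main3 (d : ℕ) : ∀ (S : Type u) [CommRing S] [IsNoetherianRing S] [IsLocalRing S]
    (_ : ringKrullDim S < ((d : ℕ) : WithBot ℕ∞)) (I : Ideal S) (_ : I ≠ ⊤) (x : ℕ → S)
    (_ : ∀ j < 3, x j ∈ I) (_ : ∀ j < 3, IsSMulRegular (S ⧸ Jx x j) (x j))
    (_ : HasProjectiveDimensionLT (Qt I) 4) (k : ℕ)
    (_ : HasProjectiveDimensionLT (ModuleCat.of (S ⧸ I) (NM I)) (k + 1)), CI I 3 := by
  induction d with
  | zero =>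
    intro S _ _ _ hdim
    exact absurd hdim (not_lt.mpr (by simpa using ringKrullDim_nonneg_of_nontrivial))
  | succ d ih =>
    intro S _ _ _ hdim I hI x hx h hpd k hN
    refine ci_of_free hI x 2 h hx hpd ?_
    by_cases hd : Dp (Qt I) 3
    · refine main_step hI x hx h hpd k hN hd ?_
      intro P _ hIP hP
      refine ih (Localization.AtPrime P) (L3_dim P hP d hdim) _ (m3_map_ne_top P hIP)
        (fun i => algebraMap S (Localization.AtPrime P) (x i))
        (fun j hj => Ideal.mem_map_of_mem _ (hx j hj)) ?_ (L1_qt P _ I hpd) k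
        (pd_normal_loc P I (k + 1) hN)
      intro j hj
      rw [R1_map_Jx]
      exact R1_loc_reg P _ _ (h j hj)
    · have hnt : Nontrivial (S ⧸ I) := Ideal.Quotient.nontrivial_iff.mpr hI
      have hlr : IsLocalRing (S ⧸ I) :=
        IsLocalRing.of_surjective' _ Ideal.Quotient.mk_surjective
      have hfinS : Module.Finite S I.Cotangent :=
        Module.Finite.of_surjective _ I.toCotangent_surjective
      have hfin : Module.Finite (S ⧸ I) I.Cotangent :=
        Module.Finite.of_restrictScalars_finite S _ _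
      refine dual_free (fun rs hrs => ?_) I.Cotangent (k + 1) hN
      by_contra hc
      exact hd (D5_depth rs hrs 3 (by omega))

end Pool.Agent.H21V
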