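import Pool.Agent.Lib.H21V.M2
import Pool.Agent.Lib.H21V.M3

set_option autoImplicit false

/-!
H21V: the final statement.
-/

open CategoryTheory IsLocalRing
open Pool.Agent.Lib.Helper92 Pool.Agent.Lib.H44V

namespace Pool.Agent.H21V
universe u

variable {S : Type u} [CommRing S]

theorem fin_list {I : Ideal S} (hI : I ≠ ⊤) {r : ℕ} (h : CI I r) :
    ∃ rs : List S, Ideal.span {r : S | r ∈ rs} = I ∧ RingTheory.Sequence.IsRegular S rs := by
  obtain ⟨x, hreg, hJ⟩ := h
  refine ⟨(List.range r).map x, ?_, ?_⟩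
  · have := ofList_range_map x r
    rw [hJ] at this
    exact this
  · exact isRegular_list x r hreg (by rw [hJ]; exact hI)

theorem fin_seq (xs : List S) (hxs : RingTheory.Sequence.IsRegular S xs) :
    ∀ j < xs.length, IsSMulRegular (S ⧸ Jx (fun i => xs.getD i 0) j) (xs.getD j 0) := by
  intro j hj
  have h1 := hxs.toIsWeaklyRegular.regular_mod_prev j hj
  have h2 : Ideal.ofList (xs.take j) = Jx (fun i => xs.getD i 0) j := by
    rw [← ofList_range_map]
    congr 1
    apply List.ext_getElem
    · simp [hj.le]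
    · intro i h3 h4
      simp only [List.length_take] at h3
      simp only [List.getElem_take, List.getElem_map, List.getElem_range]
      rw [List.getD_eq_getElem]
  rw [R1_reg_iff]
  intro a ha
  rw [← h2] at ha ⊢
  rw [List.getD_eq_getElem _ _ hj] at ha
  have h3 : (Ideal.ofList (xs.take j) • (⊤ : Submodule S S)) = Ideal.ofList (xs.take j) := by
    rw [smul_eq_mul]; exact Ideal.mul_top _
  have h4 : xs[j] • (Submodule.Quotient.mk a : S ⧸ (Ideal.ofList (xs.take j) •
      (⊤ : Submodule S S))) = xs[j] • (Submodule.Quotient.mk 0) := by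
    rw [← Submodule.Quotient.mk_smul, ← Submodule.Quotient.mk_smul, smul_zero,
      Submodule.Quotient.mk_zero, Submodule.Quotient.mk_eq_zero, h3]
    exact ha
  have h5 := h1 h4
  rw [Submodule.Quotient.mk_zero, Submodule.Quotient.mk_eq_zero, h3] at h5
  exact h5

/-- the theorem. -/
theorem fin_main [IsNoetherianRing S] [IsLocalRing S] (I : Ideal S) (hI : I ≠ ⊤)
    (h : HasProjectiveDimensionLT (ModuleCat.of S (S ⧸ I)) 3 ∨
      HasProjectiveDimensionLT (ModuleCat.of S (S ⧸ I)) 4 ∧
        ∃ xs : List S, xs.length = 3 ∧ (∀ x ∈ xs, x ∈ I) ∧ RingTheory.Sequence.IsRegular S xs)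
    (hN : ∃ n : ℕ, HasProjectiveDimensionLT
      (ModuleCat.of (S ⧸ I) (I.Cotangent →ₗ[S ⧸ I] (S ⧸ I))) n) :
    ∃ rs : List S, Ideal.span {r : S | r ∈ rs} = I ∧ RingTheory.Sequence.IsRegular S rs := by
  obtain ⟨n, hn⟩ := hN
  rcases h with h | ⟨h, xs, hlen, hxsI, hxs⟩
  · obtain ⟨r, hr⟩ := main2 hI h n hn
    exact fin_list hI hr
  · obtain ⟨d, hd⟩ : ∃ d : ℕ, ringKrullDim S < ((d : ℕ) : WithBot ℕ∞) := by
      have h1 : ringKrullDim S < ⊤ := ringKrullDim_lt_top
      have h0 : (0 : WithBot ℕ∞) ≤ ringKrullDim S := ringKrullDim_nonneg_of_nontrivial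
      generalize ringKrullDim S = k at h0 h1
      induction k with
      | bot => exact absurd h0 (by simp)
      | coe k =>
        induction k with
        | top => exact absurd h1 (by simp)
        | coe k => exact ⟨k + 1, by exact_mod_cast Nat.lt_succ_self k⟩
    refine fin_list hI (main3 d S hd I hI (fun i => xs.getD i 0) ?_ ?_ h n
      (hasProjectiveDimensionLT_of_ge _ n (n + 1) (Nat.le_succ n)))
    · intro j hj
      rw [List.getD_eq_getElem _ _ (by omega)]
      exact hxsI _ (List.getElem_mem _)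
    · intro j hj
      exact fin_seq xs hxs j (by omega)

end Pool.Agent.H21V
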