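import Pool.Agent.Lib.H21V.DL
import Pool.Agent.Lib.H44V.R1

set_option autoImplicit false

open CategoryTheory IsLocalRing
open Pool.Agent.Lib.Helper92 Pool.Agent.Lib.H44V

namespace Pool.Agent.H21V
universe u


variable {S : Type u} [CommRing S]

theorem g1a_mono {B : Type u} [CommRing B] (x : ℕ → B) {i j : ℕ} (h : i ≤ j) : Jx x i ≤ Jx x j := by
  induction h with
  | refl => exact le_rfl
  | step _ ih => exact ih.trans le_sup_left

theorem g1a_eq {B : Type u} [CommRing B] (x u X : ℕ → B) (hu : ∀ j, IsUnit (u j)) {r : ℕ}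
    (hX : ∀ j < r, X j = x j * u j) : ∀ j ≤ r, Jx X j = Jx x j := by
  intro j
  induction j with
  | zero =>
    intro _
    rfl
  | succ j ih =>
    intro hj
    show Jx X j ⊔ Ideal.span {X j} = Jx x j ⊔ Ideal.span {x j}
    rw [ih (by omega), hX j (by omega), Ideal.span_singleton_mul_right_unit (hu j)]

/-- CHUNK G1A (S/M).  Generators which come from `S`.
Proof.  `h = ⟨x, hreg, hx⟩`, `B := Localization.AtPrime P`, `ι := algebraMap S B`.  For `j < r` `x j ∈ Jx x r = I.map ι`
(`Jx` is increasing and `x j ∈ Jx x (j+1)`), so there are `y_j ∈ I`, `s_j ∉ P` with `x j * ι s_j = ι y_j`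
(`IsLocalization.mem_map_algebraMap_iff P.primeCompl`); `X j := y_j` (`j < r`), `0` otherwise.  `ι s_j` is a unit.  By
induction `Jx (fun i => ι (X i)) j = Jx x j` for `j ≤ r` (`Ideal.span_singleton_mul_right_unit` or
`Ideal.span_singleton_eq_span_singleton`), and regularity of `x j` on the quotient gives regularity of
`x j * ι s_j` (`R1_reg_iff`: `(x_j * u) * a ∈ J` gives `x_j * (u * a) ∈ J`, `u * a ∈ J`, `a ∈ J`). -/
theorem ci_gens (P : Ideal S) [P.IsPrime] {I : Ideal S} {r : ℕ}
    (h : CI (I.map (algebraMap S (Localization.AtPrime P))) r) :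
    ∃ X : ℕ → S, (∀ j < r, X j ∈ I) ∧
      (∀ j < r, IsSMulRegular
        (Localization.AtPrime P ⧸ Jx (fun i => algebraMap S (Localization.AtPrime P) (X i)) j)
        (algebraMap S (Localization.AtPrime P) (X j))) ∧
      Jx (fun i => algebraMap S (Localization.AtPrime P) (X i)) r =
        I.map (algebraMap S (Localization.AtPrime P)) := by
  obtain ⟨x, hreg, hx⟩ := h
  have hmem : ∀ j, ∃ y s : S, (j < r → y ∈ I) ∧ s ∉ P ∧ (j < r →
      algebraMap S (Localization.AtPrime P) y = x j * algebraMap S (Localization.AtPrime P) s) := by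
    intro j
    by_cases hj : j < r
    · have h1 : x j ∈ I.map (algebraMap S (Localization.AtPrime P)) := by
        rw [← hx]
        refine g1a_mono x (show j + 1 ≤ r by omega) ?_
        exact Ideal.mem_sup_right (Ideal.mem_span_singleton_self _)
      obtain ⟨⟨y, s⟩, h2⟩ := (IsLocalization.mem_map_algebraMap_iff P.primeCompl (Localization.AtPrime P)).1 h1
      exact ⟨y, s, fun _ => y.2, s.2, fun _ => h2.symm⟩
    · refine ⟨0, 1, fun _ => I.zero_mem, fun h1 => ?_, fun h1 => absurd h1 hj⟩
      exact (Ideal.IsPrime.ne_top ‹_›) ((Ideal.eq_top_iff_one P).2 h1)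
  choose y s hy hs he using hmem
  have hu : ∀ j, IsUnit (algebraMap S (Localization.AtPrime P) (s j)) := fun j =>
    IsLocalization.map_units (Localization.AtPrime P) (⟨s j, hs j⟩ : P.primeCompl)
  have hJ := g1a_eq x (fun j => algebraMap S (Localization.AtPrime P) (s j))
    (fun j => algebraMap S (Localization.AtPrime P) (y j)) hu (r := r) he
  refine ⟨y, hy, fun j hj => ?_, ?_⟩
  · rw [hJ j hj.le, R1_reg_iff]
    intro a ha
    have h1 := (R1_reg_iff (Jx x j) (x j)).1 (hreg j hj)
    have h2 := h1 (algebraMap S (Localization.AtPrime P) (s j) * a) (by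
      rw [← mul_assoc, ← he j hj]
      exact ha)
    exact (Ideal.unit_mul_mem_iff_mem _ (hu j)).1 h2
  · rw [hJ r le_rfl, hx]

end Pool.Agent.H21V
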