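import Pool.Agent.Lib.H21V.C1
import Pool.Agent.Lib.H21V.DL

set_option autoImplicit false

open CategoryTheory IsLocalRing
open Pool.Agent.Lib.Helper92 Pool.Agent.Lib.H44V

namespace Pool.Agent.H21V
universe u


variable {A : Type u} [CommRing A] {I : Ideal A}

theorem g1b_gen (x : ℕ → A) {y : A} (h : y ∈ Jx x 3) : ∃ c d e, y = c * x 0 + d * x 1 + e * x 2 := by
  obtain ⟨e, he⟩ := mem_sup_span h
  obtain ⟨c, d, hd⟩ := c1_j2 x he
  exact ⟨c, d, e, by linear_combination hd⟩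

theorem g1b_m (x : ℕ → A) (c d e : A) : c * x 0 + d * x 1 + e * x 2 ∈ Jx x 3 :=
  Ideal.add_mem _ (Ideal.mem_sup_left (c1_m1 x c d))
    (Ideal.mem_sup_right (Ideal.mul_mem_left _ _ (Ideal.mem_span_singleton_self _)))

theorem g1b_sq (x : ℕ → A) (hx : Jx x 3 = I) {y : A} (hy : y ∈ I ^ 2) :
    ∃ b0 ∈ I, ∃ b1 ∈ I, ∃ b2 ∈ I, y = b0 * x 0 + b1 * x 1 + b2 * x 2 := by
  rw [pow_two] at hy
  refine Submodule.mul_induction_on hy (fun m hm n hn => ?_) (fun u v hu hv => ?_)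
  · rw [← hx] at hn
    obtain ⟨c, d, e, rfl⟩ := g1b_gen x hn
    exact ⟨m * c, I.mul_mem_right _ hm, m * d, I.mul_mem_right _ hm, m * e, I.mul_mem_right _ hm, by ring⟩
  · obtain ⟨b0, h0, b1, h1, b2, h2, rfl⟩ := hu
    obtain ⟨c0, g0, c1, g1, c2, g2, rfl⟩ := hv
    exact ⟨b0 + c0, I.add_mem h0 g0, b1 + c1, I.add_mem h1 g1, b2 + c2, I.add_mem h2 g2, by ring⟩

/-- CHUNK G1B (S/M).  A regular sequence is independent modulo `I²`.
Proof.  `I ^ 2 = I * I = I * Jx x 3` is the set of the `b 0 * x 0 + b 1 * x 1 + b 2 * x 2` with `b i ∈ I`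
(induct on the membership in `I * I`; `y * z`, `z ∈ Jx x 3`, `z = c 0 * x 0 + c 1 * x 1 + c 2 * x 2` by `mem_sup_span` three
times and `Jx x 0 = ⊥`, so `b i = y * c i`).  So `∑ (a i - b i) * x i = 0`, and `kos1` gives `a i - b i ∈ Jx x 3 = I`
(`x i ∈ Jx x 3`). -/
theorem quasi (x : ℕ → A) (h : ∀ j < 3, IsSMulRegular (A ⧸ Jx x j) (x j)) (hx : Jx x 3 = I)
    (a : Fin 3 → A) (ha : a 0 * x 0 + a 1 * x 1 + a 2 * x 2 ∈ I ^ 2) (i : Fin 3) : a i ∈ I := by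
  obtain ⟨b0, h0, b1, h1, b2, h2, hb⟩ := g1b_sq x hx ha
  obtain ⟨w, w0, w1, w2⟩ := kos1 x h ![a 0 - b0, a 1 - b1, a 2 - b2] (by
    simp only [Matrix.cons_val_zero, Matrix.cons_val_one, Matrix.cons_val]
    linear_combination hb)
  simp only [Matrix.cons_val_zero, Matrix.cons_val_one, Matrix.cons_val] at w0 w1 w2
  fin_cases i
  · change a 0 ∈ I
    have e : a 0 = b0 + (0 * x 0 + w 2 * x 1 + (- w 1) * x 2) := by linear_combination w0
    rw [e]
    refine I.add_mem h0 ?_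
    rw [← hx]
    exact g1b_m x _ _ _
  · change a 1 ∈ I
    have e : a 1 = b1 + ((- w 2) * x 0 + 0 * x 1 + w 0 * x 2) := by linear_combination w1
    rw [e]
    refine I.add_mem h1 ?_
    rw [← hx]
    exact g1b_m x _ _ _
  · change a 2 ∈ I
    have e : a 2 = b2 + (w 1 * x 0 + (- w 0) * x 1 + 0 * x 2) := by linear_combination w2
    rw [e]
    refine I.add_mem h2 ?_
    rw [← hx]
    exact g1b_m x _ _ _

end Pool.Agent.H21V
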