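import Pool.Agent.Lib.H21V.G1A
import Pool.Agent.Lib.H21V.G1B

set_option autoImplicit false

open CategoryTheory IsLocalRing
open Pool.Agent.Lib.Helper92 Pool.Agent.Lib.H44V

namespace Pool.Agent.H21V
universe u


variable {S : Type u} [CommRing S]

theorem g1c_unif [IsNoetherianRing S] (P : Ideal S) [P.IsPrime] (I J : Ideal S)
    (h : ∀ y ∈ I, ∃ t, t ∉ P ∧ t * y ∈ J) : ∃ t, t ∉ P ∧ ∀ y ∈ I, t * y ∈ J := by
  classical
  obtain ⟨G, hG⟩ := (isNoetherianRing_iff_ideal_fg S).mp inferInstance I
  have hGI : ∀ g ∈ G, g ∈ I := fun g hg => by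
    rw [← hG]
    exact Ideal.subset_span hg
  choose! t ht htJ using h
  refine ⟨∏ g ∈ G, t g, ?_, fun y hy => ?_⟩
  · intro hmem
    obtain ⟨g, hg, hgP⟩ := (Ideal.IsPrime.prod_mem_iff (p := P)).mp hmem
    exact ht g (hGI g hg) hgP
  · have hy' : y ∈ Ideal.span (G : Set S) := by rw [hG]; exact hy
    refine Submodule.span_induction (p := fun y _ => (∏ g ∈ G, t g) * y ∈ J) ?_ ?_ ?_ ?_ hy'
    · intro g hg
      obtain ⟨c, hc⟩ := Finset.dvd_prod_of_mem t hg
      rw [hc]
      have e : t g * c * g = c * (t g * g) := by ring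
      rw [e]
      exact Ideal.mul_mem_left _ _ (htJ g (hGI g hg))
    · rw [mul_zero]
      exact Ideal.zero_mem _
    · intro a b _ _ ha hb
      rw [mul_add]
      exact Ideal.add_mem _ ha hb
    · intro r a _ ha
      rw [smul_eq_mul, mul_left_comm]
      exact Ideal.mul_mem_left _ _ ha

theorem g1c_j3 (x : ℕ → S) {y : S} (h : y ∈ Jx x 3) :
    ∃ a : Fin 3 → S, y = a 0 * x 0 + a 1 * x 1 + a 2 * x 2 := by
  obtain ⟨e, he⟩ := mem_sup_span h
  obtain ⟨c, d, hcd⟩ := c1_j2 x he
  refine ⟨![c, d, e], ?_⟩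
  simp only [Matrix.cons_val_zero, Matrix.cons_val_one, Matrix.cons_val]
  linear_combination hcd

theorem g1c_core [IsNoetherianRing S] {I : Ideal S} (Q : Ideal (S ⧸ I)) [Q.IsPrime] (P : Ideal S)
    [P.IsPrime] (hPQ : ∀ z, z ∈ P ↔ Ideal.Quotient.mk I z ∈ Q)
    (h : CI (I.map (algebraMap S (Localization.AtPrime P))) 3) : DualAt Q I.Cotangent 3 := by
  classical
  obtain ⟨X, hXI, hXreg, hXJ⟩ := ci_gens P h
  -- (1)
  obtain ⟨t, htP, ht⟩ := g1c_unif P I (Jx X 3) (fun y hy => by
    have h1 : algebraMap S (Localization.AtPrime P) y ∈ I.map (algebraMap S (Localization.AtPrime P)) :=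
      Ideal.mem_map_of_mem _ hy
    rw [← hXJ, R1_map_Jx] at h1
    exact (R1_mem P _ _).mp h1)
  -- (2)
  obtain ⟨u, huP, hu⟩ := g1c_unif P
    ((I.map (algebraMap S (Localization.AtPrime P))).comap (algebraMap S (Localization.AtPrime P))) I
    (fun y hy => (R1_mem P _ _).mp (Ideal.mem_comap.mp hy))
  -- (3)
  have h3 : ∀ a : Fin 3 → S, a 0 * X 0 + a 1 * X 1 + a 2 * X 2 = 0 → ∀ j, u * a j ∈ I := by
    intro a ha j
    apply hu
    rw [Ideal.mem_comap]
    refine quasi (fun i => algebraMap S (Localization.AtPrime P) (X i)) hXreg hXJ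
      (fun i => algebraMap S (Localization.AtPrime P) (a i)) ?_ j
    have e : algebraMap S (Localization.AtPrime P) (a 0) * algebraMap S (Localization.AtPrime P) (X 0)
        + algebraMap S (Localization.AtPrime P) (a 1) * algebraMap S (Localization.AtPrime P) (X 1)
        + algebraMap S (Localization.AtPrime P) (a 2) * algebraMap S (Localization.AtPrime P) (X 2)
        = 0 := by
      rw [← map_mul, ← map_mul, ← map_mul, ← map_add, ← map_add, ha, map_zero]
    change algebraMap S (Localization.AtPrime P) (a 0) * algebraMap S (Localization.AtPrime P) (X 0)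
        + algebraMap S (Localization.AtPrime P) (a 1) * algebraMap S (Localization.AtPrime P) (X 1)
        + algebraMap S (Localization.AtPrime P) (a 2) * algebraMap S (Localization.AtPrime P) (X 2) ∈ _
    rw [e]
    exact Ideal.zero_mem _
  -- (4)
  have h4 : ∀ y : I, ∃ a : Fin 3 → S, t * (y : S) = a 0 * X 0 + a 1 * X 1 + a 2 * X 2 :=
    fun y => g1c_j3 X (ht y y.2)
  choose a ha using h4
  let g : Fin 3 → (I →ₗ[S] (S ⧸ I)) := fun j =>
    { toFun := fun y => Ideal.Quotient.mk I (u * a y j)
      map_add' := by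
        intro y z
        rw [← map_add, Ideal.Quotient.eq]
        have := h3 (fun i => a (y + z) i - a y i - a z i) (by
          have e := ha (y + z)
          rw [Submodule.coe_add] at e
          linear_combination -e + ha y + ha z) j
        have e : u * a (y + z) j - (u * a y j + u * a z j) = u * (a (y + z) j - a y j - a z j) := by ring
        rw [e]
        exact this
      map_smul' := by
        intro r y
        change Ideal.Quotient.mk I (u * a (r • y) j) = Ideal.Quotient.mk I (r * (u * a y j))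
        rw [Ideal.Quotient.eq]
        have := h3 (fun i => a (r • y) i - r * a y i) (by
          have e := ha (r • y)
          rw [Submodule.coe_smul, smul_eq_mul] at e
          linear_combination -e + r * ha y) j
        have e : u * a (r • y) j - r * (u * a y j) = u * (a (r • y) j - r * a y j) := by ring
        rw [e]
        exact this }
  have hg : ∀ j y, g j y = Ideal.Quotient.mk I (u * a y j) := fun _ _ => rfl
  choose ν hν using fun j => toHom_surj (g j)
  have hν' : ∀ j y, ν j (I.toCotangent y) = Ideal.Quotient.mk I (u * a y j) := by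
    intro j y
    rw [← toHom_apply, hν, hg]
  refine ⟨ν, fun j => I.toCotangent ⟨X j, hXI j j.2⟩, Ideal.Quotient.mk I (u * t), ?_, ?_, ?_⟩
  · rw [← hPQ]
    intro hmem
    rcases Ideal.IsPrime.mem_or_mem inferInstance hmem with hh | hh
    · exact huP hh
    · exact htP hh
  · intro i j
    rw [hν']
    have e := ha ⟨X j, hXI j j.2⟩
    have key := h3 (fun k => a ⟨X j, hXI j j.2⟩ k - t * (if k = j then 1 else 0)) (by
      have e2 : t * X j = t * (if (0 : Fin 3) = j then 1 else 0) * X 0
          + t * (if (1 : Fin 3) = j then 1 else 0) * X 1 + t * (if (2 : Fin 3) = j then 1 else 0) * X 2 := by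
        fin_cases j <;> simp
      have e' : t * X j = a ⟨X j, hXI j j.2⟩ 0 * X 0 + a ⟨X j, hXI j j.2⟩ 1 * X 1
        + a ⟨X j, hXI j j.2⟩ 2 * X 2 := e
      linear_combination -e' + e2) i
    have h5 : Ideal.Quotient.mk I (u * a ⟨X j, hXI j j.2⟩ i) =
        Ideal.Quotient.mk I (u * (t * (if i = j then 1 else 0))) := by
      rw [Ideal.Quotient.eq, ← mul_sub]
      exact key
    rw [h5]
    by_cases hij : i = j
    · rw [if_pos hij, if_pos hij, mul_one]
    · rw [if_neg hij, if_neg hij, mul_zero, mul_zero, map_zero]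
  · intro y
    obtain ⟨y, rfl⟩ := I.toCotangent_surjective y
    have e1 : Ideal.Quotient.mk I (u * t) • I.toCotangent y = I.toCotangent ((u * t) • y) := by
      rw [map_smul]
      rfl
    have e2 : ∀ j : Fin 3, ν j (I.toCotangent y) • I.toCotangent ⟨X j, hXI j j.2⟩ =
        I.toCotangent ((u * a y j) • (⟨X j, hXI j j.2⟩ : I)) := by
      intro j
      rw [hν', map_smul]
      rfl
    rw [e1, Finset.sum_congr rfl (fun j _ => e2 j), ← map_sum]
    congr 1
    apply Subtype.ext
    rw [Fin.sum_univ_three]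
    change u * t * (y : S) = (u * a y 0) * X 0 + (u * a y 1) * X 1 + (u * a y 2) * X 2
    linear_combination u * ha y

/-- CHUNK G1C (M).  Dual bases of the conormal module where `I` is generated by a regular sequence of
length three.
Proof.  `P := Q.comap mk`, `B := Localization.AtPrime P`, `ι := algebraMap S B`.  `X` from `ci_gens`.
(1) For every `y ∈ I`: `ι y ∈ Jx (ι ∘ X) 3`, `= b 0 * ι (X 0) + b 1 * ι (X 1) + b 2 * ι (X 2)`; clear denominators: there are
`t ∉ P` and `a : Fin 3 → S` with `t * y = ∑ j, a j * X j` (`IsLocalization.exist_integer_multiples_of_finset` and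
`IsLocalization.eq_iff_exists`; or: `Jx (ι ∘ X) 3 = (Jx X 3).map ι` (`R1_map_Jx`) and `R1_mem`:
`t * y ∈ Jx X 3`, then `mem_sup_span`).  `I` is finitely generated, so one `t` works for all `y ∈ I`.
(2) `I' := {a : S | ∃ u, u ∉ P ∧ u * a ∈ I}` is an ideal, finitely generated, so there is one `u ∉ P` with `u * a ∈ I` for
all `a ∈ I'`.
(3) If `∑ a j * X j ∈ I ^ 2` then `a j ∈ I'` for all `j`: `quasi` for `B`, `I.map ι`, `x := ι ∘ X` gives `ι (a j) ∈ I.map ι`,
`R1_mem`.
(4) For `y ∈ I` choose `a y : Fin 3 → S` with `t * y = ∑ j, a y j * X j`.  `ν j (I.toCotangent y) := mk (u * a y j)`: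
if `∑ a j * X j - ∑ a' j * X j ∈ I ^ 2` then `u * a j - u * a' j ∈ I` by (3) and (2): this shows that
`y ↦ mk (u * a y j)` is `S`-linear and zero for `y ∈ I ^ 2`, so it gives `ν j : I.Cotangent →ₗ[S ⧸ I] (S ⧸ I)`
(`Ideal.Cotangent` is `I ⧸ (I • ⊤)`: `Submodule.liftQ` and then linearity over `S ⧸ I` by `Ideal.Quotient.mk_surjective`;
or `Pool.Agent.Lib.Helper92.toHom_surj`).
(5) `c j := I.toCotangent ⟨X j, _⟩`, `s := mk (u * t)`: `∉ Q` because `u * t ∉ P`.  `t * X i = ∑ j, (t * δ i j) * X j`, so
`ν j (c i) = mk (u * t * δ)`.  `s • I.toCotangent y = I.toCotangent (u * t * y) = ∑ j, (u * a y j) • c j`. -/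
theorem dualAt_of_ci [IsNoetherianRing S] {I : Ideal S} (Q : Ideal (S ⧸ I)) [Q.IsPrime]
    (h : CI (I.map (algebraMap S (Localization.AtPrime (Q.comap (Ideal.Quotient.mk I))))) 3) :
    DualAt Q I.Cotangent 3 := by
  exact g1c_core Q (Q.comap (Ideal.Quotient.mk I)) (fun z => Iff.rfl) h

end Pool.Agent.H21V
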