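import Pool.Agent.Lib.H21V.DL

set_option autoImplicit false

open CategoryTheory IsLocalRing
open Pool.Agent.Lib.Helper92 Pool.Agent.Lib.H44V

namespace Pool.Agent.H21V
universe u


variable {R : Type u} [CommRing R]

/-- CHUNK G2a (S). -/
theorem DualAt.genAt {Q : Ideal R} {C : Type u} [AddCommGroup C] [Module R C] {k : ℕ}
    (h : DualAt Q C k) : GenAt Q C k := by
  obtain ⟨ν, c, s, hs, h1, h2⟩ := h
  refine ⟨c, s, hs, fun x => ?_⟩
  rw [h2]
  exact Submodule.sum_mem _ fun j _ => Submodule.smul_mem _ _ (Submodule.subset_span ⟨j, rfl⟩)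

theorem g2_free {A : Type*} [CommRing A] [Nontrivial A] {M : Type*} [AddCommGroup M] [Module A M] {k : ℕ}
    (b : Fin k → M) (E : Fin k → M →ₗ[A] A) (u : A) (hu : IsUnit u)
    (hE : ∀ i j, E i (b j) = if i = j then u else 0) (hsp : ⊤ ≤ Submodule.span A (Set.range b)) :
    Module.Free A M ∧ Module.finrank A M = k := by
  have hli : LinearIndependent A b := by
    rw [Fintype.linearIndependent_iff]
    intro g hg i
    have h4 := congrArg (E i) hg
    rw [map_sum, map_zero] at h4
    have h5 : ∑ j, E i (g j • b j) = g i * u := by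
      rw [Finset.sum_eq_single i]
      · rw [map_smul, hE, if_pos rfl, smul_eq_mul]
      · intro j _ hj
        rw [map_smul, hE, if_neg (Ne.symm hj), smul_zero]
      · intro h
        exact absurd (Finset.mem_univ i) h
    rw [h5] at h4
    exact (hu.mul_left_eq_zero).1 h4
  let B := Module.Basis.mk hli hsp
  exact ⟨Module.Free.of_basis B, by rw [Module.finrank_eq_card_basis B, Fintype.card_fin]⟩

/-- CHUNK G2b (M).  The dual is free of rank `k` at `Q`.
Proof.  `N := C →ₗ[R] R`.  For `n : N`: `s • n = ∑ j, n (c j) • ν j` (apply to `y`: `n (s • y) = ∑ ν j y * n (c j)`).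
If `∑ j, a j • ν j = 0` then (apply to `c i`) `s * a i = 0`.  In `N_Q := LocalizedModule Q.primeCompl N` the images of the
`ν j` span: an element `mk n t` is `(1/(s t)) • ∑ n (c j) • ν j`.  They are linearly independent over
`Localization.AtPrime Q`: clear the denominators of the coefficients, then `u • ∑ a j • ν j = 0` for a `u ∉ Q`
(`LocalizedModule.mk_eq` / `IsLocalizedModule.eq_zero_iff`), so `s * u * a i = 0` and `a i = 0` in `R_Q`.  So they form
a basis (`Module.Basis.mk`), which gives freeness and `Module.finrank_eq_card_basis`. -/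
theorem DualAt.frAt {Q : Ideal R} [Q.IsPrime] {C : Type u} [AddCommGroup C] [Module R C] {k : ℕ}
    (h : DualAt Q C k) : FrAt Q (C →ₗ[R] R) k := by
  obtain ⟨ν, c, s, hs, h1, h2⟩ := h
  have hsu : IsUnit (algebraMap R (Localization.AtPrime Q) s) :=
    IsLocalization.map_units (Localization.AtPrime Q) (⟨s, hs⟩ : Q.primeCompl)
  have key : ∀ n : C →ₗ[R] R, s • n = ∑ j, n (c j) • ν j := by
    intro n
    refine LinearMap.ext fun y => ?_
    rw [LinearMap.smul_apply, ← map_smul, h2, map_sum, LinearMap.sum_apply]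
    refine Finset.sum_congr rfl fun j _ => ?_
    rw [map_smul, LinearMap.smul_apply, smul_eq_mul, smul_eq_mul, mul_comm]
  let b : Fin k → LocalizedModule Q.primeCompl (C →ₗ[R] R) :=
    fun j => LocalizedModule.mkLinearMap Q.primeCompl (C →ₗ[R] R) (ν j)
  let E : Fin k → LocalizedModule Q.primeCompl (C →ₗ[R] R) →ₗ[Localization.AtPrime Q] Localization.AtPrime Q :=
    fun i => IsLocalizedModule.mapExtendScalars Q.primeCompl
      (LocalizedModule.mkLinearMap Q.primeCompl (C →ₗ[R] R))
      (Algebra.linearMap R (Localization.AtPrime Q)) (Localization.AtPrime Q)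
      (LinearMap.applyₗ (c i))
  have hE : ∀ i j, E i (b j) = if i = j then algebraMap R (Localization.AtPrime Q) s else 0 := by
    intro i j
    have h3 : E i (b j) = Algebra.linearMap R (Localization.AtPrime Q) ((LinearMap.applyₗ (c i)) (ν j)) :=
      IsLocalizedModule.map_apply Q.primeCompl
        (LocalizedModule.mkLinearMap Q.primeCompl (C →ₗ[R] R))
        (Algebra.linearMap R (Localization.AtPrime Q)) (LinearMap.applyₗ (c i)) (ν j)
    rw [h3, Algebra.linearMap_apply, LinearMap.applyₗ_apply_apply, h1]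
    by_cases hij : i = j
    · rw [if_pos hij, if_pos hij.symm]
    · rw [if_neg hij, if_neg (Ne.symm hij), map_zero]
  have hsp : ⊤ ≤ Submodule.span (Localization.AtPrime Q) (Set.range b) := by
    intro x _
    obtain ⟨⟨n, t⟩, h⟩ := IsLocalizedModule.surj Q.primeCompl
      (LocalizedModule.mkLinearMap Q.primeCompl (C →ₗ[R] R)) x
    have htu : IsUnit (algebraMap R (Localization.AtPrime Q) (t : R)) :=
      IsLocalization.map_units (Localization.AtPrime Q) t
    rw [← Submodule.smul_mem_iff_of_isUnit _ htu, ← Submodule.smul_mem_iff_of_isUnit _ hsu,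
      algebraMap_smul, algebraMap_smul]
    have h' : (t : R) • x = LocalizedModule.mkLinearMap Q.primeCompl (C →ₗ[R] R) n := h
    rw [h', ← map_smul, key, map_sum]
    refine Submodule.sum_mem _ fun j _ => ?_
    rw [map_smul, ← algebraMap_smul (Localization.AtPrime Q)]
    exact Submodule.smul_mem _ _ (Submodule.subset_span ⟨j, rfl⟩)
  exact g2_free b E _ hsu hE hsp

end Pool.Agent.H21V
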