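import Pool.Agent.Lib.H21V.D0

set_option autoImplicit false

open CategoryTheory IsLocalRing
open Pool.Agent.Lib.Helper92 Pool.Agent.Lib.H44V

namespace Pool.Agent.H21V
universe u

variable {S : Type u} [CommRing S] {I : Ideal S} {n : ℕ}

/-- CHUNK K1 (M).  First homotopy.  `x := G.f ⬝ᵥ e`.
Proof.  For `a : Fin n → S` let `r a` be a vector with `Φ.mulVec (r a) = x • a - (f ⬝ᵥ a) • e` (`G.e1`:
`f ⬝ᵥ (x • a - (f ⬝ᵥ a) • e) = x (f⬝a) - (f⬝a) x = 0`).  `vecMulVec a b` is the matrix `a bᵀ`.  `Φᵀ = - Φ`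
(alt1), so `vecMulVec a (Φ.mulVec c) = - (vecMulVec a c) * Φ` (entry `(i,j)`: `a i * ∑ l, Φ j l c l = - ∑ l, a i c l Φ l j`).
For basis vectors `a = e_i := Pi.single i 1`, `b = e_j`:
`x² e_i e_jᵀ - f_i f_j e eᵀ = x e_i (x e_j - f_j e)ᵀ + f_j (x e_i - f_i e) eᵀ
= x e_i (Φ r_j)ᵀ + f_j (Φ r_i) eᵀ`, and `(Φ r_i) eᵀ = e (Φ r_i)ᵀ + alternating` (`a bᵀ - b aᵀ` is alternating).
So `x² e_i e_jᵀ - f_i f_j e eᵀ - Y_ij * Φ` is alternating with `Y_ij := - x (e_i r_jᵀ) - f_j (e r_iᵀ)`.  Multiply by `M i j`, sum: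
`∑ M i j e_i e_jᵀ = M`, `∑ M i j f_i f_j = f ⬝ᵥ M.mulVec f = 0`; `X := ∑ M i j • Y_ij` (sums of alternating matrices are
alternating). -/
theorem k1 (G : Gor S I n) (e : Fin n → S) (M : Matrix (Fin n) (Fin n) S)
    (hM : G.f ⬝ᵥ M.mulVec G.f = 0) :
    ∃ X : Matrix (Fin n) (Fin n) S, Alt ((G.f ⬝ᵥ e) ^ 2 • M - X * G.Φ) := by
  classical
  have h1 : ∀ j : Fin n, ∃ r : Fin n → S, G.Φ.mulVec r =
      (G.f ⬝ᵥ e) • (Pi.single j 1 : Fin n → S) - G.f j • e := fun j => by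
    refine G.e1 _ ?_
    rw [dotProduct_sub, dotProduct_smul, dotProduct_smul, dotProduct_single]
    simp [mul_comm]
  choose r hr using h1
  obtain ⟨W, hW⟩ : ∃ W : Matrix (Fin n) (Fin n) S, W = Matrix.of r := ⟨_, rfl⟩
  have h2 : W * G.Φ = Matrix.vecMulVec G.f e - (G.f ⬝ᵥ e) • (1 : Matrix _ _ S) := by
    ext j b
    have h3 := congrFun (hr j) b
    have h4 : (W * G.Φ) j b = - (G.Φ.mulVec (r j)) b := by
      rw [Matrix.mul_apply, Matrix.mulVec, dotProduct, ← Finset.sum_neg_distrib]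
      refine Finset.sum_congr rfl fun l _ => ?_
      rw [hW, Matrix.of_apply, G.alt1 l b]
      ring
    rw [h4, h3]
    simp only [Pi.sub_apply, Pi.smul_apply, smul_eq_mul, Matrix.sub_apply, Matrix.vecMulVec_apply,
      Matrix.smul_apply, Matrix.one_apply, Pi.single_apply]
    by_cases hjb : j = b
    · subst hjb
      simp
    · rw [if_neg hjb, if_neg (Ne.symm hjb)]
      ring
  refine ⟨-((G.f ⬝ᵥ e) • (M * W)) - Matrix.vecMulVec e (Matrix.vecMul (M.mulVec G.f) W), ?_⟩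
  have h5 : (G.f ⬝ᵥ e) ^ 2 • M - (-((G.f ⬝ᵥ e) • (M * W)) -
      Matrix.vecMulVec e (Matrix.vecMul (M.mulVec G.f) W)) * G.Φ =
      (G.f ⬝ᵥ e) • (Matrix.vecMulVec (M.mulVec G.f) e - Matrix.vecMulVec e (M.mulVec G.f)) := by
    rw [Matrix.sub_mul, Matrix.neg_mul, Matrix.smul_mul, Matrix.mul_assoc, Matrix.vecMulVec_mul,
      Matrix.vecMul_vecMul, h2, Matrix.mul_sub, Matrix.mul_vecMulVec, Matrix.vecMul_sub,
      Matrix.vecMul_vecMulVec, Matrix.vecMul_smul, Matrix.vecMul_one, dotProduct_comm (M.mulVec G.f),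
      hM, Matrix.mul_smul, Matrix.mul_one]
    ext a b
    simp only [Matrix.sub_apply, Matrix.smul_apply, Matrix.vecMulVec_apply, smul_eq_mul,
      Matrix.neg_apply, Pi.sub_apply, Pi.smul_apply, zero_smul, Pi.zero_apply]
    ring
  rw [h5]
  refine ⟨fun i => ?_, fun i j => ?_⟩
  · simp only [Matrix.sub_apply, Matrix.smul_apply, Matrix.vecMulVec_apply, smul_eq_mul]
    ring
  · simp only [Matrix.sub_apply, Matrix.smul_apply, Matrix.vecMulVec_apply, smul_eq_mul]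
    ring

end Pool.Agent.H21V
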