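import Pool.Agent.Lib.H21V.D0

set_option autoImplicit false

open CategoryTheory IsLocalRing
open Pool.Agent.Lib.Helper92 Pool.Agent.Lib.H44V

namespace Pool.Agent.H21V
universe u

variable {S : Type u} [CommRing S] {I : Ideal S} {n : ℕ}

theorem k2_quad {A : Matrix (Fin n) (Fin n) S} (hA : Alt A) (c : Fin n → S) :
    c ⬝ᵥ A.mulVec c = 0 := by
  have h1 : c ⬝ᵥ A.mulVec c = ∑ p : Fin n × Fin n, c p.1 * (A p.1 p.2 * c p.2) := by
    rw [Fintype.sum_prod_type]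
    refine Finset.sum_congr rfl fun i _ => ?_
    rw [Matrix.mulVec, dotProduct, Finset.mul_sum]
  rw [h1]
  refine Finset.sum_involution (fun p _ => (p.2, p.1)) ?_ ?_ ?_ ?_
  · rintro ⟨i, j⟩ _
    dsimp only
    rw [hA.2 i j]
    ring
  · rintro ⟨i, j⟩ _ h2 h3
    dsimp only at h2 h3
    have h4 : j = i := congrArg Prod.fst h3
    subst h4
    rw [hA.1] at h2
    exact h2 (by ring)
  · intro p _
    exact Finset.mem_univ _
  · intro p _
    rfl

theorem k2_alt {A : Matrix (Fin n) (Fin n) S} (hA : ∀ c : Fin n → S, c ⬝ᵥ A.mulVec c = 0) :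
    Alt A := by
  have h0 : ∀ i j : Fin n, (Pi.single i (1 : S)) ⬝ᵥ A.mulVec (Pi.single j 1) = A i j := by
    intro i j
    rw [Matrix.mulVec_single_one, single_one_dotProduct]
    rfl
  have h1 : ∀ i, A i i = 0 := fun i => by rw [← h0 i i]; exact hA _
  refine ⟨h1, fun i j => ?_⟩
  have h2 := hA (Pi.single i 1 + Pi.single j 1)
  rw [Matrix.mulVec_add, add_dotProduct, dotProduct_add, dotProduct_add, h0, h0, h0, h0, h1, h1] at h2
  linear_combination h2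

/-- CHUNK K2 (M).  Second homotopy.  `x := G.f ⬝ᵥ e`.
Proof.  `Φᵀ = - Φ`, `(X * Φ)ᵀ = - (X * Φ)` (alternating).  So `Φ * Xᵀ = X * Φ` (transpose) and
`Φ.mulVec (Xᵀ.mulVec f) = X.mulVec (Φ.mulVec f) = 0` (`G.zz`), so (`G.e2`) `Xᵀ.mulVec f = l • f`, i.e.
`f ⬝ᵥ X.mulVec a = l * (f ⬝ᵥ a)` for all `a`.  The columns of `X - l • 1` are killed by `f`, so (`G.e1`, column by column)
`X - l • 1 = Φ * B` for a matrix `B`.  Then `Φ * B * Φ = X * Φ - l • Φ` is alternating: for all `c`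
`0 = c ⬝ᵥ (Φ * B * Φ).mulVec c = - (Φ.mulVec c) ⬝ᵥ B.mulVec (Φ.mulVec c)` (for an alternating matrix `A`: `c ⬝ᵥ A.mulVec c = 0`), so
`d ⬝ᵥ B.mulVec d = 0` for all `d` in the range of `Φ`, i.e. (`G.e1`) for all `d` with `f ⬝ᵥ d = 0`.  Take
`d = x • a - (f ⬝ᵥ a) • e`: `x² (aᵀBa) = (f⬝a) (x (aᵀBe + eᵀBa) - (f⬝a) eᵀBe) = (f ⬝ᵥ a) * (ℓ ⬝ᵥ a)` with
`ℓ := x • (B.mulVec e + Bᵀ.mulVec e) - (e ⬝ᵥ B.mulVec e) • f`.  So `A' := x² • B - vecMulVec f ℓ` satisfies `a ⬝ᵥ A'.mulVec a = 0`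
for all `a`, hence `Alt A'` (take `a = e_i` and `a = e_i + e_j`).  `Φ * vecMulVec f ℓ = 0` (`G.zz`), so
`x² • X = (x² * l) • 1 + Φ * (x² • B) = (x² * l) • 1 + Φ * A'`. -/
theorem k2 (G : Gor S I n) (e : Fin n → S) (X : Matrix (Fin n) (Fin n) S) (hX : Alt (X * G.Φ)) :
    ∃ (l : S) (A : Matrix (Fin n) (Fin n) S), Alt A ∧
      (G.f ⬝ᵥ e) ^ 2 • X = l • (1 : Matrix (Fin n) (Fin n) S) + G.Φ * A := by
  have hΦt : G.Φ.transpose = -G.Φ := by
    ext i j
    rw [Matrix.transpose_apply, Matrix.neg_apply]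
    exact G.alt1 j i
  have hXt : (X * G.Φ).transpose = -(X * G.Φ) := by
    ext i j
    rw [Matrix.transpose_apply, Matrix.neg_apply]
    exact hX.2 j i
  have h1 : G.Φ * X.transpose = X * G.Φ := by
    rw [Matrix.transpose_mul, hΦt, neg_mul, neg_inj] at hXt
    exact hXt
  have h2 : G.Φ.mulVec (X.transpose.mulVec G.f) = 0 := by
    rw [Matrix.mulVec_mulVec, h1, ← Matrix.mulVec_mulVec, G.zz, Matrix.mulVec_zero]
  obtain ⟨l, hl⟩ := G.e2 _ h2
  have h3 : ∀ a : Fin n → S, G.f ⬝ᵥ ((X - l • (1 : Matrix (Fin n) (Fin n) S)).mulVec a) = 0 := by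
    intro a
    rw [Matrix.sub_mulVec, dotProduct_sub, Matrix.smul_mulVec, Matrix.one_mulVec, dotProduct_smul,
      Matrix.dotProduct_mulVec, ← Matrix.mulVec_transpose, hl, smul_dotProduct, sub_self]
  have h4 : ∀ j : Fin n, ∃ c, G.Φ.mulVec c =
      (X - l • (1 : Matrix (Fin n) (Fin n) S)).mulVec (Pi.single j 1) := fun j => G.e1 _ (h3 _)
  choose c hc using h4
  set B : Matrix (Fin n) (Fin n) S := Matrix.of fun i j => c j i with hB
  have h5 : G.Φ * B = X - l • (1 : Matrix (Fin n) (Fin n) S) := by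
    ext i j
    have h6 := congrFun (hc j) i
    rw [Matrix.mulVec_single_one] at h6
    exact h6
  have h6 : Alt (G.Φ * B * G.Φ) := by
    rw [h5, Matrix.sub_mul, Matrix.smul_mul, Matrix.one_mul]
    refine ⟨fun i => ?_, fun i j => ?_⟩
    · rw [Matrix.sub_apply, Matrix.smul_apply, hX.1, G.alt0, smul_zero, sub_zero]
    · rw [Matrix.sub_apply, Matrix.smul_apply, Matrix.sub_apply, Matrix.smul_apply, hX.2 i j,
        G.alt1 i j, smul_neg]
      ring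
  have h7 : ∀ d : Fin n → S, G.f ⬝ᵥ d = 0 → d ⬝ᵥ B.mulVec d = 0 := by
    intro d hd
    obtain ⟨c', rfl⟩ := G.e1 d hd
    have h8 := k2_quad h6 c'
    rw [← Matrix.mulVec_mulVec, ← Matrix.mulVec_mulVec, Matrix.dotProduct_mulVec,
      ← Matrix.mulVec_transpose, hΦt, Matrix.neg_mulVec, neg_dotProduct, neg_eq_zero] at h8
    exact h8
  set x := G.f ⬝ᵥ e with hx
  set ℓ : Fin n → S := x • (B.mulVec e + B.transpose.mulVec e) - (e ⬝ᵥ B.mulVec e) • G.f with hℓ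
  set A' : Matrix (Fin n) (Fin n) S := x ^ 2 • B - Matrix.vecMulVec G.f ℓ with hA'
  have h9 : ∀ a : Fin n → S, a ⬝ᵥ A'.mulVec a = 0 := by
    intro a
    have h10 : G.f ⬝ᵥ (x • a - (G.f ⬝ᵥ a) • e) = 0 := by
      rw [dotProduct_sub, dotProduct_smul, dotProduct_smul, smul_eq_mul, smul_eq_mul, ← hx]
      ring
    have h11 := h7 _ h10
    rw [Matrix.mulVec_sub, Matrix.mulVec_smul, Matrix.mulVec_smul, sub_dotProduct, dotProduct_sub,
      dotProduct_sub, smul_dotProduct, smul_dotProduct, smul_dotProduct, smul_dotProduct,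
      dotProduct_smul, dotProduct_smul, dotProduct_smul, dotProduct_smul] at h11
    simp only [smul_eq_mul] at h11
    have h12 : a ⬝ᵥ A'.mulVec a = x ^ 2 * (a ⬝ᵥ B.mulVec a) - (G.f ⬝ᵥ a) * (ℓ ⬝ᵥ a) := by
      rw [hA', Matrix.sub_mulVec, dotProduct_sub, Matrix.smul_mulVec, dotProduct_smul, smul_eq_mul,
        Matrix.vecMulVec_mulVec, dotProduct_smul, dotProduct_comm a G.f]
      simp [mul_comm]
    have h13 : ℓ ⬝ᵥ a = x * (a ⬝ᵥ B.mulVec e + e ⬝ᵥ B.mulVec a)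
        - (e ⬝ᵥ B.mulVec e) * (G.f ⬝ᵥ a) := by
      rw [hℓ, sub_dotProduct, smul_dotProduct, smul_dotProduct, add_dotProduct, smul_eq_mul,
        smul_eq_mul, dotProduct_comm (B.mulVec e) a, Matrix.mulVec_transpose,
        ← Matrix.dotProduct_mulVec]
    rw [h12, h13]
    linear_combination h11
  refine ⟨x ^ 2 * l, A', k2_alt h9, ?_⟩
  have h14 : G.Φ * Matrix.vecMulVec G.f ℓ = 0 := by
    rw [Matrix.mul_vecMulVec, G.zz]
    ext i j
    rw [Matrix.vecMulVec_apply, Pi.zero_apply, zero_mul]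
    rfl
  rw [hA', Matrix.mul_sub, h14, sub_zero, Matrix.mul_smul, h5, smul_sub, smul_smul]
  abel

end Pool.Agent.H21V
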