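import Pool.Agent.Lib.H21V.D0

set_option autoImplicit false

open CategoryTheory IsLocalRing
open Pool.Agent.Lib.Helper92 Pool.Agent.Lib.H44V

namespace Pool.Agent.H21V
universe u

variable {S : Type u} [CommRing S] {I : Ideal S} {n : ℕ}

theorem k3_alt {A : Matrix (Fin n) (Fin n) S} (hA : Alt A) (c : Fin n → S) : c ⬝ᵥ A.mulVec c = 0 := by
  have h1 : c ⬝ᵥ A.mulVec c = ∑ p : Fin n × Fin n, c p.1 * (A p.1 p.2 * c p.2) := by
    rw [Fintype.sum_prod_type]
    simp only [dotProduct, Matrix.mulVec, Finset.mul_sum]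
  rw [h1]
  refine Finset.sum_involution (fun p _ => (p.2, p.1)) ?_ ?_ (fun _ _ => Finset.mem_univ _) (fun _ _ => rfl)
  · rintro ⟨i, j⟩ _
    show c i * (A i j * c j) + c j * (A j i * c i) = 0
    rw [hA.2 i j]
    ring
  · rintro ⟨i, j⟩ _ h1 h2
    apply h1
    have h3 : j = i := congrArg Prod.fst h2
    show c i * (A i j * c j) = 0
    rw [h3, hA.1 i]
    ring

theorem k3_skew {A : Matrix (Fin n) (Fin n) S} (hA : Alt A) (a b : Fin n → S) :
    a ⬝ᵥ A.mulVec b = -(b ⬝ᵥ A.mulVec a) := by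
  have h1 := k3_alt hA (a + b)
  rw [Matrix.mulVec_add, add_dotProduct, dotProduct_add, dotProduct_add, k3_alt hA a, k3_alt hA b] at h1
  linear_combination h1

theorem k3_vecMul (G : Gor S I n) : Matrix.vecMul G.f G.Φ = 0 := by
  funext j
  have h1 := congrFun G.zz j
  simp only [Matrix.mulVec, Matrix.vecMul, dotProduct, Pi.zero_apply] at h1 ⊢
  rw [← neg_eq_zero, ← Finset.sum_neg_distrib, ← h1]
  refine Finset.sum_congr rfl fun i _ => ?_
  rw [G.alt1 j i]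
  ring

/-- CHUNK K3a (S/M).  Injectivity of the last map.  `x := G.f ⬝ᵥ e` a non-zero-divisor.
Proof.  Multiply `l • 1 + Φ * A = 0` on the left by the row `f`: `fᵀ Φ = 0` (`G.zz`, `Φᵀ = - Φ`), so `l • f = 0` and `l = 0`
(`G.e3`).  `Φ * A = 0`: every column of `A` is a multiple of `f` (`G.e2`): `A = vecMulVec f v`.  `Alt A`:
`a ⬝ᵥ A.mulVec a = (f ⬝ᵥ a) (v ⬝ᵥ a) = 0` for all `a`; polarize: `(f⬝a)(v⬝b) + (f⬝b)(v⬝a) = 0`.  `a = e`: `x (v⬝b) = -(f⬝b)(v⬝e)` and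
`x (v⬝e) = 0` (`a = b = e`), so `x² (v⬝b) = 0`, `v⬝b = 0` for all `b`, `v = 0`, `A = 0`. -/
theorem k3 (G : Gor S I n) (e : Fin n → S) (hx : ∀ a, (G.f ⬝ᵥ e) * a = 0 → a = 0) (l : S)
    (A : Matrix (Fin n) (Fin n) S) (hA : Alt A)
    (h : l • (1 : Matrix (Fin n) (Fin n) S) + G.Φ * A = 0) : l = 0 ∧ A = 0 := by
  have hl : l = 0 := by
    apply G.e3
    have h1 := congrArg (Matrix.vecMul G.f) h
    rw [Matrix.vecMul_add, Matrix.vecMul_smul, Matrix.vecMul_one, ← Matrix.vecMul_vecMul, k3_vecMul, Matrix.zero_vecMul,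
      add_zero, Matrix.vecMul_zero] at h1
    exact h1
  refine ⟨hl, ?_⟩
  rw [hl, zero_smul, zero_add] at h
  have hcol : ∀ j, ∃ v : S, ∀ i, A i j = v * G.f i := by
    intro j
    obtain ⟨v, hv⟩ := G.e2 (fun i => A i j) (by
      funext i
      have h1 := congrFun (congrFun h i) j
      rw [Matrix.mul_apply] at h1
      exact h1)
    exact ⟨v, fun i => congrFun hv i⟩
  choose v hv using hcol
  have h1 : (G.f ⬝ᵥ e) * (v ⬝ᵥ e) = 0 := by
    have h2 := k3_alt hA e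
    rw [← h2]
    simp only [dotProduct, Matrix.mulVec]
    rw [Finset.sum_mul]
    refine Finset.sum_congr rfl fun i _ => ?_
    rw [Finset.mul_sum, Finset.mul_sum]
    refine Finset.sum_congr rfl fun j _ => ?_
    rw [hv j i]
    ring
  have h2 : ∀ j, (G.f ⬝ᵥ e) * v j = -(G.f j * (v ⬝ᵥ e)) := by
    intro j
    simp only [dotProduct, Finset.sum_mul, Finset.mul_sum]
    rw [← Finset.sum_neg_distrib]
    refine Finset.sum_congr rfl fun i _ => ?_
    have h3 := hA.2 i j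
    rw [hv j i, hv i j] at h3
    linear_combination e i * h3
  ext i j
  rw [hv j i]
  have h3 : v j = 0 := by
    apply hx
    apply hx
    rw [h2 j]
    linear_combination -G.f j * h1
  rw [h3, zero_mul]
  rfl

/-- CHUNK K3b (S).  The composition of the last two maps is alternating.
Proof.  `Φ` is alternating; `Φ * A * Φ`: transpose `= Φᵀ Aᵀ Φᵀ = - Φ A Φ`; diagonal entries: `e_i ⬝ᵥ (Φ A Φ).mulVec e_i =
- (Φ.mulVec e_i) ⬝ᵥ A.mulVec (Φ.mulVec e_i) = 0` because `c ⬝ᵥ A.mulVec c = 0` for alternating `A` (the double sum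
`∑ i, ∑ j, c i A i j c j` is `- ` itself with the diagonal 0: split into `i < j`, `i = j`, `j < i`). -/
theorem k3b (G : Gor S I n) (l : S) (A : Matrix (Fin n) (Fin n) S) (hA : Alt A) :
    Alt ((l • (1 : Matrix (Fin n) (Fin n) S) + G.Φ * A) * G.Φ) := by
  have key : ∀ i j, (G.Φ * A * G.Φ) i j = -(G.Φ i ⬝ᵥ A.mulVec (G.Φ j)) := by
    intro i j
    rw [Matrix.mul_assoc, Matrix.mul_apply', ← dotProduct_neg]
    congr 1
    funext k
    rw [Matrix.mul_apply, Pi.neg_apply]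
    simp only [dotProduct, Matrix.mulVec]
    rw [← Finset.sum_neg_distrib]
    refine Finset.sum_congr rfl fun m _ => ?_
    rw [G.alt1 j m]
    ring
  have he : (l • (1 : Matrix (Fin n) (Fin n) S) + G.Φ * A) * G.Φ = l • G.Φ + G.Φ * A * G.Φ := by
    rw [add_mul, smul_mul_assoc, one_mul]
  have hX : ∀ i j, ((l • (1 : Matrix (Fin n) (Fin n) S) + G.Φ * A) * G.Φ) i j =
      l * G.Φ i j - G.Φ i ⬝ᵥ A.mulVec (G.Φ j) := by
    intro i j
    rw [he, Matrix.add_apply, Matrix.smul_apply, key, smul_eq_mul]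
    ring
  refine ⟨fun i => ?_, fun i j => ?_⟩
  · rw [hX, G.alt0, k3_alt hA, mul_zero, sub_zero]
  · rw [hX, hX, G.alt1 i j, k3_skew hA (G.Φ i) (G.Φ j)]
    ring

/-- CHUNK K3c (S).  `f ⬝ᵥ (X * Φ).mulVec f = 0` (`G.zz`) and `f ⬝ᵥ A.mulVec f = 0` for alternating `A`. -/
theorem k3c (G : Gor S I n) (X A : Matrix (Fin n) (Fin n) S) (hA : Alt A) :
    G.f ⬝ᵥ (X * G.Φ).mulVec G.f = 0 ∧ G.f ⬝ᵥ A.mulVec G.f = 0 := by
  refine ⟨?_, k3_alt hA _⟩
  rw [← Matrix.mulVec_mulVec, G.zz, Matrix.mulVec_zero, dotProduct_zero]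

end Pool.Agent.H21V
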