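import Pool.Agent.Lib.H21V.DL
import Pool.Agent.Lib.H44V.P1
import Pool.Agent.Lib.H44V.R1

set_option autoImplicit false

open CategoryTheory IsLocalRing
open Pool.Agent.Lib.Helper92 Pool.Agent.Lib.H44V

namespace Pool.Agent.H21V
universe u


variable {S : Type u} [CommRing S]

/- CHUNK K4 (S/M).  Regular sequences of length three, elementwise. -/

theorem k4_one (x : ℕ → S) (a : S) : a ∈ Jx x 1 ↔ ∃ c, a = x 0 * c := by
  have e : Jx x 1 = Ideal.span {x 0} := bot_sup_eq _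
  rw [e, Ideal.mem_span_singleton]
  rfl

theorem k4_two (x : ℕ → S) (a : S) : a ∈ Jx x 2 ↔ ∃ u v, a = x 0 * u + x 1 * v := by
  change a ∈ Jx x 1 ⊔ Ideal.span {x 1} ↔ _
  rw [Submodule.mem_sup]
  constructor
  · rintro ⟨y, hy, z, hz, rfl⟩
    obtain ⟨u, rfl⟩ := (k4_one x y).1 hy
    obtain ⟨v, rfl⟩ := Ideal.mem_span_singleton.1 hz
    exact ⟨u, v, rfl⟩
  · rintro ⟨u, v, rfl⟩
    exact ⟨_, (k4_one x _).2 ⟨u, rfl⟩, _, Ideal.mem_span_singleton.2 ⟨v, rfl⟩, rfl⟩

/-- Proof.  `R1_reg_iff`, `mem_sup_span`, `Jx x 0 = ⊥`, `Jx x 1 = ⊥ ⊔ span {x 0}`, `Jx x 2 = Jx x 1 ⊔ span {x 1}`.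
`x 1 * a = x 0 * b ∈ Jx x 1` gives `a ∈ Jx x 1`; `x 2 * a ∈ Jx x 2` gives `a ∈ Jx x 2`. -/
theorem reg_elem (x : ℕ → S) (h : ∀ j < 3, IsSMulRegular (S ⧸ Jx x j) (x j)) :
    (∀ a, x 0 * a = 0 → a = 0) ∧ (∀ a b, x 1 * a = x 0 * b → ∃ c, a = x 0 * c) ∧
      ∀ a b c, x 2 * a = x 1 * b - x 0 * c → ∃ u v, a = x 0 * u + x 1 * v := by
  have h0 := (R1_reg_iff _ _).1 (h 0 (by norm_num))
  have h1 := (R1_reg_iff _ _).1 (h 1 (by norm_num))
  have h2 := (R1_reg_iff _ _).1 (h 2 (by norm_num))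
  refine ⟨fun a ha => ?_, fun a b hab => ?_, fun a b c habc => ?_⟩
  · have h3 : a ∈ Jx x 0 := h0 a (by rw [ha]; exact zero_mem _)
    exact (Submodule.mem_bot S).1 h3
  · exact (k4_one x a).1 (h1 a ((k4_one x _).2 ⟨b, hab⟩))
  · exact (k4_two x a).1 (h2 a ((k4_two x _).2 ⟨-c, b, by rw [habc]; ring⟩))

/-- Proof.  Coordinates: `b := Module.Free.chooseBasis S G`, `b.repr`; apply `reg_elem` in every coordinate and
assemble the vector from the chosen values (finite free: `Module.Free.chooseBasis`, `b.equivFun`). -/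
theorem reg_free (x : ℕ → S) (h : ∀ j < 3, IsSMulRegular (S ⧸ Jx x j) (x j)) (G : Type u)
    [AddCommGroup G] [Module S G] [Module.Free S G] [Module.Finite S G] :
    (∀ a : G, x 0 • a = 0 → a = 0) ∧ (∀ a b : G, x 1 • a = x 0 • b → ∃ c, a = x 0 • c) ∧
      ∀ a b c : G, x 2 • a = x 1 • b - x 0 • c → ∃ u v, a = x 0 • u + x 1 • v := by
  obtain ⟨h0, h1, h2⟩ := reg_elem x h
  let f := (Module.Free.chooseBasis S G).equivFun
  refine ⟨fun a ha => ?_, fun a b hab => ?_, fun a b c habc => ?_⟩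
  · apply f.injective
    rw [map_zero]
    funext i
    apply h0
    have h3 := congrFun (congrArg f ha) i
    rw [map_smul, map_zero] at h3
    exact h3
  · have h3 : ∀ i, ∃ c, f a i = x 0 * c := by
      intro i
      apply h1 _ (f b i)
      have h3 := congrFun (congrArg f hab) i
      rw [map_smul, map_smul] at h3
      exact h3
    choose c hc using h3
    refine ⟨f.symm c, ?_⟩
    apply f.injective
    rw [map_smul, f.apply_symm_apply]
    funext i
    exact hc i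
  · have h3 : ∀ i, ∃ u v, f a i = x 0 * u + x 1 * v := by
      intro i
      apply h2 _ (f b i) (f c i)
      have h3 := congrFun (congrArg f habc) i
      rw [map_smul, map_sub, map_smul, map_smul] at h3
      exact h3
    choose u v hc using h3
    refine ⟨f.symm u, f.symm v, ?_⟩
    apply f.injective
    rw [map_add, map_smul, map_smul, f.apply_symm_apply, f.apply_symm_apply]
    funext i
    exact hc i

/-- The squares of a regular sequence.  `P1_pow` with `q = 2`. -/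
theorem reg_sq [IsNoetherianRing S] [IsLocalRing S] (x : ℕ → S)
    (hm : ∀ j < 3, x j ∈ maximalIdeal S) (h : ∀ j < 3, IsSMulRegular (S ⧸ Jx x j) (x j)) :
    ∀ j < 3, IsSMulRegular (S ⧸ Jx (fun i => x i ^ 2) j) (x j ^ 2) :=
  P1_pow x 3 hm h 2 two_ne_zero

end Pool.Agent.H21V
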