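import Pool.Agent.Lib.H21V.DL

set_option autoImplicit false

open CategoryTheory IsLocalRing
open Pool.Agent.Lib.Helper92 Pool.Agent.Lib.H44V

namespace Pool.Agent.H21V
universe u


variable (S : Type u) [CommRing S] (n : ℕ)

/-- the submodule of the alternating matrices. -/
def altSub : Submodule S (Matrix (Fin n) (Fin n) S) where
  carrier := {A | Alt A}
  add_mem' := by
    rintro A B ⟨h1, h2⟩ ⟨h3, h4⟩
    refine ⟨fun i => ?_, fun i j => ?_⟩
    · rw [Matrix.add_apply, h1, h3, add_zero]
    · rw [Matrix.add_apply, Matrix.add_apply, h2, h4]; ring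
  zero_mem' := ⟨fun i => rfl, fun i j => by simp⟩
  smul_mem' := by
    rintro c A ⟨h1, h2⟩
    refine ⟨fun i => ?_, fun i j => ?_⟩
    · rw [Matrix.smul_apply, h1, smul_zero]
    · rw [Matrix.smul_apply, Matrix.smul_apply, h2]; simp

/-- The coordinates of an alternating matrix. -/
def k5Alt : altSub S n ≃ₗ[S] ({p : Fin n × Fin n // p.1 < p.2} → S) where
  toFun A p := A.1 p.1.1 p.1.2
  map_add' A B := rfl
  map_smul' c A := rfl
  invFun v := ⟨fun i j => if h : i < j then v ⟨(i, j), h⟩ else if h' : j < i then -v ⟨(j, i), h'⟩ else 0, by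
    refine ⟨fun i => ?_, fun i j => ?_⟩
    · simp only [lt_irrefl, dite_false]
    · rcases lt_trichotomy i j with h | h | h
      · simp only [h, h.not_gt, dite_true, dite_false, neg_neg]
      · simp only [h, lt_irrefl, dite_false, neg_zero]
      · simp only [h, h.not_gt, dite_true, dite_false]⟩
  left_inv A := by
    obtain ⟨A, h1, h2⟩ := A
    refine Subtype.ext (funext fun i => funext fun j => ?_)
    rcases lt_trichotomy i j with h | h | h
    · simp only [h, dite_true]
    · subst h
      simp only [lt_irrefl, dite_false, h1]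
    · simp only [h, h.not_gt, dite_true, dite_false]
      exact (h2 i j).symm
  right_inv v := by
    funext p
    obtain ⟨p, h⟩ := p
    simp only [h, dite_true]

/-- The coordinates of a matrix modulo the alternating ones. -/
def k5Quot : Matrix (Fin n) (Fin n) S →ₗ[S] ({p : Fin n × Fin n // p.1 ≤ p.2} → S) where
  toFun M p := if p.1.1 = p.1.2 then M p.1.1 p.1.1 else M p.1.1 p.1.2 + M p.1.2 p.1.1
  map_add' A B := by
    funext p
    simp only [Pi.add_apply, Matrix.add_apply]
    split_ifs
    · rfl
    · ring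
  map_smul' c A := by
    funext p
    simp only [Pi.smul_apply, Matrix.smul_apply, smul_eq_mul, RingHom.id_apply]
    split_ifs
    · rfl
    · ring

theorem k5_surj : Function.Surjective (k5Quot S n) := by
  intro v
  refine ⟨fun i j => if h : i ≤ j then v ⟨(i, j), h⟩ else 0, ?_⟩
  funext p
  obtain ⟨⟨i, j⟩, h⟩ := p
  show (if i = j then (if h : i ≤ i then v ⟨(i, i), h⟩ else 0) else
    (if h : i ≤ j then v ⟨(i, j), h⟩ else 0) + (if h : j ≤ i then v ⟨(j, i), h⟩ else 0)) = v ⟨(i, j), h⟩
  by_cases hij : i = j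
  · subst hij
    simp only [if_true, le_refl, dite_true]
  · have h' : i ≤ j := h
    have h1 : ¬ j ≤ i := fun h2 => hij (le_antisymm h' h2)
    rw [if_neg hij, dif_pos h', dif_neg h1, add_zero]

theorem k5_ker : LinearMap.ker (k5Quot S n) = altSub S n := by
  ext M
  rw [LinearMap.mem_ker]
  constructor
  · intro h
    have h1 : ∀ i, M i i = 0 := by
      intro i
      have h2 := congrFun h ⟨(i, i), le_refl i⟩
      have h3 : (if i = i then M i i else M i i + M i i) = 0 := h2
      rwa [if_pos rfl] at h3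
    have h2 : ∀ i j, i < j → M i j + M j i = 0 := by
      intro i j hij
      have h2 := congrFun h ⟨(i, j), hij.le⟩
      have h3 : (if i = j then M i i else M i j + M j i) = 0 := h2
      rwa [if_neg hij.ne] at h3
    refine ⟨h1, fun i j => ?_⟩
    rcases lt_trichotomy i j with h3 | h3 | h3
    · exact eq_neg_of_add_eq_zero_left (h2 i j h3)
    · subst h3
      rw [h1, neg_zero]
    · exact eq_neg_of_add_eq_zero_right (h2 j i h3)
  · rintro ⟨h1, h2⟩
    funext p
    obtain ⟨⟨i, j⟩, h⟩ := p
    show (if i = j then M i i else M i j + M j i) = 0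
    split_ifs
    · exact h1 i
    · rw [h2 i j, neg_add_cancel]

/-- CHUNK K5 (M).  Four instances.
Proof.  `altSub ≃ₗ ({p : Fin n × Fin n // p.1 < p.2} → S)`: `A ↦ (A p.1 p.2)`, inverse: `v ↦` the matrix with entries
`v (i,j)` (`i < j`), `- v (j,i)` (`j < i`), `0` (`i = j`).  `Module.Free.of_equiv`, `Module.Finite.equiv`. -/
theorem alt_free : Module.Free S (altSub S n) ∧ Module.Finite S (altSub S n) :=
  ⟨Module.Free.of_equiv (k5Alt S n).symm, Module.Finite.equiv (k5Alt S n).symm⟩

/-- Proof.  `σ : Matrix → ({p : Fin n × Fin n // p.1 ≤ p.2} → S)`, `σ M p := if p.1 = p.2 then M p.1 p.1 else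
M p.1 p.2 + M p.2 p.1` is surjective (take the upper triangular matrix `M i j := if h : i ≤ j then v ⟨(i,j),h⟩ else 0`)
with kernel `altSub`; `LinearMap.quotKerEquivOfSurjective` and `Submodule.quotEquivOfEq`. -/
theorem quot_free : Module.Free S (Matrix (Fin n) (Fin n) S ⧸ altSub S n) ∧
    Module.Finite S (Matrix (Fin n) (Fin n) S ⧸ altSub S n) := by
  have e := (Submodule.quotEquivOfEq _ _ (k5_ker S n)).symm.trans ((k5Quot S n).quotKerEquivOfSurjective (k5_surj S n))
  exact ⟨Module.Free.of_equiv e.symm, Module.Finite.equiv e.symm⟩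

end Pool.Agent.H21V
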