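import Pool.Agent.Lib.H21V.K1
import Pool.Agent.Lib.H21V.K2
import Pool.Agent.Lib.H21V.K3
import Pool.Agent.Lib.H21V.K4
import Pool.Agent.Lib.H21V.K5
import Pool.Agent.Lib.H21V.LE

set_option autoImplicit false

open CategoryTheory IsLocalRing
open Pool.Agent.Lib.Helper92 Pool.Agent.Lib.H44V

namespace Pool.Agent.H21V
universe u


variable {S : Type u} [CommRing S] {I : Ideal S} {n : ℕ}

/-- the quadratic form -/
def k6_q (G : Gor S I n) : Matrix (Fin n) (Fin n) S →ₗ[S] S where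
  toFun M := G.f ⬝ᵥ M.mulVec G.f
  map_add' := by
    intro M N
    rw [Matrix.add_mulVec, dotProduct_add]
  map_smul' := by
    intro c M
    rw [Matrix.smul_mulVec, dotProduct_smul]
    rfl

theorem k6_le (G : Gor S I n) : altSub S n ≤ LinearMap.ker (k6_q G) := by
  intro A hA
  rw [LinearMap.mem_ker]
  exact (k3c G 0 A hA).2

/-- the last map -/
def k6_D3 (G : Gor S I n) : (altSub S n × S) →ₗ[S] Matrix (Fin n) (Fin n) S where
  toFun p := p.2 • (1 : Matrix (Fin n) (Fin n) S) + G.Φ * (p.1 : Matrix (Fin n) (Fin n) S)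
  map_add' := by
    intro p q
    rw [Prod.snd_add, Prod.fst_add, Submodule.coe_add, add_smul, mul_add]
    abel
  map_smul' := by
    intro c p
    rw [Prod.smul_snd, Prod.smul_fst, Submodule.coe_smul, Matrix.mul_smul, smul_eq_mul, mul_smul, RingHom.id_apply, smul_add]

/-- CHUNK K6 (S/M).  The resolution of `S ⧸ I²`.
Proof.  `acyclic` (LE) with `G0 := S`, `G1 := Matrix ⧸ altSub S n`, `G2 := Matrix (Fin n) (Fin n) S`, `G3 := altSub S n × S`;
`D1 := liftQ` of `M ↦ G.f ⬝ᵥ M.mulVec G.f` (zero on `altSub` by `k3c`), `D2 X := mk (X * G.Φ)`,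
`D3 (A, l) := l • 1 + G.Φ * A`; `h12`: `k3c`; `h23`: `k3b`.  Elements `x1, x2, x3 := x 0 ^ 2, x 1 ^ 2, x 2 ^ 2`: the
hypotheses `r..` from `reg_free` for `reg_sq` (all three modules are free and finite: `alt_free`, `quot_free`).
`x j = G.f ⬝ᵥ e j` for some `e j` (`G.hI`, `Ideal.mem_span_range_iff_exists_fun`).  `k1`: `g = mk M`, `k1 G (e j) M`:
`x j ^ 2 • mk M = mk (X * Φ)`.  `k2`: `D2 X = 0` says `Alt (X * Φ)`, `k2 G (e j) X`.  `k3`: `k3 G (e 0)`. -/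
theorem sq_acyclic [IsNoetherianRing S] [IsLocalRing S] (G : Gor S I n) (x : ℕ → S)
    (hm : ∀ j < 3, x j ∈ maximalIdeal S) (h : ∀ j < 3, IsSMulRegular (S ⧸ Jx x j) (x j))
    (hx : ∀ j < 3, x j ∈ I) :
    (∀ M : Matrix (Fin n) (Fin n) S, G.f ⬝ᵥ M.mulVec G.f = 0 →
      ∃ X : Matrix (Fin n) (Fin n) S, Alt (M - X * G.Φ)) ∧
    (∀ X : Matrix (Fin n) (Fin n) S, Alt (X * G.Φ) →
      ∃ (l : S) (A : Matrix (Fin n) (Fin n) S), Alt A ∧
        X = l • (1 : Matrix (Fin n) (Fin n) S) + G.Φ * A) ∧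
    ∀ (l : S) (A : Matrix (Fin n) (Fin n) S), Alt A →
      l • (1 : Matrix (Fin n) (Fin n) S) + G.Φ * A = 0 → l = 0 ∧ A = 0 := by
  have he : ∀ j < 3, ∃ e : Fin n → S, x j = G.f ⬝ᵥ e := by
    intro j hj
    have h1 := hx j hj
    rw [← G.hI, Ideal.mem_span_range_iff_exists_fun] at h1
    obtain ⟨c, hc⟩ := h1
    refine ⟨c, ?_⟩
    rw [← hc, dotProduct]
    exact Finset.sum_congr rfl fun i _ => mul_comm _ _
  obtain ⟨e0, he0⟩ := he 0 (by norm_num)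
  obtain ⟨e1, he1⟩ := he 1 (by norm_num)
  obtain ⟨e2, he2⟩ := he 2 (by norm_num)
  have hsq := reg_sq x hm h
  obtain ⟨hA1, hA2⟩ := alt_free S n
  obtain ⟨hQ1, hQ2⟩ := quot_free S n
  obtain ⟨p1, p2, p3⟩ := reg_free (fun i => x i ^ 2) hsq (Matrix (Fin n) (Fin n) S ⧸ altSub S n)
  obtain ⟨q1, q2, q3⟩ := reg_free (fun i => x i ^ 2) hsq (Matrix (Fin n) (Fin n) S)
  obtain ⟨r1, r2, r3⟩ := reg_free (fun i => x i ^ 2) hsq (altSub S n × S)
  have hk1 : ∀ (e : Fin n → S) (y : S), y = G.f ⬝ᵥ e → ∀ g : Matrix (Fin n) (Fin n) S ⧸ altSub S n,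
      (altSub S n).liftQ (k6_q G) (k6_le G) g = 0 →
      ∃ v, y ^ 2 • g = ((altSub S n).mkQ ∘ₗ LinearMap.mulRight S G.Φ) v := by
    intro e y hy g hg
    obtain ⟨M, rfl⟩ := Submodule.Quotient.mk_surjective _ g
    rw [Submodule.liftQ_apply] at hg
    obtain ⟨X, hX⟩ := k1 G e M hg
    refine ⟨X, ?_⟩
    rw [LinearMap.comp_apply, LinearMap.mulRight_apply, Submodule.mkQ_apply, ← Submodule.Quotient.mk_smul,
      Submodule.Quotient.eq, hy]
    exact hX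
  have hk2 : ∀ (e : Fin n → S) (y : S), y = G.f ⬝ᵥ e → ∀ g : Matrix (Fin n) (Fin n) S,
      ((altSub S n).mkQ ∘ₗ LinearMap.mulRight S G.Φ) g = 0 → ∃ v, y ^ 2 • g = k6_D3 G v := by
    intro e y hy X hX
    rw [LinearMap.comp_apply, LinearMap.mulRight_apply, Submodule.mkQ_apply, Submodule.Quotient.mk_eq_zero] at hX
    obtain ⟨l, A, hA, hl⟩ := k2 G e X hX
    exact ⟨(⟨A, hA⟩, l), by rw [hy, hl]; rfl⟩
  obtain ⟨c1, c2, c3⟩ := acyclic ((altSub S n).liftQ (k6_q G) (k6_le G)) ((altSub S n).mkQ ∘ₗ LinearMap.mulRight S G.Φ)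
    (k6_D3 G) (fun X => by
      rw [LinearMap.comp_apply, LinearMap.mulRight_apply, Submodule.mkQ_apply, Submodule.liftQ_apply]
      exact (k3c G X 0 (altSub S n).zero_mem).1)
    (fun p => by
      rw [LinearMap.comp_apply, LinearMap.mulRight_apply, Submodule.mkQ_apply, Submodule.Quotient.mk_eq_zero]
      exact k3b G p.2 p.1 p.1.2)
    (x 0 ^ 2) (x 1 ^ 2) (x 2 ^ 2) p1 q1 q2 r1 r2 r3
    (fun g hg => ⟨hk1 e0 _ he0 g hg, hk1 e1 _ he1 g hg, hk1 e2 _ he2 g hg⟩)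
    (fun g hg => ⟨hk2 e0 _ he0 g hg, hk2 e1 _ he1 g hg⟩)
    (fun p hp => by
      obtain ⟨⟨A, hA⟩, l⟩ := p
      obtain ⟨hl, hA0⟩ := k3 G e0 (fun a ha => (reg_elem x h).1 a (by rw [he0]; exact ha)) l A hA hp
      subst hA0
      subst hl
      exact smul_zero _)
  refine ⟨fun M hM => ?_, fun X hX => ?_, fun l A hA h0 => ?_⟩
  · obtain ⟨v, hv⟩ := c1 (Submodule.Quotient.mk M) (by rw [Submodule.liftQ_apply]; exact hM)
    refine ⟨v, ?_⟩
    rw [LinearMap.comp_apply, LinearMap.mulRight_apply, Submodule.mkQ_apply, Submodule.Quotient.eq] at hv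
    exact hv
  · obtain ⟨v, hv⟩ := c2 X (by
      rw [LinearMap.comp_apply, LinearMap.mulRight_apply, Submodule.mkQ_apply, Submodule.Quotient.mk_eq_zero]
      exact hX)
    exact ⟨v.2, v.1, v.1.2, hv⟩
  · have h1 := c3 (⟨A, hA⟩, l) h0
    have h2 := congrArg Prod.snd h1
    have h3 := congrArg (fun p : altSub S n × S => (p.1 : Matrix (Fin n) (Fin n) S)) h1
    exact ⟨h2, h3⟩

end Pool.Agent.H21V
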