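import Pool.Agent.Lib.H21V.DL
import Pool.Agent.Lib.H44V.A4
import Pool.Agent.Lib.H44V.A6
import Pool.Agent.Lib.H44V.A8
import Pool.Agent.Lib.H44V.A10

set_option autoImplicit false

open CategoryTheory IsLocalRing
open Pool.Agent.Lib.Helper92 Pool.Agent.Lib.H44V

namespace Pool.Agent.H21V
universe u

theorem p10_functional {S : Type u} [CommRing S] {r : ℕ} (I : Ideal S) (f : Fin r → S)
    (hf : Ideal.span (Set.range f) = I)
    (hind : ∀ a : Fin r → S, ∑ i, a i * f i ∈ I ^ 2 → ∀ i, a i ∈ I) (l : Fin r) :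
    ∃ g : I →ₗ[S] (S ⧸ I), ∀ (y : I) (a : Fin r → S), (y : S) = ∑ i, a i * f i →
      g y = Submodule.Quotient.mk (a l) := by
  have hex : ∀ y : I, ∃ a : Fin r → S, ∑ i, a i * f i = y := by
    intro y
    have h1 : (y : S) ∈ Ideal.span (Set.range f) := by
      rw [hf]
      exact y.2
    exact Ideal.mem_span_range_iff_exists_fun.1 h1
  choose c hc using hex
  have key : ∀ (a b : Fin r → S), ∑ i, a i * f i = ∑ i, b i * f i → a l - b l ∈ I := by
    intro a b hab
    have h1 := hind (fun i => a i - b i) (by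
      have h2 : ∑ i, (a i - b i) * f i = 0 := by
        simp only [sub_mul, Finset.sum_sub_distrib, hab, sub_self]
      rw [h2]
      exact Ideal.zero_mem _) l
    exact h1
  refine ⟨{ toFun := fun y => Submodule.Quotient.mk (c y l), map_add' := ?_, map_smul' := ?_ }, ?_⟩
  · intro y y'
    rw [← Submodule.Quotient.mk_add, Submodule.Quotient.eq]
    refine key _ (fun i => c y i + c y' i) ?_
    simp only [add_mul, Finset.sum_add_distrib, hc]
    rfl
  · intro s y
    rw [RingHom.id_apply, ← Submodule.Quotient.mk_smul, Submodule.Quotient.eq]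
    refine key _ (fun i => s * c y i) ?_
    simp only [mul_assoc, ← Finset.mul_sum, hc]
    rfl
  · intro y a ha
    change Submodule.Quotient.mk (c y l) = _
    rw [Submodule.Quotient.eq]
    exact key _ _ (by rw [hc, ha])

theorem p10_single {S : Type u} [CommRing S] {r : ℕ} (f : Fin r → S) (l : Fin r) :
    ∑ i, (Pi.single l (1 : S) : Fin r → S) i * f i = f l := by
  simp [Pi.single_apply]

theorem p10_span {S : Type u} [CommRing S] {r : ℕ} (I : Ideal S) (f : Fin (r + 1) → S)
    (hf : Ideal.span (Set.range f) = I) (y : S) (c : Fin (r + 1) → S) (hc : ∑ i, c i * f i = y)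
    (hu : IsUnit (c (Fin.last r))) :
    Ideal.span (Set.range fun i : Fin r => Ideal.Quotient.mk (Ideal.span {y}) (f i.castSucc)) =
      I.map (Ideal.Quotient.mk (Ideal.span {y})) := by
  have hfi : ∀ i, f i ∈ I := fun i => by
    rw [← hf]
    exact Ideal.subset_span ⟨i, rfl⟩
  apply le_antisymm
  · rw [Ideal.span_le]
    rintro _ ⟨i, rfl⟩
    exact Ideal.mem_map_of_mem _ (hfi _)
  · conv_lhs => rw [← hf]
    rw [Ideal.map_span, Ideal.span_le]
    rintro _ ⟨_, ⟨i, rfl⟩, rfl⟩
    refine Fin.lastCases ?_ (fun j => ?_) i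
    · obtain ⟨u, hu'⟩ := hu
      have h1 : Ideal.Quotient.mk (Ideal.span {y}) y = 0 :=
        Ideal.Quotient.eq_zero_iff_mem.2 (Ideal.mem_span_singleton_self y)
      have h2 : Ideal.Quotient.mk (Ideal.span {y}) (∑ i, c i * f i) = 0 := by rw [hc, h1]
      rw [Fin.sum_univ_castSucc, map_add, map_sum, map_mul, ← hu'] at h2
      have h3 : Ideal.Quotient.mk (Ideal.span {y}) ((u⁻¹ : Sˣ) : S) * Ideal.Quotient.mk (Ideal.span {y}) (u : S) = 1 := by
        rw [← map_mul, Units.inv_mul, map_one]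
      have h4 : Ideal.Quotient.mk (Ideal.span {y}) (f (Fin.last r)) =
          ∑ j : Fin r, (- Ideal.Quotient.mk (Ideal.span {y}) ((u⁻¹ : Sˣ) : S) *
            Ideal.Quotient.mk (Ideal.span {y}) (c j.castSucc)) *
            Ideal.Quotient.mk (Ideal.span {y}) (f j.castSucc) := by
        have h5 : ∀ j : Fin r, (- Ideal.Quotient.mk (Ideal.span {y}) ((u⁻¹ : Sˣ) : S) *
            Ideal.Quotient.mk (Ideal.span {y}) (c j.castSucc)) *
            Ideal.Quotient.mk (Ideal.span {y}) (f j.castSucc) =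
            - Ideal.Quotient.mk (Ideal.span {y}) ((u⁻¹ : Sˣ) : S) *
              Ideal.Quotient.mk (Ideal.span {y}) (c j.castSucc * f j.castSucc) := by
          intro j
          rw [map_mul, mul_assoc]
        rw [Finset.sum_congr rfl (fun j _ => h5 j), ← Finset.mul_sum]
        linear_combination (-Ideal.Quotient.mk (Ideal.span {y}) (f (Fin.last r))) * h3 +
          Ideal.Quotient.mk (Ideal.span {y}) ((u⁻¹ : Sˣ) : S) * h2
      rw [SetLike.mem_coe, h4]
      exact Ideal.sum_mem _ fun j _ => Ideal.mul_mem_left _ _ (Ideal.subset_span ⟨j, rfl⟩)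
    · exact Ideal.subset_span ⟨j, rfl⟩

theorem p10_indep {S : Type u} [CommRing S] {r : ℕ} (I : Ideal S) (f : Fin (r + 1) → S)
    (hind : ∀ a : Fin (r + 1) → S, ∑ i, a i * f i ∈ I ^ 2 → ∀ i, a i ∈ I)
    (y : S) (c : Fin (r + 1) → S) (hc : ∑ i, c i * f i = y)
    (hu : IsUnit (c (Fin.last r))) (a' : Fin r → S ⧸ Ideal.span {y})
    (ha' : ∑ i, a' i * Ideal.Quotient.mk (Ideal.span {y}) (f i.castSucc) ∈
      (I.map (Ideal.Quotient.mk (Ideal.span {y}))) ^ 2) (i : Fin r) :
    a' i ∈ I.map (Ideal.Quotient.mk (Ideal.span {y})) := by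
  have hsurj : Function.Surjective (Ideal.Quotient.mk (Ideal.span {y})) := Ideal.Quotient.mk_surjective
  choose a ha using fun j => hsurj (a' j)
  rw [← Ideal.map_pow, Ideal.mem_map_iff_of_surjective _ hsurj] at ha'
  obtain ⟨w, hw, hw'⟩ := ha'
  have h1 : Ideal.Quotient.mk (Ideal.span {y}) w =
      Ideal.Quotient.mk (Ideal.span {y}) (∑ j : Fin r, a j * f j.castSucc) := by
    rw [hw', map_sum]
    refine Finset.sum_congr rfl fun j _ => ?_
    rw [map_mul, ha]
  rw [Ideal.Quotient.eq, Ideal.mem_span_singleton'] at h1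
  obtain ⟨b, hb⟩ := h1
  -- b * y = w - ∑ a f
  have h2 := hind (Fin.lastCases (b * c (Fin.last r)) (fun j => a j + b * c j.castSucc)) (by
    have h3 : ∑ i, (Fin.lastCases (b * c (Fin.last r)) (fun j => a j + b * c j.castSucc) :
        Fin (r + 1) → S) i * f i = w := by
      rw [Fin.sum_univ_castSucc]
      simp only [Fin.lastCases_castSucc, Fin.lastCases_last]
      have h4 : b * y = ∑ j : Fin r, b * c j.castSucc * f j.castSucc + b * c (Fin.last r) * f (Fin.last r) := by
        rw [← hc, Fin.sum_univ_castSucc, mul_add, Finset.mul_sum]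
        simp only [mul_assoc]
      simp only [add_mul, Finset.sum_add_distrib]
      linear_combination hb - h4
    rw [h3]
    exact hw)
  have h5 := h2 (Fin.last r)
  rw [Fin.lastCases_last] at h5
  have hbI : b ∈ I := by
    rw [mul_comm] at h5
    exact (Ideal.unit_mul_mem_iff_mem I hu).1 h5
  have h6 := h2 i.castSucc
  rw [Fin.lastCases_castSucc] at h6
  have h7 : a i ∈ I := by
    have h8 := I.sub_mem h6 (I.mul_mem_right (c i.castSucc) hbI)
    rwa [add_sub_cancel_right] at h8
  rw [← ha i]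
  exact Ideal.mem_map_of_mem _ h7


/-- CHUNK P10 (M/L).  An ideal of finite projective dimension with free conormal module is generated by a
regular sequence (Ferrand, Vasconcelos).
Proof.  Induction on `r` for all `S, I, f`.  `r = 0`: `I = span ∅ = ⊥`, `CI I 0` (`Jx x 0 = ⊥`).
`r + 1`: `I ≠ ⊥` (otherwise `a := Pi.single 0 1` has `∑ a i * f i = f 0 ∈ I = ⊥ ⊆ I ^ 2`, so `1 ∈ I`, contradiction).  `A4_nzd`:
`z ∈ I` regular.  `g : I →ₗ[S] S ⧸ I`, `g (∑ a i * f i) := mk (a (Fin.last r))`, is well defined and linear by `hind`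
(two expressions of `y`: the difference of the coefficient vectors has `∑ .. = 0 ∈ I ^ 2`).  `A6_regular_unit hI z .. g
⟨f (last r), _⟩ 1`: `y' ∈ I` regular in `S` with `g y' = mk 1`.  `y' = ∑ c i * f i` with `c (last r) - 1 ∈ I`, so `c (last r)` is a
unit.  `S' := S ⧸ span {y'}` (Noetherian local: `y'` is in the maximal ideal, `IsLocalRing.of_surjective'`), `I' := I.map mk`,
`f' i := mk (f i.castSucc)` for `i : Fin r`.  `A8_pd_quot y' hy' g 1 isUnit_one ..`: `Qt I'` has finite projective dimension.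
`I' = span (range f')`: `f (last r)` is, up to the unit `c (last r)`, a combination of `y'` and the others.  `I' ≠ ⊤`
(`span {y'} ≤ I ≠ ⊤`).  Independence: `∑ a' i * f' i ∈ I' ^ 2 = (I ^ 2).map mk`, `a' i = mk (a i)`: there are `b` and `w ∈ I ^ 2` with
`∑ a i * f i.castSucc - b * y' = w` (`Ideal.mem_map_iff_of_surjective`, `Ideal.map_pow`); the coefficient vector
`(a i - b * c i)_{i < r}, - b * c (last r)`: by `hind` `b * c (last r) ∈ I`, so `b ∈ I`, and `a i - b * c i ∈ I`, so `a i ∈ I` and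
`a' i ∈ I'`.  The induction hypothesis gives `CI I' r`, and `A10_lift` gives `CI I (r + 1)`. -/
theorem ci_of_indep (r : ℕ) : ∀ (S : Type u) [CommRing S] [IsNoetherianRing S] [IsLocalRing S]
    (I : Ideal S) (_ : I ≠ ⊤) (f : Fin r → S) (_ : Ideal.span (Set.range f) = I)
    (_ : ∀ a : Fin r → S, ∑ i, a i * f i ∈ I ^ 2 → ∀ i, a i ∈ I) (n : ℕ)
    (_ : HasProjectiveDimensionLT (Qt I) n), CI I r := by
  induction r with
  | zero =>
    intro S _ _ _ I hI f hf _ n _
    have h1 : I = ⊥ := by
      rw [← hf, Set.range_eq_empty, Ideal.span_empty]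
    exact ⟨fun _ => 0, fun j hj => absurd hj (Nat.not_lt_zero j), h1.symm⟩
  | succ r ih =>
    intro S _ _ _ I hI f hf hind n hpd
    have hfi : ∀ i, f i ∈ I := fun i => by
      rw [← hf]
      exact Ideal.subset_span ⟨i, rfl⟩
    have h0 : I ≠ ⊥ := by
      intro h0
      have h1 : f 0 = 0 := by
        have := hfi 0
        rw [h0] at this
        exact (Submodule.mem_bot S).1 this
      have h2 := hind (Pi.single 0 1) (by
        rw [p10_single, h1]
        exact Ideal.zero_mem _) 0
      rw [Pi.single_eq_same] at h2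
      exact hI ((Ideal.eq_top_iff_one I).2 h2)
    obtain ⟨z, hzI, hz⟩ := A4_nzd h0 n hpd
    obtain ⟨g, hg⟩ := p10_functional I f hf hind (Fin.last r)
    have hy0 : g ⟨f (Fin.last r), hfi _⟩ = Submodule.Quotient.mk 1 := by
      have h1 := hg ⟨f (Fin.last r), hfi _⟩ (Pi.single (Fin.last r) 1) (by rw [p10_single])
      rwa [Pi.single_eq_same] at h1
    obtain ⟨y, hyreg, hy⟩ := A6_regular_unit hI z hzI hz g ⟨f (Fin.last r), hfi _⟩ 1 hy0
    obtain ⟨n', hn'⟩ := A8_pd_quot y hyreg g 1 isUnit_one hy n hpd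
    obtain ⟨c, hc⟩ : ∃ c : Fin (r + 1) → S, ∑ i, c i * f i = (y : S) := by
      have h1 : (y : S) ∈ Ideal.span (Set.range f) := by
        rw [hf]
        exact y.2
      exact Ideal.mem_span_range_iff_exists_fun.1 h1
    have hcl : c (Fin.last r) - 1 ∈ I := by
      have h1 := hg y c hc.symm
      rw [hy] at h1
      exact (Submodule.Quotient.eq I).1 h1.symm
    have hu : IsUnit (c (Fin.last r)) := by
      by_contra hcon
      have h1 : c (Fin.last r) ∈ maximalIdeal S := (IsLocalRing.mem_maximalIdeal _).2 hcon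
      have h2 : c (Fin.last r) - 1 ∈ maximalIdeal S := IsLocalRing.le_maximalIdeal hI hcl
      have h3 := (maximalIdeal S).sub_mem h1 h2
      rw [sub_sub_cancel] at h3
      exact (Ideal.ne_top_iff_one _).1 (maximalIdeal.isMaximal S).ne_top h3
    have hle : Ideal.span {(y : S)} ≤ I := (Ideal.span_singleton_le_iff_mem I).2 y.2
    have hne : Ideal.span {(y : S)} ≠ ⊤ := fun h1 => hI (top_le_iff.1 (h1 ▸ hle))
    have hnt : Nontrivial (S ⧸ Ideal.span {(y : S)}) := Ideal.Quotient.nontrivial_iff.mpr hne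
    have hloc : IsLocalRing (S ⧸ Ideal.span {(y : S)}) :=
      IsLocalRing.of_surjective' (Ideal.Quotient.mk (Ideal.span {(y : S)}))
        Ideal.Quotient.mk_surjective
    have hI' : I.map (Ideal.Quotient.mk (Ideal.span {(y : S)})) ≠ ⊤ := by
      intro h1
      have h2 : Nontrivial (S ⧸ I) := Ideal.Quotient.nontrivial_iff.mpr hI
      have h3 : Nontrivial ((S ⧸ Ideal.span {(y : S)}) ⧸
          I.map (Ideal.Quotient.mk (Ideal.span {(y : S)}))) :=
        (DoubleQuot.quotQuotEquivQuotOfLE hle).toEquiv.nontrivial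
      exact (Ideal.Quotient.nontrivial_iff.1 h3) h1
    have h4 := ih (S ⧸ Ideal.span {(y : S)}) (I.map (Ideal.Quotient.mk (Ideal.span {(y : S)})))
      hI' (fun i => Ideal.Quotient.mk (Ideal.span {(y : S)}) (f i.castSucc))
      (p10_span I f hf y c hc hu)
      (fun a' ha' i => p10_indep I f hind y c hc hu a' ha' i) n' hn'
    exact A10_lift (y : S) y.2 hyreg h4

end Pool.Agent.H21V
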