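import Pool.Agent.Lib.H21V.F2

set_option autoImplicit false

open CategoryTheory IsLocalRing
open Pool.Agent.Lib.Helper92 Pool.Agent.Lib.H44V

namespace Pool.Agent.H21V
universe u


variable {S : Type u} [CommRing S]

theorem p2_frAt {I : Ideal S} (Q : Ideal S) [Q.IsPrime] (z : S) (hzI : z ∈ I) (hzQ : z ∉ Q) :
    FrAt Q I 1 := by
  have hS : Nontrivial S := by
    refine nontrivial_of_ne (0 : S) 1 fun h => ?_
    apply (inferInstance : Q.IsPrime).ne_top
    rw [Ideal.eq_top_iff_one, ← h]
    exact Q.zero_mem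
  have e1 : Function.Injective (LocalizedModule.map Q.primeCompl (Submodule.subtype I)) :=
    LocalizedModule.map_injective Q.primeCompl _ Subtype.val_injective
  have e2 : Function.Surjective (LocalizedModule.map Q.primeCompl (Submodule.subtype I)) := by
    intro y
    induction y using LocalizedModule.induction_on with
    | h s t =>
      refine ⟨LocalizedModule.mk ⟨z * s, I.mul_mem_right s hzI⟩ (⟨z, hzQ⟩ * t), ?_⟩
      rw [LocalizedModule.map_mk]
      exact LocalizedModule.mk_cancel_common_left ⟨z, hzQ⟩ t s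
  let e := LinearEquiv.ofBijective _ ⟨e1, e2⟩
  have hf : Module.Free (Localization.AtPrime Q) (LocalizedModule Q.primeCompl S) :=
    Module.free_of_isLocalizedModule Q.primeCompl (LocalizedModule.mkLinearMap Q.primeCompl S)
  have h4 := Module.finrank_of_isLocalizedModule_of_free (Localization.AtPrime Q) Q.primeCompl
    (LocalizedModule.mkLinearMap Q.primeCompl S)
  refine ⟨Module.Free.of_equiv e.symm, ?_⟩
  rw [e.finrank_eq, h4, Module.finrank_self]

/-- CHUNK P2 (M).  Ranks.
Proof.  `Q ∈ associatedPrimes S S` (`associatedPrimes.nonempty`), a prime; every element of `Q` is a zero divisor, so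
`z ∉ Q`.  `FrAt Q I 1`: the inclusion `I → S` becomes bijective in the localization at `Q` (`z • S ⊆ I`), and
`(S)_Q ≃ Localization.AtPrime Q`.  `ker_frAt Q F.d2 (d1 : S^n1 → I)` (`F.d1` with codomain `I`, surjective by `F.hr`;
`F.d2` injective by `F.e2` with `n3 = 0`) gives `k + 1 = n1` and `FrAt Q (Fin n2 → S) k`, and
`finrank (Fin n2 → S)_Q = n2` (as in `ker_frAt`), so `k = n2`. -/
theorem rank_eq [IsNoetherianRing S] [Nontrivial S] {I : Ideal S} {n1 n2 : ℕ}
    (F : Res S I n1 n2 0) (z : S) (hzI : z ∈ I) (hz : ∀ a, z * a = 0 → a = 0) : n2 + 1 = n1 := by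
  obtain ⟨Q, hQ⟩ := associatedPrimes.nonempty S S
  have hQp : Q.IsPrime := hQ.isPrime
  have hzQ : z ∉ Q := by
    intro h
    have h1 : z ∈ {r : S | ∃ x : S, x ≠ 0 ∧ r • x = 0} := by
      rw [← biUnion_associatedPrimes_eq_zero_divisors S S]
      exact Set.mem_biUnion hQ h
    obtain ⟨x, hx, hx0⟩ := h1
    exact hx (hz x hx0)
  have hinj : Function.Injective F.d2 := by
    rw [injective_iff_map_eq_zero]
    intro b hb
    obtain ⟨c, hc⟩ := F.e2 b hb
    rw [← hc, Subsingleton.elim c 0, map_zero]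
  obtain ⟨k, hk, hf⟩ := ker_frAt Q F.d2 (F.d1.codRestrict I (fun a => F.hr.le ⟨a, rfl⟩)) hinj
    (fun y => by
      obtain ⟨a, ha⟩ := F.hr.ge y.2
      exact ⟨a, Subtype.ext ha⟩)
    (fun a => by
      constructor
      · intro h
        obtain ⟨b, hb⟩ := F.e1 a (congrArg Subtype.val h)
        exact ⟨b, hb⟩
      · rintro ⟨b, rfl⟩
        exact Subtype.ext (F.z1 b)) (p2_frAt Q z hzI hzQ)
  have h4 := Module.finrank_of_isLocalizedModule_of_free (Localization.AtPrime Q) Q.primeCompl
    (LocalizedModule.mkLinearMap Q.primeCompl (Fin n2 → S))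
  rw [Module.finrank_fin_fun, hf.2] at h4
  omega

end Pool.Agent.H21V
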