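import Pool.Agent.Lib.H21V.P4
import Pool.Agent.Lib.H21V.K7A

set_option autoImplicit false

open CategoryTheory IsLocalRing
open Pool.Agent.Lib.Helper92 Pool.Agent.Lib.H44V

namespace Pool.Agent.H21V
universe u


variable {S : Type u} [CommRing S] {I : Ideal S} {k : ℕ}

/-- CHUNK P6 (S/M).  Depth of `M = F2* / F1*`.
Proof.  The exact sequence `0 → S → F1* → F2* → M → 0` with the maps `l ↦ l • minors F.d2` and `F.d2.dualMap`
(`hom_minors`, `smul_minors`, `minors_comp`).  `F4_coker` twice as in `dp_of_res` (or `dp_of_res` itself with `G3 := PUnit`):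
`K1 := range F.d2.dualMap`: `0 → S → F1* → K1 → 0` gives `Dp K1 (a + 1)`; `0 → K1 → F2* → M → 0` gives `Dp M a`.  `Dp` of the free
modules `F1*`, `F2*`: `F4_pi`. -/
theorem dp_M [IsNoetherianRing S] [IsLocalRing S] (F : Res S I (k + 1) k 0) (z : S) (hzI : z ∈ I)
    (hz : ∀ a, z * a = 0 → a = 0) (a : ℕ) (hS : Dp (ModuleCat.of S S) (a + 2)) :
    Dp (ModuleCat.of S (((Fin k → S) →ₗ[S] S) ⧸ LinearMap.range F.d2.dualMap)) a := by
  have k1 : Dp (ModuleCat.of S (LinearMap.range F.d2.dualMap)) (a + 1) := by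
    refine F4_coker S (LinearMap.toSpanSingleton S _ (minors F.d2)) F.d2.dualMap.rangeRestrict ?_
      F.d2.dualMap.surjective_rangeRestrict ?_ (a + 1) (F4_pi S _ (dp_mono (by omega) hS) _) hS
    · rw [injective_iff_map_eq_zero]
      intro l hl
      exact smul_minors F l hl
    · intro φ
      refine Iff.trans Subtype.ext_iff ?_
      constructor
      · intro h
        obtain ⟨l, hl⟩ := hom_minors F z hzI hz φ h
        exact ⟨l, hl.symm⟩
      · rintro ⟨l, rfl⟩
        refine LinearMap.ext fun c => ?_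
        change l • minors F.d2 (F.d2 c) = 0
        rw [minors_comp, smul_zero]
  refine F4_coker S (LinearMap.range F.d2.dualMap).subtype (LinearMap.range F.d2.dualMap).mkQ
    Subtype.val_injective (Submodule.mkQ_surjective _) ?_ a (F4_pi S _ (dp_mono (by omega) hS) _) k1
  intro y
  rw [Submodule.mkQ_apply, Submodule.Quotient.mk_eq_zero]
  constructor
  · intro h
    exact ⟨⟨y, h⟩, rfl⟩
  · rintro ⟨w, rfl⟩
    exact w.2

end Pool.Agent.H21V
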