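import Pool.Agent.Lib.H21V.P7

set_option autoImplicit false

open CategoryTheory IsLocalRing
open Pool.Agent.Lib.Helper92 Pool.Agent.Lib.H44V

namespace Pool.Agent.H21V
universe u


variable {S : Type u} [CommRing S] {I : Ideal S} {n1 n2 : ℕ}

/-- CHUNK P8 (S/M).  If the cokernel is free then the matrix is zero modulo `I`.
Proof.  `R := S ⧸ I`, `W := range (tr F)`, `M := (Fin n2 → R) ⧸ W` free (projective), so `mkQ` has a section
(`Module.projective_lifting_property`) and `(Fin n2 → R) = W ⊕ M'`; `W` is contained in `m_R • ⊤` (the entries of the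
matrix of `tr F` are in the maximal ideal of `R`: `hF2`).  So `M' ⊔ m_R • ⊤ = ⊤`, `M' = ⊤` by Nakayama
(`Submodule.le_of_le_smul_of_le_jacobson_bot` or `IsLocalRing.`-version), hence `W = ⊥` and `tr F = 0`.  Evaluate
`tr F (Pi.single i 1) j = mk (F.d2 e_j i)` and use linearity in `b`. -/
theorem entries_mem [IsLocalRing S] (hI : I ≠ ⊤) (F : Res S I n1 n2 0)
    (hF2 : ∀ b i, F.d2 b i ∈ maximalIdeal S)
    (hfree : Module.Free (S ⧸ I) ((Fin n2 → S ⧸ I) ⧸ LinearMap.range (tr F))) :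
    ∀ b i, F.d2 b i ∈ I := by
  have hnt : Nontrivial (S ⧸ I) := Ideal.Quotient.nontrivial_iff.2 hI
  have hloc : IsLocalRing (S ⧸ I) := IsLocalRing.of_surjective' (Ideal.Quotient.mk I) Ideal.Quotient.mk_surjective
  have hmk : ∀ x ∈ maximalIdeal S, Ideal.Quotient.mk I x ∈ maximalIdeal (S ⧸ I) := by
    intro x hx
    rw [IsLocalRing.mem_maximalIdeal, mem_nonunits_iff]
    intro hu
    obtain ⟨y', hy'⟩ := hu.exists_right_inv
    obtain ⟨y, rfl⟩ := Ideal.Quotient.mk_surjective y'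
    rw [← map_mul, ← map_one (Ideal.Quotient.mk I), Ideal.Quotient.mk_eq_mk_iff_sub_mem] at hy'
    have h1 : x * y - 1 ∈ maximalIdeal S := IsLocalRing.le_maximalIdeal hI hy'
    have h2 : x * y ∈ maximalIdeal S := Ideal.mul_mem_right _ _ hx
    have h3 : (1 : S) ∈ maximalIdeal S := by
      have := (maximalIdeal S).sub_mem h2 h1
      rwa [sub_sub_cancel] at this
    exact (IsLocalRing.maximalIdeal.isMaximal S).ne_top ((Ideal.eq_top_iff_one _).2 h3)
  have hle : LinearMap.range (tr F) ≤ (maximalIdeal (S ⧸ I)) • (⊤ : Submodule (S ⧸ I) (Fin n2 → S ⧸ I)) := by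
    rintro _ ⟨v, rfl⟩
    have h1 : tr F v = ∑ j, (tr F v j) • (Pi.single j (1 : S ⧸ I) : Fin n2 → S ⧸ I) := by
      ext k
      simp [Finset.sum_apply, Pi.single_apply]
    rw [h1]
    refine Submodule.sum_mem _ fun j _ => Submodule.smul_mem_smul ?_ Submodule.mem_top
    rw [tr_apply]
    exact Ideal.sum_mem _ fun i _ => Ideal.mul_mem_left _ _ (hmk _ (hF2 _ _))
  obtain ⟨σ, hσ⟩ := Module.projective_lifting_property (LinearMap.range (tr F)).mkQ
    (LinearMap.id : ((Fin n2 → S ⧸ I) ⧸ LinearMap.range (tr F)) →ₗ[S ⧸ I] _) (Submodule.mkQ_surjective _)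
  have hσ' : ∀ x, (LinearMap.range (tr F)).mkQ (σ x) = x := fun x => LinearMap.congr_fun hσ x
  obtain ⟨q, hq⟩ : ∃ q : (Fin n2 → S ⧸ I) →ₗ[S ⧸ I] (Fin n2 → S ⧸ I), q = LinearMap.id - σ ∘ₗ (LinearMap.range (tr F)).mkQ :=
    ⟨_, rfl⟩
  have hW : LinearMap.range (tr F) ≤ (maximalIdeal (S ⧸ I)) • LinearMap.range (tr F) := by
    intro w hw
    have h1 : q w = w := by
      have h2 : (LinearMap.range (tr F)).mkQ w = 0 := by
        rw [Submodule.mkQ_apply, Submodule.Quotient.mk_eq_zero]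
        exact hw
      rw [hq, LinearMap.sub_apply, LinearMap.id_apply, LinearMap.comp_apply, h2, map_zero, sub_zero]
    have h3 : w ∈ Submodule.map q
        ((maximalIdeal (S ⧸ I)) • (⊤ : Submodule (S ⧸ I) (Fin n2 → S ⧸ I))) := ⟨w, hle hw, h1⟩
    rw [Submodule.map_smul''] at h3
    refine Submodule.smul_mono le_rfl ?_ h3
    rintro _ ⟨v, _, rfl⟩
    have h4 : (LinearMap.range (tr F)).mkQ (q v) = 0 := by
      rw [hq, LinearMap.sub_apply, LinearMap.id_apply, LinearMap.comp_apply, map_sub, hσ', sub_self]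
    rwa [Submodule.mkQ_apply, Submodule.Quotient.mk_eq_zero] at h4
  have hbot : LinearMap.range (tr F) = ⊥ := by
    refine Submodule.eq_bot_of_le_smul_of_le_jacobson_bot (maximalIdeal (S ⧸ I)) _ ?_ hW ?_
    · exact (Module.Finite.range (tr F)).fg_top |> fun h => (Submodule.fg_top _).1 h
    · exact (IsLocalRing.maximalIdeal_le_jacobson _)
  have hent : ∀ j i, F.d2 (Pi.single j 1) i ∈ I := by
    intro j i
    rw [← Ideal.Quotient.eq_zero_iff_mem]
    have h1 : tr F (Pi.single i 1) = 0 := by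
      have h2 : tr F (Pi.single i 1) ∈ LinearMap.range (tr F) := LinearMap.mem_range_self _ _
      rw [hbot, Submodule.mem_bot] at h2
      exact h2
    have h3 := congrFun h1 j
    rw [tr_apply, Pi.zero_apply, Finset.sum_eq_single i] at h3
    · rwa [Pi.single_eq_same, one_mul] at h3
    · intro k _ hk
      rw [Pi.single_eq_of_ne hk, zero_mul]
    · intro h
      exact absurd (Finset.mem_univ i) h
  intro b i
  have hb : b = ∑ j, b j • (Pi.single j (1 : S) : Fin n2 → S) := by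
    ext k
    simp [Finset.sum_apply, Pi.single_apply]
  rw [hb, map_sum, Finset.sum_apply]
  refine Ideal.sum_mem _ fun j _ => ?_
  rw [map_smul, Pi.smul_apply, smul_eq_mul]
  exact Ideal.mul_mem_left _ _ (hent j i)

/-- CHUNK P8b (S/M).  Then the generators of `I` are independent modulo `I ^ 2`.
Proof.  `F.d1 a ∈ I ^ 2 = I * range F.d1`: `F.d1 a = ∑ l, s l * F.d1 (b l)` with `s l ∈ I`
(`Submodule.mem_ideal_smul_span_iff_exists_sum` for the generators `F.d1 e_i`: `F.d1 a = ∑ i, s i * F.d1 e_i = F.d1 s` with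
`s i ∈ I`), so `a - s = F.d2 b` (`F.e1`), and all coordinates lie in `I`. -/
theorem indep_of_entries (F : Res S I n1 n2 0) (h : ∀ b i, F.d2 b i ∈ I) (a : Fin n1 → S)
    (ha : F.d1 a ∈ I ^ 2) (i : Fin n1) : a i ∈ I := by
  have hle : I ^ 2 ≤ Submodule.map F.d1 (Submodule.pi Set.univ fun _ => I) := by
    rw [sq, Ideal.mul_le]
    intro r hr t ht
    rw [← F.hr] at ht
    obtain ⟨u, rfl⟩ := ht
    refine ⟨r • u, ?_, by rw [map_smul, smul_eq_mul]⟩
    intro k _
    rw [Pi.smul_apply, smul_eq_mul]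
    exact Ideal.mul_mem_right _ _ hr
  obtain ⟨s, hs, hsa⟩ := hle ha
  obtain ⟨b, hb⟩ := F.e1 (a - s) (by rw [map_sub, hsa, sub_self])
  have h1 : a i = s i + F.d2 b i := by
    rw [hb, Pi.sub_apply]
    ring
  rw [h1]
  exact I.add_mem (hs i (Set.mem_univ i)) (h b i)

end Pool.Agent.H21V
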