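import Pool.Agent.Lib.H21V.P0
import Pool.Agent.Lib.H21V.P2
import Pool.Agent.Lib.H21V.P6
import Pool.Agent.Lib.H21V.P8
import Pool.Agent.Lib.H21V.P10
import Pool.Agent.Lib.H21V.J1
import Pool.Agent.Lib.H21V.Z4
import Pool.Agent.Lib.H44V.D2

set_option autoImplicit false

/-!
H21V: assembly of the case of projective dimension at most two.
-/

open CategoryTheory IsLocalRing
open Pool.Agent.Lib.Helper92 Pool.Agent.Lib.H44V

namespace Pool.Agent.H21V
universe u

variable {S : Type u} [CommRing S]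

theorem m2_ci [IsNoetherianRing S] [IsLocalRing S] {I : Ideal S} (hI : I ≠ ⊤) {n1 n2 : ℕ}
    (F : Res S I n1 n2 0) (h : ∀ b i, F.d2 b i ∈ I) (n : ℕ)
    (hpd : HasProjectiveDimensionLT (Qt I) n) : CI I n1 := by
  have hd1 : ∀ a, F.d1 a = ∑ i, a i * F.d1 (Pi.single i 1) := by
    intro a
    conv_lhs => rw [← Finset.univ_sum_single a]
    rw [map_sum]
    refine Finset.sum_congr rfl fun i _ => ?_
    rw [← smul_eq_mul, ← map_smul, ← Pi.single_smul, smul_eq_mul, mul_one]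
  refine ci_of_indep n1 S I hI (fun i => F.d1 (Pi.single i 1)) ?_ ?_ n hpd
  · refine le_antisymm (Ideal.span_le.mpr ?_) ?_
    · rintro _ ⟨i, rfl⟩
      exact F.hr.le ⟨_, rfl⟩
    · intro y hy
      obtain ⟨a, rfl⟩ : y ∈ LinearMap.range F.d1 := F.hr.ge hy
      rw [hd1 a]
      exact Ideal.sum_mem _ fun i _ => Ideal.mul_mem_left _ _ (Ideal.subset_span ⟨i, rfl⟩)
  · intro a ha i
    rw [← hd1 a] at ha
    exact indep_of_entries F h a ha i

/-- Projective dimension at most two. -/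
theorem main2 [IsNoetherianRing S] [IsLocalRing S] {I : Ideal S} (hI : I ≠ ⊤)
    (hpd : HasProjectiveDimensionLT (Qt I) 3) (n : ℕ)
    (hN : HasProjectiveDimensionLT (ModuleCat.of (S ⧸ I) (NM I)) n) : ∃ r, CI I r := by
  have hnt : Nontrivial (S ⧸ I) := Ideal.Quotient.nontrivial_iff.mpr hI
  have hlr : IsLocalRing (S ⧸ I) := IsLocalRing.of_surjective' _ Ideal.Quotient.mk_surjective
  by_cases h0 : I = ⊥
  · exact ⟨0, 0, by simp, h0.symm⟩
  by_cases hpd2 : HasProjectiveDimensionLT (Qt I) 2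
  · obtain ⟨n1, ⟨F⟩⟩ := exists_res1 hpd2
    refine ⟨n1, m2_ci hI F (fun b i => ?_) _ hpd⟩
    rw [Subsingleton.elim b 0, map_zero]
    exact I.zero_mem
  obtain ⟨z, hzI, hz⟩ := A4_nzd h0 _ hpd
  have hz' : ∀ a, z * a = 0 → a = 0 := by
    intro a ha
    exact hz (by simpa using ha)
  obtain ⟨n1, n2, F, hF2⟩ := exists_min_res2 hpd
  obtain rfl := rank_eq F z hzI hz'
  obtain ⟨t, ht, ht'⟩ := exists_depth hI
  have hS : Dp (ModuleCat.of S S) (2 + t) := D2_ab 2 (S ⧸ I) hpd hpd2 t ht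
  have hM := dp_M F z hzI hz' t (by rw [add_comm]; exact hS)
  obtain ⟨e⟩ := tr_coker F
  have hM' : Dp (ModuleCat.of S ((Fin n2 → S ⧸ I) ⧸ LinearMap.range (tr F))) t :=
    fun j hj => D2_iso e.toModuleIso j (hM j hj)
  obtain ⟨ι, hι, hex⟩ := tr_exact F
  have hpdM := pd_four ι (tr F) (LinearMap.range (tr F)).mkQ hι hex
    (LinearMap.exact_map_mkQ_range _) (Submodule.mkQ_surjective _) n hN
  have hfree := free_of_dp hI _ t hM' ht ht' _ hpdM
  exact ⟨n2 + 1, m2_ci hI F (entries_mem hI F hF2 hfree) _ hpd⟩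

end Pool.Agent.H21V
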