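import Pool.Agent.Lib.H21V.DL
import Pool.Agent.Lib.Helper92.FiniteToFree

set_option autoImplicit false

open CategoryTheory IsLocalRing
open Pool.Agent.Lib.Helper92 Pool.Agent.Lib.H44V

namespace Pool.Agent.H21V
universe u


variable {S : Type u} [CommRing S]

/- CHUNK P0 (M, two lemmas).  Resolutions of length two and one (written as `Res` with `n3 = 0`). -/

/-- Proof.  As `H0` (exists_min_res): `exists_minimal_presentation` for `I` gives `f1 : (Fin n1 → S) → I` with kernel `K1`
in the maximal ideal; `K1` is projective (`hasProjectiveDimensionLT_X₃_iff` for `sesI_exact I` and for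
`0 → K1 → S^n1 → I → 0`), finite, so free: `b : Basis (Fin n2) S K1`.  `d1 := I.subtype ∘ f1`,
`d2 := K1.subtype ∘ b.equivFun.symm` (injective), `d3 := 0`. -/
theorem exists_min_res2 [IsNoetherianRing S] [IsLocalRing S] {I : Ideal S}
    (hpd : HasProjectiveDimensionLT (Qt I) 3) :
    ∃ (n1 n2 : ℕ) (F : Res S I n1 n2 0), ∀ b i, F.d2 b i ∈ maximalIdeal S := by
  have hS : Projective (ModuleCat.of S S) := (IsProjective.iff_projective (R := S) S).mp inferInstance
  have hI : HasProjectiveDimensionLT (ModuleCat.of S I) 2 :=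
    ((sesI_exact I).hasProjectiveDimensionLT_X₃_iff 1 hS).mp hpd
  obtain ⟨n1, f1, hf1, hm1⟩ := exists_minimal_presentation (R := S) I
  have hK1 : HasProjectiveDimensionLT (ModuleCat.of S (LinearMap.ker f1)) 1 :=
    ((LinearMap.shortExact_shortComplexKer hf1).hasProjectiveDimensionLT_X₃_iff 0 inferInstance).mp hI
  have h1 : Projective (ModuleCat.of S (LinearMap.ker f1)) :=
    projective_iff_hasProjectiveDimensionLT_one.mpr hK1
  have h2 : Module.Projective S (LinearMap.ker f1) := (IsProjective.iff_projective (R := S) _).mpr h1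
  have h3 : Module.Free S (LinearMap.ker f1) := Module.free_of_flat_of_isLocalRing
  let b := Module.finBasis S (LinearMap.ker f1)
  refine ⟨n1, Module.finrank S (LinearMap.ker f1),
    ⟨I.subtype ∘ₗ f1, (LinearMap.ker f1).subtype ∘ₗ b.equivFun.symm.toLinearMap, 0, ?_, ?_, ?_, ?_, ?_, ?_⟩, ?_⟩
  · rw [LinearMap.range_comp, LinearMap.range_eq_top.2 hf1, Submodule.map_top, Submodule.range_subtype]
  · intro v
    change ((f1 (b.equivFun.symm v).1 : I) : S) = 0
    rw [(b.equivFun.symm v).2]
    rfl
  · intro v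
    rw [LinearMap.zero_apply, map_zero]
  · intro a ha
    have ha' : f1 a = 0 := Subtype.ext ha
    refine ⟨b.equivFun ⟨a, ha'⟩, ?_⟩
    change ((b.equivFun.symm (b.equivFun ⟨a, ha'⟩)) : Fin n1 → S) = a
    rw [LinearEquiv.symm_apply_apply]
  · intro c hc
    have hc' : b.equivFun.symm c = 0 := Subtype.ext hc
    refine ⟨0, ?_⟩
    rw [map_zero]
    exact ((LinearEquiv.map_eq_zero_iff _).1 hc').symm
  · intro c _
    exact Subsingleton.elim _ _
  · intro v i
    exact hm1 _ (b.equivFun.symm v).2 i

/-- Proof.  `I` itself is projective (`hasProjectiveDimensionLT_X₃_iff` for `sesI_exact I`), finite, so free: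
`b : Basis (Fin n1) S I`; `d1 := I.subtype ∘ b.equivFun.symm` is injective. -/
theorem exists_res1 [IsNoetherianRing S] [IsLocalRing S] {I : Ideal S}
    (hpd : HasProjectiveDimensionLT (Qt I) 2) : ∃ n1, Nonempty (Res S I n1 0 0) := by
  have hS : Projective (ModuleCat.of S S) := (IsProjective.iff_projective (R := S) S).mp inferInstance
  have hI : HasProjectiveDimensionLT (ModuleCat.of S I) 1 :=
    ((sesI_exact I).hasProjectiveDimensionLT_X₃_iff 0 hS).mp hpd
  have h1 : Projective (ModuleCat.of S I) := projective_iff_hasProjectiveDimensionLT_one.mpr hI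
  have h2 : Module.Projective S I := (IsProjective.iff_projective (R := S) _).mpr h1
  have h3 : Module.Free S I := Module.free_of_flat_of_isLocalRing
  let b := Module.finBasis S I
  refine ⟨Module.finrank S I,
    ⟨⟨I.subtype ∘ₗ b.equivFun.symm.toLinearMap, 0, 0, ?_, ?_, ?_, ?_, ?_, ?_⟩⟩⟩
  · rw [LinearMap.range_comp, LinearEquiv.range, Submodule.map_top, Submodule.range_subtype]
  · intro v
    rw [LinearMap.zero_apply, map_zero]
  · intro v
    rw [LinearMap.zero_apply]
  · intro a ha
    have ha' : b.equivFun.symm a = 0 := Subtype.ext ha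
    refine ⟨0, ?_⟩
    rw [map_zero]
    exact ((LinearEquiv.map_eq_zero_iff _).1 ha').symm
  · intro c _
    exact ⟨0, Subsingleton.elim _ _⟩
  · intro c _
    exact Subsingleton.elim _ _

end Pool.Agent.H21V
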