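import Pool.Agent.Lib.H21V.DL

set_option autoImplicit false

open CategoryTheory IsLocalRing
open Pool.Agent.Lib.Helper92 Pool.Agent.Lib.H44V

namespace Pool.Agent.H21V
universe u


variable {R : Type u} [CommRing R]

/-- the extension by zero -/
def p1_ext (R : Type u) [CommRing R] (k : ℕ) : (Fin k → R) →ₗ[R] (Fin (k + 1) → R) where
  toFun w := Fin.snoc (α := fun _ => R) w 0
  map_add' a b := by
    funext j
    refine Fin.lastCases ?_ (fun i => ?_) j
    · simp
    · simp
  map_smul' c b := by
    funext j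
    refine Fin.lastCases ?_ (fun i => ?_) j
    · simp
    · simp

theorem p1_ext_single {k : ℕ} (j : Fin k) :
    p1_ext R k (Pi.single j 1) = Pi.single (Fin.castSucc j) 1 := by
  funext i
  refine Fin.lastCases ?_ (fun i => ?_) i
  · have h : Fin.last k ≠ Fin.castSucc j := (Fin.castSucc_lt_last j).ne'
    rw [Pi.single_eq_of_ne h]
    exact Fin.snoc_last (α := fun _ => R) _ _
  · have h1 : p1_ext R k (Pi.single j 1) (Fin.castSucc i) = (Pi.single j 1 : Fin k → R) i :=
      Fin.snoc_castSucc (α := fun _ => R) _ _ _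
    rw [h1, Pi.single_apply, Pi.single_apply]
    simp only [Fin.castSucc_inj]

theorem p1_ext_inj (k : ℕ) : Function.Injective (p1_ext R k) := by
  intro a b h
  funext i
  have h1 := congrFun h (Fin.castSucc i)
  have h2 : ∀ c : Fin k → R, p1_ext R k c (Fin.castSucc i) = c i :=
    fun c => Fin.snoc_castSucc (α := fun _ => R) _ _ _
  rwa [h2, h2] at h1

theorem p1_sum {k : ℕ} {N : Type*} [AddCommGroup N] [Module R N] (g : (Fin k → R) →ₗ[R] N)
    (w : Fin k → R) : g w = ∑ j, w j • g (Pi.single j 1) := by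
  conv_lhs => rw [← (Pi.basisFun R (Fin k)).sum_repr w]
  rw [map_sum]
  refine Finset.sum_congr rfl fun j _ => ?_
  rw [map_smul, Pi.basisFun_repr, Pi.basisFun_apply]

/-- CHUNK P1 (M).  McCoy's theorem for injective maps.
Proof.  Induction on `k` for all `φ`.  `k = 0`: the empty determinant is 1.  `k + 1`: `φ' w := φ (Fin.snoc w 0)` is injective;
the induction hypothesis gives `A' : Fin k → Fin n` with `c * det (fun i j => φ' e_j (A' i)) ≠ 0`.  Let
`v j := c * ((-1) ^ (k + j) * det (fun (i l : Fin k) => φ (Pi.single (j.succAbove l) 1) (A' i)))`.  `v (Fin.last k)` is the number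
`c * det ..` of the induction hypothesis, so `v ≠ 0` and `φ v ≠ 0`: `(φ v) i ≠ 0` for some `i`.  With `A := Fin.snoc A' i`,
expansion of the determinant in the last row (`Matrix.det_succ_row _ (Fin.last k)`) gives
`(φ v) i = ∑ j, v j * φ e_j i = c * det (fun i j => φ e_j (A i))`. -/
theorem mccoy {n : ℕ} (k : ℕ) : ∀ (φ : (Fin k → R) →ₗ[R] (Fin n → R)) (_ : Function.Injective φ)
    (c : R) (_ : c ≠ 0), ∃ A : Fin k → Fin n,
      c * Matrix.det (Matrix.of fun (i j : Fin k) => φ (Pi.single j 1) (A i)) ≠ 0 := by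
  induction k with
  | zero =>
    intro φ _ c hc
    refine ⟨Fin.elim0, ?_⟩
    rw [Matrix.det_fin_zero, mul_one]
    exact hc
  | succ k ih =>
    intro φ hφ c hc
    obtain ⟨A', hA'⟩ := ih (φ ∘ₗ p1_ext R k) (hφ.comp (p1_ext_inj k)) c hc
    let v : Fin (k + 1) → R := fun j => c * ((-1) ^ (k + (j : ℕ)) *
      Matrix.det (Matrix.of fun (i l : Fin k) => φ (Pi.single (j.succAbove l) 1) (A' i)))
    have hv : v (Fin.last k) ≠ 0 := by
      have e : v (Fin.last k) = c * Matrix.det
          (Matrix.of fun (i j : Fin k) => (φ ∘ₗ p1_ext R k) (Pi.single j 1) (A' i)) := by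
        have e1 : ((-1 : R)) ^ (k + ((Fin.last k : Fin (k + 1)) : ℕ)) = 1 := by
          rw [Fin.val_last, ← two_mul, pow_mul, neg_one_sq, one_pow]
        change c * ((-1) ^ (k + ((Fin.last k : Fin (k + 1)) : ℕ)) * _) = _
        rw [e1, one_mul]
        congr 2
        ext i l
        rw [Matrix.of_apply, Matrix.of_apply, LinearMap.comp_apply, p1_ext_single,
          Fin.succAbove_last]
      rw [e]
      exact hA'
    have hφv : φ v ≠ 0 := by
      intro h0
      have h1 : v = 0 := hφ (by rw [h0, map_zero])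
      exact hv (congrFun h1 _)
    obtain ⟨i, hi⟩ := Function.ne_iff.1 hφv
    refine ⟨Fin.snoc (α := fun _ => Fin n) A' i, ?_⟩
    have e : c * Matrix.det (Matrix.of fun (i' j : Fin (k + 1)) =>
        φ (Pi.single j 1) ((Fin.snoc (α := fun _ => Fin n) A' i : Fin (k + 1) → Fin n) i')) = φ v i := by
      rw [Matrix.det_succ_row _ (Fin.last k), Finset.mul_sum, p1_sum φ v, Finset.sum_apply]
      refine Finset.sum_congr rfl fun j _ => ?_
      have e2 : (Matrix.of fun (i' j : Fin (k + 1)) => φ (Pi.single j 1)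
          ((Fin.snoc (α := fun _ => Fin n) A' i : Fin (k + 1) → Fin n) i')).submatrix
            (Fin.last k).succAbove j.succAbove =
          Matrix.of fun (i' l : Fin k) => φ (Pi.single (j.succAbove l) 1) (A' i') := by
        ext i' l
        rw [Matrix.submatrix_apply, Matrix.of_apply, Matrix.of_apply, Fin.succAbove_last,
          Fin.snoc_castSucc]
      rw [e2, Matrix.of_apply, Fin.snoc_last, Pi.smul_apply, smul_eq_mul, Fin.val_last]
      change _ = c * ((-1) ^ (k + (j : ℕ)) * _) * _
      ring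
    rw [e]
    exact hi

/-- CHUNK P1b (S/M).  The functional of the maximal minors: `Δ a = det (φ e_0, …, φ e_{k-1}, a)` (rows). -/
noncomputable def minors {k : ℕ} (φ : (Fin k → R) →ₗ[R] (Fin (k + 1) → R)) :
    (Fin (k + 1) → R) →ₗ[R] R :=
  (Matrix.detRowAlternating (R := R) (n := Fin (k + 1))).toMultilinearMap.toLinearMap
    (Fin.snoc (fun j => φ (Pi.single j 1)) 0) (Fin.last k)

theorem p1_minors {k : ℕ} (φ : (Fin k → R) →ₗ[R] (Fin (k + 1) → R)) (a : Fin (k + 1) → R) :
    minors φ a = Matrix.det (Matrix.of (Fin.snoc (α := fun _ => Fin (k + 1) → R)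
      (fun j => φ (Pi.single j 1)) a)) := by
  unfold minors
  rw [MultilinearMap.toLinearMap_apply, Fin.update_snoc_last]
  rfl

/-- Proof.  `A` from `mccoy` is injective (otherwise two rows are equal and the determinant is 0), so there is
`i₀ ∉ range A`; `a := Pi.single i₀ 1`.  The matrix with rows `φ e_0, …, φ e_{k-1}, a`, its columns permuted by
`σ := Fin.snoc A i₀` (a bijection), is the block matrix with blocks `φ e_j (A i)` and `1`, last row `(0, …, 0, 1)`:
its determinant is the minor (up to transposition), so `minors φ a = ± minor` (`Matrix.det_permute'`,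
`Matrix.det_succ_row`). -/
theorem minors_ne {k : ℕ} (φ : (Fin k → R) →ₗ[R] (Fin (k + 1) → R)) (hφ : Function.Injective φ)
    (c : R) (hc : c ≠ 0) : ∃ a, c * minors φ a ≠ 0 := by
  obtain ⟨A, hA⟩ := mccoy k φ hφ c hc
  have hAi : Function.Injective A := by
    intro i j hij
    by_contra hne
    apply hA
    rw [Matrix.det_zero_of_row_eq hne (by funext l; rw [Matrix.of_apply, Matrix.of_apply, hij]),
      mul_zero]
  obtain ⟨i₀, hi₀⟩ : ∃ i₀, i₀ ∉ Set.range A := by
    by_contra hcon
    push Not at hcon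
    have h1 := Fintype.card_le_of_surjective A hcon
    rw [Fintype.card_fin, Fintype.card_fin] at h1
    omega
  have hσi : Function.Injective (Fin.snoc (α := fun _ => Fin (k + 1)) A i₀ : Fin (k + 1) → Fin (k + 1)) := by
    intro i j
    refine Fin.lastCases ?_ (fun i => ?_) i <;> refine Fin.lastCases ?_ (fun j => ?_) j
    · intro _; rfl
    · rw [Fin.snoc_last, Fin.snoc_castSucc]
      intro h
      exact absurd ⟨j, h.symm⟩ hi₀
    · rw [Fin.snoc_last, Fin.snoc_castSucc]
      intro h
      exact absurd ⟨i, h⟩ hi₀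
    · rw [Fin.snoc_castSucc, Fin.snoc_castSucc]
      intro h
      rw [hAi h]
  let σ : Equiv.Perm (Fin (k + 1)) := Equiv.ofBijective _ (Finite.injective_iff_bijective.1 hσi)
  have hσl : σ (Fin.last k) = i₀ := Fin.snoc_last (α := fun _ => Fin (k + 1)) _ _
  have hσc : ∀ i : Fin k, σ (Fin.castSucc i) = A i :=
    fun i => Fin.snoc_castSucc (α := fun _ => Fin (k + 1)) _ _ _
  refine ⟨Pi.single i₀ 1, ?_⟩
  intro h0
  apply hA
  have e1 := Matrix.det_permute' σ (Matrix.of (Fin.snoc (α := fun _ => Fin (k + 1) → R)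
      (fun j => φ (Pi.single j 1)) (Pi.single i₀ 1)))
  rw [← p1_minors] at e1
  have e2 : ((Matrix.of (Fin.snoc (α := fun _ => Fin (k + 1) → R)
      (fun j => φ (Pi.single j 1)) (Pi.single i₀ 1))).submatrix id σ).det =
      Matrix.det (Matrix.of fun (i j : Fin k) => φ (Pi.single j 1) (A i)) := by
    rw [Matrix.det_succ_row _ (Fin.last k), Finset.sum_eq_single (Fin.last k)]
    · rw [← Matrix.det_transpose (Matrix.of fun (i j : Fin k) => φ (Pi.single j 1) (A i)),
        Matrix.submatrix_apply, id, hσl, Matrix.of_apply, Fin.snoc_last, Pi.single_eq_same, mul_one,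
        Fin.val_last, ← two_mul, pow_mul, neg_one_sq, one_pow, one_mul]
      congr 1
      ext i j
      rw [Matrix.submatrix_apply, Matrix.submatrix_apply, id, Fin.succAbove_last, hσc,
        Matrix.of_apply, Fin.snoc_castSucc, Matrix.transpose_apply, Matrix.of_apply]
    · intro j _ hj
      have h1 : σ j ≠ i₀ := fun h => hj (σ.injective (h.trans hσl.symm))
      rw [Matrix.submatrix_apply, id, Matrix.of_apply, Fin.snoc_last, Pi.single_eq_of_ne h1,
        mul_zero, zero_mul]
    · intro h
      exact absurd (Finset.mem_univ _) h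
  rw [← e2, e1]
  calc c * ((((Equiv.Perm.sign σ : ℤˣ) : ℤ) : R) * minors φ (Pi.single i₀ 1))
      = (((Equiv.Perm.sign σ : ℤˣ) : ℤ) : R) * (c * minors φ (Pi.single i₀ 1)) := by ring
    _ = 0 := by rw [h0, mul_zero]

/-- Proof.  Linear in the argument; on `φ e_j` two rows are equal. -/
theorem minors_comp {k : ℕ} (φ : (Fin k → R) →ₗ[R] (Fin (k + 1) → R)) (b : Fin k → R) :
    minors φ (φ b) = 0 := by
  have h : ∀ j, minors φ (φ (Pi.single j 1)) = 0 := by
    intro j
    rw [p1_minors]
    apply Matrix.det_zero_of_row_eq (i := Fin.castSucc j) (j := Fin.last k)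
      (Fin.castSucc_lt_last j).ne
    funext i
    rw [Matrix.of_apply, Matrix.of_apply, Fin.snoc_castSucc, Fin.snoc_last]
  have h2 := p1_sum (minors φ ∘ₗ φ) b
  rw [LinearMap.comp_apply] at h2
  rw [h2]
  exact Finset.sum_eq_zero fun j _ => by rw [LinearMap.comp_apply, h, smul_zero]

/-- Proof.  The determinant commutes with ring homomorphisms (`RingHom.map_det`). -/
theorem minors_map {R' : Type u} [CommRing R'] (ι : R →+* R') {k : ℕ}
    (φ : (Fin k → R) →ₗ[R] (Fin (k + 1) → R)) (φ' : (Fin k → R') →ₗ[R'] (Fin (k + 1) → R'))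
    (h : ∀ j i, φ' (Pi.single j 1) i = ι (φ (Pi.single j 1) i)) (a : Fin (k + 1) → R) :
    minors φ' (fun i => ι (a i)) = ι (minors φ a) := by
  rw [p1_minors, p1_minors, RingHom.map_det]
  congr 1
  ext i j
  rw [RingHom.mapMatrix_apply, Matrix.map_apply, Matrix.of_apply, Matrix.of_apply]
  refine Fin.lastCases ?_ (fun i => ?_) i
  · rw [Fin.snoc_last, Fin.snoc_last]
  · rw [Fin.snoc_castSucc, Fin.snoc_castSucc, h]

end Pool.Agent.H21V
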