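import Pool.Agent.Lib.H21V.P1
import Pool.Agent.Lib.H21V.E1

set_option autoImplicit false

open CategoryTheory IsLocalRing
open Pool.Agent.Lib.Helper92 Pool.Agent.Lib.H44V

namespace Pool.Agent.H21V
universe u


variable {S : Type u} [CommRing S] {I : Ideal S} {k : ℕ}

/-- CHUNK P4a (S/M).  An ideal of a Noetherian ring with zero annihilator contains a non-zero-divisor.
Proof.  Otherwise `J ⊆ ⋃ associatedPrimes R R` (`biUnion_associatedPrimes_eq_zero_divisors` or
`biUnion_associatedPrimes_eq_compl_regular`), so `J ≤ p` for an associated prime `p`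
(`Ideal.subset_union_prime_finite`, `associatedPrimes.finite`), the annihilator of some `c ≠ 0`; `c * y = 0` on `J`. -/
theorem exists_nzd {R : Type u} [CommRing R] [IsNoetherianRing R] (J : Ideal R)
    (h : ∀ c : R, c ≠ 0 → ∃ y ∈ J, c * y ≠ 0) : ∃ y ∈ J, ∀ a, y * a = 0 → a = 0 := by
  by_contra hcon
  push Not at hcon
  have h1 : (J : Set R) ⊆ ⋃ p ∈ associatedPrimes R R, (p : Set R) := by
    intro y hy
    rw [biUnion_associatedPrimes_eq_zero_divisors R R]
    obtain ⟨a, h2, h3⟩ := hcon y hy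
    exact ⟨a, h3, h2⟩
  obtain ⟨p, hp, hJ⟩ := (Ideal.subset_union_prime_finite (associatedPrimes.finite R R) (f := fun p => p) ⊥ ⊥
    (fun p hp _ _ => IsAssociatedPrime.isPrime hp)).1 h1
  obtain ⟨hpp, x, hx⟩ := isAssociatedPrime_iff.1 hp
  have hmem : ∀ r, r ∈ p ↔ r * x = 0 := by
    intro r
    rw [hx, Submodule.mem_colon_singleton, Submodule.mem_bot, smul_eq_mul]
  have hx0 : x ≠ 0 := by
    intro h0
    apply hpp.ne_top
    rw [Ideal.eq_top_iff_one, hmem, h0, mul_zero]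
  obtain ⟨y, hy, hy0⟩ := h x hx0
  apply hy0
  rw [mul_comm]
  exact (hmem y).1 (hJ hy)

theorem p4_sum {R : Type u} [CommRing R] {k : ℕ} {N : Type*} [AddCommGroup N] [Module R N]
    (g : (Fin k → R) →ₗ[R] N) (w : Fin k → R) : g w = ∑ j, w j • g (Pi.single j 1) := by
  conv_lhs => rw [← (Pi.basisFun R (Fin k)).sum_repr w]
  rw [map_sum]
  refine Finset.sum_congr rfl fun j _ => ?_
  rw [map_smul, Pi.basisFun_repr, Pi.basisFun_apply]

theorem p4_inj (F : Res S I (k + 1) k 0) : Function.Injective F.d2 := by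
  rw [injective_iff_map_eq_zero]
  intro b hb
  obtain ⟨c, hc⟩ := F.e2 b hb
  rw [← hc, Subsingleton.elim c 0, map_zero]

/-- CHUNK P4b (M).  The minors of a resolution of length two contain a regular pair.
Proof.  `J := LinearMap.range (minors F.d2)` (an ideal).  `F.d2` is injective (`F.e2`, `n3 = 0`), so `minors_ne` and
`exists_nzd` give `y₁ = minors F.d2 a₁`.  `R' := S ⧸ span {y₁}`, `ι := mk`,
`φ' := Matrix.toLin' (the matrix of F.d2 mapped by ι)`.  `φ'` is injective: `φ' (ι ∘ v) = 0` says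
`F.d2 v = y₁ • u`; `F.d1 (y₁ • u) = 0`, so `F.d1 u = 0` (`y₁` regular), `u = F.d2 v'` (`F.e1`), `F.d2 (v - y₁ • v') = 0`,
`v = y₁ • v'`, so `ι ∘ v = 0`.  `minors_ne` for `φ'` and `minors_map` (every vector over `R'` is `ι ∘ a`): the ideal
`J.map ι` has zero annihilator, so it contains a non-zero-divisor `ι (minors F.d2 a₂)` (`Ideal.mem_map_iff_of_surjective`):
`y₂ := minors F.d2 a₂`; `y₂ * a = y₁ * b` gives `ι y₂ * ι a = 0`, `ι a = 0`, `a ∈ span {y₁}`. -/
theorem minors_pair [IsNoetherianRing S] (F : Res S I (k + 1) k 0) :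
    ∃ a₁ a₂, RegPair (minors F.d2 a₁) (minors F.d2 a₂) := by
  obtain ⟨y₁, ⟨a₁, rfl⟩, hy₁⟩ := exists_nzd (LinearMap.range (minors F.d2)) (fun c hc => by
    obtain ⟨a, ha⟩ := minors_ne F.d2 (p4_inj F) c hc
    exact ⟨_, ⟨a, rfl⟩, ha⟩)
  obtain ⟨y₁, hy⟩ : ∃ y, y = minors F.d2 a₁ := ⟨_, rfl⟩
  rw [← hy] at hy₁
  let ι : S →+* S ⧸ Ideal.span {y₁} := Ideal.Quotient.mk _
  have hι : Function.Surjective ι := Ideal.Quotient.mk_surjective
  have hι0 : ∀ s, ι s = 0 → ∃ c, s = y₁ * c := by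
    intro s hs
    exact Ideal.mem_span_singleton.1 (Ideal.Quotient.eq_zero_iff_mem.1 hs)
  have hιy : ι y₁ = 0 := Ideal.Quotient.eq_zero_iff_mem.2 (Ideal.mem_span_singleton_self _)
  let φ' : (Fin k → S ⧸ Ideal.span {y₁}) →ₗ[S ⧸ Ideal.span {y₁}] (Fin (k + 1) → S ⧸ Ideal.span {y₁}) :=
    Matrix.mulVecLin (Matrix.of fun i j => ι (F.d2 (Pi.single j 1) i))
  have hφ1 : ∀ (v : Fin k → S) (i : Fin (k + 1)), φ' (fun j => ι (v j)) i = ι (F.d2 v i) := by
    intro v i
    rw [p4_sum F.d2 v, Finset.sum_apply, map_sum]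
    change ∑ j, ι (F.d2 (Pi.single j 1) i) * ι (v j) = _
    refine Finset.sum_congr rfl fun j _ => ?_
    rw [Pi.smul_apply, smul_eq_mul, map_mul, mul_comm]
  have hφ2 : ∀ (j : Fin k) (i : Fin (k + 1)), φ' (Pi.single j 1) i = ι (F.d2 (Pi.single j 1) i) := by
    intro j i
    have e : (Pi.single j 1 : Fin k → S ⧸ Ideal.span {y₁}) =
        fun l => ι ((Pi.single j 1 : Fin k → S) l) := by
      funext l
      rw [Pi.single_apply, Pi.single_apply]
      split_ifs
      · rw [map_one]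
      · rw [map_zero]
    rw [e, hφ1]
  have hinj : Function.Injective φ' := by
    rw [injective_iff_map_eq_zero]
    intro w hw
    choose v hv using fun j => hι (w j)
    have hw' : w = fun j => ι (v j) := funext fun j => (hv j).symm
    rw [hw'] at hw
    have h1 : ∀ i, ∃ c, F.d2 v i = y₁ * c := fun i => hι0 _ (by rw [← hφ1, hw]; rfl)
    choose u hu using h1
    have h2 : F.d2 v = y₁ • u := funext fun i => hu i
    have h3 : F.d1 u = 0 := by
      apply hy₁
      have h4 := F.z1 v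
      rwa [h2, map_smul, smul_eq_mul] at h4
    obtain ⟨v', hv'⟩ := F.e1 u h3
    have h5 : v = y₁ • v' := by
      apply p4_inj F
      rw [h2, map_smul, hv']
    rw [hw']
    funext j
    rw [h5, Pi.smul_apply, smul_eq_mul, map_mul, hιy, zero_mul]
    rfl
  obtain ⟨y', hy', hn⟩ := exists_nzd (Ideal.map ι (LinearMap.range (minors F.d2))) (fun c hc => by
    obtain ⟨a', ha'⟩ := minors_ne φ' hinj c hc
    choose a ha using fun j => hι (a' j)
    have ha2 : a' = fun j => ι (a j) := funext fun j => (ha j).symm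
    rw [ha2, minors_map ι F.d2 φ' hφ2] at ha'
    exact ⟨_, Ideal.mem_map_of_mem ι (LinearMap.mem_range_self (minors F.d2) a), ha'⟩)
  obtain ⟨y₂, ⟨a₂, rfl⟩, rfl⟩ := (Ideal.mem_map_iff_of_surjective ι hι).1 hy'
  refine ⟨a₁, a₂, ?_⟩
  rw [← hy]
  refine ⟨hy₁, fun a b hab => hι0 a (hn _ ?_)⟩
  rw [← map_mul, hab, map_mul, hιy, zero_mul]

/-- CHUNK P4c (S/M).  `Hom(I, S)` is generated by the minors.
Proof.  `z = F.d1 e`.  For `v`: `F.d1 (z • v - F.d1 v • e) = 0`, so `z • v - F.d1 v • e = F.d2 b` (`F.e1`), hence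
`z * φ v = F.d1 v * φ e` and `z * Δ v = F.d1 v * Δ e` (`minors_comp`).  So
`z * z * (φ v * Δ w - φ w * Δ v) = 0`, i.e. `φ v * Δ w = φ w * Δ v`.  `gen Δ φ` (E1) with `minors_pair`. -/
theorem hom_minors [IsNoetherianRing S] (F : Res S I (k + 1) k 0) (z : S) (hzI : z ∈ I)
    (hz : ∀ a, z * a = 0 → a = 0) (φ : (Fin (k + 1) → S) →ₗ[S] S) (hφ : φ ∘ₗ F.d2 = 0) :
    ∃ l : S, φ = l • minors F.d2 := by
  obtain ⟨e, he⟩ := F.hr.ge hzI
  have key : ∀ (ψ : (Fin (k + 1) → S) →ₗ[S] S), (∀ b, ψ (F.d2 b) = 0) → ∀ v, z * ψ v = F.d1 v * ψ e := by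
    intro ψ hψ v
    obtain ⟨b, hb⟩ := F.e1 (z • v - F.d1 v • e) (by
      rw [map_sub, map_smul, map_smul, he, smul_eq_mul, smul_eq_mul, mul_comm, sub_self])
    have h1 := hψ b
    rw [hb, map_sub, map_smul, map_smul, sub_eq_zero] at h1
    exact h1
  have k1 := key φ (fun b => LinearMap.congr_fun hφ b)
  have k2 := key (minors F.d2) (fun b => minors_comp F.d2 b)
  obtain ⟨a₁, a₂, hp⟩ := minors_pair F
  obtain ⟨ρ, hρ⟩ := gen (fun v => minors F.d2 v) (fun v => φ v) _ _ hp (Ideal.subset_span ⟨a₁, rfl⟩)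
    (Ideal.subset_span ⟨a₂, rfl⟩) (fun v w => by
      have h1 : z * (z * (φ v * minors F.d2 w - φ w * minors F.d2 v)) = 0 := by
        calc z * (z * (φ v * minors F.d2 w - φ w * minors F.d2 v))
            = (z * φ v) * (z * minors F.d2 w) - (z * φ w) * (z * minors F.d2 v) := by ring
          _ = 0 := by rw [k1, k2, k1, k2]; ring
      exact sub_eq_zero.1 (hz _ (hz _ h1)))
  exact ⟨ρ, LinearMap.ext fun v => hρ v⟩

/-- CHUNK P4d (S).  Proof.  `l * Δ a₁ = 0` with `a₁` from `minors_pair`. -/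
theorem smul_minors [IsNoetherianRing S] (F : Res S I (k + 1) k 0) (l : S)
    (h : l • minors F.d2 = 0) : l = 0 := by
  obtain ⟨a₁, a₂, hp⟩ := minors_pair F
  apply hp.1
  rw [mul_comm]
  exact LinearMap.congr_fun h a₁

end Pool.Agent.H21V
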