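import Pool.Agent.Lib.H21V.DL

set_option autoImplicit false

open CategoryTheory IsLocalRing
open Pool.Agent.Lib.Helper92 Pool.Agent.Lib.H44V

namespace Pool.Agent.H21V
universe u


variable {S : Type u} [CommRing S] {I : Ideal S} {n1 n2 : ℕ}

theorem p7_fac {R M N P : Type*} [CommRing R] [AddCommGroup M] [AddCommGroup N] [AddCommGroup P]
    [Module R M] [Module R N] [Module R P] (D : M →ₗ[R] N) (hD : Function.Surjective D)
    (φ : M →ₗ[R] P) (h : ∀ m, D m = 0 → φ m = 0) : ∃ g : N →ₗ[R] P, ∀ m, g (D m) = φ m := by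
  refine ⟨(LinearMap.ker D).liftQ φ (fun m hm => h m hm) ∘ₗ
    (D.quotKerEquivOfSurjective hD).symm.toLinearMap, fun m => ?_⟩
  have e : (D.quotKerEquivOfSurjective hD).symm (D m) = (LinearMap.ker D).mkQ m := by
    rw [LinearEquiv.symm_apply_eq]
    rfl
  rw [LinearMap.comp_apply, LinearEquiv.coe_coe, e]
  rfl

theorem p7_lin {R M : Type*} [CommRing R] [AddCommGroup M] [Module R M] {n : ℕ}
    (f : (Fin n → R) →ₗ[R] M) (c : Fin n → R) : f c = ∑ i, c i • f (Pi.single i 1) := by
  conv_lhs => rw [← Finset.univ_sum_single c]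
  rw [map_sum]
  refine Finset.sum_congr rfl fun i _ => ?_
  have e : (Pi.single i (c i) : Fin n → R) = c i • Pi.single i 1 := by
    rw [← Pi.single_smul, smul_eq_mul, mul_one]
  rw [e, map_smul]

theorem p7_lc {R M : Type*} [CommRing R] [AddCommGroup M] [Module R M] {n : ℕ}
    (v : Fin n → M) (i : Fin n) : Fintype.linearCombination R v (Pi.single i 1) = v i := by
  rw [Fintype.linearCombination_apply, Finset.sum_eq_single i]
  · rw [Pi.single_eq_same, one_smul]
  · intro j _ hj
    rw [Pi.single_eq_of_ne hj, zero_smul]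
  · intro h
    exact absurd (Finset.mem_univ i) h

/-- the transposed matrix of `d2` over `S ⧸ I`: `v ↦ (∑ i, v i * mk (d2 e_j i))_j`. -/
noncomputable def tr (F : Res S I n1 n2 0) :
    (Fin n1 → S ⧸ I) →ₗ[S ⧸ I] (Fin n2 → S ⧸ I) :=
  Matrix.toLin' (Matrix.of fun (j : Fin n2) (i : Fin n1) =>
    Ideal.Quotient.mk I (F.d2 (Pi.single j 1) i))

/-- CHUNK P7a (S/M). -/
theorem tr_apply (F : Res S I n1 n2 0) (v : Fin n1 → S ⧸ I) (j : Fin n2) :
    tr F v j = ∑ i, v i * Ideal.Quotient.mk I (F.d2 (Pi.single j 1) i) := by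
  rw [tr, Matrix.toLin'_apply, Matrix.mulVec, dotProduct]
  exact Finset.sum_congr rfl fun i _ => by rw [Matrix.of_apply, mul_comm]

theorem p7_nco (F : Res S I n1 n2 0) (n : NM I) (a : Fin n1 → S) :
    n (F.co a) = ∑ i, Ideal.Quotient.mk I (a i) * n (F.co (Pi.single i 1)) := by
  have h1 := p7_lin (toHom n ∘ₗ F.d1.codRestrict I (fun a => F.hr.le ⟨a, rfl⟩)) a
  refine h1.trans (Finset.sum_congr rfl fun i _ => ?_)
  rw [Algebra.smul_def]
  rfl

/-- CHUNK P7b (M).  The normal module is the kernel of `tr F`.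
Proof.  `c i := I.toCotangent ⟨F.d1 (Pi.single i 1), _⟩`; the `c i` generate `I.Cotangent` over `S ⧸ I`.
`ι n := fun i => n (c i)`, injective.  `tr F (ι n) j = ∑ i, n (c i) * mk (F.d2 e_j i) = n (∑ i, mk (F.d2 e_j i) • c i)
= n (class of F.d1 (F.d2 e_j)) = 0`.  Conversely `tr F v = 0`, `v = mk ∘ a`: the map `g : I → S ⧸ I`,
`g (F.d1 b) := mk (∑ i, a i * b i)` is well defined: `F.d1 b = F.d1 b'` gives `b - b' = F.d2 w` and
`∑ i, a i * (F.d2 w) i ∈ I` by `tr F v = 0` (`F.d2 w = ∑ j, w j • F.d2 e_j`); it is `S`-linear, so `toHom_surj` gives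
`n : NM I` with `toHom n = g`, and `ι n = v`. -/
theorem tr_exact (F : Res S I n1 n2 0) :
    ∃ ι : NM I →ₗ[S ⧸ I] (Fin n1 → S ⧸ I), Function.Injective ι ∧ Function.Exact ι (tr F) := by
  have hD : Function.Surjective (F.d1.codRestrict I (fun a => F.hr.le ⟨a, rfl⟩)) := by
    rintro ⟨y, hy⟩
    obtain ⟨a, ha⟩ := F.hr.ge hy
    exact ⟨a, Subtype.ext ha⟩
  let ι : NM I →ₗ[S ⧸ I] (Fin n1 → S ⧸ I) :=
    { toFun := fun n i => n (F.co (Pi.single i 1))
      map_add' := fun _ _ => rfl
      map_smul' := fun _ _ => rfl }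
  have hι : ∀ n i, ι n i = n (F.co (Pi.single i 1)) := fun _ _ => rfl
  refine ⟨ι, ?_, ?_⟩
  · rw [injective_iff_map_eq_zero]
    intro n hn
    refine LinearMap.ext fun y => ?_
    obtain ⟨z, rfl⟩ := I.toCotangent_surjective y
    obtain ⟨a, rfl⟩ := hD z
    refine (p7_nco F n a).trans ?_
    refine Finset.sum_eq_zero fun i _ => ?_
    have h1 : n (F.co (Pi.single i 1)) = 0 := congrFun hn i
    rw [h1, mul_zero]
  · intro v
    constructor
    · intro hv
      obtain ⟨g, hg⟩ := p7_fac (F.d1.codRestrict I (fun a => F.hr.le ⟨a, rfl⟩)) hD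
        (Fintype.linearCombination S v) (by
          intro b hb
          have hb' : F.d1 b = 0 := congrArg Subtype.val hb
          obtain ⟨w, rfl⟩ := F.e1 b hb'
          have h1 := p7_lin ((Fintype.linearCombination S v : (Fin n1 → S) →ₗ[S] (S ⧸ I)) ∘ₗ F.d2) w
          refine h1.trans (Finset.sum_eq_zero fun j _ => ?_)
          have h2 := congrFun hv j
          rw [tr_apply] at h2
          have h3 : ((Fintype.linearCombination S v : (Fin n1 → S) →ₗ[S] (S ⧸ I)) ∘ₗ F.d2) (Pi.single j 1) = 0 := by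
            rw [LinearMap.comp_apply, Fintype.linearCombination_apply]
            refine Eq.trans ?_ h2
            refine Finset.sum_congr rfl fun i _ => ?_
            rw [Algebra.smul_def, mul_comm]
            rfl
          rw [h3, smul_zero])
      obtain ⟨n, hn⟩ := toHom_surj g
      refine ⟨n, funext fun i => ?_⟩
      have h1 := hg (Pi.single i 1)
      rw [p7_lc, ← hn] at h1
      exact h1
    · rintro ⟨n, rfl⟩
      funext j
      rw [tr_apply]
      have h1 := p7_nco F n (F.d2 (Pi.single j 1))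
      have h2 : F.co (F.d2 (Pi.single j 1)) = 0 := by
        have h3 : (F.d1.codRestrict I (fun a => F.hr.le ⟨a, rfl⟩)) (F.d2 (Pi.single j 1)) = 0 :=
          Subtype.ext (F.z1 _)
        change I.toCotangent ((F.d1.codRestrict I (fun a => F.hr.le ⟨a, rfl⟩)) (F.d2 (Pi.single j 1))) = 0
        rw [h3, map_zero]
      rw [h2, map_zero] at h1
      refine Eq.trans ?_ h1.symm
      refine Finset.sum_congr rfl fun i _ => ?_
      rw [hι, mul_comm]

/-- CHUNK P7c (M).  The cokernel over `S` and over `S ⧸ I`.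
Proof.  Define `σ : ((Fin n2 → S) →ₗ[S] S) →ₗ[S] ((Fin n2 → S ⧸ I) ⧸ LinearMap.range (tr F))`,
`σ ψ := mkQ (fun j => mk (ψ (Pi.single j 1)))` (an `S`-linear map; the target is an `S`-module through `S ⧸ I`).  It is
surjective.  Kernel: `ψ = φ ∘ F.d2` gives `ψ e_j = ∑ i, φ e_i * (F.d2 e_j) i`, so `σ ψ = mkQ (tr F (mk ∘ φ e_i)) = 0`.
Conversely `σ ψ = 0`: there is `φ` with `ψ e_j - φ (F.d2 e_j) ∈ I` for all `j`; so it is enough to show that every
`z • proj j` with `z ∈ I` is in the range of `F.d2.dualMap`.  `z = F.d1 e`; for every `i` there is `h i` with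
`F.d2 (h i) = z • e_i - F.d1 e_i • e` (`F.e1`, `F.d1` of the right side is 0), so a linear map `h` with
`F.d2 (h a) = z • a - F.d1 a • e`; `F.d2 (h (F.d2 b)) = z • F.d2 b` (`F.z1`), `F.d2` injective (`F.e2`, `n3 = 0`):
`h (F.d2 b) = z • b`, so `z • ψ' = (ψ' ∘ h) ∘ F.d2` for every `ψ'`.  Hence the kernel of `σ` is `range F.d2.dualMap`;
`Submodule.quotEquivOfEq` and `LinearMap.quotKerEquivOfSurjective`. -/
theorem tr_coker (F : Res S I n1 n2 0) :
    Nonempty ((((Fin n2 → S) →ₗ[S] S) ⧸ LinearMap.range F.d2.dualMap) ≃ₗ[S]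
      ((Fin n2 → S ⧸ I) ⧸ LinearMap.range (tr F))) := by
  let σ : ((Fin n2 → S) →ₗ[S] S) →ₗ[S] ((Fin n2 → S ⧸ I) ⧸ LinearMap.range (tr F)) :=
    { toFun := fun ψ => (LinearMap.range (tr F)).mkQ (fun j => Ideal.Quotient.mk I (ψ (Pi.single j 1)))
      map_add' := fun _ _ => rfl
      map_smul' := fun _ _ => rfl }
  have hσ0 : ∀ ψ, σ ψ = 0 ↔ (fun j => Ideal.Quotient.mk I (ψ (Pi.single j 1))) ∈ LinearMap.range (tr F) :=
    fun ψ => Submodule.Quotient.mk_eq_zero _
  have hσ : Function.Surjective σ := by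
    intro y
    obtain ⟨v, rfl⟩ := Submodule.mkQ_surjective _ y
    choose a ha using fun j => Ideal.Quotient.mk_surjective (v j)
    refine ⟨Fintype.linearCombination S a, ?_⟩
    change (LinearMap.range (tr F)).mkQ (fun j => Ideal.Quotient.mk I
      (Fintype.linearCombination S a (Pi.single j 1))) = _
    congr 1
    funext j
    rw [p7_lc, ha]
  have hz : ∀ z ∈ I, ∀ χ : (Fin n2 → S) →ₗ[S] S, z • χ ∈ LinearMap.range F.d2.dualMap := by
    intro z hz χ
    obtain ⟨e, rfl⟩ := F.hr.ge hz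
    have h1 : ∀ i : Fin n1, ∃ b, F.d2 b = F.d1 e • (Pi.single i 1 : Fin n1 → S) -
        F.d1 (Pi.single i 1) • e := by
      intro i
      refine F.e1 _ ?_
      rw [map_sub, map_smul, map_smul, smul_eq_mul, smul_eq_mul]
      ring
    choose h hh using h1
    have h2 : ∀ a, F.d2 (Fintype.linearCombination S h a) = F.d1 e • a - F.d1 a • e := by
      intro a
      obtain ⟨ρ, hρ⟩ : ∃ ρ : (Fin n1 → S) →ₗ[S] (Fin n1 → S), ∀ a,
          ρ a = F.d2 (Fintype.linearCombination S h a) - (F.d1 e • a - F.d1 a • e) :=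
        ⟨F.d2 ∘ₗ (Fintype.linearCombination S h) - (F.d1 e • LinearMap.id - F.d1.smulRight e),
          fun a => rfl⟩
      have h3 := p7_lin ρ a
      rw [Finset.sum_eq_zero (fun i _ => by rw [hρ, p7_lc, hh, sub_self, smul_zero]), hρ] at h3
      exact sub_eq_zero.1 h3
    have h5 : ∀ b, Fintype.linearCombination S h (F.d2 b) = F.d1 e • b := by
      intro b
      have h6 : F.d2 (Fintype.linearCombination S h (F.d2 b) - F.d1 e • b) = 0 := by
        rw [map_sub, h2, F.z1, zero_smul, sub_zero, map_smul, sub_self]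
      obtain ⟨c, hc⟩ := F.e2 _ h6
      have h7 : c = 0 := funext fun i => i.elim0
      rw [h7, map_zero] at hc
      exact sub_eq_zero.1 hc.symm
    refine ⟨χ ∘ₗ (Fintype.linearCombination S h : (Fin n1 → S) →ₗ[S] (Fin n2 → S)), ?_⟩
    refine LinearMap.ext fun b => ?_
    change χ (Fintype.linearCombination S h (F.d2 b)) = F.d1 e • χ b
    rw [h5, map_smul]
  have hφ : ∀ (φ : (Fin n1 → S) →ₗ[S] S) (j : Fin n2), φ (F.d2 (Pi.single j 1)) =
      ∑ i, φ (Pi.single i 1) * F.d2 (Pi.single j 1) i := by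
    intro φ j
    rw [p7_lin φ (F.d2 (Pi.single j 1))]
    refine Finset.sum_congr rfl fun i _ => ?_
    rw [smul_eq_mul, mul_comm]
  have hker : LinearMap.ker σ = LinearMap.range F.d2.dualMap := by
    ext ψ
    rw [LinearMap.mem_ker, hσ0]
    constructor
    · rintro ⟨v, hv⟩
      choose a ha using fun i => Ideal.Quotient.mk_surjective (v i)
      have h1 : ∀ j, ψ (Pi.single j 1) - (Fintype.linearCombination S a) (F.d2 (Pi.single j 1)) ∈ I := by
        intro j
        rw [← Ideal.Quotient.eq]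
        have h2 := congrFun hv j
        rw [tr_apply] at h2
        rw [← h2, hφ, map_sum]
        refine Finset.sum_congr rfl fun i _ => ?_
        rw [map_mul, p7_lc, ha]
      have h3 : ψ = F.d2.dualMap (Fintype.linearCombination S a) +
          ∑ j, (ψ (Pi.single j 1) - (Fintype.linearCombination S a) (F.d2 (Pi.single j 1))) •
            (LinearMap.proj j : (Fin n2 → S) →ₗ[S] S) := by
        refine LinearMap.ext fun b => ?_
        rw [LinearMap.add_apply, LinearMap.sum_apply]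
        have h4 := p7_lin (ψ - F.d2.dualMap (Fintype.linearCombination S a)) b
        rw [LinearMap.sub_apply, sub_eq_iff_eq_add'] at h4
        rw [h4]
        congr 1
        refine Finset.sum_congr rfl fun j _ => ?_
        rw [LinearMap.smul_apply, LinearMap.proj_apply, smul_eq_mul, smul_eq_mul, mul_comm]
        rfl
      rw [h3]
      exact Submodule.add_mem _ ⟨_, rfl⟩ (Submodule.sum_mem _ fun j _ => hz _ (h1 j) _)
    · rintro ⟨φ, rfl⟩
      refine ⟨fun i => Ideal.Quotient.mk I (φ (Pi.single i 1)), ?_⟩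
      funext j
      rw [tr_apply]
      change _ = Ideal.Quotient.mk I (φ (F.d2 (Pi.single j 1)))
      rw [hφ, map_sum]
      refine Finset.sum_congr rfl fun i _ => ?_
      rw [map_mul]
  exact ⟨(Submodule.quotEquivOfEq _ _ hker.symm).trans (σ.quotKerEquivOfSurjective hσ)⟩

end Pool.Agent.H21V
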