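import Pool.Agent.Lib.H21V.DL
import Pool.Agent.Lib.H44V.F4

set_option autoImplicit false

open CategoryTheory IsLocalRing
open Pool.Agent.Lib.Helper92 Pool.Agent.Lib.H44V

namespace Pool.Agent.H21V
universe u


variable {S : Type u} [CommRing S]

lemma z1_reg [IsNoetherianRing S] [IsLocalRing S] (M : Type u) [AddCommGroup M] [Module S M]
    [Module.Finite S M] (h : Dp (ModuleCat.of S M) 1) :
    ∃ y ∈ maximalIdeal S, ∀ v : M, y • v = 0 → v = 0 := by
  by_contra hcon
  push Not at hcon
  have hsub : (maximalIdeal S : Set S) ⊆ ⋃ p ∈ associatedPrimes S M, (p : Set S) := by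
    rw [biUnion_associatedPrimes_eq_compl_regular]
    intro y hy hreg
    obtain ⟨v, hv, hv0⟩ := hcon y hy
    exact hv0 (hreg (by
      change y • v = y • 0
      rw [hv, smul_zero]))
  rw [Ideal.subset_union_prime_finite (associatedPrimes.finite S M)
    (⊥ : Ideal S) ⊥ (fun p hp _ _ => IsAssociatedPrime.isPrime hp)] at hsub
  obtain ⟨p, hp, hle⟩ := hsub
  have hass := isAssociatedPrime_iff.mp (AssociatedPrimes.mem_iff.mp hp)
  obtain ⟨-, z, hz⟩ := hass
  have hmem : ∀ a : S, a ∈ p ↔ a • z = 0 := by
    intro a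
    rw [hz, Submodule.mem_colon_singleton, Submodule.mem_bot]
  have hz0 : z = 0 := F4_hom h z fun a ha => (hmem a).mp (hle ha)
  have h1 : (1 : S) ∈ p := (hmem 1).mpr (by rw [hz0, smul_zero])
  exact hp.isPrime.ne_top ((Ideal.eq_top_iff_one _).mpr h1)

/-- prepend an element. -/
def z1_cons (y : S) (x' : ℕ → S) : ℕ → S
  | 0 => y
  | (j + 1) => x' j

lemma z1_Jx (y : S) (x' : ℕ → S) (j : ℕ) :
    Jx (z1_cons y x') (j + 1) = Ideal.span {y} ⊔ Jx x' j := by
  induction j with
  | zero =>
    change ⊥ ⊔ Ideal.span {y} = Ideal.span {y} ⊔ ⊥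
    rw [sup_comm]
  | succ j ih =>
    change Jx (z1_cons y x') (j + 1) ⊔ Ideal.span {x' j} = Ideal.span {y} ⊔ (Jx x' j ⊔ Ideal.span {x' j})
    rw [ih, sup_assoc]

/-- CHUNK Z1 (M).  A module of depth at least `t` has a regular sequence of length `t`.
Proof.  Induction on `t`; `t = 0`: `x := 0`.  Step `t + 1`:
(1) there is `y ∈ m` with `y • v = 0 → v = 0` on `M`: the proof of `Helper92.regular_or_socle` (Helper92/DepthTwo), for `M`:
otherwise `m ⊆ ⋃ associatedPrimes` (`biUnion_associatedPrimes_eq_compl_regular`), so `m` is associated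
(`Ideal.subset_union_prime_finite`, `associatedPrimes.finite`), there is `w ≠ 0` with `m w = 0`, contradiction to `F4_hom`.
(2) `M' := M ⧸ LinearMap.range (LinearMap.lsmul S M y)`; `F4_coker` for `0 → M → M → M' → 0` gives `Dp M' t`; the induction
hypothesis gives `x'`.
(3) `x 0 := y`, `x (j + 1) := x' j`; `Jx x (j + 1) = span {y} ⊔ Jx x' j` (induction on `j`).  `WReg M x (t + 1)`: `j = 0`:
`Jx x 0 • ⊤ = ⊥`.  `j + 1`: `x' j • v ∈ Jx x (j+1) • ⊤`; apply `mkQ : M → M'` (`Submodule.map_smul''`, `y` is zero on `M'`, so the image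
of `Jx x (j+1) • ⊤` is `Jx x' j • ⊤`): the class of `v` is in `Jx x' j • ⊤ = map mkQ (Jx x' j • ⊤)`, so
`v ∈ Jx x' j • ⊤ ⊔ range (y •) ≤ Jx x (j + 1) • ⊤`. -/
theorem exists_wreg [IsNoetherianRing S] [IsLocalRing S] (t : ℕ) :
    ∀ (M : Type u) [AddCommGroup M] [Module S M] [Module.Finite S M]
      (_ : Dp (ModuleCat.of S M) t), ∃ x : ℕ → S, (∀ j, x j ∈ maximalIdeal S) ∧ WReg M x t := by
  induction t with
  | zero =>
    intro M _ _ _ _
    exact ⟨fun _ => 0, fun _ => zero_mem _, fun j hj => absurd hj (Nat.not_lt_zero j)⟩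
  | succ t ih =>
    intro M _ _ _ hM
    obtain ⟨y, hy, hreg⟩ := z1_reg M (fun j hj => hM j (by omega))
    have hinj : Function.Injective (LinearMap.lsmul S M y) := by
      rw [injective_iff_map_eq_zero]
      intro a ha
      exact hreg a ha
    have hex : Function.Exact (LinearMap.lsmul S M y)
        (LinearMap.range (LinearMap.lsmul S M y)).mkQ := by
      intro a
      rw [Submodule.mkQ_apply, Submodule.Quotient.mk_eq_zero]
      exact Iff.rfl
    have hM' : Dp (ModuleCat.of S (M ⧸ LinearMap.range (LinearMap.lsmul S M y))) t :=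
      F4_coker S (LinearMap.lsmul S M y) (LinearMap.range (LinearMap.lsmul S M y)).mkQ hinj
        (Submodule.mkQ_surjective _) hex t (fun j hj => hM j (by omega)) hM
    obtain ⟨x', hx', hw⟩ := ih _ hM'
    refine ⟨z1_cons y x', ?_, ?_⟩
    · intro j
      cases j with
      | zero => exact hy
      | succ j => exact hx' j
    · intro j hj v hv
      cases j with
      | zero =>
        change y • v ∈ (⊥ : Ideal S) • (⊤ : Submodule S M) at hv
        change v ∈ (⊥ : Ideal S) • (⊤ : Submodule S M)
        rw [Submodule.bot_smul, Submodule.mem_bot] at hv ⊢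
        exact hreg v hv
      | succ j =>
        have hj' : j < t := by omega
        change x' j • v ∈ _ at hv
        rw [z1_Jx] at hv ⊢
        -- `y` kills the quotient
        have hy0 : (Ideal.span {y} : Ideal S) •
            (⊤ : Submodule S (M ⧸ LinearMap.range (LinearMap.lsmul S M y))) = ⊥ := by
          rw [eq_bot_iff, Submodule.ideal_span_singleton_smul]
          intro a ha
          obtain ⟨b, -, rfl⟩ := (Submodule.mem_smul_pointwise_iff_exists _ _ _).mp ha
          obtain ⟨c, rfl⟩ := Submodule.Quotient.mk_surjective _ b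
          rw [Submodule.mem_bot, ← Submodule.Quotient.mk_smul, Submodule.Quotient.mk_eq_zero]
          exact ⟨c, rfl⟩
        have hmap : ((Ideal.span {y} ⊔ Jx x' j) • (⊤ : Submodule S M)).map
            (LinearMap.range (LinearMap.lsmul S M y)).mkQ = Jx x' j •
            (⊤ : Submodule S (M ⧸ LinearMap.range (LinearMap.lsmul S M y))) := by
          rw [Submodule.map_smul'', Submodule.map_top, Submodule.range_mkQ, Submodule.sup_smul,
            hy0, bot_sup_eq]
        have h1 : x' j • (LinearMap.range (LinearMap.lsmul S M y)).mkQ v ∈ Jx x' j •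
            (⊤ : Submodule S (M ⧸ LinearMap.range (LinearMap.lsmul S M y))) := by
          rw [← hmap, ← map_smul]
          exact Submodule.mem_map_of_mem hv
        have h2 := hw j hj' _ h1
        rw [← hmap] at h2
        obtain ⟨w, hw1, hw2⟩ := h2
        have h3 : v - w ∈ LinearMap.range (LinearMap.lsmul S M y) := by
          rw [← Submodule.Quotient.mk_eq_zero, Submodule.Quotient.mk_sub]
          exact sub_eq_zero.mpr hw2.symm
        obtain ⟨c, hc⟩ := h3
        have h4 : v = w + y • c := by
          have : y • c = v - w := hc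
          rw [this]
          abel
        rw [h4]
        refine add_mem hw1 (Submodule.smul_mem_smul ?_ trivial)
        exact Ideal.mem_sup_left (Ideal.mem_span_singleton_self y)

end Pool.Agent.H21V
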