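import Pool.Agent.Lib.H21V.DL
import Pool.Agent.Lib.H44V.F4

set_option autoImplicit false

open CategoryTheory IsLocalRing
open Pool.Agent.Lib.Helper92 Pool.Agent.Lib.H44V

namespace Pool.Agent.H21V
universe u


variable {S : Type u} [CommRing S]

open CategoryTheory.Abelian in
/-- CHUNK Z2a (S/M).  Depth of a kernel.
Proof.  The short exact complex as in `F4_coker` (or `H44V.K1_sc`).  Let `v : Ext (Qt m) K j`, `j < d`.  Its image in
`Ext (Qt m) G j` is 0.  `j = 0`: `K → G` is a monomorphism (`Ext.mk₀`, `Ext.covariant_sequence_exact₁` is not needed: every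
`v` is `Ext.mk₀ φ`, `φ ≫ f = 0`).  `j = i + 1`: `Ext.covariant_sequence_exact₁` gives `v = w.comp extClass` with
`w : Ext (Qt m) Y i`, which is 0 by `hY`. -/
theorem dp_ker [IsLocalRing S] {K G Y : Type u} [AddCommGroup K] [Module S K] [AddCommGroup G]
    [Module S G] [AddCommGroup Y] [Module S Y] (f : K →ₗ[S] G) (g : G →ₗ[S] Y)
    (hf : Function.Injective f) (hg : Function.Surjective g) (hfg : Function.Exact f g) (d : ℕ)
    (hG : Dp (ModuleCat.of S G) d) (hY : Dp (ModuleCat.of S Y) d) :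
    Dp (ModuleCat.of S K) d := by
  intro j hj
  have hS := K1_sc_exact f g hf hg hfg
  refine ⟨fun x y => ?_⟩
  rw [← sub_eq_zero]
  generalize x - y = v
  have hv : v.comp (Ext.mk₀ (ModuleCat.ofHom f)) (add_zero j) = 0 :=
    @Subsingleton.elim _ (hG j hj) _ _
  rcases j with _ | i
  · obtain ⟨φ, rfl⟩ := (Ext.mk₀_bijective _ _).2 v
    rw [Ext.mk₀_comp_mk₀] at hv
    have h1 : φ ≫ ModuleCat.ofHom f = 0 := (Ext.mk₀_bijective _ _).1 (by rw [hv, Ext.mk₀_zero])
    have : Mono (ModuleCat.ofHom f) := (ModuleCat.mono_iff_injective _).2 hf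
    rw [Limits.zero_of_comp_mono _ h1, Ext.mk₀_zero]
  · obtain ⟨w, hw⟩ := Ext.covariant_sequence_exact₁ _ hS v hv rfl
    have hw0 : w = 0 := @Subsingleton.elim _ (hY i (by omega)) w 0
    rw [← hw, hw0, Ext.zero_comp]
    rfl

/-- CHUNK Z2b (S/M).  Proof.  `0 → I.Cotangent → S ⧸ I ^ 2 → S ⧸ I → 0`: `Ideal.cotangentToQuotientSquare` (injective:
`Ideal.cotangentToQuotientSquare`, `Ideal.to_quotient_square_range`; the image of the class of `y` is `mk y`, zero iff
`y ∈ I ^ 2`) and `Submodule.factor` / `Submodule.mapQ`; `dp_ker`. -/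
theorem dp_cot [IsLocalRing S] {I : Ideal S} (t : ℕ) (h2 : Dp (Qt (I ^ 2)) t)
    (h1 : Dp (Qt I) t) : Dp (ModuleCat.of S I.Cotangent) t := by
  refine dp_ker (G := S ⧸ I ^ 2) (Y := S ⧸ I) I.cotangentToQuotientSquare
    (Submodule.factor (Ideal.pow_le_self two_ne_zero))
    I.cotangentToQuotientSquare_injective (Submodule.factor_surjective _) ?_ t h2 h1
  intro x
  obtain ⟨a, rfl⟩ := Submodule.Quotient.mk_surjective _ x
  constructor
  · intro h
    have ha : a ∈ I := by
      have h3 : (Submodule.Quotient.mk a : S ⧸ I) = 0 := h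
      exact (Submodule.Quotient.mk_eq_zero I).1 h3
    exact ⟨I.toCotangent ⟨a, ha⟩, rfl⟩
  · rintro ⟨y, hy⟩
    obtain ⟨⟨b, hb⟩, rfl⟩ := I.toCotangent_surjective y
    rw [← hy]
    change (Submodule.Quotient.mk b : S ⧸ I) = 0
    exact (Submodule.Quotient.mk_eq_zero I).2 hb

end Pool.Agent.H21V
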