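import Pool.Agent.Lib.H21V.DL

set_option autoImplicit false

open CategoryTheory IsLocalRing
open Pool.Agent.Lib.Helper92 Pool.Agent.Lib.H44V

namespace Pool.Agent.H21V
universe u


variable {S : Type u} [CommRing S]

/-- Auxiliary: the elements of the product with the ideals are the same over `S` and over `S ⧸ I`. -/
theorem zt_iff {I : Ideal S} (M : Type u) [AddCommGroup M] [Module S M] [Module (S ⧸ I) M]
    [IsScalarTower S (S ⧸ I) M] (x : ℕ → S) (j : ℕ) : ∀ v : M,
    v ∈ Jx (fun i => Ideal.Quotient.mk I (x i)) j • (⊤ : Submodule (S ⧸ I) M) ↔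
      v ∈ Jx x j • (⊤ : Submodule S M) := by
  have hs : ∀ (a : S) (v : M), Ideal.Quotient.mk I a • v = a • v := fun a v =>
    algebraMap_smul (S ⧸ I) a v
  induction j with
  | zero =>
    intro v
    have h1 : Jx (fun i => Ideal.Quotient.mk I (x i)) 0 = ⊥ := rfl
    have h2 : Jx x 0 = ⊥ := rfl
    rw [h1, h2, Submodule.bot_smul, Submodule.bot_smul, Submodule.mem_bot, Submodule.mem_bot]
  | succ j ih =>
    intro v
    rw [mem_step_smul, mem_step_smul]
    constructor
    · rintro ⟨a, ha, g, -, rfl⟩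
      exact ⟨a, (ih a).1 ha, g, Submodule.mem_top, by rw [hs]⟩
    · rintro ⟨a, ha, g, -, rfl⟩
      exact ⟨a, (ih a).2 ha, g, Submodule.mem_top, by rw [hs]⟩

/-- Auxiliary: products. -/
theorem zt_prod (M M' : Type u) [AddCommGroup M] [Module S M] [AddCommGroup M'] [Module S M']
    (x : ℕ → S) (j : ℕ) : ∀ (v : M) (w : M'), (v, w) ∈ Jx x j • (⊤ : Submodule S (M × M')) ↔
      v ∈ Jx x j • (⊤ : Submodule S M) ∧ w ∈ Jx x j • (⊤ : Submodule S M') := by
  induction j with
  | zero =>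
    intro v w
    have h2 : Jx x 0 = ⊥ := rfl
    rw [h2, Submodule.bot_smul, Submodule.bot_smul, Submodule.bot_smul, Submodule.mem_bot,
      Submodule.mem_bot, Submodule.mem_bot, Prod.mk_eq_zero]
  | succ j ih =>
    intro v w
    rw [mem_step_smul, mem_step_smul, mem_step_smul]
    constructor
    · rintro ⟨⟨a, a'⟩, ha, ⟨g, g'⟩, -, h⟩
      have h1 := (ih a a').1 ha
      have h2 : v = a + x j • g := congrArg Prod.fst h
      have h3 : w = a' + x j • g' := congrArg Prod.snd h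
      exact ⟨⟨a, h1.1, g, Submodule.mem_top, h2⟩, ⟨a', h1.2, g', Submodule.mem_top, h3⟩⟩
    · rintro ⟨⟨a, ha, g, -, h2⟩, ⟨a', ha', g', -, h3⟩⟩
      refine ⟨(a, a'), (ih a a').2 ⟨ha, ha'⟩, (g, g'), Submodule.mem_top, ?_⟩
      rw [h2, h3]
      rfl

/- CHUNK ZT (S/M, three lemmas).  Weakly regular sequences: change of ring, products. -/

/-- Proof.  `(Jx (mk ∘ x) j) • ⊤` and `(Jx x j) • ⊤` have the same elements: `Jx (mk ∘ x) j = (Jx x j).map mk` (induction, or
`Pool.Agent.Lib.H44V.F3_Jx_map`), and both are spanned by the `a • v`, `a ∈ Jx x j` (`Submodule.smul_induction_on`,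
`mk a • v = a • v`). -/
theorem wreg_quot {I : Ideal S} (M : Type u) [AddCommGroup M] [Module S M] [Module (S ⧸ I) M]
    [IsScalarTower S (S ⧸ I) M] (x : ℕ → S) (k : ℕ) (h : WReg M x k) :
    WReg (R := S ⧸ I) M (fun i => Ideal.Quotient.mk I (x i)) k := by
  intro j hj m hm
  have h1 : Ideal.Quotient.mk I (x j) • m = x j • m := algebraMap_smul (S ⧸ I) (x j) m
  rw [h1, zt_iff] at hm
  rw [zt_iff]
  exact h j hj m hm

/-- Proof.  `(v, w) ∈ J • ⊤` iff `v ∈ J • ⊤` and `w ∈ J • ⊤` (apply `LinearMap.fst`, `LinearMap.inl`, ... and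
`Submodule.map_smul''`).  Apply `h` to `(v, 0)` and `(0, w)`. -/
theorem wreg_prod (M M' : Type u) [AddCommGroup M] [Module S M] [AddCommGroup M'] [Module S M']
    (x : ℕ → S) (k : ℕ) (h : WReg (M × M') x k) : WReg M x k ∧ WReg M' x k := by
  refine ⟨fun j hj m hm => ?_, fun j hj m hm => ?_⟩
  · have h1 : x j • ((m, 0) : M × M') ∈ Jx x j • (⊤ : Submodule S (M × M')) := by
      rw [Prod.smul_mk, smul_zero]
      exact (zt_prod M M' x j _ _).2 ⟨hm, Submodule.zero_mem _⟩
    exact ((zt_prod M M' x j _ _).1 (h j hj _ h1)).1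
  · have h1 : x j • ((0, m) : M × M') ∈ Jx x j • (⊤ : Submodule S (M × M')) := by
      rw [Prod.smul_mk, smul_zero]
      exact (zt_prod M M' x j _ _).2 ⟨Submodule.zero_mem _, hm⟩
    exact ((zt_prod M M' x j _ _).1 (h j hj _ h1)).2

/-- Proof.  `Jx x j • (⊤ : Submodule S S) = Jx x j`; `Pool.Agent.Lib.H44V.R1_reg_iff` (or unfold `IsSMulRegular`). -/
theorem wreg_ring (x : ℕ → S) (k : ℕ) (h : WReg S x k) :
    ∀ j < k, IsSMulRegular (S ⧸ Jx x j) (x j) := by
  intro j hj
  have h0 : Jx x j • (⊤ : Submodule S S) = Jx x j := by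
    rw [smul_eq_mul]
    exact Ideal.mul_top _
  have h1 := h j hj
  rw [h0] at h1
  rw [isSMulRegular_iff_right_eq_zero_of_smul]
  intro z hz
  obtain ⟨a, rfl⟩ := Ideal.Quotient.mk_surjective z
  have h2 : Ideal.Quotient.mk (Jx x j) (x j * a) = 0 := hz
  rw [Ideal.Quotient.eq_zero_iff_mem] at h2 ⊢
  exact h1 a h2

end Pool.Agent.H21V
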