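import Pool.Agent.Lib.H21V.Z1
import Pool.Agent.Lib.H21V.ZT

set_option autoImplicit false

open CategoryTheory IsLocalRing
open Pool.Agent.Lib.Helper92 Pool.Agent.Lib.H44V

namespace Pool.Agent.H21V
universe u


variable {S : Type u} [CommRing S]

theorem z3_mem [IsLocalRing S] {I : Ideal S} (hI : I ≠ ⊤) [IsLocalRing (S ⧸ I)] {x : S}
    (hx : x ∈ maximalIdeal S) : Ideal.Quotient.mk I x ∈ maximalIdeal (S ⧸ I) := by
  rw [IsLocalRing.mem_maximalIdeal, mem_nonunits_iff]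
  intro hu
  obtain ⟨y, hy⟩ := hu.exists_right_inv
  obtain ⟨s, rfl⟩ := Ideal.Quotient.mk_surjective y
  rw [← map_mul, ← map_one (Ideal.Quotient.mk I), Ideal.Quotient.mk_eq_mk_iff_sub_mem] at hy
  have h1 := IsLocalRing.le_maximalIdeal hI hy
  have h2 : x * s ∈ maximalIdeal S := Ideal.mul_mem_right _ _ hx
  have h3 : (1 : S) ∈ maximalIdeal S := by
    have h4 := (maximalIdeal S).sub_mem h2 h1
    rwa [sub_sub_cancel] at h4
  exact (maximalIdeal.isMaximal S).ne_top ((Ideal.eq_top_iff_one _).2 h3)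

/-- CHUNK Z3a (S/M).  The depth is finite.
Proof.  `Dp (Qt I) 0` is trivial.  If the claim is false then `Dp (Qt I) t` for all `t` (induction).  `R := S ⧸ I` is a
Noetherian local ring (`Ideal.Quotient.nontrivial_iff`, `IsLocalRing.of_surjective'`) of finite dimension; take
`d : ℕ` with `ringKrullDim R < d`.  `exists_wreg d (S ⧸ I)` and `wreg_quot`, `wreg_ring` (over `R`) give a sequence `y` in
the maximal ideal of `R`, regular of length `d`; `isRegular_list y d` (`Jx y d ≤ maximalIdeal R`, so `≠ ⊤`) and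
`ringKrullDim_add_length_eq_ringKrullDim_of_isRegular` give `d ≤ ringKrullDim R` (the dimension of the quotient is
`≥ 0`), contradiction. -/
theorem exists_depth [IsNoetherianRing S] [IsLocalRing S] {I : Ideal S} (hI : I ≠ ⊤) :
    ∃ t, Dp (Qt I) t ∧ ¬ Dp (Qt I) (t + 1) := by
  by_contra hcon
  push Not at hcon
  have hall : ∀ t, Dp (Qt I) t := by
    intro t
    induction t with
    | zero => intro j hj; omega
    | succ t ih => exact hcon t ih
  have hnt : Nontrivial (S ⧸ I) := Ideal.Quotient.nontrivial_iff.mpr hI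
  have hloc : IsLocalRing (S ⧸ I) := IsLocalRing.of_surjective' _ Ideal.Quotient.mk_surjective
  obtain ⟨n, hn⟩ : ∃ n : ℕ, ringKrullDim (S ⧸ I) = n := by
    have h1 : ringKrullDim (S ⧸ I) ≠ ⊤ := ringKrullDim_ne_top
    have h2 : ringKrullDim (S ⧸ I) ≠ ⊥ := ringKrullDim_ne_bot
    obtain ⟨m, hm⟩ := WithBot.ne_bot_iff_exists.1 h2
    rw [← hm] at h1
    have h3 : m ≠ ⊤ := fun h => h1 (by rw [h]; rfl)
    obtain ⟨n, hn⟩ := ENat.ne_top_iff_exists.1 h3
    refine ⟨n, ?_⟩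
    rw [← hm, ← hn]
    rfl
  obtain ⟨x, hx, hw⟩ := exists_wreg (n + 1) (S ⧸ I) (hall (n + 1))
  have hw2 := wreg_ring _ (n + 1) (wreg_quot (S ⧸ I) x (n + 1) hw)
  have htop : Jx (fun i => Ideal.Quotient.mk I (x i)) (n + 1) ≠ ⊤ := by
    intro h
    have h1 : Jx (fun i => Ideal.Quotient.mk I (x i)) (n + 1) ≤ maximalIdeal (S ⧸ I) :=
      Jx_le fun j _ => z3_mem hI (hx j)
    rw [h] at h1
    exact (maximalIdeal.isMaximal (S ⧸ I)).ne_top (top_le_iff.1 h1)
  have hreg := isRegular_list (fun i => Ideal.Quotient.mk I (x i)) (n + 1) hw2 htop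
  have h1 := ringKrullDim_add_length_eq_ringKrullDim_of_isRegular _ hreg
  have h2 : Nontrivial ((S ⧸ I) ⧸ Ideal.ofList ((List.range (n + 1)).map fun i => Ideal.Quotient.mk I (x i))) := by
    rw [ofList_range_map]
    exact Ideal.Quotient.nontrivial_iff.mpr htop
  have h3 : 0 ≤ ringKrullDim ((S ⧸ I) ⧸ Ideal.ofList ((List.range (n + 1)).map fun i => Ideal.Quotient.mk I (x i))) :=
    ringKrullDim_nonneg_of_nontrivial
  have h4 : ((List.range (n + 1)).map fun i => Ideal.Quotient.mk I (x i)).length = n + 1 := by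
    rw [List.length_map, List.length_range]
  rw [h4, hn] at h1
  have h5 : ((n + 1 : ℕ) : WithBot ℕ∞) ≤ n := by
    rw [← h1]
    exact le_add_of_nonneg_left h3
  have h6 : n + 1 ≤ n := by exact_mod_cast h5
  omega

/-- CHUNK Z3b (S).  Proof.  `exists_wreg 2 (S ⧸ I)` gives `x`; `y₁ := mk (x 0)`, `y₂ := mk (x 1)` lie in the maximal ideal of
`S ⧸ I` (`x j` is not a unit and `mk` is local, because `I ≤ m`); `wreg_quot` for `j = 0, 1` with `Jx _ 0 = ⊥`,
`Jx _ 1 = span {y₁}` (`Ideal.mem_span_singleton'`). -/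
theorem two_of_dp [IsNoetherianRing S] [IsLocalRing S] {I : Ideal S} (hI : I ≠ ⊤)
    [IsLocalRing (S ⧸ I)] (h : Dp (Qt I) 2) : Two (S ⧸ I) := by
  obtain ⟨x, hx, hw⟩ := exists_wreg 2 (S ⧸ I) h
  have hw2 := wreg_quot (I := I) (S ⧸ I) x 2 hw
  refine ⟨Ideal.Quotient.mk I (x 0), z3_mem hI (hx 0), Ideal.Quotient.mk I (x 1), z3_mem hI (hx 1), ?_, ?_⟩
  · intro a ha
    have h1 := hw2 0 (by norm_num) a
    have h2 : Jx (fun i => Ideal.Quotient.mk I (x i)) 0 • (⊤ : Submodule (S ⧸ I) (S ⧸ I)) = ⊥ :=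
      Submodule.bot_smul _
    rw [h2, Submodule.mem_bot, Submodule.mem_bot] at h1
    exact h1 ha
  · intro a b hab
    have h1 := hw2 1 (by norm_num) a
    have h2 : Jx (fun i => Ideal.Quotient.mk I (x i)) 1 • (⊤ : Submodule (S ⧸ I) (S ⧸ I)) =
        Ideal.span {Ideal.Quotient.mk I (x 0)} := by
      have h3 : Jx (fun i => Ideal.Quotient.mk I (x i)) 1 = Ideal.span {Ideal.Quotient.mk I (x 0)} := by
        show (⊥ : Ideal (S ⧸ I)) ⊔ Ideal.span {Ideal.Quotient.mk I (x 0)} = _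
        rw [bot_sup_eq]
      rw [h3, smul_eq_mul]
      exact Ideal.mul_top _
    rw [h2] at h1
    have h4 := h1 (by
      show Ideal.Quotient.mk I (x 1) * a ∈ _
      rw [hab]
      exact Ideal.mem_span_singleton'.2 ⟨b, mul_comm _ _⟩)
    obtain ⟨c, hc⟩ := Ideal.mem_span_singleton'.1 h4
    exact ⟨c, by rw [← hc, mul_comm]⟩

end Pool.Agent.H21V
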