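import Pool.Agent.Lib.H21V.DL
import Pool.Agent.Lib.H44V.F2

set_option autoImplicit false

open CategoryTheory IsLocalRing
open Pool.Agent.Lib.Helper92 Pool.Agent.Lib.H44V

namespace Pool.Agent.H21V
universe u


open scoped TensorProduct

/-- CHUNK Z6Aa (M).  Projective dimension and flat base change.
Proof.  Induction on `n` for all `Y`, as in `H44V.L1_fun` (H44V/L1).  `n = 0`: `Y` is zero (`hasProjectiveDimensionLT_zero_iff_isZero`,
`ModuleCat.isZero_iff_subsingleton`-like), so `R' ⊗ Y` is zero.  `n = 1`: `Y` is projective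
(`projective_iff_hasProjectiveDimensionLT_one`, `IsProjective.iff_projective`), so `R' ⊗ Y` is projective (instance
`Module.Projective` of a base change).  `n + 2`: `0 → K → G → Y → 0` with `G := Y →₀ R` free
(`LinearMap.shortExact_shortComplexKer`), `hasProjectiveDimensionLT_X₃_iff`; `H44V.F2_base` gives the exact sequence
`0 → R' ⊗ K → R' ⊗ G → R' ⊗ Y → 0`, and again `hasProjectiveDimensionLT_X₃_iff`. -/
theorem pd_tensor {R R' : Type u} [CommRing R] [CommRing R'] [Algebra R R'] [Module.Flat R R']
    (n : ℕ) : ∀ (Y : Type u) [AddCommGroup Y] [Module R Y]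
      (_ : HasProjectiveDimensionLT (ModuleCat.of R Y) n),
      HasProjectiveDimensionLT (ModuleCat.of R' (R' ⊗[R] Y)) n := by
  induction n with
  | zero =>
    intro Y _ _ h
    rw [hasProjectiveDimensionLT_zero_iff_isZero, ModuleCat.isZero_iff_subsingleton] at h ⊢
    have h' : Subsingleton Y := h
    change Subsingleton (R' ⊗[R] Y)
    infer_instance
  | succ n ih =>
    cases n with
    | zero =>
      intro Y _ _ h
      rw [zero_add, ← projective_iff_hasProjectiveDimensionLT_one] at h ⊢
      have h1 : Module.Projective R Y := (IsProjective.iff_projective (R := R) Y).2 h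
      have h2 : Module.Projective R' (R' ⊗[R] Y) := inferInstance
      exact (IsProjective.iff_projective (R := R') (R' ⊗[R] Y)).1 h2
    | succ n =>
      intro Y _ _ h
      let g : (Y →₀ R) →ₗ[R] Y := Finsupp.linearCombination R (id : Y → Y)
      have hg : Function.Surjective g := Finsupp.linearCombination_id_surjective R Y
      let f : LinearMap.ker g →ₗ[R] (Y →₀ R) := (LinearMap.ker g).subtype
      have hf : Function.Injective f := Subtype.val_injective
      have hfg : Function.Exact f g := LinearMap.exact_subtype_ker_map g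
      have hS := K1_sc_exact (X := (LinearMap.ker g : Submodule R (Y →₀ R))) (Y := (Y →₀ R)) (Z := Y) f g hf hg hfg
      have hp : Projective (ModuleCat.of R (Y →₀ R)) :=
        (IsProjective.iff_projective (R := R) (Y →₀ R)).1 inferInstance
      have h3 : HasProjectiveDimensionLT (ModuleCat.of R (LinearMap.ker g)) (n + 1) :=
        (hS.hasProjectiveDimensionLT_X₃_iff n hp).1 h
      have h4 := ih (LinearMap.ker g) h3
      obtain ⟨hfA, hgA, hfgA⟩ := F2_base (A := R') (K := (LinearMap.ker g : Submodule R (Y →₀ R))) (G := (Y →₀ R)) (Y := Y) f g hf hg hfg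
      have hS' := K1_sc_exact (f.baseChange R') (g.baseChange R') hfA hgA hfgA
      have hp' : Projective (ModuleCat.of R' (R' ⊗[R] (Y →₀ R))) :=
        (IsProjective.iff_projective (R := R') (R' ⊗[R] (Y →₀ R))).1 inferInstance
      exact (hS'.hasProjectiveDimensionLT_X₃_iff n hp').2 h4

/-- CHUNK Z6Ab (M).  Proof.  Make `Z` an `R`-module (`Module.compHom Z (algebraMap R R')`, then `IsScalarTower R R' Z`); `θ` is
then an `R`-linear map `θ' : Y →ₗ[R] Z` with `IsLocalizedModule T θ'`: `map_units`: the elements of `T` are units in `R'`;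
`surj`: `hs`; `exists_of_eq`: `hi` for the difference.  `IsLocalizedModule.isBaseChange T R' θ'` gives
`R' ⊗[R] Y ≃ₗ[R'] Z` (`IsBaseChange.equiv`); `Module.Flat R R'` from `IsLocalization.flat R' T`; `pd_tensor` and the
isomorphism (`hasProjectiveDimensionLT_of_iso`, `LinearEquiv.toModuleIso`). -/
theorem pd_base {R R' : Type u} [CommRing R] [CommRing R'] [Algebra R R'] (T : Submonoid R)
    [IsLocalization T R'] (n : ℕ) (Y : Type u) [AddCommGroup Y] [Module R Y]
    (h : HasProjectiveDimensionLT (ModuleCat.of R Y) n) (Z : Type u) [AddCommGroup Z]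
    [Module R' Z] (θ : Y →+ Z) (hθ : ∀ (r : R) (y : Y), θ (r • y) = algebraMap R R' r • θ y)
    (hs : ∀ z, ∃ t ∈ T, ∃ y, algebraMap R R' t • z = θ y)
    (hi : ∀ y, θ y = 0 → ∃ t ∈ T, t • y = 0) :
    HasProjectiveDimensionLT (ModuleCat.of R' Z) n := by
  letI : Module R Z := Module.compHom Z (algebraMap R R')
  haveI : IsScalarTower R R' Z := ⟨fun r s z => by
    change (r • s) • z = algebraMap R R' r • (s • z)
    rw [Algebra.smul_def, mul_smul]⟩
  let θ' : Y →ₗ[R] Z :=
    { toFun := θ
      map_add' := θ.map_add
      map_smul' := fun r y => hθ r y }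
  haveI : IsLocalizedModule T θ' :=
    { map_units := fun t => by
        rw [Module.End.isUnit_iff]
        have hu : IsUnit (algebraMap R R' (t : R)) := IsLocalization.map_units R' t
        obtain ⟨u, hu⟩ := hu
        constructor
        · intro a b hab
          have hab' : algebraMap R R' (t : R) • a = algebraMap R R' (t : R) • b := hab
          rw [← hu] at hab'
          have := congrArg (fun z => (↑u⁻¹ : R') • z) hab'
          simpa [smul_smul] using this
        · intro b
          refine ⟨(↑u⁻¹ : R') • b, ?_⟩
          change algebraMap R R' (t : R) • ((↑u⁻¹ : R') • b) = b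
          rw [← hu, smul_smul]
          simp
      surj := fun z => by
        obtain ⟨t, ht, y, hy⟩ := hs z
        exact ⟨(y, ⟨t, ht⟩), hy⟩
      exists_of_eq := fun {a b} hab => by
        have hab' : θ a = θ b := hab
        obtain ⟨t, ht, h0⟩ := hi (a - b) (by rw [map_sub, hab', sub_self])
        refine ⟨⟨t, ht⟩, ?_⟩
        change t • a = t • b
        rw [smul_sub, sub_eq_zero] at h0
        exact h0 }
  have hb := IsLocalizedModule.isBaseChange T R' θ'
  haveI : Module.Flat R R' := IsLocalization.flat R' T
  have h1 := pd_tensor (R' := R') n Y h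
  exact hasProjectiveDimensionLT_of_iso hb.equiv.toModuleIso n

end Pool.Agent.H21V
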